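import Mathlib
import Pool.Agent.Helper87.TR.Basic
import Pool.Agent.Helper87.TR.Defs2

/-!
# TR-27: the dimension of `Vw d m k`

A basis of `Vw d m k` is given by the monomials `X^α`, `∑ α_i = m`, `∑ i α_i = k` (there are finitely many such `α`); such `α`
correspond to multisets of size `m` of elements of `{0, ..., d}` with sum `k` (`α_i` = multiplicity of `i`), i.e. to monotone
functions `l : Fin m → {0, ..., d}` with sum `k` (`α_i = #{j : l j = i}`; the inverse is sorting), which are counted by `pb m d k`.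
-/

set_option autoImplicit false

open Finset

namespace Helper87.TR

/-- the exponents of the monomials of `Vw d m k` -/
def t27_S (d m k : ℕ) : Set (Fin (d + 1) →₀ ℕ) :=
  {a | ∑ i, a i = m ∧ ∑ i : Fin (d + 1), (i : ℕ) * a i = k}

lemma t27_Vw (d m k : ℕ) : Vw d m k = MvPolynomial.restrictSupport ℚ (t27_S d m k) := by
  ext f
  rw [MvPolynomial.mem_restrictSupport_iff]
  constructor
  · intro h a ha
    exact h a (MvPolynomial.mem_support_iff.1 ha)
  · intro h a ha
    exact h (MvPolynomial.mem_support_iff.2 ha)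

/-- the multiplicities of the values of a function -/
noncomputable def t27_f (d m : ℕ) (l : Fin m → ℕ) : Fin (d + 1) →₀ ℕ :=
  Finsupp.equivFunOnFinite.symm fun i => (univ.filter fun j => l j = (i : ℕ)).card

lemma t27_f_apply (d m : ℕ) (l : Fin m → ℕ) (i : Fin (d + 1)) :
    t27_f d m l i = (univ.filter fun j => l j = (i : ℕ)).card := rfl

lemma t27_sum (d m : ℕ) (l : Fin m → ℕ) (hl : ∀ j, l j ≤ d) (g : ℕ → ℕ) :
    ∑ i : Fin (d + 1), g i * t27_f d m l i = ∑ j, g (l j) := by
  classical
  simp_rw [t27_f_apply, card_filter, mul_sum]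
  rw [sum_comm]
  refine sum_congr rfl fun j _ => ?_
  rw [sum_eq_single (⟨l j, Nat.lt_succ_of_le (hl j)⟩ : Fin (d + 1))]
  · simp
  · intro i _ hi
    rw [if_neg, mul_zero]
    intro h
    exact hi (Fin.ext h.symm)
  · intro h
    exact absurd (mem_univ _) h

lemma t27_count (m : ℕ) (l : Fin m → ℕ) (x : ℕ) :
    (List.ofFn l).count x = (univ.filter fun j => l j = x).card := by
  classical
  rw [← Multiset.coe_count, ← Fin.univ_val_map, Multiset.count_map]
  rw [Finset.card_def, Finset.filter_val]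
  congr 1
  refine Multiset.filter_congr fun j _ => ?_
  exact eq_comm

lemma t27_inj (d m : ℕ) {l l' : Fin m → ℕ} (hl : Monotone l) (hl' : Monotone l')
    (h1 : ∀ j, l j ≤ d) (h1' : ∀ j, l' j ≤ d) (h : t27_f d m l = t27_f d m l') : l = l' := by
  classical
  have h2 : (List.ofFn l).Perm (List.ofFn l') := by
    rw [List.perm_iff_count]
    intro x
    rw [t27_count, t27_count]
    by_cases hx : x < d + 1
    · exact DFunLike.congr_fun h (⟨x, hx⟩ : Fin (d + 1))
    · rw [filter_false_of_mem, filter_false_of_mem]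
      · intro j _ hj
        have := h1' j
        omega
      · intro j _ hj
        have := h1 j
        omega
  exact List.ofFn_injective (h2.eq_of_sortedLE hl.sortedLE_ofFn hl'.sortedLE_ofFn)

lemma t27_surj (d m : ℕ) (a : Fin (d + 1) →₀ ℕ) (ha : ∑ i, a i = m) :
    ∃ l : Fin m → ℕ, Monotone l ∧ (∀ j, l j ≤ d) ∧ t27_f d m l = a := by
  classical
  set M : Multiset ℕ := (Finsupp.toMultiset a).map (Fin.val : Fin (d + 1) → ℕ) with hM
  have hc : M.card = m := by
    rw [hM, Multiset.card_map, Finsupp.card_toMultiset, Finsupp.sum_fintype _ _ (fun _ => rfl)]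
    exact ha
  have hL : (M.sort (· ≤ ·)).length = m := by rw [Multiset.length_sort, hc]
  have hs : (M.sort (· ≤ ·)).SortedLE := (Multiset.pairwise_sort M (· ≤ ·)).sortedLE
  obtain ⟨l, hl⟩ : ∃ l : Fin m → ℕ, List.ofFn l = M.sort (· ≤ ·) := by
    subst hL
    exact ⟨(M.sort (· ≤ ·)).get, List.ofFn_get _⟩
  refine ⟨l, ?_, ?_, ?_⟩
  · rw [← List.sortedLE_ofFn_iff, hl]
    exact hs
  · intro j
    have h1 : l j ∈ List.ofFn l := by
      rw [List.mem_ofFn]
      exact ⟨j, rfl⟩
    rw [hl, Multiset.mem_sort, hM, Multiset.mem_map] at h1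
    obtain ⟨i, _, hi⟩ := h1
    rw [← hi]
    exact Nat.lt_succ_iff.1 i.2
  · ext i
    rw [t27_f_apply, ← t27_count, hl, ← Multiset.coe_count, Multiset.sort_eq, hM,
      Multiset.count_map_eq_count' _ _ Fin.val_injective, Finsupp.count_toMultiset]

lemma t27_image (d m k : ℕ) :
    t27_S d m k = t27_f d m '' (((box m d).filter fun l => ∑ i, l i = k : Finset (Fin m → ℕ)) :
      Set (Fin m → ℕ)) := by
  ext a
  constructor
  · rintro ⟨h1, h2⟩
    obtain ⟨l, hl, hd, rfl⟩ := t27_surj d m a h1
    refine ⟨l, ?_, rfl⟩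
    rw [mem_coe, mem_filter, mem_box]
    refine ⟨⟨hl, hd⟩, ?_⟩
    rw [← h2]
    exact (t27_sum d m l hd fun x => x).symm
  · rintro ⟨l, hl, rfl⟩
    rw [mem_coe, mem_filter, mem_box] at hl
    refine ⟨?_, ?_⟩
    · have := t27_sum d m l hl.1.2 fun _ => 1
      simp only [one_mul] at this
      rw [this]
      simp
    · rw [← hl.2]
      exact t27_sum d m l hl.1.2 fun x => x

theorem finrank_Vw (d m k : ℕ) : Module.finrank ℚ (Vw d m k) = pb m d k := by
  rw [t27_Vw, Module.finrank_eq_nat_card_basis (MvPolynomial.basisRestrictSupport ℚ (t27_S d m k)),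
    Nat.card_coe_set_eq, t27_image, Set.InjOn.ncard_image, Set.ncard_coe_finset, pb]
  intro l hl l' hl' h
  rw [mem_coe, mem_filter, mem_box] at hl hl'
  exact t27_inj d m hl.1.1 hl'.1.1 hl.1.2 hl'.1.2 h

theorem Vw_finite (d m k : ℕ) : Module.Finite ℚ (Vw d m k) := by
  rw [t27_Vw]
  have h : Finite (t27_S d m k) := by
    rw [t27_image]
    exact (Set.Finite.image _ (Finset.finite_toSet _)).to_subtype
  exact Module.Finite.of_basis (MvPolynomial.basisRestrictSupport ℚ (t27_S d m k))

end Helper87.TR
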