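import Mathlib
import Pool.Agent.Helper87.TR.Defs2

/-!
# TR-27b: the raising operator

* `dl1_mem`: `dl1 d` maps `Vw d m k` to `Vw d m (k + 1)` (it is a derivation and `X_i ↦ (i+1) X_{i+1}` raises the weight by one).
* `dl1_inj`: if `2 k < d m`, `f ∈ Vw d m k` and `dl1 d f = 0` then `f = 0`. Let `S` be the derivation `X_i ↦ (d - i + 1) X_{i-1}`,
  `X_0 ↦ 0`, and `T = dl1 d`. On `Vw d m k`: `S T - T S = d m - 2 k` (the commutator of two derivations is a derivation and it
  is `X_i ↦ (d - 2 i) X_i`: check on the variables: `S T X_i = (i + 1)(d - i) X_i`, `T S X_i = (d - i + 1) i X_i`).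
  If `T f = 0`, by induction `T S^(j+1) f = -(j + 1) (d m - 2 k + j) S^j f`, with nonzero factor; if `f ≠ 0` all
  `S^j f` are nonzero, but `S^j f ∈ Vw d m (k - j)` is `0` for `j > k` (precisely: `S` maps `Vw d m (k + 1)` to `Vw d m k` and
  `Vw d m 0` to `0`).
-/

set_option autoImplicit false

open Finset

namespace Helper87.TR

/-- the lowering operator -/
noncomputable def t27b_S (d : ℕ) :
    Derivation ℚ (MvPolynomial (Fin (d + 1)) ℚ) (MvPolynomial (Fin (d + 1)) ℚ) :=
  MvPolynomial.mkDerivation ℚ fun i : Fin (d + 1) =>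
    if 0 < (i : ℕ) then ((d : ℚ) - (i : ℕ) + 1) •
      MvPolynomial.X ⟨(i : ℕ) - 1, by have := i.2; omega⟩ else 0

/-- the weight operator -/
noncomputable def t27b_E (d : ℕ) :
    Derivation ℚ (MvPolynomial (Fin (d + 1)) ℚ) (MvPolynomial (Fin (d + 1)) ℚ) :=
  MvPolynomial.mkDerivation ℚ fun i : Fin (d + 1) =>
    ((d : ℚ) - 2 * (i : ℕ)) • MvPolynomial.X i

lemma t27b_mono {d m k : ℕ} {a : Fin (d + 1) →₀ ℕ} (h1 : ∑ i, a i = m)
    (h2 : ∑ i : Fin (d + 1), (i : ℕ) * a i = k) (r : ℚ) :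
    MvPolynomial.monomial a r ∈ Vw d m k := by
  intro b hb
  rw [MvPolynomial.coeff_monomial] at hb
  split_ifs at hb with h
  · subst h; exact ⟨h1, h2⟩
  · exact absurd rfl hb

lemma t27b_der {d m k : ℕ} (g : Fin (d + 1) → MvPolynomial (Fin (d + 1)) ℚ)
    (W : Submodule ℚ (MvPolynomial (Fin (d + 1)) ℚ))
    (H : ∀ a : Fin (d + 1) →₀ ℕ, ∑ i, a i = m → ∑ i : Fin (d + 1), (i : ℕ) * a i = k →
      ∀ i, a i ≠ 0 →
        MvPolynomial.monomial (a - Finsupp.single i 1) (1 : ℚ) * g i ∈ W)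
    {f : MvPolynomial (Fin (d + 1)) ℚ} (hf : f ∈ Vw d m k) :
    MvPolynomial.mkDerivation ℚ g f ∈ W := by
  rw [f.as_sum, map_sum]
  refine Submodule.sum_mem _ fun a ha => ?_
  rw [MvPolynomial.mem_support_iff] at ha
  obtain ⟨h1, h2⟩ := hf a ha
  rw [MvPolynomial.mkDerivation_monomial]
  refine Submodule.smul_mem _ _ ?_
  rw [Finsupp.sum]
  refine Submodule.sum_mem _ fun i hi => ?_
  have h3 := H a h1 h2 i (Finsupp.mem_support_iff.1 hi)
  have h4 := W.smul_mem ((a i : ℕ) : ℚ) h3
  rw [← smul_mul_assoc, MvPolynomial.smul_monomial, smul_eq_mul, mul_one] at h4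
  exact h4

lemma t27b_sum1 {d : ℕ} (a : Fin (d + 1) →₀ ℕ) (i j : Fin (d + 1)) (hi : a i ≠ 0) :
    ∑ x, (a - Finsupp.single i 1 + Finsupp.single j 1 : Fin (d + 1) →₀ ℕ) x = ∑ x, a x := by
  have h1 : a - Finsupp.single i 1 + Finsupp.single i 1 = a := by
    refine tsub_add_cancel_of_le ?_
    rw [Finsupp.single_le_iff]
    omega
  conv_rhs => rw [← h1]
  simp only [Finsupp.add_apply, Finset.sum_add_distrib]
  congr 1
  simp [Finsupp.single_apply]

lemma t27b_sum2 {d : ℕ} (a : Fin (d + 1) →₀ ℕ) (i j : Fin (d + 1)) (hi : a i ≠ 0) :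
    ∑ x : Fin (d + 1), (x : ℕ) * (a - Finsupp.single i 1 + Finsupp.single j 1 : Fin (d + 1) →₀ ℕ) x + (i : ℕ) =
      ∑ x : Fin (d + 1), (x : ℕ) * a x + (j : ℕ) := by
  have h1 : a - Finsupp.single i 1 + Finsupp.single i 1 = a := by
    refine tsub_add_cancel_of_le ?_
    rw [Finsupp.single_le_iff]
    omega
  conv_rhs => rw [← h1]
  simp only [Finsupp.add_apply, mul_add, Finset.sum_add_distrib]
  simp [Finsupp.single_apply]
  ring

lemma t27b_S_mem (d m k : ℕ) {f : MvPolynomial (Fin (d + 1)) ℚ} (hf : f ∈ Vw d m (k + 1)) :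
    t27b_S d f ∈ Vw d m k := by
  refine t27b_der _ _ (fun a h1 h2 i hi => ?_) hf
  split_ifs with h
  · rw [mul_smul_comm, MvPolynomial.X, MvPolynomial.monomial_mul, mul_one]
    refine Submodule.smul_mem _ _ (t27b_mono ?_ ?_ _)
    · rw [t27b_sum1 _ _ _ hi, h1]
    · have := t27b_sum2 a i ⟨(i : ℕ) - 1, by have := i.2; omega⟩ hi
      rw [h2] at this
      simp only at this
      omega
  · rw [mul_zero]
    exact Submodule.zero_mem _

lemma t27b_S_zero (d m : ℕ) {f : MvPolynomial (Fin (d + 1)) ℚ} (hf : f ∈ Vw d m 0) :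
    t27b_S d f = 0 := by
  have : t27b_S d f ∈ (⊥ : Submodule ℚ (MvPolynomial (Fin (d + 1)) ℚ)) := by
    refine t27b_der _ _ (fun a h1 h2 i hi => ?_) hf
    split_ifs with h
    · exfalso
      rw [Finset.sum_eq_zero_iff] at h2
      have := h2 i (mem_univ _)
      rw [mul_eq_zero] at this
      omega
    · rw [mul_zero]
      exact Submodule.zero_mem _
  simpa using this

theorem dl1_mem (d m k : ℕ) {f : MvPolynomial (Fin (d + 1)) ℚ} (hf : f ∈ Vw d m k) :
    dl1 d f ∈ Vw d m (k + 1) := by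
  refine t27b_der _ _ (fun a h1 h2 i hi => ?_) hf
  split_ifs with h
  · rw [mul_smul_comm, MvPolynomial.X, MvPolynomial.monomial_mul, mul_one]
    refine Submodule.smul_mem _ _ (t27b_mono ?_ ?_ _)
    · rw [t27b_sum1 _ _ _ hi, h1]
    · have := t27b_sum2 a i ⟨(i : ℕ) + 1, h⟩ hi
      rw [h2] at this
      simp only at this
      omega
  · rw [mul_zero]
    exact Submodule.zero_mem _

lemma t27b_E_apply (d m k : ℕ) {f : MvPolynomial (Fin (d + 1)) ℚ} (hf : f ∈ Vw d m k) :
    t27b_E d f = ((d : ℚ) * m - 2 * k) • f := by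
  conv_rhs => rw [f.as_sum]
  conv_lhs => rw [f.as_sum]
  rw [map_sum, Finset.smul_sum]
  refine Finset.sum_congr rfl fun a ha => ?_
  rw [MvPolynomial.mem_support_iff] at ha
  obtain ⟨h1, h2⟩ := hf a ha
  rw [t27b_E, MvPolynomial.mkDerivation_monomial, Finsupp.sum_fintype _ _ (by simp)]
  have h3 : ∀ i : Fin (d + 1), MvPolynomial.monomial (a - Finsupp.single i 1) ((a i : ℕ) : ℚ) •
      (((d : ℚ) - 2 * (i : ℕ)) • MvPolynomial.X i : MvPolynomial (Fin (d + 1)) ℚ) =
      ((a i : ℚ) * ((d : ℚ) - 2 * (i : ℕ))) • MvPolynomial.monomial a (1 : ℚ) := by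
    intro i
    by_cases hi : a i = 0
    · simp [hi]
    · have h4 : a - Finsupp.single i 1 + Finsupp.single i 1 = a := by
        refine tsub_add_cancel_of_le ?_
        rw [Finsupp.single_le_iff]
        omega
      rw [smul_eq_mul, mul_smul_comm, MvPolynomial.X, MvPolynomial.monomial_mul, h4,
        MvPolynomial.smul_monomial, MvPolynomial.smul_monomial]
      congr 1
      simp only [smul_eq_mul]
      ring
  rw [Finset.sum_congr rfl fun i _ => h3 i, ← Finset.sum_smul]
  have h5 : ∑ i : Fin (d + 1), ((a i : ℚ) * ((d : ℚ) - 2 * (i : ℕ))) = (d : ℚ) * m - 2 * k := by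
    rw [← h1, ← h2]
    push_cast
    rw [Finset.mul_sum, Finset.mul_sum, ← Finset.sum_sub_distrib]
    refine Finset.sum_congr rfl fun i _ => ?_
    ring
  rw [h5, smul_comm, MvPolynomial.smul_monomial (MvPolynomial.coeff a f), smul_eq_mul, mul_one]

lemma t27b_comm (d : ℕ) (f : MvPolynomial (Fin (d + 1)) ℚ) :
    t27b_S d (dl1 d f) - dl1 d (t27b_S d f) = t27b_E d f := by
  have h : ⁅t27b_S d, dl1 d⁆ = t27b_E d := by
    refine MvPolynomial.derivation_ext fun i => ?_
    rw [Derivation.commutator_apply]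
    simp only [t27b_S, dl1, t27b_E, MvPolynomial.mkDerivation_X]
    have hS : MvPolynomial.mkDerivation ℚ (fun i : Fin (d + 1) =>
        if 0 < (i : ℕ) then ((d : ℚ) - (i : ℕ) + 1) •
        (MvPolynomial.X ⟨(i : ℕ) - 1, by have := i.2; omega⟩ : MvPolynomial (Fin (d + 1)) ℚ)
        else 0) (if h : (i : ℕ) + 1 < d + 1 then
          (((i : ℕ) + 1 : ℕ) : ℚ) • MvPolynomial.X ⟨(i : ℕ) + 1, h⟩ else 0) =
        (((i : ℕ) + 1 : ℚ) * ((d : ℚ) - (i : ℕ))) • MvPolynomial.X i := by
      split_ifs with h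
      · rw [Derivation.map_smul, MvPolynomial.mkDerivation_X]
        simp only [Nat.add_sub_cancel, Fin.eta]
        rw [if_pos (Nat.succ_pos _), smul_smul]
        congr 1
        push_cast
        ring
      · have h1 : (i : ℕ) = d := by have := i.2; omega
        rw [map_zero, h1]
        simp
    have hT : MvPolynomial.mkDerivation ℚ (fun i : Fin (d + 1) =>
        if h : (i : ℕ) + 1 < d + 1 then
          (((i : ℕ) + 1 : ℕ) : ℚ) • (MvPolynomial.X ⟨(i : ℕ) + 1, h⟩ :
            MvPolynomial (Fin (d + 1)) ℚ) else 0)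
        (if 0 < (i : ℕ) then ((d : ℚ) - (i : ℕ) + 1) •
        (MvPolynomial.X ⟨(i : ℕ) - 1, by have := i.2; omega⟩ : MvPolynomial (Fin (d + 1)) ℚ)
        else 0) =
        (((d : ℚ) - (i : ℕ) + 1) * (i : ℕ)) • MvPolynomial.X i := by
      split_ifs with h
      · rw [Derivation.map_smul, MvPolynomial.mkDerivation_X]
        have h1 : (i : ℕ) - 1 + 1 = (i : ℕ) := Nat.sub_add_cancel h
        simp only [h1]
        rw [dif_pos i.2, smul_smul]
      · have h1 : (i : ℕ) = 0 := by omega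
        rw [map_zero, h1]
        simp
    rw [hS, hT, ← sub_smul]
    congr 1
    ring
  rw [← h, Derivation.commutator_apply]

theorem dl1_inj (d m k : ℕ) (h : 2 * k < d * m) {f : MvPolynomial (Fin (d + 1)) ℚ}
    (hf : f ∈ Vw d m k) (h0 : dl1 d f = 0) : f = 0 := by
  have key : ∀ j ≤ k, (t27b_S d)^[j] f ∈ Vw d m (k - j) ∧
      dl1 d ((t27b_S d)^[j + 1] f) =
        (-(((j : ℚ) + 1) * ((d : ℚ) * m - 2 * k + j))) • (t27b_S d)^[j] f := by
    intro j
    induction j with
    | zero =>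
      intro _
      refine ⟨by simpa using hf, ?_⟩
      have h1 := t27b_comm d f
      rw [h0, map_zero, t27b_E_apply d m k hf, zero_sub, neg_eq_iff_eq_neg] at h1
      simp only [Function.iterate_succ, Function.iterate_zero, Function.comp, id]
      rw [h1, ← neg_smul]
      congr 1
      push_cast
      ring
    | succ j ih =>
      intro hj
      obtain ⟨h1, h2⟩ := ih (by omega)
      have h3 : (t27b_S d)^[j + 1] f ∈ Vw d m (k - (j + 1)) := by
        rw [Function.iterate_succ_apply']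
        refine t27b_S_mem d m _ ?_
        have : k - (j + 1) + 1 = k - j := by omega
        rw [this]
        exact h1
      refine ⟨h3, ?_⟩
      have h4 := t27b_comm d ((t27b_S d)^[j + 1] f)
      rw [h2, t27b_E_apply d m _ h3, Derivation.map_smul, ← Function.iterate_succ_apply' (t27b_S d) j,
        sub_eq_iff_eq_add, ← sub_eq_iff_eq_add', ← sub_smul,
        ← Function.iterate_succ_apply' (t27b_S d) (j + 1)] at h4
      rw [← h4]
      congr 1
      rw [Nat.cast_sub hj]
      push_cast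
      ring
  have hz : ∀ i ≤ k + 1, (t27b_S d)^[k + 1 - i] f = 0 := by
    intro i
    induction i with
    | zero =>
      intro _
      have h1 := (key k le_rfl).1
      rw [Nat.sub_self] at h1
      rw [Nat.sub_zero, Function.iterate_succ_apply']
      exact t27b_S_zero d m h1
    | succ i ih =>
      intro hi
      have h1 := ih (by omega)
      obtain ⟨-, h2⟩ := key (k - i) (by omega)
      have h3 : k - i + 1 = k + 1 - i := by omega
      have h4 : k + 1 - (i + 1) = k - i := by omega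
      rw [h3, h1, map_zero] at h2
      rw [h4]
      have h5 := (smul_eq_zero.1 h2.symm)
      rcases h5 with h5 | h5
      · exfalso
        have h6 : (0 : ℚ) < ((k - i : ℕ) : ℚ) + 1 := by positivity
        have h7 : (0 : ℚ) < (d : ℚ) * m - 2 * k + ((k - i : ℕ) : ℚ) := by
          have : (2 * k : ℚ) < d * m := by exact_mod_cast h
          have h8 : (0 : ℚ) ≤ ((k - i : ℕ) : ℚ) := by positivity
          linarith
        have := mul_pos h6 h7
        linarith
      · exact h5
  have := hz (k + 1) le_rfl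
  simpa using this

end Helper87.TR
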