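import Mathlib
import Pool.Agent.Helper87.TR.Basic
import Pool.Agent.Helper87.TR.Defs2

/-!
# TR-28: conjugation of partitions in a box

`pb m n k = pb n m k`: the map `l ↦ l'`, `l' j = #{i : l i > n - 1 - j}` (`j < n`; increasing in `j`), is a bijection
between the monotone functions `Fin m → {0..n}` and the monotone functions `Fin n → {0..m}` (the inverse is given by
the same formula with `m` and `n` exchanged), and `∑_j l' j = ∑_i l i` (double counting).
-/

set_option autoImplicit false

open Finset

namespace Helper87.TR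

/-- the conjugate of `l` in the `m × n` box -/
def t28_conj (m n : ℕ) (l : Fin m → ℕ) : Fin n → ℕ := fun j =>
  (univ.filter fun i : Fin m => n - 1 - (j : ℕ) < l i).card

lemma t28_mono (m n : ℕ) (l : Fin m → ℕ) : Monotone (t28_conj m n l) := by
  intro j j' h
  refine card_le_card fun i hi => ?_
  rw [mem_filter] at hi ⊢
  have h1 : (j : ℕ) ≤ (j' : ℕ) := h
  exact ⟨mem_univ _, by omega⟩

lemma t28_le (m n : ℕ) (l : Fin m → ℕ) (j : Fin n) : t28_conj m n l j ≤ m := by
  refine (card_le_univ _).trans ?_
  rw [Fintype.card_fin]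

lemma t28_count (n t : ℕ) (ht : t ≤ n) :
    (univ.filter fun j : Fin n => n - 1 - (j : ℕ) < t).card = t := by
  rw [card_filter, Fin.sum_univ_eq_sum_range (fun j => if n - 1 - j < t then 1 else 0) n,
    sum_range_reflect (fun j => if j < t then 1 else 0) n, ← card_filter]
  have : (range n).filter (fun j => j < t) = range t := by
    ext j
    simp only [mem_filter, mem_range]
    omega
  rw [this, card_range]

lemma t28_key {m : ℕ} (l : Fin m → ℕ) (hl : Monotone l) (t : ℕ) (i : Fin m) :
    m - 1 - (i : ℕ) < (univ.filter fun i' : Fin m => t < l i').card ↔ t < l i := by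
  have hi := i.isLt
  constructor
  · intro h
    by_contra h1
    have h2 : (univ.filter fun i' : Fin m => t < l i') ⊆ Ioi i := by
      intro i' hi'
      rw [mem_filter] at hi'
      rw [mem_Ioi]
      by_contra h3
      exact h1 (hi'.2.trans_le (hl (not_lt.1 h3)))
    have h3 := card_le_card h2
    rw [Fin.card_Ioi] at h3
    omega
  · intro h
    have h2 : Ici i ⊆ (univ.filter fun i' : Fin m => t < l i') := by
      intro i' hi'
      rw [mem_Ici] at hi'
      rw [mem_filter]
      exact ⟨mem_univ _, h.trans_le (hl hi')⟩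
    have h3 := card_le_card h2
    rw [Fin.card_Ici] at h3
    omega

lemma t28_inv {m n : ℕ} (l : Fin m → ℕ) (hl : Monotone l) (h : ∀ i, l i ≤ n) :
    t28_conj n m (t28_conj m n l) = l := by
  funext i
  have h1 : (univ.filter fun j : Fin n => m - 1 - (i : ℕ) < t28_conj m n l j) =
      univ.filter fun j : Fin n => n - 1 - (j : ℕ) < l i := by
    refine filter_congr fun j _ => ?_
    exact t28_key l hl _ i
  rw [t28_conj, h1, t28_count n (l i) (h i)]

lemma t28_sum {m n : ℕ} (l : Fin m → ℕ) (h : ∀ i, l i ≤ n) :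
    ∑ j, t28_conj m n l j = ∑ i, l i := by
  simp only [t28_conj, card_filter]
  rw [sum_comm]
  refine sum_congr rfl fun i _ => ?_
  rw [← card_filter, t28_count n (l i) (h i)]

theorem pb_comm (m n k : ℕ) : pb m n k = pb n m k := by
  rw [pb, pb]
  refine card_nbij' (t28_conj m n) (t28_conj n m) ?_ ?_ ?_ ?_
  · intro l hl
    rw [mem_coe, mem_filter, mem_box] at hl ⊢
    exact ⟨⟨t28_mono m n l, t28_le m n l⟩, by rw [t28_sum l hl.1.2, hl.2]⟩
  · intro l hl
    rw [mem_coe, mem_filter, mem_box] at hl ⊢
    exact ⟨⟨t28_mono n m l, t28_le n m l⟩, by rw [t28_sum l hl.1.2, hl.2]⟩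
  · intro l hl
    rw [mem_coe, mem_filter, mem_box] at hl
    exact t28_inv l hl.1.1 hl.1.2
  · intro l hl
    rw [mem_coe, mem_filter, mem_box] at hl
    exact t28_inv l hl.1.1 hl.1.2

end Helper87.TR
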