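import Mathlib
import Pool.Agent.Helper87.TR.Basic

/-!
# TR-10a: the operator `KK n`, elementary properties

`KK n φ` is `φ ∘ ave r` applied coefficientwise (`cw`, `coeff_cw`) to `kp r n = ∏ (1 - z_i t_j)^n`; `z` outer, `t` inner variables.
* `KK_add`, `KK_smul`: linearity in `φ` (compare coefficients).
* `cm_KK`: `cm k (KK n φ) = φ (ave (coeff k (kp r n)))`, by definition.
* `KK_symm`: the coefficient of `z^α t^β` in `kp r n` is symmetric in `α, β` (exchange of the variables).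
  So the statement holds for `φ = cl k, ψ = cl k'`; in general reduce to this: the coefficients of `kp r n` have degree
  `≤ r n` in each `t_j`, and a functional on symmetric polynomials `f` with `Bx M f` is
  `f ↦ ∑_{k ∈ box r M} cm k f * φ (mm k)` (`eq_sum_of_Bx`).
* `KK_Hg`: coefficients of `z^α t^β` vanish unless `|α| = |β|`. `KK_Bx`: degree `≤ r n` in `z_i`.
* `KK_ev0`: `ev0` picks `t = 0`, `K = 1`.
* `KK_res`: `K` for `r + 1` at `z_0 = 0`, `t_0 = 0` is `K` for `r`. (The coefficients of `kp` are symmetric in `t`, so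
  `ave` does nothing on them: `ave_coe`. For a symmetric `f` in `r + 1` variables `res f` is `f` at `t_0 = 0`.)
-/

set_option autoImplicit false

open MvPolynomial Finset

namespace Helper87.TR

/-! ### auxiliary lemmas -/

/-- `f` and `g` have exchanged coefficients -/
def t10a_Sw {r : ℕ} (f g : MvPolynomial (Fin r) (MvPolynomial (Fin r) ℚ)) : Prop :=
  ∀ a b : Fin r →₀ ℕ, coeff b (coeff a f) = coeff a (coeff b g)

lemma t10a_Sw_one {r : ℕ} : t10a_Sw (1 : MvPolynomial (Fin r) (MvPolynomial (Fin r) ℚ)) 1 := by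
  classical
  intro a b
  rw [coeff_one, coeff_one]
  by_cases ha : 0 = a <;> by_cases hb : 0 = b
  · rw [if_pos ha, if_pos hb, ← ha, ← hb]
  · rw [if_pos ha, if_neg hb, coeff_one, if_neg hb, coeff_zero]
  · rw [if_neg ha, if_pos hb, coeff_one, if_neg ha, coeff_zero]
  · rw [if_neg ha, if_neg hb, coeff_zero, coeff_zero]

lemma t10a_Sw_sub {r : ℕ} {f g f' g' : MvPolynomial (Fin r) (MvPolynomial (Fin r) ℚ)}
    (h : t10a_Sw f g) (h' : t10a_Sw f' g') : t10a_Sw (f - f') (g - g') := by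
  intro a b
  rw [coeff_sub, coeff_sub, coeff_sub, coeff_sub, h a b, h' a b]

lemma t10a_Sw_mul {r : ℕ} {f g f' g' : MvPolynomial (Fin r) (MvPolynomial (Fin r) ℚ)}
    (h : t10a_Sw f g) (h' : t10a_Sw f' g') : t10a_Sw (f * f') (g * g') := by
  classical
  intro a b
  rw [coeff_mul, coeff_mul, coeff_sum, coeff_sum]
  simp_rw [coeff_mul]
  rw [sum_comm]
  refine sum_congr rfl fun x _ => sum_congr rfl fun y _ => ?_
  rw [h, h']

lemma t10a_Sw_pow {r : ℕ} {f g : MvPolynomial (Fin r) (MvPolynomial (Fin r) ℚ)}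
    (h : t10a_Sw f g) (n : ℕ) : t10a_Sw (f ^ n) (g ^ n) := by
  induction n with
  | zero => rw [pow_zero, pow_zero]; exact t10a_Sw_one
  | succ n ih => rw [pow_succ, pow_succ]; exact t10a_Sw_mul ih h

lemma t10a_Sw_prod {r : ℕ} {ι : Type*} (s : Finset ι)
    {f g : ι → MvPolynomial (Fin r) (MvPolynomial (Fin r) ℚ)}
    (h : ∀ i, t10a_Sw (f i) (g i)) : t10a_Sw (∏ i ∈ s, f i) (∏ i ∈ s, g i) := by
  classical
  induction s using Finset.induction_on with
  | empty => rw [prod_empty, prod_empty]; exact t10a_Sw_one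
  | insert a s ha ih =>
    rw [prod_insert ha, prod_insert ha]
    exact t10a_Sw_mul (h a) ih

lemma t10a_coeff_XC {r : ℕ} (i j : Fin r) (a b : Fin r →₀ ℕ) :
    coeff b (coeff a ((X i : MvPolynomial (Fin r) (MvPolynomial (Fin r) ℚ)) * C (X j))) =
      if Finsupp.single i 1 = a ∧ Finsupp.single j 1 = b then 1 else 0 := by
  classical
  rw [mul_comm, coeff_C_mul, mul_comm, coeff_X]
  by_cases ha : Finsupp.single i 1 = a
  · rw [if_pos ha, one_mul, coeff_X]
    by_cases hb : Finsupp.single j 1 = b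
    · rw [if_pos hb, if_pos ⟨ha, hb⟩]
    · rw [if_neg hb, if_neg fun h => hb h.2]
  · rw [if_neg ha, zero_mul, coeff_zero, if_neg fun h => ha h.1]

lemma t10a_Sw_XC {r : ℕ} (i j : Fin r) :
    t10a_Sw ((X i : MvPolynomial (Fin r) (MvPolynomial (Fin r) ℚ)) * C (X j)) (X j * C (X i)) := by
  intro a b
  rw [t10a_coeff_XC, t10a_coeff_XC]
  simp only [and_comm]

lemma t10a_coeff_kp {r : ℕ} (n : ℕ) (a b : Fin r →₀ ℕ) :
    coeff b (coeff a (kp r n)) = coeff a (coeff b (kp r n)) := by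
  have h : t10a_Sw (kp r n) (∏ i : Fin r, ∏ j : Fin r, (1 - X j * C (X i)) ^ n) :=
    t10a_Sw_prod _ fun i => t10a_Sw_prod _ fun j =>
      t10a_Sw_pow (t10a_Sw_sub t10a_Sw_one (t10a_Sw_XC i j)) n
  rw [h a b, prod_comm]
  rfl

/-- equal degrees -/
def t10a_Ho {r : ℕ} (f : MvPolynomial (Fin r) (MvPolynomial (Fin r) ℚ)) : Prop :=
  ∀ a b : Fin r →₀ ℕ, coeff b (coeff a f) ≠ 0 → ∑ i, a i = ∑ i, b i

lemma t10a_Ho_one {r : ℕ} : t10a_Ho (1 : MvPolynomial (Fin r) (MvPolynomial (Fin r) ℚ)) := by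
  classical
  intro a b h
  rw [coeff_one] at h
  by_cases ha : 0 = a
  · rw [if_pos ha, coeff_one] at h
    by_cases hb : 0 = b
    · rw [← ha, ← hb]
    · rw [if_neg hb] at h
      exact absurd rfl h
  · rw [if_neg ha, coeff_zero] at h
    exact absurd rfl h

lemma t10a_Ho_sub {r : ℕ} {f f' : MvPolynomial (Fin r) (MvPolynomial (Fin r) ℚ)}
    (h : t10a_Ho f) (h' : t10a_Ho f') : t10a_Ho (f - f') := by
  intro a b hab
  rw [coeff_sub, coeff_sub] at hab
  by_cases h1 : coeff b (coeff a f) = 0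
  · refine h' a b fun h2 => hab ?_
    rw [h1, h2, sub_zero]
  · exact h a b h1

lemma t10a_Ho_mul {r : ℕ} {f f' : MvPolynomial (Fin r) (MvPolynomial (Fin r) ℚ)}
    (h : t10a_Ho f) (h' : t10a_Ho f') : t10a_Ho (f * f') := by
  classical
  intro a b hab
  rw [coeff_mul, coeff_sum] at hab
  obtain ⟨x, hx, h1⟩ := exists_ne_zero_of_sum_ne_zero hab
  rw [coeff_mul] at h1
  obtain ⟨y, hy, h2⟩ := exists_ne_zero_of_sum_ne_zero h1
  rw [HasAntidiagonal.mem_antidiagonal] at hx hy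
  have h3 := h x.1 y.1 (left_ne_zero_of_mul h2)
  have h4 := h' x.2 y.2 (right_ne_zero_of_mul h2)
  rw [← hx, ← hy]
  simp only [Finsupp.add_apply, sum_add_distrib]
  rw [h3, h4]

lemma t10a_Ho_pow {r : ℕ} {f : MvPolynomial (Fin r) (MvPolynomial (Fin r) ℚ)}
    (h : t10a_Ho f) (n : ℕ) : t10a_Ho (f ^ n) := by
  induction n with
  | zero => rw [pow_zero]; exact t10a_Ho_one
  | succ n ih => rw [pow_succ]; exact t10a_Ho_mul ih h

lemma t10a_Ho_prod {r : ℕ} {ι : Type*} (s : Finset ι)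
    {f : ι → MvPolynomial (Fin r) (MvPolynomial (Fin r) ℚ)}
    (h : ∀ i, t10a_Ho (f i)) : t10a_Ho (∏ i ∈ s, f i) := by
  classical
  induction s using Finset.induction_on with
  | empty => rw [prod_empty]; exact t10a_Ho_one
  | insert a s ha ih =>
    rw [prod_insert ha]
    exact t10a_Ho_mul (h a) ih

lemma t10a_Ho_kp (r n : ℕ) : t10a_Ho (kp r n) := by
  refine t10a_Ho_prod _ fun i => t10a_Ho_prod _ fun j =>
      t10a_Ho_pow (t10a_Ho_sub t10a_Ho_one ?_) n
  intro a b hab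
  rw [t10a_coeff_XC] at hab
  by_cases h : Finsupp.single i 1 = a ∧ Finsupp.single j 1 = b
  · rw [← h.1, ← h.2]
    simp [Finsupp.single_apply]
  · rw [if_neg h] at hab
    exact absurd rfl hab

lemma t10a_deg_kp (r n : ℕ) (k : Fin r) : degreeOf k (kp r n) ≤ r * n := by
  classical
  have h0 : ∀ i j : Fin r, degreeOf k
      (1 - (X i : MvPolynomial (Fin r) (MvPolynomial (Fin r) ℚ)) * C (X j)) ≤
        if k = i then 1 else 0 := by
    intro i j
    refine (degreeOf_sub_le k _ _).trans (max_le ?_ ?_)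
    · rw [degreeOf_one]
      exact Nat.zero_le _
    · refine (degreeOf_mul_le k _ _).trans ?_
      rw [degreeOf_C, add_zero, degreeOf_X]
  refine (degreeOf_prod_le k _ _).trans ?_
  have h1 : ∀ i : Fin r, degreeOf k (∏ j : Fin r,
      (1 - (X i : MvPolynomial (Fin r) (MvPolynomial (Fin r) ℚ)) * C (X j)) ^ n) ≤
        if k = i then r * n else 0 := by
    intro i
    refine (degreeOf_prod_le k _ _).trans ?_
    refine (sum_le_sum fun j _ => (degreeOf_pow_le k _ n).trans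
      (Nat.mul_le_mul_left n (h0 i j))).trans ?_
    rw [sum_const, card_univ, Fintype.card_fin, smul_eq_mul]
    split_ifs
    · rw [mul_one]
    · simp
  refine (sum_le_sum fun i _ => h1 i).trans ?_
  rw [sum_ite_eq, if_pos (mem_univ k)]

lemma t10a_coeff_symm {r : ℕ} (n : ℕ) (a : Fin r →₀ ℕ) :
    (coeff a (kp r n)).IsSymmetric := by
  intro σ
  ext b
  rw [coeff_rename_perm, t10a_coeff_kp, ← coeff_rename_perm (kp r n), kp_symm r n σ,
    t10a_coeff_kp]

/-- the coefficients of the kernel as symmetric polynomials -/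
noncomputable def t10a_ck {r : ℕ} (n : ℕ) (a : Fin r →₀ ℕ) : Lam r ℚ :=
  ⟨coeff a (kp r n), (mem_symmetricSubalgebra _).2 (t10a_coeff_symm n a)⟩

lemma t10a_coe_ck {r : ℕ} (n : ℕ) (a : Fin r →₀ ℕ) :
    (t10a_ck n a : MvPolynomial (Fin r) ℚ) = coeff a (kp r n) := rfl

lemma t10a_ave {r : ℕ} (n : ℕ) (a : Fin r →₀ ℕ) : ave r (coeff a (kp r n)) = t10a_ck n a :=
  ave_coe (t10a_ck n a)

lemma t10a_coeff_KK {r : ℕ} (n : ℕ) (φ : Lam r ℚ →ₗ[ℚ] ℚ) (a : Fin r →₀ ℕ) :
    coeff a (KK n φ : MvPolynomial (Fin r) ℚ) = φ (t10a_ck n a) := by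
  change coeff a (cw (φ ∘ₗ ave r) (kp r n)) = _
  rw [coeff_cw, LinearMap.comp_apply, t10a_ave]

lemma t10a_cm_KK {r : ℕ} (n : ℕ) (φ : Lam r ℚ →ₗ[ℚ] ℚ) (k : Fin r → ℕ) :
    cm k (KK n φ) = φ (t10a_ck n (fs k)) := t10a_coeff_KK n φ (fs k)

lemma t10a_cm_ck {r : ℕ} (n : ℕ) (a : Fin r →₀ ℕ) (k : Fin r → ℕ) :
    cm k (t10a_ck n a) = coeff (fs k) (coeff a (kp r n)) := rfl

lemma t10a_support_KK {r : ℕ} (n : ℕ) (φ : Lam r ℚ →ₗ[ℚ] ℚ) :
    (KK n φ : MvPolynomial (Fin r) ℚ).support ⊆ (kp r n).support := by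
  intro a ha
  rw [mem_support_iff, t10a_coeff_KK] at ha
  rw [mem_support_iff]
  intro h
  apply ha
  have : t10a_ck n a = 0 := Subtype.ext h
  rw [this, map_zero]

lemma t10a_Bx_ck {r : ℕ} (n : ℕ) (a : Fin r →₀ ℕ) : Bx (r * n) (t10a_ck n a) := by
  classical
  intro i
  rw [degreeOf_eq_sup, Finset.sup_le_iff]
  intro b hb
  rw [mem_support_iff, t10a_coe_ck, t10a_coeff_kp] at hb
  have h1 : b ∈ (kp r n).support := by
    rw [mem_support_iff]
    intro h
    rw [h] at hb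
    exact hb (coeff_zero _)
  exact (monomial_le_degreeOf i h1).trans (t10a_deg_kp r n i)

lemma t10a_coeff_aeval {A : Type*} [CommRing A] {r : ℕ}
    (f : MvPolynomial (Fin (r + 1)) A) (a : Fin r →₀ ℕ) :
    coeff a (aeval (Fin.cases 0 X : Fin (r + 1) → MvPolynomial (Fin r) A) f) =
      coeff (Finsupp.cons 0 a) f := by
  classical
  induction f using MvPolynomial.induction_on' with
  | monomial b v =>
    rw [aeval_monomial, algebraMap_eq, coeff_C_mul,
      Finsupp.prod_fintype _ _ (fun i => pow_zero _), Fin.prod_univ_succ]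
    simp only [Fin.cases_zero, Fin.cases_succ]
    rw [coeff_monomial]
    by_cases h0 : b 0 = 0
    · rw [h0, pow_zero, one_mul]
      have h1 : (∏ i : Fin r, (X i : MvPolynomial (Fin r) A) ^ b i.succ) =
          monomial (Finsupp.tail b) 1 := by
        rw [monomial_eq, C_1, one_mul, Finsupp.prod_fintype _ _ (fun i => pow_zero _)]
        rfl
      rw [h1, coeff_monomial]
      have h2 : (Finsupp.tail b = a) ↔ (b = Finsupp.cons 0 a) := by
        constructor
        · intro h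
          rw [← h, ← h0, Finsupp.cons_tail]
        · intro h
          rw [h, Finsupp.tail_cons]
      by_cases h3 : b = Finsupp.cons 0 a
      · rw [if_pos h3, if_pos (h2.2 h3), mul_one]
      · rw [if_neg h3, if_neg fun h => h3 (h2.1 h), mul_zero]
    · rw [zero_pow h0, zero_mul, coeff_zero, mul_zero, if_neg]
      intro h
      apply h0
      rw [h, Finsupp.cons_zero]
  | add p q hp hq =>
    rw [map_add, coeff_add, coeff_add, hp, hq]

lemma t10a_res_ck {r : ℕ} (n : ℕ) (a : Fin r →₀ ℕ) :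
    res r (t10a_ck n (Finsupp.cons 0 a)) = t10a_ck n a := by
  apply Subtype.ext
  rw [coe_res, t10a_coe_ck, t10a_coe_ck]
  have h1 : (aeval (Fin.cases 0 X : Fin (r + 1) → MvPolynomial (Fin r) (MvPolynomial (Fin r) ℚ))
      (map (aeval (Fin.cases 0 X : Fin (r + 1) → MvPolynomial (Fin r) ℚ) :
        MvPolynomial (Fin (r + 1)) ℚ →ₐ[ℚ] MvPolynomial (Fin r) ℚ).toRingHom (kp (r + 1) n))) =
      kp r n := by
    rw [kp, map_prod, map_prod, Fin.prod_univ_succ]
    have h0 : ∀ i j : Fin (r + 1),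
        (aeval (Fin.cases 0 X : Fin (r + 1) → MvPolynomial (Fin r) (MvPolynomial (Fin r) ℚ))
        (map (aeval (Fin.cases 0 X : Fin (r + 1) → MvPolynomial (Fin r) ℚ) :
        MvPolynomial (Fin (r + 1)) ℚ →ₐ[ℚ] MvPolynomial (Fin r) ℚ).toRingHom
          ((1 - X i * C (X j)) ^ n))) = (1 - (Fin.cases 0 X : Fin (r + 1) →
            MvPolynomial (Fin r) (MvPolynomial (Fin r) ℚ)) i *
            C ((Fin.cases 0 X : Fin (r + 1) → MvPolynomial (Fin r) ℚ) j)) ^ n := by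
      intro i j
      rw [map_pow, map_pow, map_sub, map_sub, map_one, map_one, map_mul, map_mul, map_X, aeval_X,
        map_C]
      congr 3
      have h2 : (aeval (Fin.cases 0 X : Fin (r + 1) → MvPolynomial (Fin r) ℚ) :
        MvPolynomial (Fin (r + 1)) ℚ →ₐ[ℚ] MvPolynomial (Fin r) ℚ).toRingHom (X j) =
          (Fin.cases 0 X : Fin (r + 1) → MvPolynomial (Fin r) ℚ) j := aeval_X _ j
      rw [h2, aeval_C]
      rfl
    simp_rw [map_prod, h0]
    have h3 : (∏ j : Fin (r + 1), (1 - (Fin.cases 0 X : Fin (r + 1) →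
            MvPolynomial (Fin r) (MvPolynomial (Fin r) ℚ)) 0 *
            C ((Fin.cases 0 X : Fin (r + 1) → MvPolynomial (Fin r) ℚ) j)) ^ n) = 1 := by
      refine prod_eq_one fun j _ => ?_
      simp
    rw [h3, one_mul]
    refine prod_congr rfl fun i _ => ?_
    rw [Fin.prod_univ_succ]
    simp
  have h2 := t10a_coeff_aeval (map (aeval (Fin.cases 0 X : Fin (r + 1) → MvPolynomial (Fin r) ℚ) :
        MvPolynomial (Fin (r + 1)) ℚ →ₐ[ℚ] MvPolynomial (Fin r) ℚ).toRingHom (kp (r + 1) n)) a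
  rw [h1, coeff_map] at h2
  rw [h2]
  rfl

/-! ### the statements -/

theorem KK_add {r : ℕ} (n : ℕ) (φ ψ : Lam r ℚ →ₗ[ℚ] ℚ) : KK n (φ + ψ) = KK n φ + KK n ψ := by
  apply ext_cm
  intro k _
  rw [cm_add, t10a_cm_KK, t10a_cm_KK, t10a_cm_KK, LinearMap.add_apply]

theorem KK_smul {r : ℕ} (n : ℕ) (a : ℚ) (φ : Lam r ℚ →ₗ[ℚ] ℚ) : KK n (a • φ) = a • KK n φ := by
  apply ext_cm
  intro k _
  rw [cm_smul, t10a_cm_KK, t10a_cm_KK, LinearMap.smul_apply, smul_eq_mul]

theorem KK_Bx {r : ℕ} (n : ℕ) (φ : Lam r ℚ →ₗ[ℚ] ℚ) : Bx (r * n) (KK n φ) := by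
  classical
  intro i
  rw [degreeOf_eq_sup, Finset.sup_le_iff]
  intro b hb
  exact (monomial_le_degreeOf i (t10a_support_KK n φ hb)).trans (t10a_deg_kp r n i)

theorem KK_symm {r : ℕ} (n : ℕ) (φ ψ : Lam r ℚ →ₗ[ℚ] ℚ) : φ (KK n ψ) = ψ (KK n φ) := by
  have h : ∀ φ ψ : Lam r ℚ →ₗ[ℚ] ℚ, φ (KK n ψ) = ∑ k ∈ box r (r * n), ∑ l ∈ box r (r * n),
      coeff (fs l) (coeff (fs k) (kp r n)) * ψ (mm ℚ l) * φ (mm ℚ k) := by
    intro φ ψ
    rw [eq_sum_of_Bx (KK_Bx n ψ), map_sum]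
    refine sum_congr rfl fun k _ => ?_
    rw [map_smul, smul_eq_mul, t10a_cm_KK, eq_sum_of_Bx (t10a_Bx_ck n (fs k)), map_sum, sum_mul]
    refine sum_congr rfl fun l _ => ?_
    rw [map_smul, smul_eq_mul, t10a_cm_ck]
  rw [h φ ψ, h ψ φ, sum_comm]
  refine sum_congr rfl fun l _ => sum_congr rfl fun k _ => ?_
  rw [t10a_coeff_kp]
  ring

theorem KK_Hg {r : ℕ} (n : ℕ) (k : Fin r → ℕ) : Hg (∑ i, k i) (KK n (cl k : Lam r ℚ →ₗ[ℚ] ℚ)) := by
  rw [Hg_iff]
  intro l _ hl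
  rw [t10a_cm_KK, cl_apply, t10a_cm_ck] at hl
  have := t10a_Ho_kp r n _ _ hl
  simpa using this

theorem KK_ev0 {r : ℕ} (n : ℕ) : KK n (ev0 r ℚ) = 1 := by
  apply Subtype.ext
  ext a
  rw [t10a_coeff_KK, ev0_apply, t10a_coe_ck]
  change coeff 0 (coeff a (kp r n)) = coeff a 1
  rw [t10a_coeff_kp]
  have h : coeff 0 (kp r n) = 1 := by
    change constantCoeff (kp r n) = 1
    rw [kp, map_prod]
    refine prod_eq_one fun i _ => ?_
    rw [map_prod]
    refine prod_eq_one fun j _ => ?_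
    simp
  rw [h]

theorem KK_res {r : ℕ} (n : ℕ) (φ : Lam r ℚ →ₗ[ℚ] ℚ) :
    res r (KK n (φ ∘ₗ res r)) = KK n φ := by
  apply Subtype.ext
  ext a
  rw [coe_res, t10a_coeff_aeval, t10a_coeff_KK, t10a_coeff_KK, LinearMap.comp_apply, t10a_res_ck]

end Helper87.TR
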