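import Mathlib
import Pool.Agent.Helper87.TR.Basic

/-!
# TR-5b: degrees of `D_k`

* `DK_Hg`: `vd` is homogeneous of degree `r (r - 1) / 2` (`∑ i : Fin r, (i : ℕ)`), `dK c k` raises the degree by
  the same number (`dK_monomial`), `vd * DK c k f = dK c k f` (`vd_mul_DK`) and a cofactor in a product of nonzero
  homogeneous polynomials over a domain is homogeneous (look in Mathlib for a lemma, or compare homogeneous
  components: `vd * (component of degree M of DK f) = component of degree M + r (r - 1) / 2 of dK f = 0` for `M ≠ N`,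
  `vd ≠ 0`). `DD_Hg` follows (`DD_apply`).
* `DD_Bx`: every exponent of `dd c u f` is `≤ M + r - 1` in each variable, while `vd` has degree exactly `r - 1` in each
  variable; use that the degree in a variable is additive on products in a domain
  (`MvPolynomial.degreeOf_mul_eq`), `f = 0` being trivial. (`DK_Bx` in the same way.)
* `DK_eq`: Lagrange interpolation / Vandermonde in `u` for `DD c u = ∑ u^(r-k) DK c k` (`DD_apply`), `DK c k = 0` for `k > r`
  (then take `s = ∅`).
-/

set_option autoImplicit false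

open MvPolynomial Finset

namespace Helper87.TR

lemma t5b_hom_pe {r : ℕ} (τ : Equiv.Perm (Fin r)) (a : Fin r →₀ ℕ) (N : ℕ) (v : ℚ)
    (ha : a.degree = N) :
    (monomial (a + pe τ) v : MvPolynomial (Fin r) ℚ).IsHomogeneous (N + ∑ i : Fin r, (i : ℕ)) := by
  apply isHomogeneous_monomial
  rw [map_add, ha]
  congr 1
  rw [Finsupp.degree_eq_sum]
  exact Equiv.sum_comp τ (fun i : Fin r => (i : ℕ))

lemma t5b_vd_hom (r : ℕ) : (vd r ℚ).IsHomogeneous (∑ i : Fin r, (i : ℕ)) := by
  rw [vd]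
  refine IsHomogeneous.sum _ _ _ fun τ _ => ?_
  have h := t5b_hom_pe τ 0 0 ((Equiv.Perm.sign τ : ℤ) : ℚ) (map_zero _)
  rwa [zero_add, zero_add] at h

lemma t5b_dK_hom {r : ℕ} (c : ℚ) (k : ℕ) {N : ℕ} {f : MvPolynomial (Fin r) ℚ}
    (hf : f.IsHomogeneous N) : (dK c k f).IsHomogeneous (N + ∑ i : Fin r, (i : ℕ)) := by
  rw [f.as_sum, map_sum]
  refine IsHomogeneous.sum _ _ _ fun a ha => ?_
  rw [dK_monomial]
  refine IsHomogeneous.sum _ _ _ fun τ _ => ?_
  refine t5b_hom_pe τ a N _ ?_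
  have h := hf (mem_support_iff.1 ha)
  rw [Finsupp.degree_eq_weight_one]
  exact h

theorem DK_Hg {r : ℕ} (c : ℚ) (k : ℕ) {N : ℕ} {f : Lam r ℚ} (hf : Hg N f) : Hg N (DK c k f) := by
  classical
  obtain ⟨B, hB⟩ := exists_Bx (DK c k f)
  have h1 := sum_hc hB
  have hR : (dK c k (f : MvPolynomial (Fin r) ℚ)).IsHomogeneous (N + ∑ i : Fin r, (i : ℕ)) :=
    t5b_dK_hom c k hf
  have hz : ∀ M ∈ range (r * B + 1), M ≠ N → hc M (DK c k f) = 0 := by
    intro M hM hMN
    have h2 : vd r ℚ * (DK c k f : MvPolynomial (Fin r) ℚ) =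
        ∑ M' ∈ range (r * B + 1), vd r ℚ * (hc M' (DK c k f) : MvPolynomial (Fin r) ℚ) := by
      rw [← mul_sum]
      congr 1
      conv_lhs => rw [h1]
      push_cast
      rfl
    rw [vd_mul_DK] at h2
    have h3 := congrArg (homogeneousComponent (M + ∑ i : Fin r, (i : ℕ))) h2
    rw [map_sum, homogeneousComponent_of_mem ((mem_homogeneousSubmodule _ _).2 hR),
      if_neg (by omega)] at h3
    rw [sum_eq_single_of_mem M hM] at h3
    · have h4 : (vd r ℚ * (hc M (DK c k f) : MvPolynomial (Fin r) ℚ)).IsHomogeneous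
          (M + ∑ i : Fin r, (i : ℕ)) := by
        rw [add_comm]
        exact (t5b_vd_hom r).mul (Hg_hc M _)
      rw [homogeneousComponent_of_mem ((mem_homogeneousSubmodule _ _).2 h4), if_pos rfl] at h3
      rcases mul_eq_zero.1 h3.symm with h5 | h5
      · exact absurd h5 vd_ne_zero
      · exact Subtype.ext h5
    · intro M' _ hne
      have h4 : (vd r ℚ * (hc M' (DK c k f) : MvPolynomial (Fin r) ℚ)).IsHomogeneous
          (M' + ∑ i : Fin r, (i : ℕ)) := by
        rw [add_comm]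
        exact (t5b_vd_hom r).mul (Hg_hc M' _)
      rw [homogeneousComponent_of_mem ((mem_homogeneousSubmodule _ _).2 h4), if_neg (by omega)]
  rw [h1]
  refine Hg_sum fun M hM => ?_
  by_cases h : M = N
  · subst h
    exact Hg_hc _ _
  · rw [hz M hM h]
    exact Hg_zero N

theorem DD_Hg {r : ℕ} (c u : ℚ) {N : ℕ} {f : Lam r ℚ} (hf : Hg N f) : Hg N (DD c u f) := by
  rw [DD_apply]
  exact Hg_sum fun k _ => Hg_smul _ (DK_Hg c k hf)

lemma t5b_pe_injective {r : ℕ} : Function.Injective (pe : Equiv.Perm (Fin r) → (Fin r →₀ ℕ)) := by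
  intro σ τ h
  ext i
  have := DFunLike.congr_fun h i
  simpa using this

lemma t5b_degreeOf_vd {r : ℕ} (i : Fin r) : r - 1 ≤ degreeOf i (vd r ℚ) := by
  classical
  have hr : 0 < r := i.pos
  let j : Fin r := ⟨r - 1, by omega⟩
  let τ : Equiv.Perm (Fin r) := Equiv.swap i j
  have h1 : coeff (pe τ) (vd r ℚ) = ((Equiv.Perm.sign τ : ℤ) : ℚ) := by
    rw [vd, coeff_sum, sum_eq_single τ]
    · rw [coeff_monomial, if_pos rfl]
    · intro σ _ hσ
      rw [coeff_monomial, if_neg]
      exact fun h => hσ (t5b_pe_injective h)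
    · simp
  have h2 : pe τ ∈ (vd r ℚ).support := by
    rw [mem_support_iff, h1]
    rcases Int.units_eq_one_or (Equiv.Perm.sign τ) with h | h <;> rw [h] <;> norm_num
  have h3 := monomial_le_degreeOf i h2
  have h4 : pe τ i = r - 1 := by
    rw [pe_apply]
    show ((Equiv.swap i j i : Fin r) : ℕ) = r - 1
    rw [Equiv.swap_apply_left]
  omega

lemma t5b_degreeOf_dd {r : ℕ} (c u : ℚ) {M : ℕ} (f : MvPolynomial (Fin r) ℚ) (i : Fin r)
    (hf : degreeOf i f ≤ M) : degreeOf i (dd c u f) ≤ M + (r - 1) := by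
  classical
  rw [degreeOf_le_iff]
  intro m hm
  rw [mem_support_iff, f.as_sum, map_sum, coeff_sum] at hm
  obtain ⟨a, ha, ha'⟩ := exists_ne_zero_of_sum_ne_zero hm
  rw [dd_monomial, coeff_sum] at ha'
  obtain ⟨τ, -, hτ⟩ := exists_ne_zero_of_sum_ne_zero ha'
  rw [coeff_monomial] at hτ
  have h1 : a + pe τ = m := by
    by_contra h
    exact hτ (if_neg h)
  rw [← h1]
  have h2 := (degreeOf_le_iff.1 hf) a ha
  have h3 : pe τ i ≤ r - 1 := by
    rw [pe_apply]
    have := (τ i).isLt
    omega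
  rw [Finsupp.add_apply]
  omega

theorem DD_Bx {r : ℕ} (c u : ℚ) {M : ℕ} {f : Lam r ℚ} (hf : Bx M f) : Bx M (DD c u f) := by
  intro i
  by_cases h0 : (DD c u f : MvPolynomial (Fin r) ℚ) = 0
  · rw [h0, degreeOf_zero]
    exact Nat.zero_le _
  · have h1 := t5b_degreeOf_dd c u (f : MvPolynomial (Fin r) ℚ) i (hf i)
    rw [← vd_mul_DD, degreeOf_mul_eq vd_ne_zero h0] at h1
    have h2 := t5b_degreeOf_vd i
    omega

lemma t5b_DK_zero {r : ℕ} (c : ℚ) (k : ℕ) (hk : r < k) :
    (DK c k : Lam r ℚ →ₗ[ℚ] Lam r ℚ) = 0 := by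
  apply LinearMap.ext
  intro f
  have h1 := vd_mul_DK c k f
  have h2 : (dK c k : MvPolynomial (Fin r) ℚ →ₗ[ℚ] MvPolynomial (Fin r) ℚ) = 0 := by
    rw [dK, powersetCard_eq_empty.2 (by rw [card_univ, Fintype.card_fin]; exact hk), sum_empty]
  rw [h2, LinearMap.zero_apply] at h1
  rcases mul_eq_zero.1 h1 with h3 | h3
  · exact absurd h3 vd_ne_zero
  · exact Subtype.ext h3

/-- `D_k` is a linear combination of the `D(u)` (Lagrange interpolation in `u`) -/
theorem DK_eq {r : ℕ} (c : ℚ) (k : ℕ) : ∃ (s : Finset ℚ) (w : ℚ → ℚ),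
    (DK c k : Lam r ℚ →ₗ[ℚ] Lam r ℚ) = ∑ u ∈ s, w u • DD c u := by
  classical
  by_cases hk : r < k
  · exact ⟨∅, fun _ => 0, by rw [t5b_DK_zero c k hk, sum_empty]⟩
  push Not at hk
  let s : Finset ℚ := (range (r + 1)).image (fun n : ℕ => (n : ℚ))
  have hs : #s = r + 1 := by
    rw [card_image_of_injective _ Nat.cast_injective, card_range]
  refine ⟨s, fun u => (Lagrange.basis s id u).coeff (r - k), ?_⟩
  have hkey : ∀ k' ∈ range (r + 1), ∑ u ∈ s, (Lagrange.basis s id u).coeff (r - k) *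
      u ^ (r - k') = if k' = k then 1 else 0 := by
    intro k' hk'
    have hk'' : k' ≤ r := by
      rw [mem_range] at hk'
      omega
    have h1 : (Polynomial.X ^ (r - k') : Polynomial ℚ) =
        Lagrange.interpolate s id fun i => (Polynomial.X ^ (r - k') : Polynomial ℚ).eval (id i) := by
      apply Lagrange.eq_interpolate (Set.injOn_id _)
      rw [Polynomial.degree_X_pow, hs]
      exact_mod_cast (by omega : r - k' < r + 1)
    have h2 := congrArg (fun p : Polynomial ℚ => p.coeff (r - k)) h1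
    rw [Lagrange.interpolate_apply, Polynomial.finsetSum_coeff, Polynomial.coeff_X_pow] at h2
    have h3 : ∀ u ∈ s, (Lagrange.basis s id u).coeff (r - k) * u ^ (r - k') =
        (Polynomial.C ((Polynomial.X ^ (r - k') : Polynomial ℚ).eval (id u)) *
          Lagrange.basis s id u).coeff (r - k) := by
      intro u _
      rw [Polynomial.coeff_C_mul]
      simp
      ring
    rw [sum_congr rfl h3, ← h2]
    by_cases h4 : k' = k
    · rw [if_pos h4, if_pos (by rw [h4])]
    · rw [if_neg h4, if_neg (by omega)]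
  have h1 : ∀ u : ℚ, (DD c u : Lam r ℚ →ₗ[ℚ] Lam r ℚ) =
      ∑ k' ∈ range (r + 1), u ^ (r - k') • DK c k' := fun u => rfl
  simp_rw [h1, smul_sum]
  rw [sum_comm]
  simp_rw [smul_smul, ← sum_smul]
  rw [sum_congr rfl fun k' hk' => by rw [hkey k' hk']]
  rw [sum_eq_single_of_mem k (mem_range.2 (by omega))]
  · rw [if_pos rfl, one_smul]
  · intro k' _ hne
    rw [if_neg hne, zero_smul]

end Helper87.TR
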