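import Mathlib
import Pool.Agent.Helper87.TR.Basic

/-!
# TR-8: the determinant identity behind the kernel identity

Everything takes place in a field (or domain) `K`, with points `z, t : Fin r → K` and numbers `u, n`.
Put `q(x) = ∏_j (1 - x t_j)`, `q_j(x) = ∏_{k ≠ j} (1 - x t_k)`, `p(y) = ∏_i (1 - z_i y)`,
`p_i(y) = ∏_{k ≠ i} (1 - z_k y)` (`Polynomial K`).

Let `M_z` be the matrix with entries `z_i^s ((u - n s) q(z_i) + n z_i q'(z_i))` (row `i`, column `s`),
`B_t` the matrix of the coefficients of the `q_j` (row `s`, column `j`), so that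
`∑_s x^s (B_t)_{s j} = q_j(x)`. As `q = (1 - x t_j) q_j`,
`∑_s (M_z)_{i s} (B_t)_{s j} = u q(z_i) q_j(z_i) - n z_i q_j'(z_i) q(z_i) + n z_i q'(z_i) q_j(z_i)
 = q_j(z_i)^2 (u (1 - z_i t_j) - n z_i t_j)`.
So `M_z B_t = N`, `N_{ij} = q_j(z_i)^2 (u - (u + n) z_i t_j)`, similarly `M_t B_z = N'` with
`N'_{ji} = p_i(t_j)^2 (u - (u + n) z_i t_j)`. With `1 - z_i t_j ≠ 0`,
`N_{ij} = q(z_i)^2 (...) / (1 - z_i t_j)^2` and `N'_{ji} = p(t_j)^2 (...) / (1 - z_i t_j)^2`,
`∏ q(z_i) = ∏ p(t_j)`, so `det N = det N'`.
In the same way, with the Vandermonde matrices `V_z`, `V_t`: `V_z B_t = (q_j(z_i))`,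
`V_t B_z = (p_i(t_j))` and `det (q_j(z_i)) = det (p_i(t_j))` (both are
`∏ q(z_i) det (1 / (1 - z_i t_j))`), so `det V_z det B_t = det V_t det B_z`.
Finally `det B_t ≠ 0`, because `∑_s t_i^(r-1-s) (B_t)_{s j} = ∏_{k ≠ j} (t_i - t_k)` is a diagonal matrix
with nonzero diagonal entries. From `det M_z det B_t = det M_t det B_z` and
`det V_z det B_t = det V_t det B_z` one gets `det V_t det M_z = det V_z det M_t` (multiply by `det B_t` and cancel).
-/

set_option autoImplicit false

open Finset

namespace Helper87.TR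

/-- `∏_j (1 - x t_j)` -/
noncomputable def qp {K : Type*} [CommRing K] {r : ℕ} (t : Fin r → K) : Polynomial K :=
  ∏ j : Fin r, (1 - Polynomial.X * Polynomial.C (t j))

lemma t8_sum_deriv {K : Type*} [CommRing K] (p : Polynomial K) (m : ℕ) (hm : p.natDegree < m)
    (x : K) : ∑ s ∈ range m, ((s : ℕ) : K) * p.coeff s * x ^ s = x * p.derivative.eval x := by
  conv_rhs => rw [Polynomial.as_sum_range' p m hm]
  rw [Polynomial.derivative_sum, Polynomial.eval_finsetSum, mul_sum]
  refine sum_congr rfl fun s _ => ?_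
  rw [Polynomial.derivative_monomial, Polynomial.eval_monomial]
  rcases s with _ | s
  · simp
  · push_cast
    rw [pow_succ]
    ring

lemma t8_natDegree {K : Type*} [CommRing K] {ι : Type*} (S : Finset ι) (t : ι → K) :
    (∏ j ∈ S, (1 - Polynomial.X * Polynomial.C (t j))).natDegree ≤ S.card := by
  refine (Polynomial.natDegree_prod_le _ _).trans ?_
  rw [card_eq_sum_ones]
  refine sum_le_sum fun j _ => ?_
  refine (Polynomial.natDegree_sub_le _ _).trans ?_
  rw [Polynomial.natDegree_one, max_eq_right (Nat.zero_le _)]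
  refine Polynomial.natDegree_mul_le.trans ?_
  rw [Polynomial.natDegree_C, add_zero]
  exact Polynomial.natDegree_X_le

lemma t8_natDegree_qp {K : Type*} [CommRing K] {r : ℕ} (t : Fin r → K) :
    (qp t).natDegree < r + 1 := by
  have h := t8_natDegree (univ : Finset (Fin r)) t
  rw [card_univ, Fintype.card_fin] at h
  exact Nat.lt_succ_of_le h

lemma t8_coeff_zero {K : Type*} [CommRing K] {r : ℕ} (t : Fin r → K) :
    (qp t).coeff 0 = 1 := by
  rw [Polynomial.coeff_zero_eq_eval_zero, qp, Polynomial.eval_prod]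
  simp

lemma t8_coeff_top {K : Type*} [CommRing K] {r : ℕ} (t : Fin r → K) :
    (qp t).coeff r = (-1) ^ r * ∏ j, t j := by
  have h := Polynomial.coeff_prod_of_natDegree_le (s := (univ : Finset (Fin r)))
    (fun j => (1 - Polynomial.X * Polynomial.C (t j) : Polynomial K)) 1 (by
      intro j _
      have := t8_natDegree ({j} : Finset (Fin r)) t
      rwa [prod_singleton, card_singleton] at this)
  rw [card_univ, Fintype.card_fin, mul_one] at h
  rw [qp, h]
  have h2 : ∀ j : Fin r, (1 - Polynomial.X * Polynomial.C (t j) : Polynomial K).coeff 1 =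
      (-1) * t j := by
    intro j
    rw [Polynomial.coeff_sub, Polynomial.coeff_X_mul, Polynomial.coeff_C_zero,
      Polynomial.coeff_one, if_neg one_ne_zero, zero_sub, neg_one_mul]
  rw [prod_congr rfl fun j _ => h2 j, prod_mul_distrib, prod_const, card_univ, Fintype.card_fin]

/-- `q_j = ∏_{k ≠ j} (1 - x t_k)` -/
noncomputable def t8_qj {K : Type*} [CommRing K] {r : ℕ} (t : Fin r → K) (j : Fin r) :
    Polynomial K := ∏ k ∈ univ.erase j, (1 - Polynomial.X * Polynomial.C (t k))

/-- the matrix `B_t` -/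
noncomputable def t8_B {K : Type*} [CommRing K] {r : ℕ} (t : Fin r → K) :
    Matrix (Fin r) (Fin r) K := Matrix.of fun s j => (t8_qj t j).coeff (s : ℕ)

lemma t8_qj_deg {K : Type*} [CommRing K] {r : ℕ} (t : Fin r → K) (j : Fin r) :
    (t8_qj t j).natDegree < r := by
  have h := t8_natDegree (univ.erase j) t
  rw [card_erase_of_mem (mem_univ j), card_univ, Fintype.card_fin] at h
  have := j.isLt
  exact lt_of_le_of_lt h (by omega)

lemma t8_qp_eq {K : Type*} [CommRing K] {r : ℕ} (t : Fin r → K) (j : Fin r) :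
    qp t = (1 - Polynomial.X * Polynomial.C (t j)) * t8_qj t j := by
  rw [qp, t8_qj]
  exact (mul_prod_erase univ (fun k => (1 - Polynomial.X * Polynomial.C (t k) : Polynomial K))
    (mem_univ j)).symm

lemma t8_V_mul_B {K : Type*} [CommRing K] {r : ℕ} (z t : Fin r → K) :
    Matrix.vandermonde z * t8_B t = Matrix.of fun i j => (t8_qj t j).eval (z i) := by
  ext i j
  rw [Matrix.mul_apply]
  simp only [Matrix.vandermonde_apply, t8_B, Matrix.of_apply]
  rw [Polynomial.eval_eq_sum_range' (t8_qj_deg t j), Finset.sum_range]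
  exact sum_congr rfl fun s _ => mul_comm _ _

lemma t8_M_mul_B {K : Type*} [CommRing K] {r : ℕ} (z t : Fin r → K) (u n : K) :
    (Matrix.of fun i s : Fin r => z i ^ (s : ℕ) * ((u - n * ((s : ℕ) : K)) *
        (qp t).eval (z i) + n * z i * (qp t).derivative.eval (z i))) * t8_B t =
    Matrix.of fun i j => (t8_qj t j).eval (z i) ^ 2 * (u - (u + n) * (z i * t j)) := by
  ext i j
  rw [Matrix.mul_apply]
  simp only [t8_B, Matrix.of_apply]
  have h1 : (t8_qj t j).eval (z i) = ∑ s : Fin r, (t8_qj t j).coeff (s : ℕ) * z i ^ (s : ℕ) := by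
    rw [Polynomial.eval_eq_sum_range' (t8_qj_deg t j), Finset.sum_range]
  have h2 : z i * (t8_qj t j).derivative.eval (z i) =
      ∑ s : Fin r, ((s : ℕ) : K) * (t8_qj t j).coeff (s : ℕ) * z i ^ (s : ℕ) := by
    rw [← t8_sum_deriv _ _ (t8_qj_deg t j), Finset.sum_range]
  have h3 : (qp t).eval (z i) = (1 - z i * t j) * (t8_qj t j).eval (z i) := by
    rw [t8_qp_eq t j]
    simp [mul_comm (t j)]
  have h4 : (qp t).derivative.eval (z i) = - t j * (t8_qj t j).eval (z i) +
      (1 - z i * t j) * (t8_qj t j).derivative.eval (z i) := by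
    rw [t8_qp_eq t j]
    simp [mul_comm (t j) (z i)]
  have h5 : ∑ s : Fin r, z i ^ (s : ℕ) * ((u - n * ((s : ℕ) : K)) *
        (qp t).eval (z i) + n * z i * (qp t).derivative.eval (z i)) * (t8_qj t j).coeff (s : ℕ) =
      (u * (qp t).eval (z i) + n * z i * (qp t).derivative.eval (z i)) *
        (t8_qj t j).eval (z i) -
      n * (qp t).eval (z i) * (z i * (t8_qj t j).derivative.eval (z i)) := by
    rw [h2]
    conv_rhs => rw [h1]
    rw [mul_sum, mul_sum, ← sum_sub_distrib]
    refine sum_congr rfl fun s _ => ?_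
    ring
  rw [h5, h3, h4]
  ring

lemma t8_rev {K : Type*} [CommRing K] {ι : Type*} (S : Finset ι) (t : ι → K) (y : K) :
    ∑ s ∈ range (S.card + 1), y ^ (S.card - s) *
      (∏ k ∈ S, (1 - Polynomial.X * Polynomial.C (t k))).coeff s = ∏ k ∈ S, (y - t k) := by
  classical
  induction S using Finset.induction_on with
  | empty => simp
  | insert a S ha ih =>
    rw [prod_insert ha, prod_insert ha, card_insert_of_notMem ha, ← ih]
    set P : Polynomial K := ∏ k ∈ S, (1 - Polynomial.X * Polynomial.C (t k)) with hP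
    have hd : P.natDegree ≤ S.card := t8_natDegree S t
    have hc : ∀ s, ((1 - Polynomial.X * Polynomial.C (t a)) * P).coeff s =
        P.coeff s - t a * (Polynomial.X * P).coeff s := by
      intro s
      have : (1 - Polynomial.X * Polynomial.C (t a)) * P =
          P - Polynomial.C (t a) * (Polynomial.X * P) := by ring
      rw [this, Polynomial.coeff_sub, Polynomial.coeff_C_mul]
    simp_rw [hc, mul_sub]
    rw [sum_sub_distrib, sub_mul]
    congr 1
    · rw [sum_range_succ, Polynomial.coeff_eq_zero_of_natDegree_lt (Nat.lt_succ_of_le hd),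
        mul_zero, add_zero, mul_sum]
      refine sum_congr rfl fun s hs => ?_
      rw [mem_range] at hs
      have h1 : S.card + 1 - s = (S.card - s) + 1 := by omega
      rw [h1, pow_succ]
      ring
    · rw [sum_range_succ', Polynomial.coeff_X_mul_zero, mul_zero, mul_zero, add_zero, mul_sum]
      refine sum_congr rfl fun s _ => ?_
      rw [Polynomial.coeff_X_mul, Nat.add_sub_add_right]
      ring

lemma t8_det_B_ne {K : Type*} [Field K] {r : ℕ} (t : Fin r → K) (ht : Function.Injective t) :
    (t8_B t).det ≠ 0 := by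
  classical
  have h1 : (Matrix.of fun i s : Fin r => t i ^ (r - 1 - (s : ℕ))) * t8_B t =
      Matrix.diagonal fun j => ∏ k ∈ univ.erase j, (t j - t k) := by
    ext i j
    rw [Matrix.mul_apply]
    simp only [t8_B, Matrix.of_apply]
    have hr : r = (univ.erase j).card + 1 := by
      rw [card_erase_of_mem (mem_univ j), card_univ, Fintype.card_fin]
      have := j.isLt
      omega
    have h2 := t8_rev (univ.erase j) t (t i)
    rw [← hr, Finset.sum_range] at h2
    have h3 : (univ.erase j).card = r - 1 := by omega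
    rw [h3] at h2
    change ∑ s : Fin r, t i ^ (r - 1 - (s : ℕ)) * (t8_qj t j).coeff (s : ℕ) = _
    rw [t8_qj, h2]
    by_cases hij : i = j
    · rw [hij, Matrix.diagonal_apply_eq]
    · rw [Matrix.diagonal_apply_ne _ hij]
      exact prod_eq_zero (mem_erase.2 ⟨hij, mem_univ i⟩) (sub_self _)
  have h4 := congrArg Matrix.det h1
  rw [Matrix.det_mul, Matrix.det_diagonal] at h4
  intro h5
  rw [h5, mul_zero] at h4
  have h6 : ∏ j : Fin r, ∏ k ∈ univ.erase j, (t j - t k) ≠ 0 := by
    refine prod_ne_zero_iff.2 fun j _ => prod_ne_zero_iff.2 fun k hk => ?_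
    rw [mem_erase] at hk
    exact sub_ne_zero.2 fun h => hk.1 (ht h).symm
  exact h6 h4.symm

lemma t8_qj_eval {K : Type*} [Field K] {r : ℕ} (z t : Fin r → K) (i j : Fin r)
    (h : z i * t j ≠ 1) : (t8_qj t j).eval (z i) = (qp t).eval (z i) * (1 - z i * t j)⁻¹ := by
  have h1 : (1 - z i * t j) ≠ 0 := sub_ne_zero.2 (Ne.symm h)
  rw [t8_qp_eq t j, Polynomial.eval_mul]
  simp only [Polynomial.eval_sub, Polynomial.eval_one, Polynomial.eval_mul, Polynomial.eval_X,
    Polynomial.eval_C]
  field_simp

lemma t8_prod_eval {K : Type*} [CommRing K] {r : ℕ} (z t : Fin r → K) :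
    ∏ i, (qp t).eval (z i) = ∏ j, (qp z).eval (t j) := by
  simp only [qp, Polynomial.eval_prod, Polynomial.eval_sub, Polynomial.eval_one,
    Polynomial.eval_mul, Polynomial.eval_X, Polynomial.eval_C]
  rw [prod_comm]
  exact prod_congr rfl fun j _ => prod_congr rfl fun i _ => by rw [mul_comm]

theorem det_kernel {K : Type*} [Field K] {r : ℕ} (z t : Fin r → K) (u n : K)
    (h : ∀ i j, z i * t j ≠ 1) (ht : Function.Injective t) :
    (Matrix.vandermonde t).det *
      (Matrix.of fun i s : Fin r => z i ^ (s : ℕ) * ((u - n * ((s : ℕ) : K)) *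
        (qp t).eval (z i) + n * z i * (qp t).derivative.eval (z i))).det =
    (Matrix.vandermonde z).det *
      (Matrix.of fun i s : Fin r => t i ^ (s : ℕ) * ((u - n * ((s : ℕ) : K)) *
        (qp z).eval (t i) + n * t i * (qp z).derivative.eval (t i))).det :=
  by
  classical
  set G : Matrix (Fin r) (Fin r) K :=
    Matrix.of fun i j => (u - (u + n) * (z i * t j)) * (1 - z i * t j)⁻¹ ^ 2 with hG
  set H : Matrix (Fin r) (Fin r) K := Matrix.of fun i j => (1 - z i * t j)⁻¹ with hH
  have hN : (Matrix.of fun i j : Fin r => (t8_qj t j).eval (z i) ^ 2 *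
      (u - (u + n) * (z i * t j))) =
      Matrix.diagonal (fun i => (qp t).eval (z i) ^ 2) * G := by
    ext i j
    rw [Matrix.diagonal_mul, Matrix.of_apply, t8_qj_eval z t i j (h i j), hG, Matrix.of_apply]
    ring
  have hN' : (Matrix.of fun j i : Fin r => (t8_qj z i).eval (t j) ^ 2 *
      (u - (u + n) * (t j * z i))) =
      Matrix.diagonal (fun j => (qp z).eval (t j) ^ 2) * G.transpose := by
    ext j i
    rw [Matrix.diagonal_mul, Matrix.of_apply, t8_qj_eval t z j i (by rw [mul_comm]; exact h i j),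
      Matrix.transpose_apply, hG, Matrix.of_apply, mul_comm (t j) (z i)]
    ring
  have hV : (Matrix.of fun i j : Fin r => (t8_qj t j).eval (z i)) =
      Matrix.diagonal (fun i => (qp t).eval (z i)) * H := by
    ext i j
    rw [Matrix.diagonal_mul, Matrix.of_apply, t8_qj_eval z t i j (h i j), hH, Matrix.of_apply]
  have hV' : (Matrix.of fun j i : Fin r => (t8_qj z i).eval (t j)) =
      Matrix.diagonal (fun j => (qp z).eval (t j)) * H.transpose := by
    ext j i
    rw [Matrix.diagonal_mul, Matrix.of_apply, t8_qj_eval t z j i (by rw [mul_comm]; exact h i j),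
      Matrix.transpose_apply, hH, Matrix.of_apply, mul_comm (t j) (z i)]
  have e1 := congrArg Matrix.det ((t8_M_mul_B z t u n).trans hN)
  have e2 := congrArg Matrix.det ((t8_M_mul_B t z u n).trans hN')
  have e3 := congrArg Matrix.det ((t8_V_mul_B z t).trans hV)
  have e4 := congrArg Matrix.det ((t8_V_mul_B t z).trans hV')
  rw [Matrix.det_mul, Matrix.det_mul, Matrix.det_diagonal] at e1 e2 e3 e4
  rw [Matrix.det_transpose] at e2 e4
  have e5 : ∏ i, (qp t).eval (z i) ^ 2 = ∏ j, (qp z).eval (t j) ^ 2 := by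
    rw [prod_pow, prod_pow, t8_prod_eval]
  rw [e5, ← e2] at e1
  rw [t8_prod_eval z t, ← e4] at e3
  refine mul_right_cancel₀ (t8_det_B_ne t ht) ?_
  rw [mul_assoc, e1, mul_right_comm, e3]
  ring

/-- the identity used for `e_r`: `φ_s = x^s (x q' - s q)` satisfy `∑_{s ≤ r} q_s φ_s = 0`, so
`det (φ_s(z_i))_{s < r} = e_r(t) det (φ_{s+1}(z_i))_{s < r}` (column operations; `q_0 = 1`,
`q_r = (-1)^r ∏ t_j`) -/
theorem det_kernel0 {K : Type*} [CommRing K] {r : ℕ} (z t : Fin r → K) :
    (Matrix.of fun i s : Fin r => z i ^ (s : ℕ) * (z i * (qp t).derivative.eval (z i) -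
        ((s : ℕ) : K) * (qp t).eval (z i))).det =
    (∏ j, t j) *
      (Matrix.of fun i s : Fin r => z i ^ ((s : ℕ) + 1) * (z i * (qp t).derivative.eval (z i) -
        (((s : ℕ) : K) + 1) * (qp t).eval (z i))).det :=
  by
  classical
  rcases r with _ | m
  · simp
  set q := qp t with hq
  have hdeg : q.natDegree < m + 1 + 1 := t8_natDegree_qp t
  have hphi : ∀ x : K, ∑ s ∈ range (m + 1 + 1), q.coeff s *
      (x ^ s * (x * q.derivative.eval x - ((s : ℕ) : K) * q.eval x)) = 0 := by
    intro x
    have h1 := t8_sum_deriv q _ hdeg x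
    have h2 : q.eval x = ∑ s ∈ range (m + 1 + 1), q.coeff s * x ^ s :=
      Polynomial.eval_eq_sum_range' hdeg x
    have h3 : ∑ s ∈ range (m + 1 + 1), q.coeff s *
        (x ^ s * (x * q.derivative.eval x - ((s : ℕ) : K) * q.eval x)) =
        (∑ s ∈ range (m + 1 + 1), q.coeff s * x ^ s) * (x * q.derivative.eval x) -
        (∑ s ∈ range (m + 1 + 1), ((s : ℕ) : K) * q.coeff s * x ^ s) * q.eval x := by
      rw [sum_mul, sum_mul, ← sum_sub_distrib]
      refine sum_congr rfl fun s _ => ?_
      ring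
    rw [h3, h1, ← h2]
    ring
  set C : Matrix (Fin (m + 1)) (Fin (m + 1)) K := Matrix.of fun k s =>
    (Fin.cases (- q.coeff ((k : ℕ) + 1)) (fun s' : Fin m => if (k : ℕ) = s' then 1 else 0) s : K)
    with hC
  have hmul : (Matrix.of fun i s : Fin (m + 1) => z i ^ (s : ℕ) *
      (z i * q.derivative.eval (z i) - ((s : ℕ) : K) * q.eval (z i))) =
      (Matrix.of fun i s : Fin (m + 1) => z i ^ ((s : ℕ) + 1) *
        (z i * q.derivative.eval (z i) - (((s : ℕ) : K) + 1) * q.eval (z i))) * C := by
    ext i s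
    rw [Matrix.mul_apply]
    refine Fin.cases ?_ (fun s' => ?_) s
    · simp only [hC, Matrix.of_apply, Fin.cases_zero]
      have h1 := hphi (z i)
      rw [sum_range_succ', t8_coeff_zero, Finset.sum_range] at h1
      have h2 : ∑ k : Fin (m + 1), z i ^ ((k : ℕ) + 1) *
          (z i * q.derivative.eval (z i) - (((k : ℕ) : K) + 1) * q.eval (z i)) *
            (- q.coeff ((k : ℕ) + 1)) =
          - ∑ k : Fin (m + 1), q.coeff ((k : ℕ) + 1) * (z i ^ ((k : ℕ) + 1) *
            (z i * q.derivative.eval (z i) - (((k : ℕ) + 1 : ℕ) : K) * q.eval (z i))) := by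
        rw [← sum_neg_distrib]
        refine sum_congr rfl fun k _ => ?_
        push_cast
        ring
      rw [h2]
      rw [Fin.val_zero]
      linear_combination h1
    · simp only [hC, Matrix.of_apply, Fin.cases_succ]
      rw [sum_eq_single (Fin.castSucc s')]
      · simp
      · intro k _ hk
        rw [if_neg, mul_zero]
        intro h
        apply hk
        ext
        simpa using h
      · simp
  have hdet : C.det = (-1) ^ (m + 1) * q.coeff (m + 1) := by
    rw [Matrix.det_succ_row C (Fin.last m), sum_eq_single 0]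
    · have h1 : C.submatrix (Fin.last m).succAbove (Fin.succAbove 0) = 1 := by
        ext k s
        rw [Matrix.submatrix_apply, Fin.succAbove_last, Fin.succAbove_zero, hC, Matrix.of_apply,
          Fin.cases_succ, Matrix.one_apply]
        by_cases h : k = s
        · rw [if_pos h, if_pos (by rw [h]; rfl)]
        · rw [if_neg h, if_neg]
          intro h'
          apply h
          ext
          simpa using h'
      rw [h1, Matrix.det_one, hC]
      simp only [Matrix.of_apply, Fin.cases_zero, Fin.val_last, Fin.val_zero, add_zero, mul_one]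
      ring
    · intro s _ hs
      obtain ⟨s', rfl⟩ := Fin.exists_succ_eq.2 hs
      have : C (Fin.last m) s'.succ = 0 := by
        rw [hC, Matrix.of_apply, Fin.cases_succ, if_neg]
        rw [Fin.val_last]
        have := s'.isLt
        omega
      rw [this]
      ring
    · simp
  rw [hmul, Matrix.det_mul, hdet, t8_coeff_top]
  have h1 : ((-1 : K)) ^ (m + 1) * (-1) ^ (m + 1) = 1 := by
    rw [← mul_pow]
    simp
  linear_combination (∏ j, t j) * (Matrix.of fun i s : Fin (m + 1) => z i ^ ((s : ℕ) + 1) *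
        (z i * q.derivative.eval (z i) - (((s : ℕ) : K) + 1) * q.eval (z i))).det * h1

end Helper87.TR
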