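import Mathlib
import Pool.Agent.Helper87.TR.Basic

/-!
# TR-9a: `D(u)` of a product of functions of one variable

`dd c u (∏_i f_i(X_i)) = det (ψ_s(f_i)(X_i))_{i, s}` with `ψ_s f = x^s (x f' + (u - c s) f)`.
Both sides are additive in each `f_i` (multilinear: for instance expand every `f_i` as the sum of its monomials:
`Finset.prod_univ_sum`; or induct on the number of non-monomial `f_i`), and for `f_i = v_i x^(a_i)` it is `dd_monomial`:
`dd c u (monomial a v) = ∑_τ sign τ v (∏ (a i + u - c τ i)) z^(a + τ)`, and
`ψ_s (x^a) = (a + u - c s) x^(a + s)`; the determinant is `∑_τ sign τ ∏_i (entry i (τ i))` (`Matrix.det_apply`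
and transpose).
-/

set_option autoImplicit false

open MvPolynomial Finset

namespace Helper87.TR

lemma t9a_mon {A : Type*} [CommRing A] [Algebra ℚ A] [IsDomain A] {r : ℕ} (c u : A)
    (a : Fin r → ℕ) (v : Fin r → A) :
    dd c u (∏ i, Polynomial.aeval (X i : MvPolynomial (Fin r) A) (Polynomial.monomial (a i) (v i))) =
      (Matrix.of fun i s : Fin r => Polynomial.aeval (X i : MvPolynomial (Fin r) A)
        (Polynomial.X ^ (s : ℕ) * (Polynomial.X * Polynomial.derivative
          (Polynomial.monomial (a i) (v i)) +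
          Polynomial.C (u - c * ((s : ℕ) : A)) * Polynomial.monomial (a i) (v i)))).det := by
  have h1 : ∏ i, Polynomial.aeval (X i : MvPolynomial (Fin r) A) (Polynomial.monomial (a i) (v i)) =
      monomial (fs a) (∏ i, v i) := by
    rw [monomial_fs, map_prod, ← prod_mul_distrib]
    refine prod_congr rfl fun i _ => ?_
    rw [Polynomial.aeval_monomial]
    rfl
  have h2 : ∀ (i : Fin r) (s : ℕ), Polynomial.aeval (X i : MvPolynomial (Fin r) A)
        (Polynomial.X ^ s * (Polynomial.X * Polynomial.derivative
          (Polynomial.monomial (a i) (v i)) +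
          Polynomial.C (u - c * (s : A)) * Polynomial.monomial (a i) (v i))) =
      C (v i * ((a i : A) + u - c * (s : A))) * X i ^ (a i + s) := by
    intro i s
    rw [← Polynomial.C_mul_X_pow_eq_monomial, Polynomial.derivative_C_mul_X_pow]
    have h3 : Polynomial.X * (Polynomial.C (v i * (a i : A)) * Polynomial.X ^ (a i - 1)) =
        Polynomial.C (v i * (a i : A)) * (Polynomial.X : Polynomial A) ^ (a i) := by
      rcases Nat.eq_zero_or_pos (a i) with h | h
      · rw [h]; simp
      · obtain ⟨m, hm⟩ := Nat.exists_eq_add_of_lt h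
        rw [hm]
        simp only [zero_add, Nat.add_sub_cancel]
        ring
    rw [h3]
    simp only [map_mul, map_add, map_sub, Polynomial.aeval_C, Polynomial.aeval_X, map_pow,
      algebraMap_eq]
    rw [pow_add]
    ring
  rw [h1, dd_monomial, ← Matrix.det_transpose, Matrix.det_apply']
  refine sum_congr rfl fun τ _ => ?_
  have h4 : (fs a + pe τ : Fin r →₀ ℕ) = fs fun i => a i + (τ i : ℕ) := by
    ext i; simp
  rw [h4, monomial_fs]
  simp only [Matrix.transpose_apply, Matrix.of_apply, h2, fs_apply]
  have h6 : ((Equiv.Perm.sign τ : ℤ) : MvPolynomial (Fin r) A) =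
      C (((Equiv.Perm.sign τ : ℤ) : A)) :=
    (map_intCast (C : A →+* MvPolynomial (Fin r) A) _).symm
  rw [prod_mul_distrib, ← map_prod, prod_mul_distrib, h6, map_mul, map_mul, map_mul]
  ring

theorem dd_prod {A : Type*} [CommRing A] [Algebra ℚ A] [IsDomain A] {r : ℕ} (c u : A)
    (f : Fin r → Polynomial A) :
    dd c u (∏ i, Polynomial.aeval (X i : MvPolynomial (Fin r) A) (f i)) =
      (Matrix.of fun i s : Fin r => Polynomial.aeval (X i : MvPolynomial (Fin r) A)
        (Polynomial.X ^ (s : ℕ) * (Polynomial.X * Polynomial.derivative (f i) +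
          Polynomial.C (u - c * ((s : ℕ) : A)) * f i))).det := by
  classical
  obtain ⟨N, hN⟩ : ∃ N : ℕ, ∀ i, (f i).natDegree < N := by
    refine ⟨(∑ i, (f i).natDegree) + 1, fun i => Nat.lt_succ_of_le ?_⟩
    exact single_le_sum (f := fun i => (f i).natDegree) (fun _ _ => Nat.zero_le _) (mem_univ i)
  have hf : ∀ i, f i = ∑ n ∈ range N, Polynomial.monomial n ((f i).coeff n) := fun i =>
    Polynomial.as_sum_range' (f i) N (hN i)
  have hL : ∏ i, Polynomial.aeval (X i : MvPolynomial (Fin r) A) (f i) =
      ∑ a ∈ Fintype.piFinset fun _ : Fin r => range N, ∏ i,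
        Polynomial.aeval (X i : MvPolynomial (Fin r) A)
          (Polynomial.monomial (a i) ((f i).coeff (a i))) := by
    rw [Finset.sum_prod_piFinset (range N) (fun i n =>
      Polynomial.aeval (X i : MvPolynomial (Fin r) A) (Polynomial.monomial n ((f i).coeff n)))]
    refine prod_congr rfl fun i _ => ?_
    rw [← map_sum, ← hf]
  have hR : (Matrix.of fun i s : Fin r => Polynomial.aeval (X i : MvPolynomial (Fin r) A)
        (Polynomial.X ^ (s : ℕ) * (Polynomial.X * Polynomial.derivative (f i) +
          Polynomial.C (u - c * ((s : ℕ) : A)) * f i))) =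
      fun i => ∑ n ∈ range N, fun s : Fin r => Polynomial.aeval (X i : MvPolynomial (Fin r) A)
        (Polynomial.X ^ (s : ℕ) * (Polynomial.X * Polynomial.derivative
          (Polynomial.monomial n ((f i).coeff n)) +
          Polynomial.C (u - c * ((s : ℕ) : A)) * Polynomial.monomial n ((f i).coeff n))) := by
    funext i s
    rw [Finset.sum_apply, ← map_sum, Matrix.of_apply, ← mul_sum, sum_add_distrib, ← mul_sum,
      ← mul_sum, ← Polynomial.derivative_sum, ← hf]
  rw [hL, map_sum, hR]
  have h5 := (Matrix.detRowAlternating (n := Fin r)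
    (R := MvPolynomial (Fin r) A)).toMultilinearMap.map_sum_finset
    (fun i n => fun s : Fin r => Polynomial.aeval (X i : MvPolynomial (Fin r) A)
        (Polynomial.X ^ (s : ℕ) * (Polynomial.X * Polynomial.derivative
          (Polynomial.monomial n ((f i).coeff n)) +
          Polynomial.C (u - c * ((s : ℕ) : A)) * Polynomial.monomial n ((f i).coeff n))))
    (fun _ => range N)
  refine Eq.trans ?_ h5.symm
  refine sum_congr rfl fun a _ => ?_
  exact t9a_mon c u a fun i => (f i).coeff (a i)

end Helper87.TR
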