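import Mathlib
import Pool.Agent.Helper87.TR.Basic

/-!
# TR-9b: exchange of the two sets of variables

`sw` exchanges the variables `z` (outer) and `t` (inner). `coeff_sw`: on monomials. All the others: by additivity on
`C (monomial b v) * monomial a 1 = monomial a (monomial b v)`, or by comparing coefficients with `coeff_sw`,
`coeff_cw`; the integers `a i`, `τ i` which occur in `dd` are the same, and `C` is a ring homomorphism.
`sw_kp`: `commAlgEquiv_X`, `commAlgEquiv_C`, and `Finset.prod_comm`.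
-/

set_option autoImplicit false

open MvPolynomial Finset

namespace Helper87.TR

/-- exchange of the variables -/
noncomputable def sw (r : ℕ) : MvPolynomial (Fin r) (MvPolynomial (Fin r) ℚ) ≃ₐ[ℚ]
    MvPolynomial (Fin r) (MvPolynomial (Fin r) ℚ) := commAlgEquiv ℚ (Fin r) (Fin r)

variable {r : ℕ}

lemma t9b_sw_C (p : MvPolynomial (Fin r) ℚ) : sw r (C p) = map C p := commAlgEquiv_C p

lemma t9b_sw_X (i : Fin r) : sw r (X i) = C (X i) := commAlgEquiv_X i

lemma t9b_sw_C_X (i : Fin r) : sw r (C (X i)) = X i := commAlgEquiv_C_X i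

lemma t9b_sw_monomial (b : Fin r →₀ ℕ) (p : MvPolynomial (Fin r) ℚ) :
    sw r (monomial b p) = map C p * C (monomial b 1) := by
  have h : (monomial b p : MvPolynomial (Fin r) (MvPolynomial (Fin r) ℚ)) =
      C p * ∏ i, X i ^ b i := by
    have := monomial_fs (R := MvPolynomial (Fin r) ℚ) (fun i => b i) p
    rwa [fs_coe] at this
  have h2 : (monomial b 1 : MvPolynomial (Fin r) ℚ) = ∏ i, X i ^ b i := by
    have := monomial_fs (R := ℚ) (fun i => b i) 1
    rwa [fs_coe, C_1, one_mul] at this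
  rw [h, map_mul, map_prod, t9b_sw_C, h2, map_prod]
  simp_rw [map_pow, t9b_sw_X]

theorem coeff_sw (f : MvPolynomial (Fin r) (MvPolynomial (Fin r) ℚ)) (a b : Fin r →₀ ℕ) :
    coeff b (coeff a (sw r f)) = coeff a (coeff b f) := by
  classical
  induction f using MvPolynomial.induction_on' with
  | monomial d p =>
    rw [t9b_sw_monomial, mul_comm, coeff_C_mul, coeff_map, mul_comm, C_mul_monomial, mul_one,
      coeff_monomial, coeff_monomial]
    by_cases h : d = b
    · rw [if_pos h, if_pos h]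
    · rw [if_neg h, if_neg h, coeff_zero]
  | add p q hp hq =>
    simp only [map_add, coeff_add, hp, hq]

theorem sw_sw (f : MvPolynomial (Fin r) (MvPolynomial (Fin r) ℚ)) : sw r (sw r f) = f := by
  ext a b
  rw [coeff_sw, coeff_sw]

theorem sw_kp (n : ℕ) : sw r (kp r n) = kp r n := by
  have h : sw r (kp r n) = ∏ i : Fin r, ∏ j : Fin r, (1 - C (X i) * X j) ^ n := by
    rw [kp, map_prod]
    refine prod_congr rfl fun i _ => ?_
    rw [map_prod]
    refine prod_congr rfl fun j _ => ?_
    rw [map_pow, map_sub, map_one, map_mul, t9b_sw_X, t9b_sw_C_X]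
  rw [h, prod_comm, kp]
  simp_rw [mul_comm (C _)]

theorem sw_C_vd : sw r (C (vd r ℚ)) = vd r (MvPolynomial (Fin r) ℚ) := by
  rw [t9b_sw_C, vd, vd, map_sum]
  refine sum_congr rfl fun τ _ => ?_
  rw [map_monomial]
  simp

lemma t9b_sw_mm (a b : Fin r →₀ ℕ) (v : ℚ) :
    sw r (monomial b (monomial a v)) = monomial a (monomial b v) := by
  rw [t9b_sw_monomial, map_monomial, mul_comm, C_mul_monomial, mul_comm, C_mul_monomial, mul_one]

lemma t9b_cw_monomial {A B : Type*} [CommRing A] [CommRing B] [Algebra ℚ A] [Algebra ℚ B]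
    (φ : A →ₗ[ℚ] B) (a : Fin r →₀ ℕ) (v : A) : cw φ (monomial a v) = monomial a (φ v) := by
  classical
  ext b
  rw [coeff_cw, coeff_monomial, coeff_monomial]
  by_cases h : a = b
  · rw [if_pos h, if_pos h]
  · rw [if_neg h, if_neg h, map_zero]

lemma t9b_ext {M : Type*} [AddCommMonoid M]
    (S T : MvPolynomial (Fin r) (MvPolynomial (Fin r) ℚ) →+ M)
    (h : ∀ (a b : Fin r →₀ ℕ) (v : ℚ), S (monomial a (monomial b v)) = T (monomial a (monomial b v)))
    (f : MvPolynomial (Fin r) (MvPolynomial (Fin r) ℚ)) : S f = T f := by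
  induction f using MvPolynomial.induction_on' with
  | monomial a p =>
    induction p using MvPolynomial.induction_on' with
    | monomial b v => exact h a b v
    | add p q hp hq => rw [map_add (monomial a), map_add, map_add, hp, hq]
  | add p q hp hq => rw [map_add, map_add, hp, hq]

theorem cw_dd (c u : ℚ) (f : MvPolynomial (Fin r) (MvPolynomial (Fin r) ℚ)) :
    cw (dd c u) f = sw r (dd (C c) (C u) (sw r f)) := by
  refine t9b_ext (cw (dd c u)).toAddMonoidHom
    ((sw r).toRingEquiv.toAddEquiv.toAddMonoidHom.comp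
      ((dd (C c) (C u)).toAddMonoidHom.comp (sw r).toRingEquiv.toAddEquiv.toAddMonoidHom))
    (fun a b v => ?_) f
  change cw (dd c u) (monomial a (monomial b v)) =
    sw r (dd (C c) (C u) (sw r (monomial a (monomial b v))))
  rw [t9b_cw_monomial, t9b_sw_mm, dd_monomial, dd_monomial, map_sum, map_sum]
  refine sum_congr rfl fun τ _ => ?_
  have h : (monomial a v : MvPolynomial (Fin r) ℚ) *
      (((Equiv.Perm.sign τ : ℤ) : MvPolynomial (Fin r) ℚ) *
        ∏ i : Fin r, ((b i : MvPolynomial (Fin r) ℚ) + C u -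
          C c * ((τ i : ℕ) : MvPolynomial (Fin r) ℚ))) =
      monomial a (v * (((Equiv.Perm.sign τ : ℤ) : ℚ) *
        ∏ i : Fin r, ((b i : ℚ) + u - c * ((τ i : ℕ) : ℚ)))) := by
    have h1 : (((Equiv.Perm.sign τ : ℤ) : MvPolynomial (Fin r) ℚ) *
        ∏ i : Fin r, ((b i : MvPolynomial (Fin r) ℚ) + C u -
          C c * ((τ i : ℕ) : MvPolynomial (Fin r) ℚ))) =
        C (((Equiv.Perm.sign τ : ℤ) : ℚ) *
        ∏ i : Fin r, ((b i : ℚ) + u - c * ((τ i : ℕ) : ℚ))) := by
      simp
    rw [h1, mul_comm, C_mul_monomial, mul_comm]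
  rw [h, t9b_sw_mm]

theorem cw_pE (f : MvPolynomial (Fin r) (MvPolynomial (Fin r) ℚ)) :
    cw (pE r ℚ) f = sw r (pE r (MvPolynomial (Fin r) ℚ) (sw r f)) := by
  refine t9b_ext (cw (pE r ℚ)).toAddMonoidHom
    ((sw r).toRingEquiv.toAddEquiv.toAddMonoidHom.comp
      ((pE r (MvPolynomial (Fin r) ℚ)).toAddMonoidHom.comp
        (sw r).toRingEquiv.toAddEquiv.toAddMonoidHom))
    (fun a b v => ?_) f
  change cw (pE r ℚ) (monomial a (monomial b v)) =
    sw r (pE r (MvPolynomial (Fin r) ℚ) (sw r (monomial a (monomial b v))))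
  rw [t9b_cw_monomial, t9b_sw_mm, pE_apply, pE_apply, map_sum, map_sum]
  refine sum_congr rfl fun i _ => ?_
  rw [pderiv_monomial, pderiv_monomial]
  have h : (monomial a v : MvPolynomial (Fin r) ℚ) * (b i : MvPolynomial (Fin r) ℚ) =
      monomial a (v * (b i : ℚ)) := by
    have h1 : (b i : MvPolynomial (Fin r) ℚ) = C (b i : ℚ) := by simp
    rw [h1, mul_comm, C_mul_monomial, mul_comm]
  rw [h, t9b_sw_mm]

theorem cw_pF (x : ℚ) (f : MvPolynomial (Fin r) (MvPolynomial (Fin r) ℚ)) :
    cw (pF x) f = sw r (pF (C x) (sw r f)) := by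
  refine t9b_ext (cw (pF x)).toAddMonoidHom
    ((sw r).toRingEquiv.toAddEquiv.toAddMonoidHom.comp
      ((pF (C x)).toAddMonoidHom.comp
        (sw r).toRingEquiv.toAddEquiv.toAddMonoidHom))
    (fun a b v => ?_) f
  change cw (pF x) (monomial a (monomial b v)) =
    sw r (pF (C x) (sw r (monomial a (monomial b v))))
  rw [t9b_cw_monomial, t9b_sw_mm, pF_apply, pF_apply, map_sum, map_sum]
  refine sum_congr rfl fun i _ => ?_
  rw [pderiv_monomial, pderiv_monomial]
  have h : (monomial a v : MvPolynomial (Fin r) ℚ) * (b i : MvPolynomial (Fin r) ℚ) =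
      monomial a (v * (b i : ℚ)) := by
    have h1 : (b i : MvPolynomial (Fin r) ℚ) = C (b i : ℚ) := by simp
    rw [h1, mul_comm, C_mul_monomial, mul_comm]
  have h2 : sw r (X i ^ 2 * (monomial (b - Finsupp.single i 1)) ((monomial a) (v * (b i : ℚ)))) =
      monomial a (X i ^ 2 * monomial (b - Finsupp.single i 1) (v * (b i : ℚ))) := by
    rw [map_mul (sw r), map_pow (sw r), t9b_sw_X, t9b_sw_mm, ← map_pow C, C_mul_monomial]
  have h3 : sw r (C (C x) * (X i * (monomial b) ((monomial a) v))) =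
      monomial a (C x * (X i * monomial b v)) := by
    rw [map_mul (sw r), map_mul (sw r), t9b_sw_X, t9b_sw_mm, t9b_sw_C, map_C, C_mul_monomial,
      C_mul_monomial]
  rw [h, map_add (sw r), h2, h3, map_add (monomial a)]

end Helper87.TR
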