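import Mathlib
import Pool.Agent.Helper87.TR.St.T8
import Pool.Agent.Helper87.TR.St.T9a
import Pool.Agent.Helper87.TR.St.T9b

/-!
# TR-9: `D_z(u) K = D_t(u) K` and `D_z(0) K = e_r(z) e_r(t) D_z(-n) K` for `K = ∏ (1 - z_i t_j)^n`

`kp r n` is `K` as a polynomial in `z` over `A = MvPolynomial (Fin r) ℚ` (the variables `t`).

* `kp r n = ∏_i aeval (X i) (q^n)`, `q = qp (fun j => X j) : Polynomial A` (`qp` is in T8). By `dd_prod` and
  `(q^n)' = n q^(n-1) q'`, for `n ≥ 1`,
  `dd n (C u) K = (∏_i q(X_i)^(n-1)) det [X_i^s ((u - n s) q(X_i) + n X_i q'(X_i))]`. (For `n = 0` everything is easy: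
  `K = 1`, `dd 0 u 1 = u ^ r vd`.)
* `kp_DD`: by `cw_dd`, `sw_kp`, `sw_C_vd` the right side is `sw` of the left side. The product `∏ q(X_i)^(n-1)` is
  invariant under `sw`, and `C vd * det [..]`, with `C vd` the Vandermonde determinant of the `t_j = C (X j)`
  (`vd_eq_det`), is invariant by `det_kernel`, used in the fraction field of `MvPolynomial (Fin r) A` with
  `z_i = X_i`, `t_j = C (X_j)` (the fraction field embedding is injective).
* `kp_DD0`: with `det_kernel0`: `u = 0` gives `n^r ∏ q(X_i)^(n-1) det [φ_s(X_i)]`, `φ_s = x^s (x q' - s q)`, and for `u = -n`: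
  `X_i ψ_s(q^n)(X_i) = n q^(n-1) φ_{s+1}(X_i)`, so `(∏ X_i) * dd n (-n) K = n^r ∏ q(X_i)^(n-1) det [φ_{s+1}(X_i)]`.
* `kp_FF`: `∂_{z_i} K = -n ∑_j t_j K / (1 - z_i t_j)` etc.; `F_z K = E_t K`: with `x = -rn`,
  `∑_i (z_i^2 ∂_{z_i} K + x z_i K) = -n ∑_{i,j} z_i^2 t_j K / (1 - z_i t_j) - r n ∑ z_i K` and
  `z_i^2 t_j / (1 - z_i t_j) = -z_i + z_i / (1 - z_i t_j)`, so it is `-n ∑_{i,j} z_i K / (1 - z_i t_j) = ∑_j ∂_{t_j} K`
  (write `K / (1 - z_i t_j)` as the product with one factor fewer: `K_{ij}` with `K = (1 - z_i t_j) K_{ij}`;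
  `Derivation.leibniz_prod` or similar). Use `cw_pE`, `sw_kp`. `kp_EE` follows from `kp_FF` by applying `sw` (`cw_pF`).
-/

set_option autoImplicit false

open MvPolynomial Finset

namespace Helper87.TR

/-- the matrix of `det_kernel` -/
noncomputable def t9_G {K : Type*} [CommRing K] {r : ℕ} (z t : Fin r → K) (u n : K) :
    Matrix (Fin r) (Fin r) K :=
  Matrix.of fun i s : Fin r => z i ^ (s : ℕ) * ((u - n * ((s : ℕ) : K)) *
        (qp t).eval (z i) + n * z i * (qp t).derivative.eval (z i))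

lemma t9_qp_map {K L : Type*} [CommRing K] [CommRing L] (f : K →+* L) {r : ℕ} (t : Fin r → K) :
    (qp t).map f = qp fun j => f (t j) := by
  rw [qp, qp, Polynomial.map_prod]
  refine prod_congr rfl fun j _ => ?_
  simp

lemma t9_G_map {K L : Type*} [CommRing K] [CommRing L] (f : K →+* L) {r : ℕ} (z t : Fin r → K)
    (u n : K) : f (t9_G z t u n).det = (t9_G (fun i => f (z i)) (fun j => f (t j)) (f u) (f n)).det := by
  rw [RingHom.map_det]
  congr 1
  ext1 i s
  rw [RingHom.mapMatrix_apply, Matrix.map_apply, t9_G, t9_G, Matrix.of_apply, Matrix.of_apply,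
    ← t9_qp_map, Polynomial.derivative_map, Polynomial.eval_map_apply, Polynomial.eval_map_apply]
  simp only [map_mul, map_pow, map_add, map_sub, map_natCast]

lemma t9_vd_map {K L : Type*} [CommRing K] [CommRing L] (f : K →+* L) {r : ℕ} (z : Fin r → K) :
    f (Matrix.vandermonde z).det = (Matrix.vandermonde fun i => f (z i)).det := by
  rw [RingHom.map_det]
  congr 1
  ext1 i s
  simp [Matrix.vandermonde_apply]

/-- the variables `t` -/
noncomputable abbrev t9_t (r : ℕ) (j : Fin r) : MvPolynomial (Fin r) (MvPolynomial (Fin r) ℚ) :=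
  C (X j)

/-- the variables `z` -/
noncomputable abbrev t9_z (r : ℕ) (j : Fin r) : MvPolynomial (Fin r) (MvPolynomial (Fin r) ℚ) :=
  X j

lemma t9_key (r : ℕ) (u n : MvPolynomial (Fin r) (MvPolynomial (Fin r) ℚ)) :
    (Matrix.vandermonde (t9_t r)).det * (t9_G (t9_z r) (t9_t r) u n).det =
      (Matrix.vandermonde (t9_z r)).det * (t9_G (t9_t r) (t9_z r) u n).det := by
  set F := FractionRing (MvPolynomial (Fin r) (MvPolynomial (Fin r) ℚ)) with hF
  have hinj : Function.Injective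
      (algebraMap (MvPolynomial (Fin r) (MvPolynomial (Fin r) ℚ)) F) :=
    IsFractionRing.injective _ _
  apply hinj
  rw [map_mul, map_mul, t9_vd_map, t9_vd_map, t9_G_map, t9_G_map]
  refine det_kernel _ _ _ _ ?_ ?_
  · intro i j h
    rw [← map_mul, ← map_one (algebraMap (MvPolynomial (Fin r) (MvPolynomial (Fin r) ℚ)) F)] at h
    have h1 := congrArg constantCoeff (hinj h)
    simp [t9_z] at h1
  · intro i j h
    have h1 := hinj h
    exact MvPolynomial.X_injective (C_injective _ _ h1)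

lemma t9_kp (r n : ℕ) : kp r n = ∏ i, Polynomial.aeval
    (X i : MvPolynomial (Fin r) (MvPolynomial (Fin r) ℚ))
      ((qp fun j : Fin r => (X j : MvPolynomial (Fin r) ℚ)) ^ n) := by
  rw [kp]
  refine prod_congr rfl fun i _ => ?_
  rw [map_pow, qp, map_prod, prod_pow]
  congr 1
  refine prod_congr rfl fun j _ => ?_
  rw [map_sub, map_one, map_mul, Polynomial.aeval_X, Polynomial.aeval_C]
  rfl

lemma t9_aeval (r : ℕ) (p : Polynomial (MvPolynomial (Fin r) ℚ)) (i : Fin r) :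
    Polynomial.aeval (X i : MvPolynomial (Fin r) (MvPolynomial (Fin r) ℚ)) p =
      (p.map C).eval (t9_z r i) := by
  rw [Polynomial.eval_map]
  rfl

lemma t9_aeval_q (r : ℕ) (i : Fin r) :
    Polynomial.aeval (X i : MvPolynomial (Fin r) (MvPolynomial (Fin r) ℚ))
      (qp fun j : Fin r => (X j : MvPolynomial (Fin r) ℚ)) = (qp (t9_t r)).eval (t9_z r i) := by
  rw [t9_aeval, t9_qp_map]

lemma t9_aeval_q' (r : ℕ) (i : Fin r) :
    Polynomial.aeval (X i : MvPolynomial (Fin r) (MvPolynomial (Fin r) ℚ))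
      (Polynomial.derivative (qp fun j : Fin r => (X j : MvPolynomial (Fin r) ℚ))) =
      (Polynomial.derivative (qp (t9_t r))).eval (t9_z r i) := by
  rw [t9_aeval, ← Polynomial.derivative_map, t9_qp_map]

lemma t9_dd (r m : ℕ) (u : MvPolynomial (Fin r) ℚ) :
    dd ((m + 1 : ℕ) : MvPolynomial (Fin r) ℚ) u (kp r (m + 1)) =
      kp r m * (t9_G (t9_z r) (t9_t r) (C u) ((m + 1 : ℕ) :
        MvPolynomial (Fin r) (MvPolynomial (Fin r) ℚ))).det := by
  have h := dd_prod ((m + 1 : ℕ) : MvPolynomial (Fin r) ℚ) u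
    (fun _ : Fin r => (qp fun j : Fin r => (X j : MvPolynomial (Fin r) ℚ)) ^ (m + 1))
  rw [← t9_kp] at h
  rw [h, t9_kp r m, ← Matrix.det_mul_column]
  congr 1
  ext1 i s
  rw [Matrix.of_apply, Matrix.of_apply, t9_G, Matrix.of_apply, ← t9_aeval_q, ← t9_aeval_q',
    Polynomial.derivative_pow, Nat.add_sub_cancel]
  simp only [map_mul, map_pow, map_add, map_sub, Polynomial.aeval_X, Polynomial.aeval_C,
    algebraMap_eq, map_natCast]
  ring

lemma t9_sw_G (r : ℕ) (u : ℚ) (n : ℕ) : sw r (t9_G (t9_z r) (t9_t r) (C (C u)) (n :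
        MvPolynomial (Fin r) (MvPolynomial (Fin r) ℚ))).det =
        (t9_G (t9_t r) (t9_z r) (C (C u)) (n :
        MvPolynomial (Fin r) (MvPolynomial (Fin r) ℚ))).det := by
  have h4 := t9_G_map (sw r : MvPolynomial (Fin r) (MvPolynomial (Fin r) ℚ) →+*
    MvPolynomial (Fin r) (MvPolynomial (Fin r) ℚ)) (t9_z r) (t9_t r) (C (C u)) (n :
    MvPolynomial (Fin r) (MvPolynomial (Fin r) ℚ))
  refine h4.trans ?_
  have e1 : (fun i => (sw r : MvPolynomial (Fin r) (MvPolynomial (Fin r) ℚ) →+*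
    MvPolynomial (Fin r) (MvPolynomial (Fin r) ℚ)) (t9_z r i)) = t9_t r := by
    funext i
    exact t9b_sw_X i
  have e2 : (fun i => (sw r : MvPolynomial (Fin r) (MvPolynomial (Fin r) ℚ) →+*
    MvPolynomial (Fin r) (MvPolynomial (Fin r) ℚ)) (t9_t r i)) = t9_z r := by
    funext i
    exact t9b_sw_C_X i
  have e3 : (sw r : MvPolynomial (Fin r) (MvPolynomial (Fin r) ℚ) →+*
    MvPolynomial (Fin r) (MvPolynomial (Fin r) ℚ)) (C (C u)) = C (C u) := by
    have := t9b_sw_C (r := r) (C u)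
    rw [map_C] at this
    exact this
  rw [e1, e2, e3, map_natCast]

lemma t9_leib {ι R A : Type*} [DecidableEq ι] [CommRing R] [CommRing A] [Algebra R A]
    (D : Derivation R A A) (s : Finset ι) (f : ι → A) :
    D (∏ i ∈ s, f i) = ∑ i ∈ s, (∏ j ∈ s.erase i, f j) * D (f i) := by
  induction s using Finset.induction_on with
  | empty => simp
  | insert a s ha ih =>
    rw [prod_insert ha, Derivation.leibniz, ih, sum_insert ha, erase_insert ha, smul_eq_mul,
      smul_eq_mul, mul_sum, add_comm]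
    congr 1
    refine sum_congr rfl fun i hi => ?_
    have hia : a ≠ i := fun h => ha (h ▸ hi)
    rw [erase_insert_of_ne hia, prod_insert (fun h => ha (mem_of_mem_erase h)), mul_assoc]

lemma t9_G0 {K : Type*} [CommRing K] {r : ℕ} (z t : Fin r → K) (n : K) :
    (t9_G z t 0 n).det = (∏ j, t j) * ((∏ i, z i) * (t9_G z t (-n) n).det) := by
  have h1 : t9_G z t 0 n = n • (Matrix.of fun i s : Fin r => z i ^ (s : ℕ) * (z i *
      (qp t).derivative.eval (z i) - ((s : ℕ) : K) * (qp t).eval (z i))) := by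
    ext1 i s
    rw [Matrix.smul_apply, t9_G, Matrix.of_apply, Matrix.of_apply, smul_eq_mul]
    ring
  have h2 : (∏ i, z i) * (t9_G z t (-n) n).det =
      (n • (Matrix.of fun i s : Fin r => z i ^ ((s : ℕ) + 1) * (z i *
      (qp t).derivative.eval (z i) - (((s : ℕ) : K) + 1) * (qp t).eval (z i)))).det := by
    rw [← Matrix.det_mul_column]
    refine congrArg Matrix.det ?_
    ext1 i s
    rw [Matrix.smul_apply, t9_G, Matrix.of_apply, Matrix.of_apply, Matrix.of_apply, smul_eq_mul]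
    ring
  rw [h2, h1, Matrix.det_smul, Matrix.det_smul, det_kernel0]
  ring

lemma t9_one (r : ℕ) (u : MvPolynomial (Fin r) ℚ) :
    dd ((0 : ℕ) : MvPolynomial (Fin r) ℚ) u (kp r 0) =
      C (u ^ r) * vd r (MvPolynomial (Fin r) ℚ) := by
  have h : kp r 0 = monomial 0 1 := by
    rw [kp]
    simp
  rw [h, dd_monomial, vd, mul_sum]
  refine sum_congr rfl fun τ _ => ?_
  rw [C_mul_monomial, zero_add]
  congr 1
  simp [mul_comm]

theorem kp_DD (r n : ℕ) (u : ℚ) :
    C (vd r ℚ) * dd (n : MvPolynomial (Fin r) ℚ) (C u) (kp r n) =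
      vd r (MvPolynomial (Fin r) ℚ) * cw (dd (n : ℚ) u) (kp r n) := by
  have hn : C (n : ℚ) = (n : MvPolynomial (Fin r) ℚ) := map_natCast _ _
  rw [cw_dd, sw_kp, hn]
  rcases n with _ | m
  · have h6 : sw r (C (C u ^ r)) = C (C u ^ r) := by
      rw [t9b_sw_C, map_pow, map_C, map_pow]
    have h7 : sw r (vd r (MvPolynomial (Fin r) ℚ)) = C (vd r ℚ) := by
      rw [← sw_C_vd, sw_sw]
    rw [t9_one, map_mul, h6, h7, mul_left_comm, mul_left_comm (vd r (MvPolynomial (Fin r) ℚ)),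
      mul_comm (vd r (MvPolynomial (Fin r) ℚ))]
  · rw [t9_dd, map_mul, sw_kp]
    have h1 : C (vd r ℚ) = (Matrix.vandermonde (t9_t r)).det := by
      rw [vd_eq_det, t9_vd_map]
    have h2 : vd r (MvPolynomial (Fin r) ℚ) = (Matrix.vandermonde (t9_z r)).det := by
      rw [vd_eq_det]
    have h3 := t9_sw_G r u (m + 1)
    rw [h1, h2, h3]
    have h5 := t9_key r (C (C u)) ((m + 1 : ℕ) :
        MvPolynomial (Fin r) (MvPolynomial (Fin r) ℚ))
    rw [mul_left_comm, h5, mul_left_comm]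

theorem kp_DD0 (r n : ℕ) :
    dd (n : MvPolynomial (Fin r) ℚ) 0 (kp r n) =
      (∏ i, X i) * C (∏ j, X j) * dd (n : MvPolynomial (Fin r) ℚ) (-(n : MvPolynomial (Fin r) ℚ))
        (kp r n) := by
  rcases n with _ | m
  · rw [Nat.cast_zero, neg_zero, ← Nat.cast_zero, t9_one]
    rcases r with _ | r
    · simp
    · simp
  · rw [t9_dd, t9_dd, C_0, C_neg, map_natCast, t9_G0]
    have h3 : (C (∏ j, X j) : MvPolynomial (Fin r) (MvPolynomial (Fin r) ℚ)) = ∏ j, t9_t r j :=
      map_prod _ _ _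
    rw [h3]
    generalize (t9_G (t9_z r) (t9_t r) (-((m + 1 : ℕ) :
      MvPolynomial (Fin r) (MvPolynomial (Fin r) ℚ))) ((m + 1 : ℕ) :
      MvPolynomial (Fin r) (MvPolynomial (Fin r) ℚ))).det = P
    generalize (∏ j, t9_t r j) = Q
    change kp r m * (Q * ((∏ i, t9_z r i) * P)) = (∏ i, t9_z r i) * Q * (kp r m * P)
    generalize (∏ j, t9_z r j) = T
    ring

/-- the product of all factors -/
noncomputable def t9_W (r : ℕ) : MvPolynomial (Fin r) (MvPolynomial (Fin r) ℚ) :=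
  ∏ p : Fin r × Fin r, (1 - t9_z r p.1 * t9_t r p.2)

/-- the product without one factor -/
noncomputable def t9_V (r : ℕ) (p : Fin r × Fin r) : MvPolynomial (Fin r) (MvPolynomial (Fin r) ℚ) :=
  ∏ q ∈ univ.erase p, (1 - t9_z r q.1 * t9_t r q.2)

lemma t9_W_eq (r : ℕ) (p : Fin r × Fin r) : (1 - t9_z r p.1 * t9_t r p.2) * t9_V r p = t9_W r := by
  rw [t9_V, t9_W, mul_prod_erase univ (fun q : Fin r × Fin r => 1 - t9_z r q.1 * t9_t r q.2) (mem_univ p)]

lemma t9_kp_W (r n : ℕ) : kp r n = t9_W r ^ n := by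
  rw [kp, t9_W, ← univ_product_univ, prod_product, ← prod_pow]
  refine prod_congr rfl fun i _ => ?_
  rw [prod_pow]

lemma t9_pderiv_W (r : ℕ) (k : Fin r) : pderiv k (t9_W r) =
    -∑ j, t9_t r j * t9_V r (k, j) := by
  rw [t9_W, t9_leib, ← univ_product_univ, sum_product, sum_eq_single k]
  · rw [← sum_neg_distrib]
    refine sum_congr rfl fun j _ => ?_
    rw [map_sub, Derivation.leibniz, pderiv_C, pderiv_X_self, Derivation.map_one_eq_zero, t9_V,
      univ_product_univ]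
    simp only [smul_eq_mul]
    ring
  · intro i _ hik
    refine sum_eq_zero fun j _ => ?_
    rw [map_sub, Derivation.leibniz, pderiv_C, pderiv_X_of_ne hik, Derivation.map_one_eq_zero]
    simp
  · intro h
    exact absurd (mem_univ k) h

lemma t9_sw_V (r : ℕ) (i j : Fin r) : sw r (t9_V r (i, j)) = t9_V r (j, i) := by
  rw [t9_V, t9_V, map_prod]
  refine prod_bij' (fun p _ => (p.2, p.1)) (fun p _ => (p.2, p.1)) ?_ ?_ ?_ ?_ ?_
  · rintro ⟨a, b⟩ h
    simp only [mem_erase, ne_eq, Prod.mk.injEq, mem_univ, and_true] at h ⊢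
    tauto
  · rintro ⟨a, b⟩ h
    simp only [mem_erase, ne_eq, Prod.mk.injEq, mem_univ, and_true] at h ⊢
    tauto
  · intro _ _; rfl
  · intro _ _; rfl
  · rintro ⟨a, b⟩ _
    rw [map_sub, map_one, map_mul, t9b_sw_X, t9b_sw_C_X, mul_comm]

/-- `F_z K = E_t K` -/
theorem kp_FF (r n : ℕ) :
    pF (-((r : MvPolynomial (Fin r) ℚ) * n)) (kp r n) = cw (pE r ℚ) (kp r n) := by
  rw [cw_pE, sw_kp]
  rcases n with _ | m
  · have h : kp r 0 = 1 := by
      rw [kp]
      simp
    rw [h, pF_apply, pE_apply]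
    simp
  · have hW : sw r (t9_W r) = t9_W r := by
      have := sw_kp (r := r) 1
      rwa [t9_kp_W, pow_one] at this
    have hd : ∀ k : Fin r, pderiv k (t9_W r ^ (m + 1)) =
        ((m + 1 : ℕ) : MvPolynomial (Fin r) (MvPolynomial (Fin r) ℚ)) * t9_W r ^ m *
          (-∑ j, t9_t r j * t9_V r (k, j)) := by
      intro k
      rw [Derivation.leibniz_pow, t9_pderiv_W, Nat.add_sub_cancel]
      simp only [smul_eq_mul, nsmul_eq_mul]
      ring
    rw [t9_kp_W, pF_apply, pE_apply]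
    simp_rw [hd]
    rw [map_sum]
    simp only [map_mul, map_neg, map_sum, map_pow, map_natCast, t9_sw_V, t9b_sw_C_X, hW]
    have h3 : ∀ i j : Fin r, t9_z r i ^ 2 * (t9_t r j * t9_V r (i, j)) =
        t9_z r i * t9_V r (i, j) - t9_z r i * t9_W r := by
      intro i j
      rw [← t9_W_eq r (i, j)]
      ring
    have h4 : ∀ i : Fin r, t9_z r i ^ 2 * ∑ j, t9_t r j * t9_V r (i, j) =
        (∑ j, t9_z r i * t9_V r (i, j)) - (r : MvPolynomial (Fin r) (MvPolynomial (Fin r) ℚ)) *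
          (t9_z r i * t9_W r) := by
      intro i
      rw [mul_sum]
      simp_rw [h3]
      rw [sum_sub_distrib, sum_const, card_univ, Fintype.card_fin, nsmul_eq_mul]
    have h5 : ∀ i : Fin r, X i ^ 2 * (((m + 1 : ℕ) :
        MvPolynomial (Fin r) (MvPolynomial (Fin r) ℚ)) * t9_W r ^ m *
          -∑ j, t9_t r j * t9_V r (i, j)) + -((r : MvPolynomial (Fin r) (MvPolynomial (Fin r) ℚ)) *
            ((m + 1 : ℕ) : MvPolynomial (Fin r) (MvPolynomial (Fin r) ℚ))) *
              (X i * t9_W r ^ (m + 1)) =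
        ((m + 1 : ℕ) : MvPolynomial (Fin r) (MvPolynomial (Fin r) ℚ)) * t9_W r ^ m *
          -∑ j, t9_z r i * t9_V r (i, j) := by
      intro i
      have := h4 i
      linear_combination (-(((m + 1 : ℕ) : MvPolynomial (Fin r) (MvPolynomial (Fin r) ℚ)) *
        t9_W r ^ m)) * this
    rw [sum_congr rfl fun i _ => h5 i, ← mul_sum, ← mul_sum, sum_neg_distrib, sum_neg_distrib,
      sum_comm]

/-- `E_z K = F_t K`, coefficientwise in `z` -/
theorem kp_EE (r n : ℕ) :
    pE r (MvPolynomial (Fin r) ℚ) (kp r n) = cw (pF (-((r : ℚ) * n))) (kp r n) := by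
  have h := kp_FF r n
  rw [cw_pE, sw_kp] at h
  rw [cw_pF, sw_kp]
  have h1 : (C (-((r : ℚ) * n)) : MvPolynomial (Fin r) ℚ) =
      -((r : MvPolynomial (Fin r) ℚ) * n) := by
    rw [C_neg, C_mul, map_natCast, map_natCast]
  rw [h1, h, sw_sw]

end Helper87.TR
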