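import Mathlib
import Pool.Agent.Helper87.TR.St.T9
import Pool.Agent.Helper87.TR.St.T10a
import Pool.Agent.Helper87.TR.St.T5b

/-!
# TR-10: the operator `KK n` and the operators `D`, `E`, `F`

`KK n φ` is `φ ∘ ave r` applied coefficientwise to `kp r n`.
General facts: for linear maps `cw ψ (cw φ f) = cw (ψ ∘ φ) f`; `cw φ` (for `φ` with values in `ℚ`) commutes with
the operators in `z` with rational structure constants: `cw φ (dd (C c) (C u) f) = dd c u (cw φ f)`,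
`cw φ (pE f) = pE (cw φ f)`, `cw φ (pF (C x) f) = pF x (cw φ f)` (check on monomials `monomial α a`),
`cw φ ((∏ X_i) f) = (∏ X_i) cw φ f`, `cw φ (C a * f) = cw (φ ∘ mulLeft a) f`. The coefficients of `kp r n`
are symmetric, so `cw ((↑) ∘ ave r) (kp r n) = kp r n`.
* `KK_DD`. By `kp_DD`, `C vd * dd (kp) = vd_z * cw (dd n u) kp = vd_z * cw (dd n u ∘ (↑) ∘ ave) kp =
  vd_z * C vd * cw ((↑) ∘ DD n u ∘ ave) kp` (`vd_mul_DD` on the coefficients). Cancel `C vd`: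
  `dd (kp) = vd_z * cw ((↑) ∘ DD n u ∘ ave) kp`. Apply `cw (φ ∘ ave)`, use `ave_coe` and cancel `vd`.
* `KK_DK`: compare the coefficients of `u` in `KK_DD` (`DD_apply`, `DK_eq` of T5b).
* `KK_EE`, `KK_FF`: from `kp_EE`, `kp_FF`.
* `KK_DD0`: from `kp_DD0` (`ee r ℚ r = ∏ X_i`).
-/

set_option autoImplicit false

open MvPolynomial Finset

namespace Helper87.TR

section t10

lemma t10_cw_monomial {r : ℕ} {A B : Type*} [CommRing A] [CommRing B] [Algebra ℚ A] [Algebra ℚ B]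
    (φ : A →ₗ[ℚ] B) (a : Fin r →₀ ℕ) (v : A) :
    cw φ (monomial a v) = monomial a (φ v) := by
  classical
  ext b
  rw [coeff_cw, coeff_monomial, coeff_monomial]
  split_ifs <;> simp

lemma t10_cw_cw {r : ℕ} {A B D : Type*} [CommRing A] [CommRing B] [CommRing D] [Algebra ℚ A]
    [Algebra ℚ B] [Algebra ℚ D] (φ : A →ₗ[ℚ] B) (ψ : B →ₗ[ℚ] D) (f : MvPolynomial (Fin r) A) :
    cw ψ (cw φ f) = cw (ψ ∘ₗ φ) f := by
  ext b
  rw [coeff_cw, coeff_cw, coeff_cw]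
  rfl

/-- the inclusion of the symmetric polynomials -/
noncomputable def t10_inc (r : ℕ) : Lam r ℚ →ₗ[ℚ] MvPolynomial (Fin r) ℚ :=
  (symmetricSubalgebra (Fin r) ℚ).val.toLinearMap

lemma t10_inc_apply {r : ℕ} (f : Lam r ℚ) : t10_inc r f = (f : MvPolynomial (Fin r) ℚ) := rfl

lemma t10_coeff_kp_symm (r n : ℕ) (a : Fin r →₀ ℕ) : (coeff a (kp r n)).IsSymmetric := by
  intro σ
  have h : map ((rename σ : MvPolynomial (Fin r) ℚ →ₐ[ℚ] MvPolynomial (Fin r) ℚ) :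
      MvPolynomial (Fin r) ℚ →+* MvPolynomial (Fin r) ℚ) (kp r n) = kp r n := by
    rw [kp, map_prod]
    refine prod_congr rfl fun i _ => ?_
    rw [map_prod]
    rw [← Equiv.prod_comp σ (fun j : Fin r =>
      (1 - (X i : MvPolynomial (Fin r) (MvPolynomial (Fin r) ℚ)) * C (X j)) ^ n)]
    refine prod_congr rfl fun j _ => ?_
    rw [map_pow, map_sub, map_one, map_mul, map_X, map_C]
    simp
  conv_rhs => rw [← h]
  rw [coeff_map]
  rfl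

lemma t10_inc_ave {r : ℕ} (g : MvPolynomial (Fin r) ℚ) (hg : g.IsSymmetric) :
    t10_inc r (ave r g) = g := by
  have h := ave_coe (⟨g, (mem_symmetricSubalgebra _).2 hg⟩ : Lam r ℚ)
  rw [h]
  rfl

lemma t10_cw_kp {r n : ℕ} {B : Type*} [CommRing B] [Algebra ℚ B]
    (φ : MvPolynomial (Fin r) ℚ →ₗ[ℚ] B) :
    cw φ (kp r n) = cw (φ ∘ₗ t10_inc r ∘ₗ ave r) (kp r n) := by
  ext a
  rw [coeff_cw, coeff_cw]
  change φ (coeff a (kp r n)) = φ (t10_inc r (ave r (coeff a (kp r n))))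
  rw [t10_inc_ave _ (t10_coeff_kp_symm r n a)]

lemma t10_cw_congr {r n : ℕ} {B : Type*} [CommRing B] [Algebra ℚ B]
    (φ ψ : MvPolynomial (Fin r) ℚ →ₗ[ℚ] B) (h : φ ∘ₗ t10_inc r = ψ ∘ₗ t10_inc r) :
    cw φ (kp r n) = cw ψ (kp r n) := by
  rw [t10_cw_kp φ, t10_cw_kp ψ, ← LinearMap.comp_assoc, ← LinearMap.comp_assoc, h]

lemma t10_cw_map_mul {r : ℕ} (φ : MvPolynomial (Fin r) ℚ →ₗ[ℚ] ℚ) (g : MvPolynomial (Fin r) ℚ)
    (f : MvPolynomial (Fin r) (MvPolynomial (Fin r) ℚ)) :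
    cw φ (map C g * f) = g * cw φ f := by
  classical
  ext a
  rw [coeff_cw, coeff_mul, coeff_mul, map_sum]
  refine sum_congr rfl fun x _ => ?_
  rw [coeff_map, coeff_cw, ← smul_eq_C_mul, map_smul, smul_eq_mul]

lemma t10_cw_C_mul {r : ℕ} {B : Type*} [CommRing B] [Algebra ℚ B]
    (φ : MvPolynomial (Fin r) ℚ →ₗ[ℚ] B) (g : MvPolynomial (Fin r) ℚ)
    (f : MvPolynomial (Fin r) (MvPolynomial (Fin r) ℚ)) :
    cw φ (C g * f) = cw (φ ∘ₗ LinearMap.mulLeft ℚ g) f := by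
  ext a
  rw [coeff_cw, coeff_cw, coeff_C_mul]
  rfl

lemma t10_C_mul_cw {r : ℕ} (φ : MvPolynomial (Fin r) ℚ →ₗ[ℚ] MvPolynomial (Fin r) ℚ)
    (g : MvPolynomial (Fin r) ℚ) (f : MvPolynomial (Fin r) (MvPolynomial (Fin r) ℚ)) :
    cw (LinearMap.mulLeft ℚ g ∘ₗ φ) f = C g * cw φ f := by
  ext a
  rw [coeff_cw, coeff_C_mul, coeff_cw]
  rfl

lemma t10_map_vd (r : ℕ) : map C (vd r ℚ) = vd r (MvPolynomial (Fin r) ℚ) := by
  rw [vd, vd, map_sum]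
  refine sum_congr rfl fun τ _ => ?_
  rw [map_monomial]
  simp

lemma t10_dd_cw {r : ℕ} (c u : ℚ) (φ : MvPolynomial (Fin r) ℚ →ₗ[ℚ] ℚ)
    (f : MvPolynomial (Fin r) (MvPolynomial (Fin r) ℚ)) :
    dd c u (cw φ f) = cw φ (dd (C c) (C u) f) := by
  induction f using MvPolynomial.induction_on' with
  | monomial a v =>
    rw [t10_cw_monomial, dd_monomial, dd_monomial, map_sum]
    refine sum_congr rfl fun τ _ => ?_
    rw [t10_cw_monomial]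
    congr 1
    have h : (((Equiv.Perm.sign τ : ℤ) : MvPolynomial (Fin r) ℚ) *
        ∏ i : Fin r, ((a i : MvPolynomial (Fin r) ℚ) + C u - C c * ((τ i : ℕ) : MvPolynomial (Fin r) ℚ)))
        = C (((Equiv.Perm.sign τ : ℤ) : ℚ) * ∏ i : Fin r, ((a i : ℚ) + u - c * ((τ i : ℕ) : ℚ))) := by
      simp only [map_mul, map_prod, map_sub, map_add, map_natCast, map_intCast]
    rw [h, mul_comm v, ← smul_eq_C_mul, map_smul, smul_eq_mul, mul_comm]
  | add p q hp hq =>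
    rw [map_add, map_add, map_add, map_add, hp, hq]

lemma t10_pderiv_cw {r : ℕ} (φ : MvPolynomial (Fin r) ℚ →ₗ[ℚ] ℚ) (i : Fin r)
    (f : MvPolynomial (Fin r) (MvPolynomial (Fin r) ℚ)) :
    pderiv i (cw φ f) = cw φ (pderiv i f) := by
  induction f using MvPolynomial.induction_on' with
  | monomial a v =>
    rw [t10_cw_monomial, pderiv_monomial, pderiv_monomial, t10_cw_monomial]
    congr 1
    have h : v * ((a i : ℕ) : MvPolynomial (Fin r) ℚ) = ((a i : ℕ) : ℚ) • v := by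
      rw [smul_eq_C_mul, map_natCast, mul_comm]
    rw [h, map_smul, smul_eq_mul, mul_comm]
  | add p q hp hq =>
    rw [map_add, map_add, map_add, map_add, hp, hq]

lemma t10_pE_cw {r : ℕ} (φ : MvPolynomial (Fin r) ℚ →ₗ[ℚ] ℚ)
    (f : MvPolynomial (Fin r) (MvPolynomial (Fin r) ℚ)) :
    pE r ℚ (cw φ f) = cw φ (pE r (MvPolynomial (Fin r) ℚ) f) := by
  rw [pE_apply, pE_apply, map_sum]
  exact sum_congr rfl fun i _ => t10_pderiv_cw φ i f

lemma t10_pF_cw {r : ℕ} (x : ℚ) (φ : MvPolynomial (Fin r) ℚ →ₗ[ℚ] ℚ)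
    (f : MvPolynomial (Fin r) (MvPolynomial (Fin r) ℚ)) :
    pF x (cw φ f) = cw φ (pF (C x) f) := by
  rw [pF_apply, pF_apply, map_sum]
  refine sum_congr rfl fun i _ => ?_
  have h1 : (X i ^ 2 * pderiv i f : MvPolynomial (Fin r) (MvPolynomial (Fin r) ℚ)) =
      map C (X i ^ 2 : MvPolynomial (Fin r) ℚ) * pderiv i f := by
    rw [map_pow, map_X]
  have h2 : (C (C x) * (X i * f) : MvPolynomial (Fin r) (MvPolynomial (Fin r) ℚ)) =
      map C (C x * X i : MvPolynomial (Fin r) ℚ) * f := by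
    rw [map_mul, map_C, map_X, mul_assoc]
  rw [map_add, h1, h2, t10_cw_map_mul, t10_cw_map_mul, t10_pderiv_cw, mul_assoc]

lemma t10_coe_KK {r : ℕ} (n : ℕ) (φ : Lam r ℚ →ₗ[ℚ] ℚ) :
    (KK n φ : MvPolynomial (Fin r) ℚ) = cw (φ ∘ₗ ave r) (kp r n) := rfl

lemma t10_ave_inc {r : ℕ} : ave r ∘ₗ t10_inc r = LinearMap.id := by
  ext1 f
  exact ave_coe f

end t10

theorem KK_DD {r : ℕ} (n : ℕ) (u : ℚ) (φ : Lam r ℚ →ₗ[ℚ] ℚ) :
    DD (n : ℚ) u (KK n φ) = KK n (φ ∘ₗ DD (n : ℚ) u) := by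
  apply Subtype.ext
  refine mul_left_cancel₀ (vd_ne_zero (r := r) (R := ℚ)) ?_
  have hC : (C (vd r ℚ) : MvPolynomial (Fin r) (MvPolynomial (Fin r) ℚ)) ≠ 0 := by
    rw [Ne, C_eq_zero]
    exact vd_ne_zero
  have h1 : dd (C (n : ℚ)) (C u) (kp r n) =
      vd r (MvPolynomial (Fin r) ℚ) * cw (t10_inc r ∘ₗ DD (n : ℚ) u ∘ₗ ave r) (kp r n) := by
    refine mul_left_cancel₀ hC ?_
    rw [map_natCast, kp_DD, t10_cw_kp (dd (n : ℚ) u)]
    have h2 : (dd (n : ℚ) u ∘ₗ t10_inc r ∘ₗ ave r : MvPolynomial (Fin r) ℚ →ₗ[ℚ] _) =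
        LinearMap.mulLeft ℚ (vd r ℚ) ∘ₗ (t10_inc r ∘ₗ DD (n : ℚ) u ∘ₗ ave r) := by
      refine LinearMap.ext fun g => ?_
      exact (vd_mul_DD (n : ℚ) u (ave r g)).symm
    rw [h2, t10_C_mul_cw]
    ring
  rw [vd_mul_DD, t10_coe_KK, t10_dd_cw, h1, ← t10_map_vd, t10_cw_map_mul, t10_cw_cw, t10_coe_KK]
  congr 2
  have h3 : (φ ∘ₗ ave r) ∘ₗ (t10_inc r ∘ₗ DD (n : ℚ) u ∘ₗ ave r) =
      (φ ∘ₗ DD (n : ℚ) u) ∘ₗ ave r := by
    refine LinearMap.ext fun g => ?_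
    exact congrArg φ (ave_coe (DD (n : ℚ) u (ave r g)))
  rw [h3]

theorem KK_DK {r : ℕ} (n k : ℕ) (φ : Lam r ℚ →ₗ[ℚ] ℚ) :
    DK (n : ℚ) k (KK n φ) = KK n (φ ∘ₗ DK (n : ℚ) k) := by
  classical
  obtain ⟨s, w, h⟩ := DK_eq (r := r) (n : ℚ) k
  rw [h]
  clear h
  induction s using Finset.induction_on with
  | empty =>
    rw [sum_empty, LinearMap.zero_apply, LinearMap.comp_zero]
    have := KK_smul (r := r) n 0 0
    rw [zero_smul, zero_smul] at this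
    exact this.symm
  | insert a s ha ih =>
    rw [sum_insert ha, LinearMap.add_apply, ih, LinearMap.comp_add, KK_add, LinearMap.smul_apply,
      KK_DD, LinearMap.comp_smul, KK_smul]

theorem KK_EE {r : ℕ} (n : ℕ) (φ : Lam r ℚ →ₗ[ℚ] ℚ) :
    EE r ℚ (KK n φ) = KK n (φ ∘ₗ FF (-((r : ℚ) * n))) := by
  apply Subtype.ext
  rw [coe_EE, t10_coe_KK, t10_pE_cw, kp_EE, t10_cw_cw, t10_coe_KK]
  apply t10_cw_congr
  ext1 g
  change φ (ave r (pF (-((r : ℚ) * n)) (g : MvPolynomial (Fin r) ℚ))) =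
    φ (FF (-((r : ℚ) * n)) (ave r (g : MvPolynomial (Fin r) ℚ)))
  rw [ave_coe, ← coe_FF, ave_coe]

theorem KK_FF {r : ℕ} (n : ℕ) (φ : Lam r ℚ →ₗ[ℚ] ℚ) :
    FF (-((r : ℚ) * n)) (KK n φ) = KK n (φ ∘ₗ EE r ℚ) := by
  apply Subtype.ext
  have h : (C (-((r : ℚ) * n)) : MvPolynomial (Fin r) ℚ) =
      -((r : MvPolynomial (Fin r) ℚ) * n) := by
    rw [map_neg, map_mul, map_natCast, map_natCast]
  rw [coe_FF, t10_coe_KK, t10_pF_cw, h, kp_FF, t10_cw_cw, t10_coe_KK]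
  apply t10_cw_congr
  ext1 g
  change φ (ave r (pE r ℚ (g : MvPolynomial (Fin r) ℚ))) =
    φ (EE r ℚ (ave r (g : MvPolynomial (Fin r) ℚ)))
  rw [ave_coe, ← coe_EE, ave_coe]

theorem KK_DD0 {r : ℕ} (n : ℕ) (φ : Lam r ℚ →ₗ[ℚ] ℚ) :
    DD (n : ℚ) 0 (KK n φ) =
      ee r ℚ r * DD (n : ℚ) (-(n : ℚ)) (KK n (φ ∘ₗ mu (ee r ℚ r))) := by
  apply Subtype.ext
  refine mul_left_cancel₀ (vd_ne_zero (r := r) (R := ℚ)) ?_
  have hee : (ee r ℚ r : MvPolynomial (Fin r) ℚ) = ∏ i, X i := by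
    change esymm (Fin r) ℚ r = _
    rw [esymm]
    have : powersetCard r (univ : Finset (Fin r)) = {univ} := by
      have h := powersetCard_self (univ : Finset (Fin r))
      rwa [card_univ, Fintype.card_fin] at h
    rw [this, sum_singleton]
  have h0 : (C (0 : ℚ) : MvPolynomial (Fin r) ℚ) = 0 := C_0
  have hn : (C (-(n : ℚ)) : MvPolynomial (Fin r) ℚ) = -(n : MvPolynomial (Fin r) ℚ) := by
    rw [map_neg, map_natCast]
  have hX : (∏ i, X i : MvPolynomial (Fin r) (MvPolynomial (Fin r) ℚ)) =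
      map C (∏ i, X i : MvPolynomial (Fin r) ℚ) := by
    rw [map_prod]
    simp_rw [map_X]
  rw [MulMemClass.coe_mul, mul_left_comm, vd_mul_DD, vd_mul_DD, t10_coe_KK, t10_dd_cw, h0, map_natCast,
    kp_DD0, hX, mul_assoc, t10_cw_map_mul, t10_cw_C_mul, hee, t10_coe_KK]
  congr 1
  have h3 : cw ((φ ∘ₗ mu (ee r ℚ r)) ∘ₗ ave r) (kp r n) =
      cw ((φ ∘ₗ ave r) ∘ₗ LinearMap.mulLeft ℚ (∏ j, X j)) (kp r n) := by
    apply t10_cw_congr
    refine LinearMap.ext fun g => ?_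
    have h5 : ave r ((∏ j, X j) * (g : MvPolynomial (Fin r) ℚ)) =
        ee r ℚ r * ave r (g : MvPolynomial (Fin r) ℚ) := by
      rw [ave_coe, ← hee, ← MulMemClass.coe_mul, ave_coe]
    exact congrArg φ h5.symm
  rw [h3, t10_dd_cw, hn, map_natCast]

end Helper87.TR
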