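import Mathlib
import Pool.Agent.Helper87.TR.Basic

/-!
# TR-14a: the monomials in the elementary symmetric polynomials

`eM α = ∏_k (ee (k+1))^(α k)`; `co` is the inverse of `esymmAlgEquiv` (`esymmAlgHom_apply`, `X k ↦ ee (k + 1)`), so
`co (eM α) = monomial α 1`. `GG_eM`, `JJ_eM` by definition (`Module.Basis.constr_basis`). `eM_top`: `co` is bijective.
`eM_span`: write `f = ∑ v_α eM α`; the terms with `eW α ≠ N` can be dropped: take the homogeneous component of
degree `N` (`hc N`, `hc_of_Hg`, `hc_of_Hg_ne`).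
-/

set_option autoImplicit false

open MvPolynomial Finset

namespace Helper87.TR

variable {r : ℕ}

/-- monomials in the elementary symmetric polynomials -/
noncomputable def eM (α : Fin r → ℕ) : Lam r ℚ := ∏ k : Fin r, ee r ℚ ((k : ℕ) + 1) ^ α k

/-- the degree of `eM α` -/
def eW (α : Fin r → ℕ) : ℕ := ∑ k : Fin r, ((k : ℕ) + 1) * α k

lemma t14a_equiv_monomial (α : Fin r → ℕ) :
    esymmAlgEquiv (Fin r) ℚ (Fintype.card_fin r) (monomial (fs α) 1) = eM α := by
  rw [monomial_fs, C_1, one_mul, map_prod, eM]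
  refine prod_congr rfl fun k _ => ?_
  rw [map_pow]
  congr 1
  apply Subtype.ext
  change (esymmAlgHom (Fin r) ℚ r (X k) : MvPolynomial (Fin r) ℚ) = esymm (Fin r) ℚ ((k : ℕ) + 1)
  rw [esymmAlgHom_apply, aeval_X]

theorem co_eM (α : Fin r → ℕ) : co r ℚ (eM α) = monomial (fs α) 1 := by
  rw [co, ← t14a_equiv_monomial, AlgEquiv.symm_apply_apply]

theorem GG_eM (c x : ℚ) (α : Fin r → ℕ) : GG c x (eM α) = RRm c x α 1 := by
  have h : (monomial (fs α) 1 : MvPolynomial (Fin r) ℚ) = basisMonomials (Fin r) ℚ (fs α) := by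
    rw [coe_basisMonomials]
  rw [GG, LinearMap.comp_apply, AlgEquiv.toLinearMap_apply, co_eM, h,
    Module.Basis.constr_basis]
  rfl

theorem JJ_eM (c : ℚ) (α : Fin r → ℕ) : JJ c (eM α) = ev0 r ℚ ∘ₗ nabm c α := by
  have h : (monomial (fs α) 1 : MvPolynomial (Fin r) ℚ) = basisMonomials (Fin r) ℚ (fs α) := by
    rw [coe_basisMonomials]
  rw [JJ, LinearMap.comp_apply, AlgEquiv.toLinearMap_apply, co_eM, h,
    Module.Basis.constr_basis]
  rfl

theorem eM_update (α : Fin r → ℕ) (k : Fin r) :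
    eM (Function.update α k (α k + 1)) = ee r ℚ ((k : ℕ) + 1) * eM α := by
  classical
  rw [eM, eM, ← mul_prod_erase univ _ (mem_univ k), ← mul_prod_erase univ (fun j : Fin r =>
    ee r ℚ ((j : ℕ) + 1) ^ α j) (mem_univ k), Function.update_self, pow_succ, ← mul_assoc,
    mul_comm (ee r ℚ ((k : ℕ) + 1)) (ee r ℚ ((k : ℕ) + 1) ^ α k)]
  congr 1
  refine prod_congr rfl fun j hj => ?_
  rw [Function.update_of_ne (ne_of_mem_erase hj)]

lemma t14a_Hg_pow {N : ℕ} {f : Lam r ℚ} (hf : Hg N f) (m : ℕ) : Hg (N * m) (f ^ m) := by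
  induction m with
  | zero => rw [mul_zero, pow_zero]; exact Hg_one
  | succ m ih => rw [pow_succ, Nat.mul_succ]; exact Hg_mul ih hf

lemma t14a_Hg_prod {ι : Type*} (s : Finset ι) (N : ι → ℕ) (f : ι → Lam r ℚ)
    (h : ∀ i ∈ s, Hg (N i) (f i)) : Hg (∑ i ∈ s, N i) (∏ i ∈ s, f i) := by
  classical
  induction s using Finset.induction_on with
  | empty => exact Hg_one
  | insert a s ha ih =>
    rw [sum_insert ha, prod_insert ha]
    exact Hg_mul (h a (mem_insert_self _ _)) (ih fun i hi => h i (mem_insert_of_mem hi))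

theorem Hg_eM (α : Fin r → ℕ) : Hg (eW α) (eM α) :=
  t14a_Hg_prod _ _ _ fun _ _ => t14a_Hg_pow (Hg_ee _) _

theorem eM_top : Submodule.span ℚ (Set.range (eM : (Fin r → ℕ) → Lam r ℚ)) = ⊤ := by
  rw [eq_top_iff]
  intro f _
  have h : f = ∑ a ∈ (co r ℚ f).support, coeff a (co r ℚ f) • eM (fun i => a i) := by
    apply (co r ℚ).injective
    rw [map_sum]
    conv_lhs => rw [as_sum (co r ℚ f)]
    refine sum_congr rfl fun a _ => ?_
    rw [map_smul, co_eM, smul_monomial, smul_eq_mul, mul_one, fs_coe]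
  rw [h]
  exact Submodule.sum_mem _ fun a _ => Submodule.smul_mem _ _ (Submodule.subset_span ⟨_, rfl⟩)

theorem eM_span {N : ℕ} {f : Lam r ℚ} (hf : Hg N f) :
    f ∈ Submodule.span ℚ ((eM : (Fin r → ℕ) → Lam r ℚ) '' {α | eW α = N}) := by
  have key : ∀ g : Lam r ℚ, g ∈ Submodule.span ℚ (Set.range (eM : (Fin r → ℕ) → Lam r ℚ)) →
      hc N g ∈ Submodule.span ℚ ((eM : (Fin r → ℕ) → Lam r ℚ) '' {α | eW α = N}) := by
    intro g hg
    induction hg using Submodule.span_induction with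
    | mem x hx =>
      obtain ⟨α, rfl⟩ := hx
      by_cases h : eW α = N
      · have h1 : Hg N (eM α) := h ▸ Hg_eM α
        rw [hc_of_Hg h1]
        exact Submodule.subset_span ⟨α, h, rfl⟩
      · rw [hc_of_Hg_ne (Hg_eM α) h]
        exact Submodule.zero_mem _
    | zero => rw [map_zero]; exact Submodule.zero_mem _
    | add x y _ _ hx hy => rw [map_add]; exact Submodule.add_mem _ hx hy
    | smul a x _ hx => rw [map_smul]; exact Submodule.smul_mem _ _ hx
  have h := key f (by rw [eM_top]; trivial)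
  rwa [hc_of_Hg hf] at h

end Helper87.TR
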