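import Mathlib
import Pool.Agent.Helper87.TR.St.T10
import Pool.Agent.Helper87.TR.St.T14a

/-!
# TR-16: `KK n (JJ n f) = GG n (- r n) f` for every natural number `n`

By linearity and `eM_top` take `f = eM α`, so that `JJ n f = ev0 ∘ nabm n α` (`JJ_eM`), `GG n x f = RRm n x α 1` (`GG_eM`),
`x = - r n`. (Linearity of `KK` in `φ`: `KK_add`, `KK_smul`.)
`KK_DK`, `KK_FF`, `KK_EE`: `KK (φ ∘ DK) = DK (KK φ)`, `KK (φ ∘ EE) = FF x (KK φ)`. So for `A, A'` with
`KK (φ ∘ A) = A' (KK φ)` for all `φ`: `KK (φ ∘ (EE * A - A * EE)) = (A' * FF x - FF x * A') (KK φ)` (the order is reversed: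
`KK (φ ∘ EE ∘ A) = A' (KK (φ ∘ EE)) = A' FF (KK φ)`). By induction on the iteration
`KK (φ ∘ nab n k) = RR n x k (KK φ)`, then `KK (φ ∘ nabm n α) = RRm n x α (KK φ)` (the product is reversed), and
`KK ev0 = 1` (`KK_ev0`).
-/

set_option autoImplicit false

open MvPolynomial Finset

namespace Helper87.TR

/-- `A'` is the transpose of `A` with respect to the kernel -/
def t16_T {r : ℕ} (n : ℕ) (A A' : Module.End ℚ (Lam r ℚ)) : Prop :=
  ∀ φ : Lam r ℚ →ₗ[ℚ] ℚ, KK n (φ ∘ₗ A) = A' (KK n φ)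

lemma t16_T_one {r : ℕ} (n : ℕ) : t16_T (r := r) n 1 1 := fun φ => by
  rw [Module.End.one_eq_id, LinearMap.comp_id, LinearMap.id_apply]

lemma t16_T_mul {r : ℕ} {n : ℕ} {A A' B B' : Module.End ℚ (Lam r ℚ)}
    (h : t16_T n A A') (h' : t16_T n B B') : t16_T n (A * B) (B' * A') := fun φ => by
  rw [Module.End.mul_eq_comp, ← LinearMap.comp_assoc, h' (φ ∘ₗ A), h φ]
  rfl

lemma t16_T_pow {r : ℕ} {n : ℕ} {A A' : Module.End ℚ (Lam r ℚ)}
    (h : t16_T n A A') (m : ℕ) : t16_T n (A ^ m) (A' ^ m) := by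
  induction m with
  | zero => rw [pow_zero, pow_zero]; exact t16_T_one n
  | succ m ih => rw [pow_succ, pow_succ']; exact t16_T_mul ih h

lemma t16_T_smul {r : ℕ} {n : ℕ} {A A' : Module.End ℚ (Lam r ℚ)}
    (h : t16_T n A A') (a : ℚ) : t16_T n (a • A) (a • A') := fun φ => by
  rw [LinearMap.comp_smul, KK_smul, h φ]
  rfl

lemma t16_T_sub {r : ℕ} {n : ℕ} {A A' B B' : Module.End ℚ (Lam r ℚ)}
    (h : t16_T n A A') (h' : t16_T n B B') : t16_T n (A - B) (A' - B') := fun φ => by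
  have h1 : φ ∘ₗ (A - B) = φ ∘ₗ A + (-1 : ℚ) • (φ ∘ₗ B) := by
    rw [LinearMap.comp_sub, neg_one_smul, sub_eq_add_neg]
  rw [h1, KK_add, KK_smul, h φ, h' φ, LinearMap.sub_apply, neg_one_smul, sub_eq_add_neg]

lemma t16_T_iter {r : ℕ} {n : ℕ} {A A' E F : Module.End ℚ (Lam r ℚ)}
    (h : t16_T n A A') (hE : t16_T n E F) (m : ℕ) :
    t16_T n ((fun A : Module.End ℚ (Lam r ℚ) => E * A - A * E)^[m] A)
      ((fun A : Module.End ℚ (Lam r ℚ) => A * F - F * A)^[m] A') := by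
  induction m generalizing A A' with
  | zero => exact h
  | succ m ih =>
    rw [Function.iterate_succ_apply, Function.iterate_succ_apply]
    exact ih (t16_T_sub (t16_T_mul hE h) (t16_T_mul h hE))

lemma t16_T_list {r : ℕ} {n : ℕ} {ι : Type*} (l : List ι) (f g : ι → Module.End ℚ (Lam r ℚ))
    (h : ∀ i, t16_T n (f i) (g i)) : t16_T n (l.map f).prod (l.map g).reverse.prod := by
  induction l with
  | nil => exact t16_T_one n
  | cons a l ih =>
    rw [List.map_cons, List.map_cons, List.prod_cons, List.reverse_cons, List.prod_append,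
      List.prod_singleton]
    exact t16_T_mul (h a) ih

lemma t16_nab {r : ℕ} (n k : ℕ) :
    t16_T (r := r) n (nab (n : ℚ) k) (RR (n : ℚ) (-((r : ℚ) * n)) k) := by
  rw [nab, RR]
  exact t16_T_smul (t16_T_iter (fun φ => (KK_DK n k φ).symm) (fun φ => (KK_FF n φ).symm) k) _

lemma t16_nabm {r : ℕ} (n : ℕ) (α : Fin r → ℕ) :
    t16_T (r := r) n (nabm (n : ℚ) α) (RRm (n : ℚ) (-((r : ℚ) * n)) α) := by
  rw [nabm, RRm, List.ofFn_eq_map, List.ofFn_eq_map]
  exact t16_T_list _ _ _ fun k => t16_T_pow (t16_nab n _) _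

theorem KK_nab {r : ℕ} (n k : ℕ) (φ : Lam r ℚ →ₗ[ℚ] ℚ) :
    KK n (φ ∘ₗ nab (n : ℚ) k) = RR (n : ℚ) (-((r : ℚ) * n)) k (KK n φ) := by
  exact t16_nab n k φ

theorem KK_JJ {r : ℕ} (n : ℕ) (f : Lam r ℚ) :
    KK n (JJ (n : ℚ) f) = GG (n : ℚ) (-((r : ℚ) * n)) f := by
  have hf : f ∈ Submodule.span ℚ (Set.range (eM : (Fin r → ℕ) → Lam r ℚ)) := by
    rw [eM_top]; trivial
  induction hf using Submodule.span_induction with
  | mem x hx =>
    obtain ⟨α, rfl⟩ := hx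
    rw [JJ_eM, GG_eM, t16_nabm n α, KK_ev0]
  | zero =>
    rw [map_zero, map_zero]
    have := KK_smul (r := r) n 0 0
    rw [zero_smul, zero_smul] at this
    exact this
  | add x y _ _ hx hy => rw [map_add, map_add, KK_add, hx, hy]
  | smul a x _ hx => rw [map_smul, map_smul, KK_smul, hx]

end Helper87.TR
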