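import Mathlib
import Pool.Agent.Helper87.TR.Basic

/-!
# TR-1: multiplication operators from `D_k`

`(1 / k!) ad(p_1)^k D_k` is multiplication by the elementary symmetric polynomial `e_k`
(`ad(p) A = A p - p A`).

Proof. It is enough to show the corresponding identity for the operators `dK c k` before the
division by `vd` (multiplication by `e_1 = X_0 + ... + X_{r-1}` commutes with the multiplication by
`vd`; cancel `vd ≠ 0`): on `MvPolynomial (Fin r) ℚ`, with `P = LinearMap.mulLeft ℚ (∑ i, X i)`,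
`(fun A => A * P - P * A)^[k] (dK c k) = k! • mulLeft (esymm k * vd)`.
On monomials (`dS_monomial`), for `S ⊆ Fin r`:
`(dS c S) (X_l z^a) - X_l (dS c S z^a) = ∑_τ sign τ [∏_{i ∈ S} ((a + e_l) i - c τ i) -
∏_{i ∈ S} (a i - c τ i)] z^(a + e_l + τ)`, which is `0` for `l ∉ S` and
`X_l dS c (S \ {l}) z^a` for `l ∈ S` (the factor at `l` changes by `1`).
Hence `dS c S * P - P * dS c S = ∑_{l ∈ S} (mulLeft X_l) * dS c (S.erase l)`, the operators
`mulLeft X_l` commute with `P`, and by induction on `m`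
`(fun A => A * P - P * A)^[m] (dS c S) = ∑ over m-subsets T of S, m! • (mulLeft ∏_{l ∈ T} X_l) * dS c (S \ T)`.
For `m = k = |S|` this is `k! • mulLeft ((∏_{l ∈ S} X_l) * vd)` because `dS c ∅ f = vd * f`.
Sum over `S ∈ powersetCard k univ`. (Other organisations of the proof are fine.)
-/

set_option autoImplicit false

open MvPolynomial Finset

namespace Helper87.TR

lemma t1_dS_X {r : ℕ} (c : ℚ) (S : Finset (Fin r)) (l : Fin r) (a : Fin r →₀ ℕ) (v : ℚ) :
    dS c S (X l * monomial a v) - X l * dS c S (monomial a v) =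
      if l ∈ S then X l * dS c (S.erase l) (monomial a v) else 0 := by
  classical
  have h0 : (X l * monomial a v : MvPolynomial (Fin r) ℚ) = monomial (Finsupp.single l 1 + a) v := by
    rw [X, monomial_mul, one_mul]
  rw [h0]
  simp_rw [dS_monomial, mul_sum]
  have h1 : ∀ (b : Fin r →₀ ℕ) (w : ℚ), (X l * monomial b w : MvPolynomial (Fin r) ℚ) =
      monomial (Finsupp.single l 1 + b) w := by
    intro b w
    rw [X, monomial_mul, one_mul]
  simp_rw [h1]
  rw [← sum_sub_distrib]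
  by_cases hl : l ∈ S
  · rw [if_pos hl]
    refine sum_congr rfl fun τ _ => ?_
    rw [add_assoc, ← map_sub]
    congr 1
    rw [← mul_prod_erase S _ hl, ← mul_prod_erase S _ hl]
    have h2 : ∏ i ∈ S.erase l, ((((Finsupp.single l 1 + a : Fin r →₀ ℕ) i : ℕ) : ℚ) - c * ((τ i : ℕ) : ℚ)) =
        ∏ i ∈ S.erase l, (((a i : ℕ) : ℚ) - c * ((τ i : ℕ) : ℚ)) := by
      refine prod_congr rfl fun i hi => ?_
      have : l ≠ i := fun h => (mem_erase.1 hi).1 h.symm
      simp [Finsupp.single_apply, this]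
    rw [h2]
    simp only [Finsupp.add_apply, Finsupp.single_eq_same]
    push_cast
    ring
  · rw [if_neg hl]
    refine sum_eq_zero fun τ _ => ?_
    rw [add_assoc, ← map_sub]
    have h2 : ∏ i ∈ S, ((((Finsupp.single l 1 + a : Fin r →₀ ℕ) i : ℕ) : ℚ) - c * ((τ i : ℕ) : ℚ)) =
        ∏ i ∈ S, (((a i : ℕ) : ℚ) - c * ((τ i : ℕ) : ℚ)) := by
      refine prod_congr rfl fun i hi => ?_
      have : l ≠ i := fun h => hl (h ▸ hi)
      simp [Finsupp.single_apply, this]
    rw [h2, sub_self, map_zero]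

/-- the commutator with the multiplication by `e_1` on all polynomials -/
noncomputable def t1_ad (r : ℕ) (A : Module.End ℚ (MvPolynomial (Fin r) ℚ)) :
    Module.End ℚ (MvPolynomial (Fin r) ℚ) :=
  A * LinearMap.mulLeft ℚ (∑ l : Fin r, X l) - LinearMap.mulLeft ℚ (∑ l : Fin r, X l) * A

lemma t1_ad_apply {r : ℕ} (A : Module.End ℚ (MvPolynomial (Fin r) ℚ))
    (f : MvPolynomial (Fin r) ℚ) :
    t1_ad r A f = A ((∑ l : Fin r, X l) * f) - (∑ l : Fin r, X l) * A f := rfl

lemma t1_ad_dS {r : ℕ} (c : ℚ) (S : Finset (Fin r)) :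
    t1_ad r (dS c S) = ∑ l ∈ S, LinearMap.mulLeft ℚ (X l) * dS c (S.erase l) := by
  classical
  refine LinearMap.ext fun f => ?_
  induction f using MvPolynomial.induction_on' with
  | monomial a v =>
    rw [t1_ad_apply, sum_mul, map_sum, sum_mul, ← sum_sub_distrib, LinearMap.sum_apply]
    simp_rw [t1_dS_X]
    rw [← sum_filter]
    refine sum_congr (by ext; simp) fun l _ => rfl
  | add p q hp hq => rw [map_add, map_add, hp, hq]

lemma t1_ad_mul {r : ℕ} (g : MvPolynomial (Fin r) ℚ) (A : Module.End ℚ (MvPolynomial (Fin r) ℚ)) :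
    t1_ad r (LinearMap.mulLeft ℚ g * A) = LinearMap.mulLeft ℚ g * t1_ad r A := by
  refine LinearMap.ext fun f => ?_
  simp only [t1_ad_apply, Module.End.mul_apply, LinearMap.mulLeft_apply]
  ring

lemma t1_ad_sum {r : ℕ} {ι : Type*} (s : Finset ι)
    (A : ι → Module.End ℚ (MvPolynomial (Fin r) ℚ)) :
    t1_ad r (∑ i ∈ s, A i) = ∑ i ∈ s, t1_ad r (A i) := by
  rw [t1_ad, sum_mul, mul_sum, ← sum_sub_distrib]
  rfl

lemma t1_ad_smul {r : ℕ} (q : ℚ) (A : Module.End ℚ (MvPolynomial (Fin r) ℚ)) :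
    t1_ad r (q • A) = q • t1_ad r A := by
  rw [t1_ad, t1_ad, smul_mul_assoc, mul_smul_comm]
  exact (smul_sub q _ _).symm

lemma t1_count {α M : Type*} [DecidableEq α] [AddCommMonoid M] (S : Finset α) (m : ℕ)
    (f : Finset α → M) :
    ∑ T ∈ powersetCard m S, ∑ l ∈ S \ T, f (insert l T) =
      (m + 1) • ∑ T ∈ powersetCard (m + 1) S, f T := by
  have h : (m + 1) • ∑ T ∈ powersetCard (m + 1) S, f T =
      ∑ T ∈ powersetCard (m + 1) S, ∑ _l ∈ T, f T := by
    rw [smul_sum]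
    refine sum_congr rfl fun T hT => ?_
    rw [sum_const, (mem_powersetCard.1 hT).2]
  rw [h, sum_sigma', sum_sigma']
  refine sum_bij' (fun p _ => ⟨insert p.2 p.1, p.2⟩) (fun p _ => ⟨p.1.erase p.2, p.2⟩)
    ?_ ?_ ?_ ?_ ?_
  · rintro ⟨T, l⟩ h1
    simp only [mem_sigma, mem_powersetCard, mem_sdiff] at h1 ⊢
    refine ⟨⟨insert_subset h1.2.1 h1.1.1, ?_⟩, mem_insert_self _ _⟩
    rw [card_insert_of_notMem h1.2.2, h1.1.2]
  · rintro ⟨T, l⟩ h1
    simp only [mem_sigma, mem_powersetCard, mem_sdiff] at h1 ⊢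
    refine ⟨⟨(erase_subset _ _).trans h1.1.1, ?_⟩, h1.1.1 h1.2, notMem_erase _ _⟩
    rw [card_erase_of_mem h1.2, h1.1.2]
    rfl
  · rintro ⟨T, l⟩ h1
    simp only [mem_sigma, mem_powersetCard, mem_sdiff] at h1 ⊢
    rw [erase_insert h1.2.2]
  · rintro ⟨T, l⟩ h1
    simp only [mem_sigma, mem_powersetCard, mem_sdiff] at h1 ⊢
    rw [insert_erase h1.2]
  · rintro ⟨T, l⟩ h1
    rfl

lemma t1_iter {r : ℕ} (c : ℚ) (S : Finset (Fin r)) (m : ℕ) :
    (t1_ad r)^[m] (dS c S) = (m.factorial : ℚ) • ∑ T ∈ powersetCard m S,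
      LinearMap.mulLeft ℚ (∏ l ∈ T, X l) * dS c (S \ T) := by
  classical
  induction m with
  | zero =>
    rw [Function.iterate_zero, id_eq, powersetCard_zero, sum_singleton, sdiff_empty, prod_empty,
      Nat.factorial_zero, Nat.cast_one, one_smul]
    refine LinearMap.ext fun f => ?_
    rw [Module.End.mul_apply, LinearMap.mulLeft_apply, one_mul]
  | succ m ih =>
    rw [Function.iterate_succ_apply', ih, t1_ad_smul, t1_ad_sum]
    have h : ∀ T ∈ powersetCard m S,
        t1_ad r (LinearMap.mulLeft ℚ (∏ l ∈ T, X l) * dS c (S \ T)) =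
        ∑ l ∈ S \ T, LinearMap.mulLeft ℚ (∏ l ∈ insert l T, X l) * dS c (S \ insert l T) := by
      intro T hT
      rw [t1_ad_mul, t1_ad_dS, mul_sum]
      refine sum_congr rfl fun l hl => ?_
      rw [prod_insert (mem_sdiff.1 hl).2, ← mul_assoc, sdiff_insert, mul_comm (X l)]
      congr 1
      refine LinearMap.ext fun f => ?_
      simp only [Module.End.mul_apply, LinearMap.mulLeft_apply]
      ring
    rw [sum_congr rfl h, t1_count S m
      (fun T => LinearMap.mulLeft ℚ (∏ l ∈ T, X l) * dS c (S \ T)),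
      ← Nat.cast_smul_eq_nsmul ℚ, smul_smul, Nat.factorial_succ]
    congr 1
    push_cast
    ring

lemma t1_dS_empty {r : ℕ} (c : ℚ) (f : MvPolynomial (Fin r) ℚ) : dS c ∅ f = vd r ℚ * f := by
  induction f using MvPolynomial.induction_on' with
  | monomial a v =>
    rw [dS_monomial, vd, sum_mul]
    refine sum_congr rfl fun τ _ => ?_
    rw [monomial_mul, prod_empty, mul_one, add_comm, mul_comm]
  | add p q hp hq => rw [map_add, hp, hq, mul_add]

lemma t1_iter_sum {r : ℕ} {ι : Type*} (s : Finset ι) (m : ℕ)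
    (A : ι → Module.End ℚ (MvPolynomial (Fin r) ℚ)) :
    (t1_ad r)^[m] (∑ i ∈ s, A i) = ∑ i ∈ s, (t1_ad r)^[m] (A i) := by
  induction m with
  | zero => rfl
  | succ m ih => simp_rw [Function.iterate_succ_apply', ih, t1_ad_sum]

lemma t1_dK {r : ℕ} (c : ℚ) (k : ℕ) (f : MvPolynomial (Fin r) ℚ) :
    (t1_ad r)^[k] (dK c k) f = (k.factorial : ℚ) • (esymm (Fin r) ℚ k * (vd r ℚ * f)) := by
  classical
  rw [dK, t1_iter_sum, LinearMap.sum_apply, esymm, sum_mul, smul_sum]
  refine sum_congr rfl fun S hS => ?_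
  have h1 : powersetCard k S = {S} := by
    rw [← (mem_powersetCard.1 hS).2, powersetCard_self]
  rw [t1_iter, h1, sum_singleton, sdiff_self, LinearMap.smul_apply, Module.End.mul_apply,
    LinearMap.mulLeft_apply]
  congr 2
  exact t1_dS_empty c f

lemma t1_lift {r : ℕ} (A : Module.End ℚ (Lam r ℚ)) (A' : Module.End ℚ (MvPolynomial (Fin r) ℚ))
    (h : ∀ f : Lam r ℚ, vd r ℚ * (A f : MvPolynomial (Fin r) ℚ) = A' f) (m : ℕ) (f : Lam r ℚ) :
    vd r ℚ * (((fun A : Module.End ℚ (Lam r ℚ) => A * mu (ee r ℚ 1) - mu (ee r ℚ 1) * A)^[m] A f :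
      Lam r ℚ) : MvPolynomial (Fin r) ℚ) = (t1_ad r)^[m] A' f := by
  induction m generalizing f with
  | zero => exact h f
  | succ m ih =>
    rw [Function.iterate_succ_apply', Function.iterate_succ_apply', t1_ad_apply]
    have he : ((ee r ℚ 1 : Lam r ℚ) : MvPolynomial (Fin r) ℚ) = ∑ l : Fin r, X l := by
      change esymm (Fin r) ℚ 1 = _
      exact esymm_one _ _
    have h1 := ih (ee r ℚ 1 * f)
    have h2 := ih f
    rw [MulMemClass.coe_mul, he] at h1
    rw [← h1, ← h2, ← he]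
    change vd r ℚ * (((_ : Lam r ℚ) - ee r ℚ 1 * (_ : Lam r ℚ) : Lam r ℚ) :
      MvPolynomial (Fin r) ℚ) = _
    push_cast
    rw [mul_sub]
    congr 1
    ring

theorem ad_p1 {r : ℕ} (c : ℚ) (k : ℕ) :
    (fun A : Module.End ℚ (Lam r ℚ) => A * mu (ee r ℚ 1) - mu (ee r ℚ 1) * A)^[k] (DK c k) =
      (k.factorial : ℚ) • mu (ee r ℚ k) := by
  refine LinearMap.ext fun f => Subtype.ext ?_
  refine mul_left_cancel₀ (vd_ne_zero (r := r) (R := ℚ)) ?_
  rw [t1_lift (DK c k) (dK c k) (vd_mul_DK c k) k f, t1_dK]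
  have h : (((k.factorial : ℚ) • mu (ee r ℚ k)) f : Lam r ℚ) =
      (k.factorial : ℚ) • (ee r ℚ k * f) := rfl
  have he : ((ee r ℚ k : Lam r ℚ) : MvPolynomial (Fin r) ℚ) = esymm (Fin r) ℚ k := rfl
  rw [h, SetLike.val_smul, MulMemClass.coe_mul, he, mul_smul_comm]
  congr 1
  ring

end Helper87.TR
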