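import Mathlib
import Pool.Agent.Helper87.TR.Basic

/-!
# TR-11b: `bn`, `bd`, `br` do not vanish in low degree

* `bn_ne_zero`: for `∑ l < n` no factor of `bn n` vanishes: for a pair `(g, b)`, `arm ≤ ∑ l < n` (if
  `b = l i + i` then `arm ≤ l i`, since the number of elements of `bs l` below `b` is `i`, so the number
  of non-elements below `b` is `l i`), hence `arm - n (leg + 1) < 0`. For `bd`: `arm + 1 - n leg` vanishes only if
  `leg ≥ 1` and `arm + 1 ≥ n`; but `arm + 1 ≤ l i` (note `g` itself is a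
  non-element below `b`), so `arm + 1 ≤ ∑ l < n`.
* `br_update`: the product for `Function.update l i (l i + 1)` has one more factor.
* `br_ne_zero`: for `x = - r n` and `∑ l < n`: the factors are `- n (i + 1) + j`, `j < l i < n`, negative.
-/

set_option autoImplicit false

open Finset

namespace Helper87.TR

theorem t11b_le_sum {r : ℕ} (l : Fin r → ℕ) (i : Fin r) : l i ≤ ∑ i, l i :=
  single_le_sum (f := l) (fun _ _ => Nat.zero_le _) (mem_univ i)

theorem t11b_arm {r : ℕ} (l : Fin r → ℕ) (hl : Monotone l) (i : Fin r) (g : ℕ)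
    (hg : g ∈ range (l i + (i : ℕ)) \ bs l) :
    arm (bs l) g (l i + (i : ℕ)) + 1 ≤ l i := by
  classical
  rw [mem_sdiff, mem_range] at hg
  obtain ⟨hg1, hg2⟩ := hg
  set b := l i + (i : ℕ) with hb
  have h1 : (insert g (Ioo g b \ bs l)).card = arm (bs l) g b + 1 := by
    rw [card_insert_of_notMem]
    · rfl
    · simp
  have h2 : insert g (Ioo g b \ bs l) ⊆ range b \ bs l := by
    intro x hx
    rw [mem_insert, mem_sdiff, mem_Ioo] at hx
    rw [mem_sdiff, mem_range]
    rcases hx with rfl | ⟨⟨_, h⟩, h'⟩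
    · exact ⟨hg1, hg2⟩
    · exact ⟨h, h'⟩
  have h3 := card_le_card h2
  have h4 : (i : ℕ) ≤ (range b ∩ bs l).card := by
    have h5 : (univ.filter fun j : Fin r => j < i).image (fun j : Fin r => l j + (j : ℕ)) ⊆
        range b ∩ bs l := by
      intro x hx
      rw [mem_image] at hx
      obtain ⟨j, hj, rfl⟩ := hx
      rw [mem_filter] at hj
      rw [mem_inter, mem_range, bs, mem_image]
      refine ⟨?_, j, mem_univ _, rfl⟩
      have := hl hj.2.le
      have h6 : (j : ℕ) < i := hj.2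
      omega
    have h6 := card_le_card h5
    rw [card_image_of_injective] at h6
    · have h7 : (univ.filter fun j : Fin r => j < i) = Iio i := by
        ext j; simp
      rw [h7, Fin.card_Iio] at h6
      exact h6
    · intro j k hjk
      simp only at hjk
      rcases lt_trichotomy j k with h | h | h
      · have := hl h.le
        have h' : (j : ℕ) < k := h
        omega
      · exact h
      · have := hl h.le
        have h' : (k : ℕ) < j := h
        omega
  have h8 := card_sdiff_add_card_inter (range b) (bs l)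
  rw [card_range] at h8
  omega

theorem bn_ne_zero {r : ℕ} (n : ℕ) (l : Fin r → ℕ) (hl : Monotone l) (h : ∑ i, l i < n) :
    bn (n : ℚ) (bs l) ≠ 0 := by
  rw [bn, prod_ne_zero_iff]
  intro b hb
  rw [prod_ne_zero_iff]
  intro g hg
  obtain ⟨i, -, rfl⟩ := mem_image.1 hb
  have h1 := t11b_arm l hl i g hg
  have h2 := t11b_le_sum l i
  have h3 : arm (bs l) g (l i + (i : ℕ)) < n := by omega
  have h4 : ((arm (bs l) g (l i + (i : ℕ)) : ℕ) : ℚ) < n := by exact_mod_cast h3
  have h5 : (0 : ℚ) ≤ (leg (bs l) g (l i + (i : ℕ)) : ℚ) := Nat.cast_nonneg _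
  have h6 : (0 : ℚ) ≤ n := Nat.cast_nonneg _
  have h7 := mul_nonneg h6 h5
  apply ne_of_lt
  linarith

theorem bd_ne_zero {r : ℕ} (n : ℕ) (l : Fin r → ℕ) (hl : Monotone l) (h : ∑ i, l i < n) :
    bd (n : ℚ) (bs l) ≠ 0 := by
  rw [bd, prod_ne_zero_iff]
  intro b hb
  rw [prod_ne_zero_iff]
  intro g hg
  obtain ⟨i, -, rfl⟩ := mem_image.1 hb
  have h1 := t11b_arm l hl i g hg
  have h2 := t11b_le_sum l i
  have h3 : arm (bs l) g (l i + (i : ℕ)) + 1 < n := by omega
  have h4 : ((arm (bs l) g (l i + (i : ℕ)) : ℕ) : ℚ) + 1 < n := by exact_mod_cast h3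
  have h6 : (0 : ℚ) ≤ n := Nat.cast_nonneg _
  rcases Nat.eq_zero_or_pos (leg (bs l) g (l i + (i : ℕ))) with h | h
  · rw [h]
    have h5 : (0 : ℚ) ≤ (arm (bs l) g (l i + (i : ℕ)) : ℚ) := Nat.cast_nonneg _
    apply ne_of_gt
    push_cast
    linarith
  · have h5 : (1 : ℚ) ≤ (leg (bs l) g (l i + (i : ℕ)) : ℚ) := by exact_mod_cast h
    have h7 : (n : ℚ) * 1 ≤ n * (leg (bs l) g (l i + (i : ℕ)) : ℚ) :=
      mul_le_mul_of_nonneg_left h5 h6
    apply ne_of_lt
    linarith

theorem br_update {r : ℕ} (c x : ℚ) (l : Fin r → ℕ) (i : Fin r) :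
    br c x (Function.update l i (l i + 1)) =
      br c x l * (x + c * (((r - 1 - (i : ℕ) : ℕ)) : ℚ) + (l i : ℚ)) := by
  classical
  rw [br, br, ← mul_prod_erase univ _ (mem_univ i), ← mul_prod_erase univ
    (fun i : Fin r => ∏ j ∈ range (l i), (x + c * (((r - 1 - (i : ℕ) : ℕ)) : ℚ) + (j : ℚ)))
    (mem_univ i)]
  rw [Function.update_self, prod_range_succ]
  have h : ∏ k ∈ univ.erase i, ∏ j ∈ range (Function.update l i (l i + 1) k),
      (x + c * (((r - 1 - (k : ℕ) : ℕ)) : ℚ) + (j : ℚ)) =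
      ∏ k ∈ univ.erase i, ∏ j ∈ range (l k),
        (x + c * (((r - 1 - (k : ℕ) : ℕ)) : ℚ) + (j : ℚ)) := by
    refine prod_congr rfl fun k hk => ?_
    rw [Function.update_of_ne (ne_of_mem_erase hk)]
  rw [h]
  ring

theorem br_ne_zero {r : ℕ} (n : ℕ) (l : Fin r → ℕ) (h : ∑ i, l i < n) :
    br (n : ℚ) (-((r : ℚ) * n)) l ≠ 0 := by
  rw [br, prod_ne_zero_iff]
  intro i _
  rw [prod_ne_zero_iff]
  intro j hj
  rw [mem_range] at hj
  have h1 := t11b_le_sum l i
  have h2 : (j : ℚ) < n := by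
    have : j < n := by omega
    exact_mod_cast this
  have h3 : ((r - 1 - (i : ℕ) : ℕ) : ℚ) + (i : ℕ) + 1 = r := by
    have : r - 1 - (i : ℕ) + (i : ℕ) + 1 = r := by
      have := i.2
      omega
    exact_mod_cast this
  have h6 : (0 : ℚ) ≤ n := Nat.cast_nonneg _
  have h5 : (0 : ℚ) ≤ ((i : ℕ) : ℚ) := Nat.cast_nonneg _
  have h7 := mul_nonneg h6 h5
  apply ne_of_lt
  have h8 : -((r : ℚ) * n) + n * (((r - 1 - (i : ℕ) : ℕ)) : ℚ) + (j : ℚ) =
      - n * ((i : ℕ) : ℚ) - n + j := by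
    rw [← h3]; ring
  rw [h8]
  linarith

end Helper87.TR
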