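import Mathlib
import Pool.Agent.Helper87.TR.Basic

/-!
# TR-11: the products `bn`, `bd`: recursion

`bs l = {l i + i}` is a set of `r` natural numbers for `l` monotone (`l i + i` is strictly increasing).
* `bn_add_one`, `bd_add_one`: for `l' = l + 1` (all parts increased by one), `bs l' = (bs l).map (· + 1)` and `0 ∉ bs l'`.
  The pairs `(g, b)` with `b ∈ bs l'`, `g < b`, `g ∉ bs l'` are: those with `g ≥ 1`, which are the shifts of
  the pairs of `bs l` with the same `arm`, `leg`; and `g = 0`, `b = l i + i + 1`, for which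
  `leg = i` (the elements of `bs l'` below `b`) and `arm = l i`. So
  `bn c (bs l') = bn c (bs l) ∏ (l i - c (i + 1))`, `bd c (bs l') = bd c (bs l) ∏ (l i + 1 - c i)`.
* `bn_cons`, `bd_cons`: for `Fin.cons 0 l`: `bs = {0} ∪ (bs l + 1)`; there are no pairs with `b = 0` or `g = 0`, the others
  are shifted (the element `0` is never strictly between `g` and `b`).
-/

set_option autoImplicit false

open Finset

namespace Helper87.TR

/-- the shift by one as an embedding -/
def t11_s : ℕ ↪ ℕ := addRightEmbedding 1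

lemma t11_s_apply (n : ℕ) : t11_s n = n + 1 := rfl

lemma t11_inj {r : ℕ} (l : Fin r → ℕ) (hl : Monotone l) :
    Function.Injective fun i : Fin r => l i + (i : ℕ) := by
  intro j k hjk
  simp only at hjk
  rcases lt_trichotomy j k with h | h | h
  · have := hl h.le
    have h' : (j : ℕ) < k := h
    omega
  · exact h
  · have := hl h.le
    have h' : (k : ℕ) < j := h
    omega

lemma t11_bs_add {r : ℕ} (l : Fin r → ℕ) : (bs fun i => l i + 1) = (bs l).map t11_s := by
  ext x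
  simp only [bs, mem_image, mem_univ, true_and, mem_map, t11_s_apply, exists_exists_eq_and]
  constructor
  · rintro ⟨i, rfl⟩
    exact ⟨i, by omega⟩
  · rintro ⟨i, rfl⟩
    exact ⟨i, by omega⟩

lemma t11_bs_cons {r : ℕ} (l : Fin r → ℕ) :
    bs (Fin.cons 0 l : Fin (r + 1) → ℕ) = insert 0 ((bs l).map t11_s) := by
  ext x
  simp only [bs, mem_image, mem_univ, true_and, mem_insert, mem_map, t11_s_apply,
    exists_exists_eq_and]
  rw [Fin.exists_fin_succ]
  simp only [Fin.cons_zero, Fin.cons_succ, Fin.val_zero, Fin.val_succ]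
  constructor
  · rintro (h | ⟨i, h⟩)
    · left; omega
    · right; exact ⟨i, by omega⟩
  · rintro (h | ⟨i, h⟩)
    · left; omega
    · right; exact ⟨i, by omega⟩

lemma t11_Ioo (g b : ℕ) : Ioo (g + 1) (b + 1) = (Ioo g b).map t11_s := by
  rw [t11_s, map_add_right_Ioo]

lemma t11_leg (B : Finset ℕ) (g b : ℕ) : leg (B.map t11_s) (g + 1) (b + 1) = leg B g b := by
  rw [leg, leg, t11_Ioo, ← map_inter, card_map]

lemma t11_arm (B : Finset ℕ) (g b : ℕ) : arm (B.map t11_s) (g + 1) (b + 1) = arm B g b := by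
  classical
  rw [arm, arm, t11_Ioo]
  have : (Ioo g b).map t11_s \ B.map t11_s = (Ioo g b \ B).map t11_s := by
    ext x
    simp only [mem_sdiff, mem_map, t11_s_apply]
    constructor
    · rintro ⟨⟨y, hy, rfl⟩, h⟩
      exact ⟨y, ⟨hy, fun h' => h ⟨y, h', rfl⟩⟩, rfl⟩
    · rintro ⟨y, ⟨hy, h⟩, rfl⟩
      refine ⟨⟨y, hy, rfl⟩, ?_⟩
      rintro ⟨z, hz, hzy⟩
      exact h (by rwa [show z = y by omega] at hz)
  rw [this, card_map]

lemma t11_leg' (B : Finset ℕ) (g b : ℕ) :
    leg (insert 0 (B.map t11_s)) (g + 1) (b + 1) = leg B g b := by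
  rw [← t11_leg B g b, leg, leg]
  congr 1
  ext x
  simp only [mem_inter, mem_Ioo, mem_insert]
  constructor
  · rintro ⟨h, h' | h'⟩
    · omega
    · exact ⟨h, h'⟩
  · rintro ⟨h, h'⟩
    exact ⟨h, Or.inr h'⟩

lemma t11_arm' (B : Finset ℕ) (g b : ℕ) :
    arm (insert 0 (B.map t11_s)) (g + 1) (b + 1) = arm B g b := by
  rw [← t11_arm B g b, arm, arm]
  congr 1
  ext x
  simp only [mem_sdiff, mem_Ioo, mem_insert, not_or]
  constructor
  · rintro ⟨h, h'⟩
    exact ⟨h, h'.2⟩
  · rintro ⟨h, h'⟩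
    exact ⟨h, by omega, h'⟩

lemma t11_range (B : Finset ℕ) (b : ℕ) :
    range (b + 1) \ B.map t11_s = insert 0 ((range b \ B).map t11_s) := by
  ext x
  simp only [mem_sdiff, mem_range, mem_map, t11_s_apply, mem_insert]
  rcases x with _ | x
  · simp
  · constructor
    · rintro ⟨h, h'⟩
      refine Or.inr ⟨x, ⟨by omega, fun hx => h' ⟨x, hx, rfl⟩⟩, rfl⟩
    · rintro (h | ⟨y, ⟨hy, h⟩, hyx⟩)
      · omega
      · obtain rfl : y = x := by omega
        refine ⟨by omega, ?_⟩
        rintro ⟨z, hz, hzy⟩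
        exact h (by rwa [show z = y by omega] at hz)

lemma t11_range' (B : Finset ℕ) (b : ℕ) :
    range (b + 1) \ insert 0 (B.map t11_s) = (range b \ B).map t11_s := by
  ext x
  simp only [mem_sdiff, mem_range, mem_map, t11_s_apply, mem_insert, not_or]
  rcases x with _ | x
  · simp
  · constructor
    · rintro ⟨h, h1, h'⟩
      exact ⟨x, ⟨by omega, fun hx => h' ⟨x, hx, rfl⟩⟩, rfl⟩
    · rintro ⟨y, ⟨hy, h⟩, hyx⟩
      obtain rfl : y = x := by omega
      refine ⟨by omega, by omega, ?_⟩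
      rintro ⟨z, hz, hzy⟩
      exact h (by rwa [show z = y by omega] at hz)

lemma t11_below {r : ℕ} (l : Fin r → ℕ) (hl : Monotone l) (i : Fin r) :
    (range (l i + (i : ℕ)) ∩ bs l).card = i := by
  classical
  have h5 : range (l i + (i : ℕ)) ∩ bs l = (Iio i).image (fun j : Fin r => l j + (j : ℕ)) := by
    ext x
    simp only [mem_inter, mem_range, bs, mem_image, mem_univ, true_and, mem_Iio]
    constructor
    · rintro ⟨h, j, rfl⟩
      refine ⟨j, ?_, rfl⟩
      by_contra h1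
      have h2 : i ≤ j := not_lt.1 h1
      have h3 := hl h2
      have h4 : (i : ℕ) ≤ j := h2
      omega
    · rintro ⟨j, hj, rfl⟩
      have h3 := hl hj.le
      have h4 : (j : ℕ) < i := hj
      exact ⟨by omega, j, rfl⟩
  rw [h5, card_image_of_injective _ (t11_inj l hl), Fin.card_Iio]

lemma t11_leg0 {r : ℕ} (l : Fin r → ℕ) (hl : Monotone l) (i : Fin r) :
    leg ((bs l).map t11_s) 0 (l i + (i : ℕ) + 1) = i := by
  have h1 : Ioo 0 (l i + (i : ℕ) + 1) ∩ (bs l).map t11_s =
      (range (l i + (i : ℕ)) ∩ bs l).map t11_s := by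
    ext x
    simp only [mem_inter, mem_Ioo, mem_map, mem_range, t11_s_apply]
    constructor
    · rintro ⟨h, y, hy, rfl⟩
      exact ⟨y, ⟨by omega, hy⟩, rfl⟩
    · rintro ⟨y, ⟨hy, h⟩, rfl⟩
      exact ⟨by omega, y, h, rfl⟩
  rw [leg, h1, card_map, t11_below l hl i]

lemma t11_arm0 {r : ℕ} (l : Fin r → ℕ) (hl : Monotone l) (i : Fin r) :
    arm ((bs l).map t11_s) 0 (l i + (i : ℕ) + 1) = l i := by
  have h1 : arm ((bs l).map t11_s) 0 (l i + (i : ℕ) + 1) +
      leg ((bs l).map t11_s) 0 (l i + (i : ℕ) + 1) = l i + (i : ℕ) := by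
    rw [arm, leg, card_sdiff_add_card_inter, Nat.card_Ioo]
    omega
  rw [t11_leg0 l hl i] at h1
  omega

lemma t11_gen {R : Type*} [CommRing R] {r : ℕ} (f : ℕ → ℕ → R) (l : Fin r → ℕ)
    (hl : Monotone l) :
    ∏ b ∈ bs (fun i => l i + 1), ∏ g ∈ range b \ bs (fun i => l i + 1),
      f (arm (bs fun i => l i + 1) g b) (leg (bs fun i => l i + 1) g b) =
    (∏ b ∈ bs l, ∏ g ∈ range b \ bs l, f (arm (bs l) g b) (leg (bs l) g b)) *
      ∏ i : Fin r, f (l i) (i : ℕ) := by
  have h0 : ∏ i : Fin r, f (l i) (i : ℕ) =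
      ∏ b ∈ bs l, f (arm ((bs l).map t11_s) 0 (b + 1)) (leg ((bs l).map t11_s) 0 (b + 1)) := by
    rw [show bs l = univ.image fun i : Fin r => l i + (i : ℕ) from rfl,
      prod_image fun i _ j _ h => t11_inj l hl h]
    refine prod_congr rfl fun i _ => ?_
    rw [← show bs l = univ.image fun i : Fin r => l i + (i : ℕ) from rfl,
      t11_arm0 l hl i, t11_leg0 l hl i]
  rw [h0, ← prod_mul_distrib, t11_bs_add, prod_map]
  refine prod_congr rfl fun b _ => ?_
  rw [t11_s_apply, t11_range, prod_insert, mul_comm, prod_map]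
  · congr 1
    refine prod_congr rfl fun g _ => ?_
    rw [t11_s_apply, t11_arm, t11_leg]
  · simp [t11_s_apply]

lemma t11_gen' {R : Type*} [CommRing R] {r : ℕ} (f : ℕ → ℕ → R) (l : Fin r → ℕ) :
    ∏ b ∈ bs (Fin.cons 0 l : Fin (r + 1) → ℕ), ∏ g ∈ range b \ bs (Fin.cons 0 l : Fin (r + 1) → ℕ),
      f (arm (bs (Fin.cons 0 l : Fin (r + 1) → ℕ)) g b)
        (leg (bs (Fin.cons 0 l : Fin (r + 1) → ℕ)) g b) =
    ∏ b ∈ bs l, ∏ g ∈ range b \ bs l, f (arm (bs l) g b) (leg (bs l) g b) := by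
  rw [t11_bs_cons, prod_insert, prod_map]
  · rw [range_zero, empty_sdiff, prod_empty, one_mul]
    refine prod_congr rfl fun b _ => ?_
    rw [t11_s_apply, t11_range', prod_map]
    refine prod_congr rfl fun g _ => ?_
    rw [t11_s_apply, t11_arm', t11_leg']
  · simp [t11_s_apply]

theorem bn_add_one {R : Type*} [CommRing R] {r : ℕ} (c : R) (l : Fin r → ℕ) (hl : Monotone l) :
    bn c (bs fun i => l i + 1) = bn c (bs l) * ∏ i : Fin r, ((l i : R) - c * (((i : ℕ) : R) + 1)) := by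
  rw [bn, bn]
  exact t11_gen (fun a g => ((a : R) - c * ((g : R) + 1))) l hl

theorem bd_add_one {R : Type*} [CommRing R] {r : ℕ} (c : R) (l : Fin r → ℕ) (hl : Monotone l) :
    bd c (bs fun i => l i + 1) = bd c (bs l) * ∏ i : Fin r, ((l i : R) + 1 - c * ((i : ℕ) : R)) := by
  rw [bd, bd]
  exact t11_gen (fun a g => ((a : R) + 1 - c * (g : R))) l hl

theorem bn_cons {R : Type*} [CommRing R] {r : ℕ} (c : R) (l : Fin r → ℕ) (hl : Monotone l) :
    bn c (bs (Fin.cons 0 l : Fin (r + 1) → ℕ)) = bn c (bs l) := by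
  rw [bn, bn]
  exact t11_gen' (fun a g => ((a : R) - c * ((g : R) + 1))) l

theorem bd_cons {R : Type*} [CommRing R] {r : ℕ} (c : R) (l : Fin r → ℕ) (hl : Monotone l) :
    bd c (bs (Fin.cons 0 l : Fin (r + 1) → ℕ)) = bd c (bs l) := by
  rw [bd, bd]
  exact t11_gen' (fun a g => ((a : R) + 1 - c * (g : R))) l

end Helper87.TR
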