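import Mathlib
import Pool.Agent.Helper87.TR.Basic

/-!
# TR-5: triangularity of `D(u)`

Key remark: for `g : Lam r ℚ` and `κ` monotone, by `vd = ∑ sign τ z^τ`,
`coeff (κ + id) (vd * g) = ∑_τ sign τ coeff (κ + id - τ) g` (the terms where `κ + id - τ` is not `≥ 0` are
missing), where `id i = i`. For `τ ≠ 1` the exponent `κ' = κ + id - τ` has
`∑ κ' = ∑ κ` and `sq κ' = sq κ + 2 ∑ κ_i (i - τ i) + ∑ (i - τ i)^2 > sq κ`, since
`∑ κ_i τ i ≤ ∑ κ_i i` (rearrangement inequality: `Monovary.sum_mul_comp_perm_le_sum_mul` etc.).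
Apply this to `g = DD c u f`, `vd * g = dd c u f`. The coefficient of `dd c u f` at `κ + id` is
`∑_τ sign τ coeff (κ + id - τ) f ∏_i (κ_i + i - τ_i + u - c τ_i)` (`dd_monomial`), so under the
hypothesis only `τ = 1` contributes and the coefficient is `dl c u κ * cm κ f`. On the other side, by
downward induction on `sq` (the sum is fixed, so `sq` is bounded by `(∑ κ)^2`) all the coefficients of
`g` at `κ'` with the same sum and larger `sq` vanish (use the same formula), and `coeff (κ + id) (vd * g)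
= cm κ g`. (`cm` at a non-monotone exponent is `cm` at its monotone rearrangement: `cm_perm`; `sq` and
the sum do not change.)
-/

set_option autoImplicit false

open MvPolynomial Finset

namespace Helper87.TR

lemma t5_coeff_vd_mul {r : ℕ} (g : MvPolynomial (Fin r) ℚ) (b : Fin r →₀ ℕ) :
    coeff b (vd r ℚ * g) = ∑ τ : Equiv.Perm (Fin r),
      if pe τ ≤ b then ((Equiv.Perm.sign τ : ℤ) : ℚ) * coeff (b - pe τ) g else 0 := by
  rw [vd, sum_mul, coeff_sum]
  refine sum_congr rfl fun τ _ => ?_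
  rw [coeff_monomial_mul']

lemma t5_coeff_dd {r : ℕ} (c u : ℚ) (f : MvPolynomial (Fin r) ℚ) (b : Fin r →₀ ℕ) :
    coeff b (dd c u f) = ∑ τ : Equiv.Perm (Fin r),
      if pe τ ≤ b then ((Equiv.Perm.sign τ : ℤ) : ℚ) * coeff (b - pe τ) f *
        ∏ i : Fin r, ((((b - pe τ) i : ℕ) : ℚ) + u - c * ((τ i : ℕ) : ℚ)) else 0 := by
  classical
  induction f using MvPolynomial.induction_on' with
  | monomial a v =>
    rw [dd_monomial, coeff_sum]
    refine sum_congr rfl fun τ _ => ?_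
    rw [coeff_monomial, coeff_monomial]
    by_cases h : pe τ ≤ b
    · rw [if_pos h]
      by_cases h2 : a + pe τ = b
      · have h3 : a = b - pe τ := by rw [← h2, add_tsub_cancel_right]
        rw [if_pos h2, if_pos h3, ← h3]
        ring
      · have h3 : ¬ a = b - pe τ := by
          intro h3
          apply h2
          rw [h3, tsub_add_cancel_of_le h]
        rw [if_neg h2, if_neg h3]
        ring
    · rw [if_neg h, if_neg]
      intro h2
      apply h
      rw [← h2]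
      exact le_add_self
  | add p q hp hq =>
    rw [map_add, coeff_add, hp, hq, ← sum_add_distrib]
    refine sum_congr rfl fun τ _ => ?_
    by_cases h : pe τ ≤ b
    · rw [if_pos h, if_pos h, if_pos h, coeff_add]
      ring
    · rw [if_neg h, if_neg h, if_neg h, add_zero]

lemma t5_sub {r : ℕ} (k : Fin r → ℕ) (τ : Equiv.Perm (Fin r)) :
    (fs fun i => k i + (i : ℕ)) - pe τ = fs fun i => k i + (i : ℕ) - (τ i : ℕ) := by
  ext i
  rw [Finsupp.tsub_apply]
  rfl

lemma t5_sum {r : ℕ} (k : Fin r → ℕ) (τ : Equiv.Perm (Fin r))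
    (h : ∀ i, (τ i : ℕ) ≤ k i + (i : ℕ)) :
    ∑ i, (k i + (i : ℕ) - (τ i : ℕ)) = ∑ i, k i := by
  have h1 : ∑ i, (k i + (i : ℕ) - (τ i : ℕ)) + ∑ i, (τ i : ℕ) = ∑ i, k i + ∑ i : Fin r, (i : ℕ) := by
    rw [← sum_add_distrib, ← sum_add_distrib]
    exact sum_congr rfl fun i _ => Nat.sub_add_cancel (h i)
  have h2 : ∑ i, (τ i : ℕ) = ∑ i : Fin r, (i : ℕ) := Equiv.sum_comp τ (fun i : Fin r => (i : ℕ))
  omega

lemma t5_sq {r : ℕ} (k : Fin r → ℕ) (hk : Monotone k) (τ : Equiv.Perm (Fin r)) (hτ : τ ≠ 1)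
    (h : ∀ i, (τ i : ℕ) ≤ k i + (i : ℕ)) :
    sq k < sq fun i => k i + (i : ℕ) - (τ i : ℕ) := by
  have hm : Monovary (fun i => ((k i : ℕ) : ℤ)) (fun i : Fin r => ((i : ℕ) : ℤ)) := by
    apply Monotone.monovary
    · intro i j hij
      have := hk hij
      simpa using this
    · intro i j hij
      simpa using hij
  have h1 := hm.sum_mul_comp_perm_le_sum_mul (σ := τ)
  have h2 : (0 : ℤ) < ∑ i : Fin r, (((i : ℕ) : ℤ) - ((τ i : ℕ) : ℤ)) ^ 2 := by
    obtain ⟨i, hi⟩ : ∃ i, τ i ≠ i := by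
      by_contra h3
      push Not at h3
      exact hτ (Equiv.ext h3)
    refine sum_pos' (fun i _ => sq_nonneg _) ⟨i, mem_univ _, ?_⟩
    have : ((i : ℕ) : ℤ) - ((τ i : ℕ) : ℤ) ≠ 0 := by
      intro h4
      apply hi
      apply Fin.ext
      omega
    positivity
  have h3 : ((sq fun i => k i + (i : ℕ) - (τ i : ℕ) : ℕ) : ℤ) = (sq k : ℤ) +
      2 * (∑ i, ((k i : ℕ) : ℤ) * ((i : ℕ) : ℤ) - ∑ i, ((k i : ℕ) : ℤ) * ((τ i : ℕ) : ℤ)) +
      ∑ i : Fin r, (((i : ℕ) : ℤ) - ((τ i : ℕ) : ℤ)) ^ 2 := by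
    rw [sq, sq]
    push_cast
    rw [← sum_sub_distrib, mul_sum, ← sum_add_distrib, ← sum_add_distrib]
    refine sum_congr rfl fun i _ => ?_
    rw [Nat.cast_sub (h i)]
    push_cast
    ring
  have h4 : (sq k : ℤ) < ((sq fun i => k i + (i : ℕ) - (τ i : ℕ) : ℕ) : ℤ) := by
    rw [h3]
    linarith
  exact_mod_cast h4

lemma t5_sq_le {r : ℕ} (k : Fin r → ℕ) : sq k ≤ (∑ i, k i) ^ 2 := by
  rw [sq, pow_two, sum_mul]
  refine sum_le_sum fun i _ => ?_
  rw [pow_two]
  exact Nat.mul_le_mul_left _ (single_le_sum (f := k) (fun _ _ => Nat.zero_le _) (mem_univ i))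

lemma t5_zero {r : ℕ} (g : Lam r ℚ) (k : Fin r → ℕ) (hk : Monotone k)
    (h : ∀ k' : Fin r → ℕ, Monotone k' → ∑ i, k' i = ∑ i, k i → sq k < sq k' → cm k' g = 0)
    (τ : Equiv.Perm (Fin r)) (hτ : τ ≠ 1) (hle : pe τ ≤ fs fun i => k i + (i : ℕ)) :
    coeff ((fs fun i => k i + (i : ℕ)) - pe τ) (g : MvPolynomial (Fin r) ℚ) = 0 := by
  have hle' : ∀ i, (τ i : ℕ) ≤ k i + (i : ℕ) := fun i => hle i
  rw [t5_sub]
  change cm _ g = 0
  obtain ⟨σ, hσ⟩ := exists_monotone_perm (fun i => k i + (i : ℕ) - (τ i : ℕ))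
  rw [← cm_perm g _ σ]
  refine h _ hσ ?_ ?_
  · rw [← t5_sum k τ hle']
    exact Equiv.sum_comp σ (fun i => k i + (i : ℕ) - (τ i : ℕ))
  · refine lt_of_lt_of_eq (t5_sq k hk τ hτ hle') ?_
    rw [sq, sq]
    exact (Equiv.sum_comp σ (fun i => (k i + (i : ℕ) - (τ i : ℕ)) ^ 2)).symm

lemma t5_pe_one_le {r : ℕ} (k : Fin r → ℕ) :
    pe (1 : Equiv.Perm (Fin r)) ≤ fs fun i => k i + (i : ℕ) := by
  intro i
  exact Nat.le_add_left _ _

lemma t5_sub_one {r : ℕ} (k : Fin r → ℕ) :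
    (fs fun i => k i + (i : ℕ)) - pe (1 : Equiv.Perm (Fin r)) = fs k := by
  rw [t5_sub]
  congr 1
  funext i
  exact Nat.add_sub_cancel _ _

theorem cm_DD {r : ℕ} (c u : ℚ) (f : Lam r ℚ) (k : Fin r → ℕ) (hk : Monotone k)
    (h : ∀ k' : Fin r → ℕ, Monotone k' → ∑ i, k' i = ∑ i, k i → sq k < sq k' → cm k' f = 0) :
    cm k (DD c u f) = dl c u k * cm k f := by
  induction hn : (∑ i, k i) ^ 2 - sq k using Nat.strong_induction_on generalizing k with
  | _ n ih =>
    have hg : ∀ k' : Fin r → ℕ, Monotone k' → ∑ i, k' i = ∑ i, k i → sq k < sq k' →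
        cm k' (DD c u f) = 0 := by
      intro k' hk' hs hq
      have h1 := t5_sq_le k'
      rw [hs] at h1
      have h2 := ih _ (by rw [← hn]; exact Nat.sub_lt_sub_left (lt_of_lt_of_le hq h1) hq) k' hk'
        (fun k'' hk'' hs' hq' => h k'' hk'' (hs'.trans hs) (hq.trans hq')) (by rw [hs])
      rw [h2, h k' hk' hs hq, mul_zero]
    have h1 := congrArg (coeff (fs fun i => k i + (i : ℕ))) (vd_mul_DD c u f)
    rw [t5_coeff_vd_mul, t5_coeff_dd, sum_eq_single 1, sum_eq_single 1] at h1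
    · rw [if_pos (t5_pe_one_le k), if_pos (t5_pe_one_le k), t5_sub_one] at h1
      simp only [Equiv.Perm.sign_one, Units.val_one, Int.cast_one, one_mul] at h1
      rw [cm, h1, dl, mul_comm]
      rfl
    · intro τ _ hτ
      by_cases hle : pe τ ≤ fs fun i => k i + (i : ℕ)
      · rw [if_pos hle, t5_zero f k hk h τ hτ hle, mul_zero, zero_mul]
      · rw [if_neg hle]
    · intro h2
      exact absurd (mem_univ _) h2
    · intro τ _ hτ
      by_cases hle : pe τ ≤ fs fun i => k i + (i : ℕ)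
      · rw [if_pos hle, t5_zero (DD c u f) k hk hg τ hτ hle, mul_zero]
      · rw [if_neg hle]
    · intro h2
      exact absurd (mem_univ _) h2

end Helper87.TR
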