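import Mathlib
import Pool.Agent.Helper87.TR.St.T5
import Pool.Agent.Helper87.TR.St.T5b

/-!
# TR-6: eigenvectors of `D(u)` for one `u`

* `exists_eig`: let `V` be the span of the `mm κ`, `κ` monotone, `∑ κ = ∑ l`, `κ = l` or `sq κ < sq l`.
  By `cm_DD`, `DD_Hg`, `D(u)` maps `V` to itself and is triangular with eigenvalues `dl c u κ`. Start with
  `P = mm l` and apply for all the `κ ≠ l` in `V`, in order of decreasing `sq`, the operator
  `(D(u) - dl c u κ) / (dl c u l - dl c u κ)`: it keeps the coefficient `1` at `l`, and after treating all `κ`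
  with `sq κ ≥ s` the vector `(D(u) - dl c u l) P` has only coefficients with `sq < s`. (Or: solve the
  triangular linear system by descending recursion, or use a dimension argument: on `V` the
  endomorphism `D(u) - dl c u l` is not injective (its range is in the span of the `mm κ`, `κ ≠ l`) and its restriction
  to the span of the `mm κ`, `κ ≠ l`, is, so the kernel contains a vector with coefficient `1` at `l`. The last way is
  probably the shortest.)
* `exists_eig_Bx`: the same inside the polynomials with `Bx M` (`DD_Bx`); prove both at once.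
* `eig_unique`: the difference of two such vectors is in the kernel of `D(u) - dl c u l` and has coefficient
  `0` at `l`: look at its nonzero coefficient with maximal `sq` and use `cm_DD`.
-/

set_option autoImplicit false

open MvPolynomial Finset

namespace Helper87.TR

lemma t6_ext {r : ℕ} {N : ℕ} {f : Lam r ℚ} (hf : Hg N f)
    (h : ∀ k : Fin r → ℕ, Monotone k → ∑ i, k i = N → cm k f = 0) : f = 0 := by
  have h1 := eq_sum_of (s := part r N) (fun l hl => (mem_part.1 hl).1) (f := f) (by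
    intro k hk hk2
    apply cm_eq_zero_of_Hg hf
    intro h2
    exact hk2 (mem_part.2 ⟨hk, h2⟩))
  rw [h1]
  refine sum_eq_zero fun k hk => ?_
  rw [h k (mem_part.1 hk).1 (mem_part.1 hk).2, zero_smul]

/-- the error of an approximate eigenvector -/
noncomputable def t6_err {r : ℕ} (c u : ℚ) (l : Fin r → ℕ) (P : Lam r ℚ) : Lam r ℚ :=
  DD c u P - dl c u l • P

lemma t6_cm_err {r : ℕ} (c u : ℚ) (l : Fin r → ℕ) (P : Lam r ℚ) (k : Fin r → ℕ) :
    cm k (t6_err c u l P) = cm k (DD c u P) - dl c u l * cm k P := by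
  rw [t6_err, cm_sub, cm_smul]

lemma t6_cm_err_mm {r : ℕ} (c u : ℚ) (l k k' : Fin r → ℕ) (hk : Monotone k) (hk' : Monotone k')
    (h : sq k ≤ sq k') : cm k' (t6_err c u l (mm ℚ k)) =
      if k' = k then dl c u k - dl c u l else 0 := by
  rw [t6_cm_err, cm_DD c u (mm ℚ k) k' hk', cm_mm hk' hk]
  · split_ifs with h1
    · subst h1; ring
    · ring
  · intro k'' hk'' _ hlt
    rw [cm_mm hk'' hk, if_neg]
    rintro rfl
    omega

/-- the good approximations -/
def t6_good {r : ℕ} (l : Fin r → ℕ) (M : ℕ) (P : Lam r ℚ) : Prop :=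
  Hg (∑ i, l i) P ∧ ((∀ i, l i ≤ M) → Bx M P) ∧ cm l P = 1 ∧
    (∀ k : Fin r → ℕ, Monotone k → cm k P ≠ 0 → k = l ∨ (∑ i, k i = ∑ i, l i ∧ sq k < sq l))

lemma t6_Bx_sub {r M : ℕ} {f g : Lam r ℚ} (hf : Bx M f) (hg : Bx M g) : Bx M (f - g) := by
  rw [Bx_iff] at hf hg ⊢
  intro k hk h i
  by_cases h1 : cm k f = 0
  · refine hg k hk (fun h2 => h ?_) i
    rw [cm_sub, h1, h2, sub_zero]
  · exact hf k hk h1 i

lemma t6_Bx_smul {r M : ℕ} {f : Lam r ℚ} (a : ℚ) (hf : Bx M f) : Bx M (a • f) := by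
  rw [Bx_iff] at hf ⊢
  intro k hk h i
  refine hf k hk (fun h2 => h ?_) i
  rw [cm_smul, h2, mul_zero]

lemma t6_Hg_sub {r N : ℕ} {f g : Lam r ℚ} (hf : Hg N f) (hg : Hg N g) : Hg N (f - g) := by
  rw [Hg_iff] at hf hg ⊢
  intro k hk h
  by_cases h1 : cm k f = 0
  · refine hg k hk (fun h2 => h ?_)
    rw [cm_sub, h1, h2, sub_zero]
  · exact hf k hk h1

lemma t6_rec {r : ℕ} (c u : ℚ) (l : Fin r → ℕ) (hl : Monotone l) (M : ℕ)
    (hd : ∀ k : Fin r → ℕ, Monotone k → ∑ i, k i = ∑ i, l i → sq k < sq l →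
      dl c u k ≠ dl c u l) (n : ℕ) : ∃ P : Lam r ℚ, t6_good l M P ∧
      ∀ k : Fin r → ℕ, Monotone k → ∑ i, k i = ∑ i, l i → sq l ≤ sq k + n →
        cm k (t6_err c u l P) = 0 := by
  induction n with
  | zero =>
    refine ⟨mm ℚ l, ⟨Hg_mm l, fun h => Bx_mm h, by rw [cm_mm hl hl, if_pos rfl], ?_⟩, ?_⟩
    · intro k hk h
      rw [cm_mm hk hl] at h
      left
      by_contra h1
      rw [if_neg h1] at h
      exact h rfl
    · intro k hk _ hle
      rw [t6_cm_err_mm c u l l k hl hk (by omega)]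
      split_ifs
      · ring
      · rfl
  | succ n ih =>
    obtain ⟨P, ⟨h1, h2, h3, h4⟩, h5⟩ := ih
    have hE : Hg (∑ i, l i) (t6_err c u l P) := t6_Hg_sub (DD_Hg c u h1) (Hg_smul _ h1)
    have hB : (∀ i, l i ≤ M) → Bx M (t6_err c u l P) := fun h =>
      t6_Bx_sub (DD_Bx c u (h2 h)) (t6_Bx_smul _ (h2 h))
    set A : Finset (Fin r → ℕ) := (part r (∑ i, l i)).filter fun k => sq k + (n + 1) = sq l with hA
    have hmem : ∀ k, k ∈ A ↔ (Monotone k ∧ ∑ i, k i = ∑ i, l i) ∧ sq k + (n + 1) = sq l := by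
      intro k
      rw [hA, mem_filter, mem_part]
    set a : (Fin r → ℕ) → ℚ := fun k => cm k (t6_err c u l P) / (dl c u k - dl c u l) with ha
    have hcm : ∀ k, Monotone k → cm k (∑ j ∈ A, a j • mm ℚ j) = if k ∈ A then a k else 0 := by
      intro k hk
      rw [cm_sum]
      simp_rw [cm_smul]
      rw [sum_congr rfl fun j hj => by rw [cm_mm hk ((hmem j).1 hj).1.1]]
      simp
    refine ⟨P - ∑ j ∈ A, a j • mm ℚ j, ⟨?_, ?_, ?_, ?_⟩, ?_⟩
    · refine t6_Hg_sub h1 (Hg_sum fun j hj => Hg_smul _ ?_)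
      rw [← ((hmem j).1 hj).1.2]
      exact Hg_mm j
    · intro h
      refine t6_Bx_sub (h2 h) ?_
      rw [Bx_iff]
      intro k hk h6
      rw [hcm k hk] at h6
      by_cases h7 : k ∈ A
      · rw [if_pos h7] at h6
        refine (Bx_iff.1 (hB h)) k hk ?_
        intro h8
        apply h6
        rw [ha]
        simp only
        rw [h8, zero_div]
      · rw [if_neg h7] at h6
        exact (h6 rfl).elim
    · rw [cm_sub, h3, hcm l hl, if_neg, sub_zero]
      rw [hmem]
      rintro ⟨_, h⟩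
      omega
    · intro k hk h
      rw [cm_sub, hcm k hk] at h
      by_cases h7 : k ∈ A
      · right
        have := (hmem k).1 h7
        exact ⟨this.1.2, by omega⟩
      · rw [if_neg h7, sub_zero] at h
        exact h4 k hk h
    · intro k hk hs hle
      have he : t6_err c u l (P - ∑ j ∈ A, a j • mm ℚ j) =
          t6_err c u l P - ∑ j ∈ A, a j • t6_err c u l (mm ℚ j) := by
        unfold t6_err
        rw [map_sub, map_sum, smul_sub, smul_sum]
        simp_rw [map_smul, smul_sub]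
        rw [sum_sub_distrib]
        simp_rw [smul_comm (dl c u l)]
        abel
      rw [he, cm_sub, cm_sum]
      simp_rw [cm_smul]
      have hx : ∀ j ∈ A, a j * cm k (t6_err c u l (mm ℚ j)) =
          if k = j then cm k (t6_err c u l P) else 0 := by
        intro j hj
        have hj' := (hmem j).1 hj
        rw [t6_cm_err_mm c u l j k hj'.1.1 hk (by omega)]
        split_ifs with h8
        · subst h8
          rw [ha]
          simp only
          rw [div_mul_cancel₀]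
          exact sub_ne_zero.2 (hd k hk hs (by omega))
        · rw [mul_zero]
      rw [sum_congr rfl hx, sum_ite_eq]
      by_cases h9 : k ∈ A
      · rw [if_pos h9, sub_self]
      · rw [if_neg h9, sub_zero]
        refine h5 k hk hs ?_
        by_contra h10
        exact h9 ((hmem k).2 ⟨⟨hk, hs⟩, by omega⟩)

lemma t6_exists {r : ℕ} (c u : ℚ) (l : Fin r → ℕ) (hl : Monotone l) (M : ℕ)
    (hd : ∀ k : Fin r → ℕ, Monotone k → ∑ i, k i = ∑ i, l i → sq k < sq l →
      dl c u k ≠ dl c u l) : ∃ P : Lam r ℚ, t6_good l M P ∧ DD c u P = dl c u l • P := by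
  obtain ⟨P, h1, h2⟩ := t6_rec c u l hl M hd (sq l)
  refine ⟨P, h1, ?_⟩
  have h3 : t6_err c u l P = 0 := by
    refine t6_ext (t6_Hg_sub (DD_Hg c u h1.1) (Hg_smul _ h1.1)) ?_
    intro k hk hs
    exact h2 k hk hs (by omega)
  exact sub_eq_zero.1 h3

theorem exists_eig {r : ℕ} (c u : ℚ) (l : Fin r → ℕ) (hl : Monotone l)
    (hd : ∀ k : Fin r → ℕ, Monotone k → ∑ i, k i = ∑ i, l i → sq k < sq l →
      dl c u k ≠ dl c u l) :
    ∃ P : Lam r ℚ, cm l P = 1 ∧
      (∀ k : Fin r → ℕ, Monotone k → cm k P ≠ 0 → k = l ∨ (∑ i, k i = ∑ i, l i ∧ sq k < sq l)) ∧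
      DD c u P = dl c u l • P := by
  obtain ⟨P, h1, h2⟩ := t6_exists c u l hl 0 hd
  exact ⟨P, h1.2.2.1, h1.2.2.2, h2⟩

theorem exists_eig_Bx {r : ℕ} (c u : ℚ) (l : Fin r → ℕ) (hl : Monotone l) (M : ℕ) (hM : ∀ i, l i ≤ M)
    (hd : ∀ k : Fin r → ℕ, Monotone k → ∑ i, k i = ∑ i, l i → sq k < sq l →
      dl c u k ≠ dl c u l) :
    ∃ P : Lam r ℚ, Bx M P ∧ cm l P = 1 ∧
      (∀ k : Fin r → ℕ, Monotone k → cm k P ≠ 0 → k = l ∨ (∑ i, k i = ∑ i, l i ∧ sq k < sq l)) ∧
      DD c u P = dl c u l • P := by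
  obtain ⟨P, h1, h2⟩ := t6_exists c u l hl M hd
  exact ⟨P, h1.2.1 hM, h1.2.2.1, h1.2.2.2, h2⟩

theorem eig_unique {r : ℕ} (c u : ℚ) (l : Fin r → ℕ) (hl : Monotone l)
    (hd : ∀ k : Fin r → ℕ, Monotone k → ∑ i, k i = ∑ i, l i → k ≠ l → dl c u k ≠ dl c u l)
    (P Q : Lam r ℚ) (hP : Hg (∑ i, l i) P) (hQ : Hg (∑ i, l i) Q) (h1 : cm l P = cm l Q)
    (hP2 : DD c u P = dl c u l • P) (hQ2 : DD c u Q = dl c u l • Q) : P = Q := by
  rw [← sub_eq_zero]
  set f := P - Q with hf
  have hHg : Hg (∑ i, l i) f := t6_Hg_sub hP hQ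
  have hf0 : cm l f = 0 := by rw [hf, cm_sub, h1, sub_self]
  have hfD : DD c u f = dl c u l • f := by rw [hf, map_sub, hP2, hQ2, smul_sub]
  by_contra hne
  have hex : ∃ k ∈ part r (∑ i, l i), cm k f ≠ 0 := by
    by_contra hcon
    push Not at hcon
    exact hne (t6_ext hHg fun k hk hs => hcon k (mem_part.2 ⟨hk, hs⟩))
  obtain ⟨k0, hk0, hk0'⟩ := hex
  obtain ⟨k, hk, hmax⟩ := exists_max_image ((part r (∑ i, l i)).filter fun k => cm k f ≠ 0) sq
    ⟨k0, mem_filter.2 ⟨hk0, hk0'⟩⟩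
  rw [mem_filter, mem_part] at hk
  have h2 := cm_DD c u f k hk.1.1 (by
    intro k' hk' hs hlt
    by_contra h3
    have := hmax k' (mem_filter.2 ⟨mem_part.2 ⟨hk', hs.trans hk.1.2⟩, h3⟩)
    omega)
  rw [hfD, cm_smul] at h2
  have h3 := mul_right_cancel₀ hk.2 h2
  by_cases h4 : k = l
  · subst h4
    exact hk.2 hf0
  · exact hd k hk.1.1 hk.1.2 h4 h3.symm

end Helper87.TR
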