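import Mathlib
import Pool.Agent.Helper87.TR.Basic

/-!
# TR-6c: triangular families are bases

Let `P l` (`l ∈ part r N`) be unitriangular with respect to the `mm k` for the order by `sq`. Then every homogeneous
symmetric polynomial of degree `N` is a combination of the `P l` with unique coefficients. For example: the matrix
`A k l = cm k (P l)` over `part r N` is unitriangular, so invertible (`Matrix.BlockTriangular`, or define the coordinates by
descending recursion on `sq`: `co l f = cm l (f - ∑_{sq l' > sq l} co l' f • P l')`, or use linear independence and the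
dimension); `co l f = ∑_k (A⁻¹) l k * cm k f` for `l ∈ part r N` and `co l = 0` otherwise. `eq_sum_of_Hg`, `ext_cm`,
`cm_eq_zero_of_Hg`, `hc` in `Basic.lean` are useful. The last statement holds because `cm k f = 0` for `k ∈ part r N` and
`f` homogeneous of degree `M ≠ N`.
-/

set_option autoImplicit false

open MvPolynomial Finset

namespace Helper87.TR

lemma t6c_isUnit {r N : ℕ} (P : (Fin r → ℕ) → Lam r ℚ)
    (h1 : ∀ l ∈ part r N, cm l (P l) = 1)
    (h2 : ∀ l ∈ part r N, ∀ k : Fin r → ℕ, Monotone k → cm k (P l) ≠ 0 →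
      k = l ∨ (∑ i, k i = ∑ i, l i ∧ sq k < sq l)) :
    IsUnit (Matrix.of fun k l : ↥(part r N) => cm (k : Fin r → ℕ) (P (l : Fin r → ℕ))) := by
  classical
  rw [← Matrix.mulVec_injective_iff_isUnit]
  rw [← Matrix.coe_mulVecLin, injective_iff_map_eq_zero]
  intro v hv
  rw [Matrix.mulVecLin_apply] at hv
  by_contra hne
  obtain ⟨l0, hl0⟩ : ∃ l, v l ≠ 0 := by
    by_contra h
    push Not at h
    exact hne (funext h)
  obtain ⟨l, hl, hmax⟩ := Finset.exists_max_image
    (univ.filter fun l : ↥(part r N) => v l ≠ 0) (fun l => sq (l : Fin r → ℕ))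
    ⟨l0, by simp [hl0]⟩
  have hvl : v l ≠ 0 := by simpa using hl
  have h3 := congrFun hv l
  rw [Matrix.mulVec, dotProduct, sum_eq_single l] at h3
  · simp only [Matrix.of_apply, Pi.zero_apply] at h3
    rw [h1 l l.2, one_mul] at h3
    exact hvl h3
  · intro l' _ hne'
    simp only [Matrix.of_apply]
    by_cases h4 : cm (l : Fin r → ℕ) (P (l' : Fin r → ℕ)) = 0
    · rw [h4, zero_mul]
    · rcases h2 l' l'.2 l (mem_part.1 l.2).1 h4 with h5 | ⟨-, h5⟩
      · exact absurd (Subtype.ext h5.symm) hne'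
      · have h6 : v l' = 0 := by
          by_contra h7
          have := hmax l' (by simp [h7])
          omega
        rw [h6, mul_zero]
  · intro h
    exact absurd (mem_univ l) h

/-- a basis statement: every homogeneous symmetric polynomial is a combination of a triangular
family, with unique coefficients -/
theorem exists_coord {r N : ℕ} (P : (Fin r → ℕ) → Lam r ℚ)
    (h1 : ∀ l ∈ part r N, cm l (P l) = 1)
    (h2 : ∀ l ∈ part r N, ∀ k : Fin r → ℕ, Monotone k → cm k (P l) ≠ 0 →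
      k = l ∨ (∑ i, k i = ∑ i, l i ∧ sq k < sq l)) :
    ∃ co : (Fin r → ℕ) → Lam r ℚ →ₗ[ℚ] ℚ,
      (∀ f, Hg N f → f = ∑ l ∈ part r N, co l f • P l) ∧
      (∀ l ∈ part r N, ∀ l' ∈ part r N, co l (P l') = if l = l' then 1 else 0) ∧
      (∀ M f, M ≠ N → Hg M f → ∀ l, co l f = 0) := by
  classical
  set A : Matrix ↥(part r N) ↥(part r N) ℚ :=
    Matrix.of fun k l : ↥(part r N) => cm (k : Fin r → ℕ) (P (l : Fin r → ℕ)) with hA
  have hu : IsUnit A := t6c_isUnit P h1 h2
  have hdet : IsUnit A.det := (Matrix.isUnit_iff_isUnit_det A).1 hu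
  refine ⟨fun l => if h : l ∈ part r N then ∑ k : ↥(part r N), A⁻¹ ⟨l, h⟩ k • cl (k : Fin r → ℕ)
    else 0, ?_, ?_, ?_⟩
  · intro f hf
    apply ext_cm
    intro k hk
    rw [cm_sum]
    simp_rw [cm_smul]
    rw [← Finset.sum_coe_sort]
    by_cases hkN : k ∈ part r N
    · have h3 : ∀ l : ↥(part r N), (if h : (l : Fin r → ℕ) ∈ part r N then
          ∑ k : ↥(part r N), A⁻¹ ⟨l, h⟩ k • cl (k : Fin r → ℕ) else 0 : Lam r ℚ →ₗ[ℚ] ℚ) f *
            cm k (P l) = A ⟨k, hkN⟩ l * (A⁻¹.mulVec (fun k' => cm (k' : Fin r → ℕ) f)) l := by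
        intro l
        rw [dif_pos l.2, LinearMap.sum_apply, mul_comm]
        rfl
      rw [sum_congr rfl fun l _ => h3 l]
      have h4 : ∑ l : ↥(part r N), A ⟨k, hkN⟩ l * (A⁻¹.mulVec (fun k' => cm (k' : Fin r → ℕ) f)) l =
          (A.mulVec (A⁻¹.mulVec (fun k' => cm (k' : Fin r → ℕ) f))) ⟨k, hkN⟩ := rfl
      rw [h4, Matrix.mulVec_mulVec, Matrix.mul_nonsing_inv A hdet, Matrix.one_mulVec]
    · rw [cm_eq_zero_of_Hg hf fun h => hkN (mem_part.2 ⟨hk, h⟩)]
      symm
      refine sum_eq_zero fun l _ => ?_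
      by_cases h4 : cm k (P (l : Fin r → ℕ)) = 0
      · rw [h4, mul_zero]
      · exfalso
        rcases h2 l l.2 k hk h4 with h5 | ⟨h5, -⟩
        · exact hkN (h5 ▸ l.2)
        · exact hkN (mem_part.2 ⟨hk, h5.trans (mem_part.1 l.2).2⟩)
  · intro l hl l' hl'
    simp only
    rw [dif_pos hl, LinearMap.sum_apply]
    have h4 : ∑ k : ↥(part r N), (A⁻¹ ⟨l, hl⟩ k • cl (k : Fin r → ℕ) : Lam r ℚ →ₗ[ℚ] ℚ) (P l') =
        (A⁻¹ * A) ⟨l, hl⟩ ⟨l', hl'⟩ := rfl
    rw [h4, Matrix.nonsing_inv_mul A hdet, Matrix.one_apply]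
    simp only [Subtype.mk.injEq]
  · intro M f hM hf l
    simp only
    by_cases hl : l ∈ part r N
    · rw [dif_pos hl, LinearMap.sum_apply]
      refine sum_eq_zero fun k _ => ?_
      rw [LinearMap.smul_apply, cl_apply, cm_eq_zero_of_Hg hf, smul_zero]
      rw [(mem_part.1 k.2).2]
      exact hM.symm
    · rw [dif_neg hl]
      rfl

end Helper87.TR
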