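import Mathlib
import Pool.Agent.Helper87.TR.St.T6
import Pool.Agent.Helper87.TR.St.T6c
import Pool.Agent.Helper87.TR.St.T10

/-!
# TR-12a: the kernel is diagonal on the eigenvectors of one `D(u)`

Let `N < n` and let the eigenvalues `dl n u l`, `l ∈ part r N`, be pairwise different. `exists_eig` gives `Q_l`,
triangular, `D(u) Q_l = dl n u l Q_l` (the hypothesis: `k` monotone with the same sum is in `part r N`); `Hg N (Q_l)` by `Hg_iff`.
`exists_coord` (T6c) gives coordinates `co l` with respect to the `Q_l`. Put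
`T l k = co l (hc N (KK n (co k)))` (`hc N` = homogeneous component). Then for every `φ` and `k ∈ part r N`:
the degree `N` part of `KK n φ` is `∑_{l, k} T l k φ(Q_k) Q_l`: indeed `hc N (KK n φ)` depends only on the values of `φ` on
degree `N` (`KK_symm`, `KK_Hg`: `cm k (KK n φ) = (cl k) (KK n φ) = φ (KK n (cl k))`, and `KK n (cl k)` is homogeneous of degree
`∑ k = N`), and there `φ = ∑_k φ(Q_k) co k`. By `KK_DD` and `DD_Hg` (which gives `hc N ∘ DD = DD ∘ hc N`),
`(dl n u l - dl n u k) T l k = 0`, because `co k ∘ DD n u = dl n u k • co k` in degree `N`. So `T` is diagonal, `β l = T l l`.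
-/

set_option autoImplicit false

open MvPolynomial Finset

namespace Helper87.TR

lemma t12a_ext {r : ℕ} {ψ ψ' : Lam r ℚ →ₗ[ℚ] ℚ} (h : ∀ M f, Hg M f → ψ f = ψ' f) : ψ = ψ' := by
  apply LinearMap.ext
  intro f
  obtain ⟨B, hB⟩ := exists_Bx f
  rw [sum_hc hB, map_sum, map_sum]
  exact sum_congr rfl fun M _ => h M _ (Hg_hc M f)

lemma t12a_KK_smul {r n : ℕ} (a : ℚ) (φ : Lam r ℚ →ₗ[ℚ] ℚ) : KK n (a • φ) = a • KK n φ := by
  apply ext_cm
  intro k _
  have h1 := KK_symm n (cl k) (a • φ)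
  have h2 := KK_symm n (cl k) φ
  rw [cm_smul, ← cl_apply, ← cl_apply, h1, h2, LinearMap.smul_apply, smul_eq_mul]

theorem diag_one {r n N : ℕ} (u : ℚ) (hsep : ∀ l ∈ part r N, ∀ l' ∈ part r N, l ≠ l' →
      dl (n : ℚ) u l ≠ dl (n : ℚ) u l') :
    ∃ (Q : (Fin r → ℕ) → Lam r ℚ) (β : (Fin r → ℕ) → ℚ),
      (∀ l ∈ part r N, cm l (Q l) = 1) ∧
      (∀ l ∈ part r N, ∀ k : Fin r → ℕ, Monotone k → cm k (Q l) ≠ 0 →
        k = l ∨ (∑ i, k i = ∑ i, l i ∧ sq k < sq l)) ∧
      (∀ l ∈ part r N, Hg N (Q l)) ∧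
      (∀ l ∈ part r N, DD (n : ℚ) u (Q l) = dl (n : ℚ) u l • Q l) ∧
      (∀ (φ : Lam r ℚ →ₗ[ℚ] ℚ), ∀ k ∈ part r N, cm k (KK n φ) =
        ∑ l ∈ part r N, β l * φ (Q l) * cm k (Q l)) := by
  classical
  have hex : ∀ l : Fin r → ℕ, ∃ P : Lam r ℚ, l ∈ part r N → cm l P = 1 ∧
      (∀ k : Fin r → ℕ, Monotone k → cm k P ≠ 0 → k = l ∨ (∑ i, k i = ∑ i, l i ∧ sq k < sq l)) ∧
      DD (n : ℚ) u P = dl (n : ℚ) u l • P := by
    intro l
    by_cases hl : l ∈ part r N
    · obtain ⟨hlm, hls⟩ := mem_part.1 hl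
      obtain ⟨P, hP⟩ := exists_eig (n : ℚ) u l hlm (fun k hk hks hsq => by
        refine hsep k (mem_part.2 ⟨hk, hks.trans hls⟩) l hl ?_
        rintro rfl
        exact lt_irrefl _ hsq)
      exact ⟨P, fun _ => hP⟩
    · exact ⟨0, fun h => absurd h hl⟩
  choose Q hQ using hex
  have hQ1 : ∀ l ∈ part r N, cm l (Q l) = 1 := fun l hl => (hQ l hl).1
  have hQ2 : ∀ l ∈ part r N, ∀ k : Fin r → ℕ, Monotone k → cm k (Q l) ≠ 0 →
      k = l ∨ (∑ i, k i = ∑ i, l i ∧ sq k < sq l) := fun l hl => (hQ l hl).2.1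
  have hQ3 : ∀ l ∈ part r N, DD (n : ℚ) u (Q l) = dl (n : ℚ) u l • Q l :=
    fun l hl => (hQ l hl).2.2
  have hQ4 : ∀ l ∈ part r N, Hg N (Q l) := by
    intro l hl
    have hls := (mem_part.1 hl).2
    rw [Hg_iff]
    intro k hk hk0
    rcases hQ2 l hl k hk hk0 with rfl | h
    · exact hls
    · exact h.1.trans hls
  obtain ⟨co, hco1, hco2, hco3⟩ := exists_coord Q hQ1 hQ2
  have hcohc : ∀ (l : Fin r → ℕ) (f : Lam r ℚ), co l (hc N f) = co l f := by
    intro l f
    have h : (co l) ∘ₗ (hc N) = co l := by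
      apply t12a_ext
      intro M f hf
      rw [LinearMap.comp_apply]
      by_cases h : M = N
      · subst h
        rw [hc_of_Hg hf]
      · rw [hc_of_Hg_ne hf h, map_zero, hco3 M f h hf]
    exact LinearMap.congr_fun h f
  have hcoD : ∀ l ∈ part r N, (co l) ∘ₗ DD (n : ℚ) u = dl (n : ℚ) u l • co l := by
    intro l hl
    apply t12a_ext
    intro M f hf
    rw [LinearMap.comp_apply, LinearMap.smul_apply, smul_eq_mul]
    by_cases h : M = N
    · subst h
      have h1 := hco1 f hf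
      have h2 : DD (n : ℚ) u f = ∑ l ∈ part r M, (co l f * dl (n : ℚ) u l) • Q l := by
        conv_lhs => rw [h1]
        rw [map_sum]
        refine sum_congr rfl fun l hl => ?_
        rw [map_smul, hQ3 l hl, smul_smul]
      rw [h2, map_sum]
      rw [sum_eq_single_of_mem l hl]
      · rw [map_smul, hco2 l hl l hl, if_pos rfl, smul_eq_mul, mul_one, mul_comm]
      · intro l' hl' hne
        rw [map_smul, hco2 l hl l' hl', if_neg (Ne.symm hne), smul_zero]
    · rw [hco3 M _ h (DD_Hg _ _ hf), hco3 M f h hf, mul_zero]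
  have hT : ∀ l ∈ part r N, ∀ k ∈ part r N, l ≠ k → co l (KK n (co k)) = 0 := by
    intro l hl k hk hne
    have h1 := KK_DD n u (co k)
    rw [hcoD k hk, t12a_KK_smul] at h1
    have h2 := congrArg (co l) h1
    have h3 : co l (DD (n : ℚ) u (KK n (co k))) = dl (n : ℚ) u l * co l (KK n (co k)) := by
      have h4 := LinearMap.congr_fun (hcoD l hl) (KK n (co k))
      rw [LinearMap.comp_apply, LinearMap.smul_apply, smul_eq_mul] at h4
      exact h4
    rw [h3, map_smul, smul_eq_mul] at h2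
    have h5 : (dl (n : ℚ) u l - dl (n : ℚ) u k) * co l (KK n (co k)) = 0 := by linarith
    rcases mul_eq_zero.1 h5 with h6 | h6
    · exact absurd (sub_eq_zero.1 h6) (hsep l hl k hk hne)
    · exact h6
  refine ⟨Q, fun l => co l (KK n (co l)), hQ1, hQ2, hQ4, hQ3, fun φ k hk => ?_⟩
  obtain ⟨hkm, hks⟩ := mem_part.1 hk
  have h1 : cm k (KK n φ) = φ (KK n (cl k)) := by
    rw [← cl_apply]
    exact KK_symm n (cl k) φ
  have h2 : Hg N (KK n (cl k : Lam r ℚ →ₗ[ℚ] ℚ)) := by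
    rw [← hks]
    exact KK_Hg n k
  rw [h1, hco1 _ h2, map_sum]
  refine sum_congr rfl fun l hl => ?_
  rw [map_smul, smul_eq_mul]
  have h3 : co l (KK n (cl k)) = cm k (KK n (co l)) := by
    rw [← cl_apply]
    exact KK_symm n (co l) (cl k)
  have h4 : cm k (KK n (co l)) = cm k (hc N (KK n (co l))) := by
    rw [cm_hc _ hkm, if_pos hks]
  have h5 : hc N (KK n (co l)) = co l (KK n (co l)) • Q l := by
    conv_lhs => rw [hco1 _ (Hg_hc N (KK n (co l)))]
    rw [sum_eq_single_of_mem l hl]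
    · rw [hcohc]
    · intro l' hl' hne
      rw [hcohc, hT l' hl' l hl hne, zero_smul]
  rw [h3, h4, h5, cm_smul]
  ring

end Helper87.TR
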