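import Mathlib
import Pool.Agent.Helper87.TR.Basic

/-!
# TR-3: `D(u) e_r = e_r D(u + 1)` and symmetric polynomials vanishing at `z_0 = 0`

* `DD_mul_ee`: `ee r ℚ r = ∏ i, X i` (`MvPolynomial.esymm` for `r = card`); on monomials
  `dd c u (z^(a + (1, ..., 1))) = (∏ X_i) dd c (u + 1) z^a` by `dd_monomial`; then multiply by `vd`
  (`vd_mul_DD`) and cancel `vd` (`vd_ne_zero`).
* `cm_ee_mul`: the coefficient of `z^(k + (1, ..., 1))` in `(∏ X_i) f`.
* `exists_of_res_eq_zero`: `f` symmetric with `f|_{z_0 = 0} = 0` (`res` is defined in `Defs.lean`): `X_0 ∣ f`, by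
  symmetry every `X_i ∣ f`, so all exponents `a` of `f` have `a i ≥ 1` for all `i` and `f = (∏ X_i) g`, `g` symmetric.
-/

set_option autoImplicit false

open MvPolynomial Finset

namespace Helper87.TR

theorem ee_self_coe {r : ℕ} : (ee r ℚ r : MvPolynomial (Fin r) ℚ) = ∏ i, X i := by
  have h : powersetCard r (univ : Finset (Fin r)) = {univ} := by
    have h1 := powersetCard_self (univ : Finset (Fin r))
    rwa [card_univ, Fintype.card_fin] at h1
  change esymm (Fin r) ℚ r = _
  rw [esymm, h, sum_singleton]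

lemma t3_prod_eq {r : ℕ} :
    (∏ i, X i : MvPolynomial (Fin r) ℚ) = monomial (fs fun _ => 1) 1 := by
  rw [monomial_fs]
  simp

lemma t3_dd_mul {r : ℕ} (c u : ℚ) (f : MvPolynomial (Fin r) ℚ) :
    dd c u ((∏ i, X i) * f) = (∏ i, X i) * dd c (u + 1) f := by
  induction f using MvPolynomial.induction_on' with
  | monomial a v =>
    rw [t3_prod_eq, monomial_mul, one_mul, dd_monomial, dd_monomial, mul_sum]
    refine sum_congr rfl fun τ _ => ?_
    rw [monomial_mul, one_mul, add_assoc]
    congr 3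
    refine prod_congr rfl fun i _ => ?_
    rw [Finsupp.add_apply, fs_apply]
    push_cast
    ring
  | add p q hp hq => rw [mul_add, map_add, map_add, hp, hq, mul_add]

theorem DD_mul_ee {r : ℕ} (c u : ℚ) :
    DD c u * mu (ee r ℚ r) = (mu (ee r ℚ r) * DD c (u + 1) : Module.End ℚ (Lam r ℚ)) := by
  apply LinearMap.ext
  intro f
  apply Subtype.ext
  refine mul_left_cancel₀ (vd_ne_zero (r := r) (R := ℚ)) ?_
  rw [Module.End.mul_apply, Module.End.mul_apply, vd_mul_DD, mu_apply, mu_apply]
  push_cast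
  rw [ee_self_coe, t3_dd_mul, ← vd_mul_DD]
  ring

theorem cm_ee_mul {r : ℕ} (f : Lam r ℚ) (k : Fin r → ℕ) :
    cm (fun i => k i + 1) (ee r ℚ r * f) = cm k f ∧
      ((∃ i, k i = 0) → cm k (ee r ℚ r * f) = 0) := by
  have h : ((ee r ℚ r * f : Lam r ℚ) : MvPolynomial (Fin r) ℚ) =
      monomial (fs fun _ => 1) 1 * (f : MvPolynomial (Fin r) ℚ) := by
    push_cast
    rw [ee_self_coe, t3_prod_eq]
  constructor
  · rw [cm, cm, h]
    have h1 : (fs fun i => k i + 1) = (fs fun _ => 1) + fs k := by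
      ext i
      rw [Finsupp.add_apply, fs_apply, fs_apply, fs_apply, add_comm]
    rw [h1, coeff_monomial_mul, one_mul]
  · rintro ⟨i, hi⟩
    rw [cm, h, coeff_monomial_mul', if_neg]
    intro h1
    have h2 := h1 i
    rw [fs_apply, fs_apply, hi] at h2
    omega

theorem res_ee {r : ℕ} : res r (ee (r + 1) ℚ (r + 1)) = 0 := by
  apply Subtype.ext
  rw [coe_res, ee_self_coe, map_prod, Fin.prod_univ_succ, aeval_X]
  simp

lemma t3_coeff_aeval {r : ℕ} (f : MvPolynomial (Fin (r + 1)) ℚ) (b : Fin r →₀ ℕ) :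
    coeff b (aeval (Fin.cases 0 X : Fin (r + 1) → MvPolynomial (Fin r) ℚ) f) =
      coeff (fs (Fin.cases 0 fun i => b i : Fin (r + 1) → ℕ)) f := by
  classical
  induction f using MvPolynomial.induction_on' with
  | monomial a v =>
    rw [aeval_monomial, Finsupp.prod_fintype _ _ (fun i => pow_zero _), Fin.prod_univ_succ,
      coeff_monomial, algebraMap_eq, coeff_C_mul]
    simp only [Fin.cases_zero, Fin.cases_succ]
    by_cases h0 : a 0 = 0
    · rw [h0, pow_zero, one_mul]
      have h1 := monomial_fs (R := ℚ) (fun i : Fin r => a i.succ) 1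
      rw [C_1, one_mul] at h1
      rw [← h1, coeff_monomial]
      have h2 : ((fs fun i : Fin r => a i.succ) = b) ↔
          (a = fs (Fin.cases 0 fun i => b i : Fin (r + 1) → ℕ)) := by
        constructor
        · intro h
          ext i
          refine Fin.cases ?_ (fun j => ?_) i
          · rw [fs_apply, h0]
            rfl
          · rw [fs_apply, ← h]
            rfl
        · intro h
          ext i
          rw [fs_apply, h]
          rfl
      by_cases h3 : (fs fun i : Fin r => a i.succ) = b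
      · rw [if_pos h3, if_pos (h2.1 h3), mul_one]
      · rw [if_neg h3, if_neg (fun h => h3 (h2.2 h)), mul_zero]
    · rw [zero_pow h0, zero_mul, coeff_zero, mul_zero, if_neg]
      intro h
      apply h0
      rw [h]
      rfl
  | add p q hp hq => rw [map_add, coeff_add, coeff_add, hp, hq]

theorem exists_of_res_eq_zero {r : ℕ} (f : Lam (r + 1) ℚ) (h : res r f = 0) :
    ∃ g : Lam (r + 1) ℚ, f = ee (r + 1) ℚ (r + 1) * g := by
  have h0 : ∀ a : Fin (r + 1) →₀ ℕ, a 0 = 0 →
      coeff a (f : MvPolynomial (Fin (r + 1)) ℚ) = 0 := by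
    intro a ha
    have h1 := t3_coeff_aeval (f : MvPolynomial (Fin (r + 1)) ℚ) (fs fun i => a i.succ)
    rw [← coe_res, h] at h1
    have h2 : a = fs (Fin.cases 0 fun i => (fs fun i => a i.succ : Fin r →₀ ℕ) i :
        Fin (r + 1) → ℕ) := by
      ext i
      refine Fin.cases ?_ (fun j => ?_) i
      · rw [fs_apply, ha]
        rfl
      · rfl
    rw [h2, ← h1]
    simp
  have h00 : ∀ a : Fin (r + 1) →₀ ℕ, (∃ i, a i = 0) →
      coeff a (f : MvPolynomial (Fin (r + 1)) ℚ) = 0 := by
    rintro a ⟨i, hi⟩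
    have h1 := cm_perm f (fun j => a j) (Equiv.swap 0 i)
    rw [cm, cm, fs_coe] at h1
    rw [← h1]
    refine h0 _ ?_
    rw [fs_apply, Equiv.swap_apply_left]
    exact hi
  have hs : IsSymmetric (divMonomial (f : MvPolynomial (Fin (r + 1)) ℚ) (fs fun _ => 1)) := by
    intro σ
    ext a
    rw [coeff_rename_perm, coeff_divMonomial, coeff_divMonomial]
    have h1 : (fs fun _ => 1 : Fin (r + 1) →₀ ℕ) + a.mapDomain σ.symm =
        ((fs fun _ => 1 : Fin (r + 1) →₀ ℕ) + a).mapDomain σ.symm := by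
      ext i
      rw [Finsupp.mapDomain_equiv_apply, Finsupp.add_apply, Finsupp.mapDomain_equiv_apply,
        Finsupp.add_apply, fs_apply, fs_apply]
    rw [h1, ← coeff_rename_perm, f.isSymmetric σ]
  refine ⟨⟨_, (mem_symmetricSubalgebra _).2 hs⟩, ?_⟩
  apply Subtype.ext
  push_cast
  rw [ee_self_coe, t3_prod_eq]
  ext a
  rw [coeff_monomial_mul']
  by_cases h1 : (fs fun _ => 1 : Fin (r + 1) →₀ ℕ) ≤ a
  · rw [if_pos h1, one_mul, coeff_divMonomial, add_tsub_cancel_of_le h1]
  · rw [if_neg h1]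
    apply h00
    by_contra h2
    push Not at h2
    apply h1
    intro i
    rw [fs_apply]
    exact Nat.one_le_iff_ne_zero.2 (h2 i)

end Helper87.TR
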