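import Mathlib
import Pool.Agent.Helper87.TR.Basic

/-!
# TR-3b: the value at `z_0 = 0`

* `res_DD`: on monomials `z^a` of `MvPolynomial (Fin (r + 1)) ℚ`: `z^(a + τ)` at `z_0 = 0` is `0` unless
  `a 0 = 0` and `τ 0 = 0`; the permutations with `τ 0 = 0` are
  `Equiv.Perm.decomposeFin.symm (0, τ')`, `τ (i + 1) = τ' i + 1`, `sign τ = sign τ'`. So
  `(dd c u f)|_{z_0 = 0} = u (∏ X_i) dd c (u - c) (f|_{z_0 = 0})` (factor `i = 0`: `0 + u - c 0 = u`;
  factor `i + 1`: `a (i+1) + u - c (τ' i + 1)`), and `vd|_{z_0 = 0} = (∏ X_i) vd`. Use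
  `vd_mul_DD` and cancel `(∏ X_i) vd`.
* `cm_res`: compare coefficients (monomials).
* `res_mul`: `aeval` is multiplicative.
-/

set_option autoImplicit false

open MvPolynomial Finset

namespace Helper87.TR

/-- the substitution `z_0 = 0` -/
noncomputable def t3b_phi (r : ℕ) : MvPolynomial (Fin (r + 1)) ℚ →ₐ[ℚ] MvPolynomial (Fin r) ℚ :=
  aeval (Fin.cases 0 X : Fin (r + 1) → MvPolynomial (Fin r) ℚ)

lemma t3b_coe_res {r : ℕ} (f : Lam (r + 1) ℚ) :
    (res r f : MvPolynomial (Fin r) ℚ) = t3b_phi r (f : MvPolynomial (Fin (r + 1)) ℚ) := rfl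

lemma t3b_phi_monomial {r : ℕ} (b : Fin (r + 1) → ℕ) (v : ℚ) :
    t3b_phi r (monomial (fs b) v) =
      if b 0 = 0 then monomial (fs fun i => b i.succ) v else 0 := by
  rw [monomial_fs, map_mul, map_prod]
  simp_rw [map_pow]
  rw [Fin.prod_univ_succ]
  have hC : t3b_phi r (C v) = C v := by
    rw [t3b_phi, ← algebraMap_eq, AlgHom.commutes, algebraMap_eq]
  have h0 : t3b_phi r (X 0) = 0 := by
    rw [t3b_phi, aeval_X, Fin.cases_zero]
  have hs : ∀ i : Fin r, t3b_phi r (X i.succ) = X i := fun i => by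
    rw [t3b_phi, aeval_X, Fin.cases_succ]
  rw [hC, h0]
  simp_rw [hs]
  by_cases h : b 0 = 0
  · rw [if_pos h, h, pow_zero, one_mul, monomial_fs]
  · rw [if_neg h, zero_pow h, zero_mul, mul_zero]

lemma t3b_prodX (r : ℕ) : (∏ i : Fin r, (X i : MvPolynomial (Fin r) ℚ)) =
    monomial (fs fun _ => 1) 1 := by
  rw [monomial_fs]
  simp

lemma t3b_sum {r : ℕ} (a : Fin (r + 1) →₀ ℕ) (F : Equiv.Perm (Fin (r + 1)) → ℚ) :
    ∑ τ : Equiv.Perm (Fin (r + 1)), t3b_phi r (monomial (a + pe τ) (F τ)) =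
      if a 0 = 0 then (∏ i : Fin r, (X i : MvPolynomial (Fin r) ℚ)) *
        ∑ e : Equiv.Perm (Fin r), monomial ((fs fun i => a i.succ) + pe e)
          (F (Equiv.Perm.decomposeFin.symm (0, e))) else 0 := by
  have h1 : ∀ τ : Equiv.Perm (Fin (r + 1)), t3b_phi r (monomial (a + pe τ) (F τ)) =
      if a 0 + (τ 0 : ℕ) = 0 then
        monomial (fs fun i => a i.succ + (τ i.succ : ℕ)) (F τ) else 0 := by
    intro τ
    have h2 : a + pe τ = fs (fun i => a i + (τ i : ℕ)) := by
      ext i; simp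
    rw [h2, t3b_phi_monomial]
  simp_rw [h1]
  rw [← Equiv.sum_comp Equiv.Perm.decomposeFin.symm (fun τ : Equiv.Perm (Fin (r + 1)) =>
    if a 0 + (τ 0 : ℕ) = 0 then
        (monomial (fs fun i => a i.succ + (τ i.succ : ℕ)) (F τ) : MvPolynomial (Fin r) ℚ) else 0)]
  rw [Fintype.sum_prod_type]
  rw [sum_eq_single (0 : Fin (r + 1))]
  · by_cases h : a 0 = 0
    · rw [if_pos h, mul_sum]
      refine sum_congr rfl fun e _ => ?_
      rw [if_pos, t3b_prodX, monomial_mul, one_mul]
      · congr 2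
        ext i
        simp
        ring
      · rw [Equiv.Perm.decomposeFin_symm_apply_zero, h]
        rfl
    · rw [if_neg h]
      refine sum_eq_zero fun e _ => ?_
      rw [if_neg]
      omega
  · intro p _ hp
    refine sum_eq_zero fun e _ => ?_
    rw [if_neg]
    rw [Equiv.Perm.decomposeFin_symm_apply_zero]
    have : (p : ℕ) ≠ 0 := fun h => hp (Fin.ext h)
    omega
  · intro h
    exact absurd (mem_univ _) h

lemma t3b_vd (r : ℕ) : t3b_phi r (vd (r + 1) ℚ) =
    (∏ i : Fin r, (X i : MvPolynomial (Fin r) ℚ)) * vd r ℚ := by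
  have h := t3b_sum (r := r) 0 (fun τ => ((Equiv.Perm.sign τ : ℤ) : ℚ))
  simp only [zero_add, Finsupp.coe_zero, Pi.zero_apply, if_true] at h
  rw [vd, map_sum, h, vd]
  congr 1
  refine sum_congr rfl fun e _ => ?_
  have h0 : (fs fun _ : Fin r => 0) = 0 := by
    ext i; simp
  rw [h0, zero_add, Equiv.Perm.decomposeFin.symm_sign, if_pos rfl, one_mul]

lemma t3b_dd {r : ℕ} (c u : ℚ) (g : MvPolynomial (Fin (r + 1)) ℚ) :
    t3b_phi r (dd c u g) =
      u • ((∏ i : Fin r, (X i : MvPolynomial (Fin r) ℚ)) * dd c (u - c) (t3b_phi r g)) := by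
  induction g using MvPolynomial.induction_on' with
  | monomial a v =>
    rw [dd_monomial, map_sum, t3b_sum, ← fs_coe a, t3b_phi_monomial]
    by_cases h : a 0 = 0
    · rw [if_pos h, if_pos (by rw [fs_apply]; exact h), dd_monomial, mul_sum, mul_sum, smul_sum]
      refine sum_congr rfl fun e _ => ?_
      rw [← mul_smul_comm, smul_monomial]
      congr 2
      rw [Fin.prod_univ_succ, Equiv.Perm.decomposeFin_symm_apply_zero,
        Equiv.Perm.decomposeFin.symm_sign, if_pos rfl, one_mul, fs_apply, h]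
      have h3 : ∀ i : Fin r, (((fs fun i => a i) i.succ : ℕ) : ℚ) + u -
          c * (((Equiv.Perm.decomposeFin.symm (0, e) i.succ : Fin (r + 1)) : ℕ) : ℚ) =
          (((fs fun i : Fin r => a i.succ) i : ℕ) : ℚ) + (u - c) - c * ((e i : ℕ) : ℚ) := by
        intro i
        rw [Equiv.Perm.decomposeFin_symm_apply_succ, Equiv.swap_self, Equiv.refl_apply]
        simp only [fs_apply, Fin.val_succ]
        push_cast
        ring
      simp_rw [h3]
      simp only [smul_eq_mul, Fin.val_zero, Nat.cast_zero, mul_zero, zero_add, sub_zero]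
      ring
    · rw [if_neg h, if_neg (by rw [fs_apply]; exact h), map_zero, mul_zero, smul_zero]
  | add p q hp hq =>
    rw [map_add, map_add, hp, hq, map_add, map_add, mul_add, smul_add]

theorem res_DD {r : ℕ} (c u : ℚ) (f : Lam (r + 1) ℚ) :
    res r (DD c u f) = u • DD c (u - c) (res r f) := by
  apply Subtype.ext
  have hX : (∏ i : Fin r, (X i : MvPolynomial (Fin r) ℚ)) ≠ 0 :=
    prod_ne_zero_iff.2 fun i _ => X_ne_zero i
  refine mul_left_cancel₀ (mul_ne_zero hX (vd_ne_zero (r := r) (R := ℚ))) ?_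
  rw [← t3b_vd, t3b_coe_res, ← map_mul, vd_mul_DD, t3b_dd, t3b_vd, SetLike.val_smul,
    mul_smul_comm, mul_assoc, vd_mul_DD, t3b_coe_res]

lemma t3b_coeff {r : ℕ} (g : MvPolynomial (Fin (r + 1)) ℚ) (k : Fin r → ℕ) :
    coeff (fs k) (t3b_phi r g) = coeff (fs (Fin.cons 0 k : Fin (r + 1) → ℕ)) g := by
  classical
  induction g using MvPolynomial.induction_on' with
  | monomial a v =>
    rw [← fs_coe a, t3b_phi_monomial, coeff_monomial]
    by_cases h : a 0 = 0
    · rw [if_pos h, coeff_monomial]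
      congr 1
      rw [fs_injective.eq_iff, fs_injective.eq_iff]
      apply propext
      constructor
      · intro h1
        funext i
        refine Fin.cases ?_ (fun j => ?_) i
        · rw [h, Fin.cons_zero]
        · rw [Fin.cons_succ]
          exact congrFun h1 j
      · intro h1
        funext j
        have := congrFun h1 j.succ
        rwa [Fin.cons_succ] at this
    · rw [if_neg h, coeff_zero, if_neg]
      intro h1
      rw [fs_injective.eq_iff] at h1
      apply h
      have := congrFun h1 0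
      rwa [Fin.cons_zero] at this
  | add p q hp hq =>
    rw [map_add, coeff_add, coeff_add, hp, hq]

theorem cm_res {r : ℕ} (f : Lam (r + 1) ℚ) (k : Fin r → ℕ) :
    cm k (res r f) = cm (Fin.cons 0 k : Fin (r + 1) → ℕ) f := by
  rw [cm, cm, t3b_coe_res, t3b_coeff]

theorem res_mul {r : ℕ} (f g : Lam (r + 1) ℚ) : res r (f * g) = res r f * res r g := by
  apply Subtype.ext
  rw [t3b_coe_res]
  push_cast
  rw [t3b_coe_res, t3b_coe_res, map_mul]

theorem res_Hg {r N : ℕ} {f : Lam (r + 1) ℚ} (hf : Hg N f) : Hg N (res r f) := by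
  rw [Hg_iff]
  intro k _ h
  rw [cm_res] at h
  by_contra h1
  apply h
  refine cm_eq_zero_of_Hg hf ?_
  rw [Fin.sum_univ_succ, Fin.cons_zero, zero_add]
  simpa using h1

end Helper87.TR
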