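import Mathlib
import Pool.Agent.Helper87.TR.Basic

/-!
# TR-6b: separation of eigenvalues

`exists_sep`: for `c = n` and `N < n` the numbers `l i - n i` (`i < r`) determine `l ∈ part r N`: if
`l, l' ∈ part r N` and the polynomials `u ↦ dl n u l = ∏ (u + (l i - n i))`, `dl n u l'` are equal, the multisets
`{l i - n i}` are equal and since `0 ≤ l i ≤ N < n` they are strictly decreasing in `i`, hence
`l i = l' i` for all `i`. So for `l ≠ l'` only finitely many `u` have `dl n u l = dl n u l'`, and a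
`u` outside a finite set works for all the pairs and all `N < n` (and is different from finitely many
given numbers, `bad`; the last part is the same with `r - 1` and `u - n`).
-/

set_option autoImplicit false

open MvPolynomial Finset

namespace Helper87.TR

lemma t6b_poly (r n : ℕ) (l : Fin r → ℕ) (u : ℚ) :
    (∏ i : Fin r, (Polynomial.X + Polynomial.C ((l i : ℚ) - n * ((i : ℕ) : ℚ)))).eval u =
      dl (n : ℚ) u l := by
  rw [Polynomial.eval_prod, dl]
  refine prod_congr rfl fun i _ => ?_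
  rw [Polynomial.eval_add, Polynomial.eval_X, Polynomial.eval_C]
  ring

lemma t6b_fin (r n N : ℕ) (hN : N < n) (l l' : Fin r → ℕ) (hl : l ∈ part r N)
    (hl' : l' ∈ part r N) (hne : l ≠ l') : {u : ℚ | dl (n : ℚ) u l = dl (n : ℚ) u l'}.Finite := by
  set P : Polynomial ℚ := ∏ i : Fin r, (Polynomial.X + Polynomial.C ((l i : ℚ) - n * ((i : ℕ) : ℚ)))
    with hP
  set P' : Polynomial ℚ :=
    ∏ i : Fin r, (Polynomial.X + Polynomial.C ((l' i : ℚ) - n * ((i : ℕ) : ℚ))) with hP'
  have hle : ∀ (k : Fin r → ℕ), k ∈ part r N → ∀ i, k i ≤ N := by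
    intro k hk i
    rw [← (mem_part.1 hk).2]
    exact single_le_sum (f := fun i => k i) (fun _ _ => Nat.zero_le _) (mem_univ i)
  have hPP : P - P' ≠ 0 := by
    intro h0
    apply hne
    funext i
    have h1 : P.eval ((n : ℚ) * ((i : ℕ) : ℚ) - l i) = 0 := by
      rw [hP, Polynomial.eval_prod]
      refine prod_eq_zero (mem_univ i) ?_
      rw [Polynomial.eval_add, Polynomial.eval_X, Polynomial.eval_C]
      ring
    have h2 : P'.eval ((n : ℚ) * ((i : ℕ) : ℚ) - l i) = 0 := by
      rw [← sub_eq_zero.mp h0]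
      exact h1
    rw [hP', Polynomial.eval_prod, prod_eq_zero_iff] at h2
    obtain ⟨j, -, hj⟩ := h2
    rw [Polynomial.eval_add, Polynomial.eval_X, Polynomial.eval_C] at hj
    have h3 : (n : ℤ) * ((i : ℕ) : ℤ) - l i + (l' j - n * ((j : ℕ) : ℤ)) = 0 := by
      exact_mod_cast hj
    have h4 := hle l hl i
    have h5 := hle l' hl' j
    have h6 : (i : ℕ) = (j : ℕ) := by
      rcases lt_trichotomy (i : ℕ) (j : ℕ) with h | h | h
      · exfalso
        have h7 : ((i : ℕ) : ℤ) + 1 ≤ ((j : ℕ) : ℤ) := by exact_mod_cast h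
        have h8 : (n : ℤ) * (((i : ℕ) : ℤ) + 1) ≤ n * ((j : ℕ) : ℤ) :=
          mul_le_mul_of_nonneg_left h7 (by positivity)
        have h9 : (l' j : ℤ) ≤ N := by exact_mod_cast h5
        have h10 : (N : ℤ) < n := by exact_mod_cast hN
        have h11 : (0 : ℤ) ≤ l i := by positivity
        nlinarith
      · exact h
      · exfalso
        have h7 : ((j : ℕ) : ℤ) + 1 ≤ ((i : ℕ) : ℤ) := by exact_mod_cast h
        have h8 : (n : ℤ) * (((j : ℕ) : ℤ) + 1) ≤ n * ((i : ℕ) : ℤ) :=
          mul_le_mul_of_nonneg_left h7 (by positivity)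
        have h9 : (l i : ℤ) ≤ N := by exact_mod_cast h4
        have h10 : (N : ℤ) < n := by exact_mod_cast hN
        have h11 : (0 : ℤ) ≤ l' j := by positivity
        nlinarith
    have h7 : i = j := Fin.ext h6
    subst h7
    have : (l i : ℤ) = l' i := by linarith
    exact_mod_cast this
  refine ((P - P').roots.toFinset.finite_toSet).subset ?_
  intro u hu
  rw [Finset.mem_coe, Multiset.mem_toFinset, Polynomial.mem_roots hPP, Polynomial.IsRoot,
    Polynomial.eval_sub, hP, hP', t6b_poly, t6b_poly]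
  exact sub_eq_zero.mpr hu

theorem exists_sep (r n : ℕ) (bad : Finset ℚ) : ∃ u : ℚ, u ∉ bad ∧
    (∀ N < n, ∀ l ∈ part r N, ∀ l' ∈ part r N, l ≠ l' → dl (n : ℚ) u l ≠ dl (n : ℚ) u l') ∧
    (∀ N < n, ∀ l ∈ part (r - 1) N, ∀ l' ∈ part (r - 1) N, l ≠ l' →
      dl (n : ℚ) (u - n) l ≠ dl (n : ℚ) (u - n) l') := by
  set S : Set ℚ := (bad : Set ℚ) ∪
    (⋃ N ∈ {N : ℕ | N < n}, ⋃ l ∈ (part r N : Set (Fin r → ℕ)),
      ⋃ l' ∈ {l' : Fin r → ℕ | l' ∈ part r N ∧ l ≠ l'},
        {u : ℚ | dl (n : ℚ) u l = dl (n : ℚ) u l'}) ∪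
    (⋃ N ∈ {N : ℕ | N < n}, ⋃ l ∈ (part (r - 1) N : Set (Fin (r - 1) → ℕ)),
      ⋃ l' ∈ {l' : Fin (r - 1) → ℕ | l' ∈ part (r - 1) N ∧ l ≠ l'},
        {u : ℚ | dl (n : ℚ) (u - n) l = dl (n : ℚ) (u - n) l'}) with hS
  have hfin : S.Finite := by
    refine ((bad.finite_toSet).union ?_).union ?_
    · refine (Set.finite_lt_nat n).biUnion fun N hN => ?_
      refine ((part r N).finite_toSet).biUnion fun l hl => ?_
      refine (((part r N).finite_toSet).subset fun l' h => h.1).biUnion fun l' hl' => ?_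
      exact t6b_fin r n N hN l l' hl hl'.1 hl'.2
    · refine (Set.finite_lt_nat n).biUnion fun N hN => ?_
      refine ((part (r - 1) N).finite_toSet).biUnion fun l hl => ?_
      refine (((part (r - 1) N).finite_toSet).subset fun l' h => h.1).biUnion fun l' hl' => ?_
      have h1 := t6b_fin (r - 1) n N hN l l' hl hl'.1 hl'.2
      have h2 := h1.preimage (f := fun u : ℚ => u - n) (fun a _ b _ hab => by simpa using hab)
      exact h2
  obtain ⟨u, hu⟩ := hfin.infinite_compl.nonempty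
  refine ⟨u, fun h => hu (Or.inl (Or.inl h)), ?_, ?_⟩
  · intro N hN l hl l' hl' hne h
    refine hu (Or.inl (Or.inr ?_))
    simp only [Set.mem_iUnion]
    exact ⟨N, hN, l, hl, l', ⟨hl', hne⟩, h⟩
  · intro N hN l hl l' hl' hne h
    refine hu (Or.inr ?_)
    simp only [Set.mem_iUnion]
    exact ⟨N, hN, l, hl, l', ⟨hl', hne⟩, h⟩

end Helper87.TR
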