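import Mathlib
import Pool.Agent.Helper87.TR.St.T3
import Pool.Agent.Helper87.TR.St.T3b
import Pool.Agent.Helper87.TR.St.T6b
import Pool.Agent.Helper87.TR.St.T12a
import Pool.Agent.Helper87.TR.St.T11
import Pool.Agent.Helper87.TR.St.T11b

/-!
# TR-12: existence of the Jack polynomials in low degree and the expansion of the kernel

Statement `J(r, N)`: for `N < n` (i) all `l ∈ part r N` have a Jack polynomial; (ii) for every functional `φ`
and `k ∈ part r N`: `cm k (KK n φ) = ∑_{l ∈ part r N} bb n l * φ (jk n l) * cm k (jk n l)`.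
Induction on `r`. `r = 0`: all is trivial (`kp 0 n = 1`, `part 0 N` is `{![]}` or empty, `DD = id`).
Step `r → r + 1`: fix `n`; for (i), (ii) strong induction on `N`. Choose `u₀ ≠ 0` with `exists_sep (r + 1) n`.
1. `diag_one` gives `Q_l`, `β_l`, `l ∈ part (r+1) N`; `exists_coord` (T6c) gives coordinates with respect to the `Q_l`.
2. `l = ν + 1` (all parts `≥ 1`): `Q_l = ee (r+1) * jk n ν` (`DD_mul_ee`, `dl c u (ν + 1) = dl c (u + 1) ν`,
   `cm_ee_mul`, `eig_unique`); here `∑ ν = N - (r + 1) < N`. So `Q_l` is an eigenvector of all `D(v)`: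
   `D(v) Q_l = ee * D(v + 1) (jk n ν) = dl (v + 1) ν Q_l`.
3. `l = Fin.cons 0 l'`: `res Q_l = jk n l'`: it has leading coefficient `1` (`cm_res`), and
   `u₀ D(u₀ - n) (res Q_l) = res (D(u₀) Q_l) = dl n u₀ l res Q_l`, `dl n u₀ (cons 0 l') = u₀ dl n (u₀ - n) l'`
   (factor `i = 0`: `u₀`; factor `i + 1`: `l'_i + u₀ - n (i + 1)`). Use `eig_unique` in `r` variables and the
   induction hypothesis for `r`.
   Applying `res` to the expansion of `KK n (φ ∘ res)`, and `KK_res`, (ii) for `r`: `β_l = bb n l' = bb n l ≠ 0`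
   (T11, T11b; `res Q_{ν+1} = 0` by `res_mul`, `res_ee`; the `jk n l'` are linearly independent in degree `N`).
   For every `v`: `res (D(v) Q_l - dl n v l Q_l) = 0` (`res_DD`), so by `exists_of_res_eq_zero` (take the degree `N` part)
   `D(v) Q_l = dl n v l Q_l + ∑_ν s_ν Q_{ν + 1}`. In `D(v) (KK n φ) = KK n (φ ∘ D(v))` (`KK_DD`) compare the coefficients
   of `Q_{ν+1}` (degree `N` parts): `∑_{l : l 0 = 0} β_l s_{ν l} φ(Q_l) = 0` for all `φ`, hence `s_{ν l} = 0`.
   So all `Q_l` are Jack polynomials (`IsJack`), which proves (i); and `Q_l = jk n l` (`eig_unique`, `isJack_jk`).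
4. `β_{ν+1}`: in `KK_DD0` compare the coefficients of `Q_{ν+1}` in degree `N`:
   `β_{ν+1} dl n 0 (ν+1) φ(Q_{ν+1}) = bb n ν dl n (-n) ν φ(ee * jk n ν)`;
   `dl n 0 (ν + 1) = ∏ (ν i + 1 - n i) ≠ 0`, `dl n (-n) ν = ∏ (ν i - n (i + 1))`, so `β_{ν+1} = bb n (ν + 1)` by T11.
-/

set_option autoImplicit false

open MvPolynomial Finset

namespace Helper87.TR

/-- the statement proved by induction -/
def t12_J (r n N : ℕ) : Prop :=
  (∀ l ∈ part r N, ∃ P : Lam r ℚ, IsJack (n : ℚ) l P) ∧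
    (∀ (φ : Lam r ℚ →ₗ[ℚ] ℚ), ∀ k ∈ part r N, cm k (KK n φ) =
      ∑ l ∈ part r N, bb (n : ℚ) l * φ (jk (n : ℚ) l) * cm k (jk (n : ℚ) l))

lemma t12_cm_one {r : ℕ} (k : Fin r → ℕ) (hk : ∀ i, k i = 0) : cm k (1 : Lam r ℚ) = 1 := by
  have h : fs k = 0 := by
    ext i
    simp [hk i]
  change coeff (fs k) (1 : MvPolynomial (Fin r) ℚ) = 1
  rw [h]
  exact coeff_zero_one

lemma t12_vd0 : vd 0 ℚ = 1 := by
  rw [vd, Fintype.sum_unique]
  have h : pe (default : Equiv.Perm (Fin 0)) = 0 := by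
    ext i
    exact i.elim0
  rw [h]
  simp

lemma t12_DD0 (c u : ℚ) : DD c u (1 : Lam 0 ℚ) = 1 := by
  have h := vd_mul_DD c u (1 : Lam 0 ℚ)
  rw [t12_vd0, one_mul] at h
  apply Subtype.ext
  rw [h]
  change dd c u (1 : MvPolynomial (Fin 0) ℚ) = 1
  have h1 : (1 : MvPolynomial (Fin 0) ℚ) = monomial 0 1 := rfl
  rw [h1, dd_monomial, Fintype.sum_unique]
  have h : pe (default : Equiv.Perm (Fin 0)) = 0 := by
    ext i
    exact i.elim0
  rw [h]
  simp

lemma t12_eq_one {P : Lam 0 ℚ} (l : Fin 0 → ℕ) (h : cm l P = 1) : P = 1 := by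
  apply ext_cm
  intro k _
  rw [Subsingleton.elim k l, h, t12_cm_one l fun i => i.elim0]

lemma t12_zero (n N : ℕ) : t12_J 0 n N := by
  have hJ : ∀ l : Fin 0 → ℕ, IsJack (n : ℚ) l (1 : Lam 0 ℚ) := fun l =>
    { lead := t12_cm_one l fun i => i.elim0
      lower := fun k _ _ => Or.inl (Subsingleton.elim _ _)
      eigen := fun u => by
        rw [t12_DD0]
        simp [dl] }
  refine ⟨fun l _ => ⟨1, hJ l⟩, ?_⟩
  intro φ k hk
  have hjk : jk (n : ℚ) k = 1 := t12_eq_one k (isJack_jk ⟨1, hJ k⟩).lead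
  have hp : part 0 N = {k} :=
    Finset.eq_singleton_iff_unique_mem.2 ⟨hk, fun x _ => Subsingleton.elim _ _⟩
  have hφ : φ = φ 1 • ev0 0 ℚ := by
    ext f
    have hf : f = cm k f • (1 : Lam 0 ℚ) := by
      apply ext_cm
      intro k' _
      rw [Subsingleton.elim k' k, cm_smul, t12_cm_one k fun i => i.elim0, mul_one]
    have h1 : ev0 0 ℚ f = cm k f := by
      rw [ev0_apply, cm]
      have : fs k = 0 := by
        ext i
        exact i.elim0
      rw [this]
      rfl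
    rw [LinearMap.smul_apply, h1]
    conv_lhs => rw [hf]
    rw [map_smul, smul_eq_mul, smul_eq_mul, mul_comm]
  rw [hp, sum_singleton, hjk]
  conv_lhs => rw [hφ]
  rw [KK_smul, KK_ev0, cm_smul]
  have hbb : bb (n : ℚ) k = 1 := by
    have hb : bs k = ∅ := by
      rw [bs]
      simp
    rw [bb, hb, bn, bd]
    simp
  rw [hbb, one_mul]

lemma t12_cm_DD_hc {r N : ℕ} (c u : ℚ) (f : Lam r ℚ) {k : Fin r → ℕ} (hk : k ∈ part r N) :
    cm k (DD c u f) = cm k (DD c u (hc N f)) := by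
  rw [mem_part] at hk
  have h : cm k (DD c u (f - hc N f)) = 0 := by
    rw [cm_DD c u (f - hc N f) k hk.1, cm_sub, cm_hc f hk.1, if_pos hk.2, sub_self, mul_zero]
    intro k' hk' hs _
    rw [cm_sub, cm_hc f hk', if_pos (hs.trans hk.2), sub_self]
  rw [map_sub, cm_sub, sub_eq_zero] at h
  exact h

lemma t12_jack_Hg {r : ℕ} {c : ℚ} {l : Fin r → ℕ} {P : Lam r ℚ} (h : IsJack c l P) :
    Hg (∑ i, l i) P := by
  rw [Hg_iff]
  intro k hk h1
  rcases h.lower k hk h1 with h2 | h2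
  · rw [h2]
  · exact h2.1

lemma t12_hc_KK {r n N : ℕ} (Q : (Fin r → ℕ) → Lam r ℚ) (β : (Fin r → ℕ) → ℚ)
    (hQ3 : ∀ l ∈ part r N, Hg N (Q l)) (φ : Lam r ℚ →ₗ[ℚ] ℚ)
    (hQ5 : ∀ k ∈ part r N, cm k (KK n φ) = ∑ l ∈ part r N, β l * φ (Q l) * cm k (Q l)) :
    hc N (KK n φ) = ∑ l ∈ part r N, (β l * φ (Q l)) • Q l := by
  apply ext_cm
  intro k hk
  rw [cm_hc _ hk, cm_sum]
  by_cases h : ∑ i, k i = N
  · rw [if_pos h, hQ5 k (mem_part.2 ⟨hk, h⟩)]
    exact sum_congr rfl fun l _ => (cm_smul _ _ _).symm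
  · rw [if_neg h]
    symm
    apply sum_eq_zero
    intro l hl
    rw [cm_smul, cm_eq_zero_of_Hg (hQ3 l hl) h, mul_zero]

lemma t12_dl_succ {r : ℕ} (c u : ℚ) (ν : Fin r → ℕ) :
    dl c u (fun i => ν i + 1) = dl c (u + 1) ν := by
  rw [dl, dl]
  refine prod_congr rfl fun i _ => ?_
  push_cast
  ring

lemma t12_dl_cons {r : ℕ} (c u : ℚ) (l : Fin r → ℕ) :
    dl c u (Fin.cons 0 l : Fin (r + 1) → ℕ) = u * dl c (u - c) l := by
  rw [dl, dl, Fin.prod_univ_succ]
  congr 1
  · simp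
  · refine prod_congr rfl fun i _ => ?_
    rw [Fin.cons_succ, Fin.val_succ]
    push_cast
    ring

lemma t12_cons_mem {r N : ℕ} {l : Fin r → ℕ} :
    (Fin.cons 0 l : Fin (r + 1) → ℕ) ∈ part (r + 1) N ↔ l ∈ part r N := by
  rw [mem_part, mem_part, Fin.sum_univ_succ]
  simp only [Fin.cons_zero, Fin.cons_succ, zero_add]
  refine and_congr_left fun _ => ⟨fun h i j hij => ?_, fun h i j hij => ?_⟩
  · have := h (Fin.succ_le_succ_iff.2 hij)
    simpa using this
  · induction i using Fin.cases with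
    | zero => simp
    | succ i =>
      induction j using Fin.cases with
      | zero => exact absurd (Fin.le_zero_iff.1 hij) (Fin.succ_ne_zero i)
      | succ j =>
        rw [Fin.cons_succ, Fin.cons_succ]
        exact h (Fin.succ_le_succ_iff.1 hij)

lemma t12_succ_mem {r N : ℕ} {ν : Fin (r + 1) → ℕ} :
    (fun i => ν i + 1) ∈ part (r + 1) (N + (r + 1)) ↔ ν ∈ part (r + 1) N := by
  rw [mem_part, mem_part, sum_add_distrib]
  simp only [sum_const, card_univ, Fintype.card_fin, smul_eq_mul, mul_one, add_left_inj]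
  refine and_congr_left fun _ => ⟨fun h i j hij => ?_, fun h i j hij => ?_⟩
  · have := h hij
    simpa using this
  · have := h hij
    simpa using this

/-- a partition with at most `r + 1` parts has a zero part or is `ν + 1` -/
lemma t12_cases {r N : ℕ} {l : Fin (r + 1) → ℕ} (hl : l ∈ part (r + 1) N) :
    (∃ l' ∈ part r N, l = Fin.cons 0 l') ∨
      (∃ M, N = M + (r + 1) ∧ ∃ ν ∈ part (r + 1) M, l = fun i => ν i + 1) := by
  by_cases h0 : l 0 = 0
  · left
    have h1 : l = Fin.cons 0 (Fin.tail l) := by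
      rw [← h0]
      exact (Fin.cons_self_tail l).symm
    refine ⟨Fin.tail l, ?_, h1⟩
    rw [h1, t12_cons_mem] at hl
    exact hl
  · right
    have h1 : l = fun i => (l i - 1) + 1 := by
      funext i
      have := (mem_part.1 hl).1 (Fin.zero_le i)
      omega
    have h2 : ∑ i, l i = ∑ i, (l i - 1) + (r + 1) := by
      conv_lhs => rw [h1]
      rw [sum_add_distrib]
      simp
    have h3 := (mem_part.1 hl).2
    refine ⟨∑ i, (l i - 1), by omega, fun i => l i - 1, ?_, h1⟩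
    rw [mem_part]
    refine ⟨fun i j hij => ?_, rfl⟩
    exact Nat.sub_le_sub_right ((mem_part.1 hl).1 hij) 1

lemma t12_res_smul {r : ℕ} (a : ℚ) (f : Lam (r + 1) ℚ) : res r (a • f) = a • res r f := map_smul _ _ _

/-- the product of `ee` and a Jack polynomial is an eigenvector for `ν + 1` -/
lemma t12_ee_eig {r : ℕ} {c : ℚ} {ν : Fin (r + 1) → ℕ} {P : Lam (r + 1) ℚ} (h : IsJack c ν P)
    (v : ℚ) : DD c v (ee (r + 1) ℚ (r + 1) * P) =
      dl c v (fun i => ν i + 1) • (ee (r + 1) ℚ (r + 1) * P) := by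
  have h1 := LinearMap.congr_fun (DD_mul_ee (r := r + 1) c v) P
  simp only [Module.End.mul_apply, mu_apply] at h1
  rw [h1, h.eigen, t12_dl_succ, mul_smul_comm]

lemma t12_hd {r n N : ℕ} {u : ℚ}
    (hsep : ∀ l ∈ part r N, ∀ l' ∈ part r N, l ≠ l' → dl (n : ℚ) u l ≠ dl (n : ℚ) u l')
    {l : Fin r → ℕ} (hl : l ∈ part r N) (k : Fin r → ℕ) (hk : Monotone k)
    (hs : ∑ i, k i = ∑ i, l i) (hne : k ≠ l) : dl (n : ℚ) u k ≠ dl (n : ℚ) u l :=
  hsep k (mem_part.2 ⟨hk, hs.trans (mem_part.1 hl).2⟩) l hl hne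

lemma t12_dl_ne {r n M : ℕ} {ν : Fin (r + 1) → ℕ} (hν : ν ∈ part (r + 1) M)
    (hM : M + (r + 1) < n) : dl (n : ℚ) 0 (fun i => ν i + 1) ≠ 0 := by
  rw [dl, prod_ne_zero_iff]
  intro i _
  have h1 : ν i ≤ M := by
    rw [← (mem_part.1 hν).2]
    exact single_le_sum (f := ν) (fun _ _ => Nat.zero_le _) (mem_univ i)
  rcases Nat.eq_zero_or_pos (i : ℕ) with h | h
  · rw [h]
    push_cast
    have : (0 : ℚ) ≤ (ν i : ℚ) := Nat.cast_nonneg _
    intro h2
    linarith
  · have h2 : (n : ℚ) * 1 ≤ (n : ℚ) * ((i : ℕ) : ℚ) :=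
      mul_le_mul_of_nonneg_left (by exact_mod_cast h) (Nat.cast_nonneg _)
    have h3 : ((ν i + 1 : ℕ) : ℚ) < (n : ℚ) := by
      exact_mod_cast (by omega : ν i + 1 < n)
    intro h4
    rw [add_zero] at h4
    linarith

/-- the induction step -/
lemma t12_step (r n N : ℕ) (hN : N < n) (H0 : ∀ M < n, t12_J r n M)
    (H1 : ∀ M < N, t12_J (r + 1) n M) : t12_J (r + 1) n N := by
  obtain ⟨u₀, hu0, hsep, hsep'⟩ := exists_sep (r + 1) n {0}
  rw [mem_singleton] at hu0
  have hsepN := hsep N hN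
  have hsepN' : ∀ l ∈ part r N, ∀ l' ∈ part r N, l ≠ l' →
      dl (n : ℚ) (u₀ - n) l ≠ dl (n : ℚ) (u₀ - n) l' := hsep' N hN
  obtain ⟨Q, β, hQ1, hQ2, hQ3, hQ4, hQ5⟩ := diag_one u₀ hsepN
  obtain ⟨co, hco1, hco2, hco3⟩ := exists_coord Q hQ1 hQ2
  -- Jack polynomials of lower degree
  have hj1 : ∀ M < N, ∀ ν ∈ part (r + 1) M, IsJack (n : ℚ) ν (jk (n : ℚ) ν) := fun M hM ν hν =>
    isJack_jk ((H1 M hM).1 ν hν)
  -- Jack polynomials in fewer variables
  have hj0 : ∀ l ∈ part r N, IsJack (n : ℚ) l (jk (n : ℚ) l) := fun l hl =>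
    isJack_jk ((H0 N hN).1 l hl)
  -- A: the vectors `Q (ν + 1)`
  have hA : ∀ M, N = M + (r + 1) → ∀ ν ∈ part (r + 1) M,
      Q (fun i => ν i + 1) = ee (r + 1) ℚ (r + 1) * jk (n : ℚ) ν := by
    intro M hM ν hν
    have hJ := hj1 M (by omega) ν hν
    have hl : (fun i => ν i + 1) ∈ part (r + 1) N := by
      rw [hM]
      exact t12_succ_mem.2 hν
    have hsum := (mem_part.1 hl).2
    refine eig_unique (n : ℚ) u₀ _ (mem_part.1 hl).1 (t12_hd hsepN hl) _ _ ?_ ?_ ?_
      (hQ4 _ hl) (t12_ee_eig hJ u₀)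
    · rw [hsum]
      exact hQ3 _ hl
    · have h1 := Hg_mul (Hg_ee (r := r + 1) (R := ℚ) (r + 1)) (t12_jack_Hg hJ)
      rw [(mem_part.1 hν).2] at h1
      have h2 : ∑ i, (ν i + 1) = r + 1 + M := by omega
      rw [h2]
      exact h1
    · rw [hQ1 _ hl, (cm_ee_mul _ ν).1, hJ.lead]
  have hA' : ∀ M, N = M + (r + 1) → ∀ ν ∈ part (r + 1) M, ∀ v : ℚ,
      DD (n : ℚ) v (Q (fun i => ν i + 1)) =
        dl (n : ℚ) v (fun i => ν i + 1) • Q (fun i => ν i + 1) := by
    intro M hM ν hν v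
    rw [hA M hM ν hν]
    exact t12_ee_eig (hj1 M (by omega) ν hν) v
  have hAres : ∀ M, N = M + (r + 1) → ∀ ν ∈ part (r + 1) M, res r (Q (fun i => ν i + 1)) = 0 := by
    intro M hM ν hν
    rw [hA M hM ν hν, res_mul, res_ee, zero_mul]
  -- B: the restrictions of the vectors `Q (cons 0 l')`
  have hB : ∀ l ∈ part r N, res r (Q (Fin.cons 0 l)) = jk (n : ℚ) l := by
    intro l hl
    have hl1 := t12_cons_mem.2 hl
    have hJ := hj0 l hl
    refine eig_unique (n : ℚ) (u₀ - n) l (mem_part.1 hl).1 (t12_hd hsepN' hl) _ _ ?_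
      (t12_jack_Hg hJ) ?_ ?_ (hJ.eigen _)
    · rw [(mem_part.1 hl).2]
      exact res_Hg (hQ3 _ hl1)
    · rw [cm_res, hQ1 _ hl1, hJ.lead]
    · have h1 := congrArg (res r) (hQ4 _ hl1)
      rw [res_DD, t12_res_smul, t12_dl_cons, mul_smul] at h1
      exact smul_right_injective _ hu0 h1
  obtain ⟨co', hco1', hco2', hco3'⟩ := exists_coord (r := r) (N := N) (fun l => jk (n : ℚ) l)
    (fun l hl => (hj0 l hl).lead) (fun l hl => (hj0 l hl).lower)
  -- sums over `part (r + 1) N` of functions which vanish at the `ν + 1`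
  have hsumcons : ∀ {V : Type} [AddCommMonoid V] (F : (Fin (r + 1) → ℕ) → V),
      (∀ M, N = M + (r + 1) → ∀ ν ∈ part (r + 1) M, F (fun i => ν i + 1) = 0) →
      ∑ l ∈ part (r + 1) N, F l = ∑ l ∈ part r N, F (Fin.cons 0 l) := by
    intro V _ F hF
    symm
    have hinj : Set.InjOn (fun l : Fin r → ℕ => (Fin.cons 0 l : Fin (r + 1) → ℕ))
        (part r N : Set (Fin r → ℕ)) := by
      intro l _ l' _ h
      exact (Fin.cons_right_injective (α := fun _ => ℕ) 0) h
    rw [← sum_image (f := F) hinj]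
    refine sum_subset ?_ ?_
    · intro l hl
      obtain ⟨l', hl', rfl⟩ := mem_image.1 hl
      exact t12_cons_mem.2 hl'
    · intro l hl hl'
      rcases t12_cases hl with ⟨l'', h1, rfl⟩ | ⟨M, hM, ν, hν, rfl⟩
      · exact absurd (mem_image.2 ⟨l'', h1, rfl⟩) hl'
      · exact hF M hM ν hν
  -- C: `β (cons 0 l)`
  have hC : ∀ l ∈ part r N, β (Fin.cons 0 l) = bb (n : ℚ) l := by
    intro l hl
    have h1 : cm l (KK n (co' l)) = β (Fin.cons 0 l) := by
      rw [← KK_res, cm_res, hQ5 _ _ (t12_cons_mem.2 hl), hsumcons]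
      · rw [sum_eq_single l]
        · rw [LinearMap.comp_apply, hB l hl, hco2' l hl l hl, if_pos rfl, ← cm_res, hB l hl,
            (hj0 l hl).lead]
          ring
        · intro l' hl' hne
          rw [LinearMap.comp_apply, hB l' hl', hco2' l hl l' hl', if_neg (Ne.symm hne)]
          ring
        · exact fun h => absurd hl h
      · intro M hM ν hν
        rw [LinearMap.comp_apply, hAres M hM ν hν, map_zero]
        ring
    rw [← h1, (H0 N hN).2 _ l hl, sum_eq_single l]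
    · rw [hco2' l hl l hl, if_pos rfl, (hj0 l hl).lead]
      ring
    · intro l' hl' hne
      rw [hco2' l hl l' hl', if_neg (Ne.symm hne)]
      ring
    · exact fun h => absurd hl h
  have hbc : ∀ l ∈ part r N, bb (n : ℚ) (Fin.cons 0 l : Fin (r + 1) → ℕ) = bb (n : ℚ) l := by
    intro l hl
    rw [bb, bb, bn_cons _ _ (mem_part.1 hl).1, bd_cons _ _ (mem_part.1 hl).1]
  have hb0 : ∀ l ∈ part r N, bb (n : ℚ) l ≠ 0 := by
    intro l hl
    have h1 : ∑ i, l i < n := by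
      rw [(mem_part.1 hl).2]
      exact hN
    exact div_ne_zero (bn_ne_zero n l (mem_part.1 hl).1 h1) (bd_ne_zero n l (mem_part.1 hl).1 h1)
  -- D: all `Q l` are eigenvectors of all `D(v)`
  -- the coordinates of `f` with `res f = 0`
  have hD1 : ∀ f : Lam (r + 1) ℚ, Hg N f → res r f = 0 → ∀ l ∈ part r N, co (Fin.cons 0 l) f = 0 := by
    intro f hf h0 l hl
    have h1 := congrArg (fun g => co' l (res r g)) (hco1 f hf)
    simp only [h0, map_zero, map_sum, map_smul] at h1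
    rw [hsumcons, sum_eq_single l] at h1
    · rw [hB l hl, hco2' l hl l hl, if_pos rfl, smul_eq_mul, mul_one] at h1
      exact h1.symm
    · intro l' hl' hne
      rw [hB l' hl', hco2' l hl l' hl', if_neg (Ne.symm hne), smul_zero]
    · exact fun h => absurd hl h
    · intro M hM ν hν
      rw [hAres M hM ν hν, map_zero, smul_zero]
  have hD2 : ∀ (v : ℚ), ∀ l ∈ part (r + 1) N, ∀ l' ∈ part r N,
      co (Fin.cons 0 l') (DD (n : ℚ) v (Q l)) =
        if (Fin.cons 0 l' : Fin (r + 1) → ℕ) = l then dl (n : ℚ) v l else 0 := by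
    intro v l hl l' hl'
    have hl1' := t12_cons_mem.2 hl'
    rcases t12_cases hl with ⟨l'', h1, rfl⟩ | ⟨M, hM, ν, hν, rfl⟩
    · have h2 : res r (DD (n : ℚ) v (Q (Fin.cons 0 l'')) -
          dl (n : ℚ) v (Fin.cons 0 l'' : Fin (r + 1) → ℕ) • Q (Fin.cons 0 l'')) = 0 := by
        rw [map_sub, res_DD, map_smul, hB l'' h1, (hj0 l'' h1).eigen, t12_dl_cons, mul_smul, sub_self]
      have h3 := hD1 _ (by
        rw [sub_eq_add_neg, ← neg_one_smul ℚ (dl (n : ℚ) v (Fin.cons 0 l'' : Fin (r + 1) → ℕ) •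
          Q (Fin.cons 0 l''))]
        exact Hg_add (DD_Hg _ _ (hQ3 _ hl)) (Hg_smul _ (Hg_smul _ (hQ3 _ hl)))) h2 l' hl'
      rw [map_sub, sub_eq_zero] at h3
      rw [h3, map_smul, hco2 _ hl1' _ hl, smul_eq_mul, mul_ite, mul_one, mul_zero]
    · rw [hA' M hM ν hν v, map_smul, hco2 _ hl1' _ hl, smul_eq_mul, mul_ite, mul_one, mul_zero]
  have hD : ∀ (v : ℚ), ∀ l ∈ part r N, DD (n : ℚ) v (Q (Fin.cons 0 l)) =
      dl (n : ℚ) v (Fin.cons 0 l : Fin (r + 1) → ℕ) • Q (Fin.cons 0 l) := by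
    intro v l hl
    have hl1 := t12_cons_mem.2 hl
    have hφ : hc N (KK n (co (Fin.cons 0 l))) = β (Fin.cons 0 l) • Q (Fin.cons 0 l) := by
      rw [t12_hc_KK Q β hQ3 _ (hQ5 _), sum_eq_single (Fin.cons 0 l)]
      · rw [hco2 _ hl1 _ hl1, if_pos rfl, mul_one]
      · intro l' hl' hne
        rw [hco2 _ hl1 _ hl', if_neg (Ne.symm hne), mul_zero, zero_smul]
      · exact fun h => absurd hl1 h
    have h1 : DD (n : ℚ) v (hc N (KK n (co (Fin.cons 0 l)))) =
        (β (Fin.cons 0 l) * dl (n : ℚ) v (Fin.cons 0 l : Fin (r + 1) → ℕ)) • Q (Fin.cons 0 l) := by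
      apply ext_cm
      intro k hk
      by_cases hs : ∑ i, k i = N
      · have hk1 : k ∈ part (r + 1) N := mem_part.2 ⟨hk, hs⟩
        rw [← t12_cm_DD_hc _ _ _ hk1, KK_DD, hQ5 _ k hk1, sum_eq_single (Fin.cons 0 l)]
        · rw [LinearMap.comp_apply, hD2 v _ hl1 l hl, if_pos rfl, cm_smul]
        · intro l' hl' hne
          rw [LinearMap.comp_apply, hD2 v _ hl' l hl, if_neg (Ne.symm hne)]
          ring
        · exact fun h => absurd hl1 h
      · rw [cm_eq_zero_of_Hg (DD_Hg _ _ (Hg_hc N _)) hs,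
          cm_eq_zero_of_Hg (Hg_smul _ (hQ3 _ hl1)) hs]
    rw [hφ, map_smul, mul_smul] at h1
    have hβ : β (Fin.cons 0 l) ≠ 0 := by
      rw [hC l hl]
      exact hb0 l hl
    exact smul_right_injective _ hβ h1
  have hJall : ∀ l ∈ part (r + 1) N, IsJack (n : ℚ) l (Q l) := by
    intro l hl
    refine ⟨hQ1 l hl, hQ2 l hl, fun v => ?_⟩
    rcases t12_cases hl with ⟨l', h1, rfl⟩ | ⟨M, hM, ν, hν, rfl⟩
    · exact hD v l' h1
    · exact hA' M hM ν hν v
  have hQjk : ∀ l ∈ part (r + 1) N, Q l = jk (n : ℚ) l := by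
    intro l hl
    have hJ := isJack_jk ⟨Q l, hJall l hl⟩
    refine eig_unique (n : ℚ) u₀ l (mem_part.1 hl).1 (t12_hd hsepN hl) _ _
      (t12_jack_Hg (hJall l hl)) (t12_jack_Hg hJ) ?_ (hQ4 l hl) (hJ.eigen _)
    rw [hQ1 l hl, hJ.lead]
  -- E: `β (ν + 1)`
  have hE : ∀ l ∈ part (r + 1) N, β l = bb (n : ℚ) l := by
    intro l hl
    rcases t12_cases hl with ⟨l', h1, rfl⟩ | ⟨M, hM, ν, hν, rfl⟩
    · rw [hC l' h1, hbc l' h1]
    · have hMn : M < n := by omega
      have hMN : M < N := by omega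
      have h0 := t12_dl_ne (n := n) hν (by omega)
      -- the left side of `KK_DD0`
      have hL : cm (fun i => ν i + 1) (DD (n : ℚ) 0 (KK n (co (fun i => ν i + 1)))) =
          β (fun i => ν i + 1) * dl (n : ℚ) 0 (fun i => ν i + 1) := by
        rw [t12_cm_DD_hc _ _ _ hl, t12_hc_KK Q β hQ3 _ (hQ5 _), sum_eq_single (fun i => ν i + 1)]
        · rw [hco2 _ hl _ hl, if_pos rfl, mul_one, map_smul, hA' M hM ν hν, cm_smul, cm_smul,
            hQ1 _ hl, mul_one]
        · intro l' hl' hne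
          rw [hco2 _ hl _ hl', if_neg (Ne.symm hne), mul_zero, zero_smul]
        · exact fun h => absurd hl h
      -- the right side
      have hR : cm (fun i => ν i + 1) (ee (r + 1) ℚ (r + 1) * DD (n : ℚ) (-(n : ℚ))
          (KK n (co (fun i => ν i + 1) ∘ₗ mu (ee (r + 1) ℚ (r + 1))))) =
          bb (n : ℚ) ν * dl (n : ℚ) (-(n : ℚ)) ν := by
        rw [(cm_ee_mul _ ν).1, t12_cm_DD_hc _ _ _ hν,
          t12_hc_KK (N := M) (fun l => jk (n : ℚ) l) (fun l => bb (n : ℚ) l)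
            (fun l hl => by
              have := t12_jack_Hg (hj1 M hMN l hl)
              rwa [(mem_part.1 hl).2] at this) _ ((H1 M hMN).2 _), sum_eq_single ν]
        · rw [LinearMap.comp_apply, mu_apply, ← hA M hM ν hν, hco2 _ hl _ hl, if_pos rfl, mul_one,
            map_smul, (hj1 M hMN ν hν).eigen, cm_smul, cm_smul, (hj1 M hMN ν hν).lead, mul_one]
        · intro ν' hν' hne
          have hl2 : (fun i => ν' i + 1) ∈ part (r + 1) N := by
            rw [hM]
            exact t12_succ_mem.2 hν'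
          rw [LinearMap.comp_apply, mu_apply, ← hA M hM ν' hν', hco2 _ hl _ hl2, if_neg, mul_zero,
            zero_smul]
          intro h2
          apply hne
          funext i
          have := congrFun h2 i
          simpa using this.symm
        · exact fun h => absurd hν h
      rw [KK_DD0, hR] at hL
      have hbb : bb (n : ℚ) (fun i => ν i + 1) * dl (n : ℚ) 0 (fun i => ν i + 1) =
          bb (n : ℚ) ν * dl (n : ℚ) (-(n : ℚ)) ν := by
        have e1 : dl (n : ℚ) 0 (fun i => ν i + 1) =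
            ∏ i : Fin (r + 1), ((ν i : ℚ) + 1 - (n : ℚ) * ((i : ℕ) : ℚ)) := by
          rw [dl]
          refine prod_congr rfl fun i _ => ?_
          push_cast
          ring
        have e2 : dl (n : ℚ) (-(n : ℚ)) ν =
            ∏ i : Fin (r + 1), ((ν i : ℚ) - (n : ℚ) * (((i : ℕ) : ℚ) + 1)) := by
          rw [dl]
          refine prod_congr rfl fun i _ => ?_
          ring
        rw [e1] at h0
        rw [bb, bb, bn_add_one _ _ (mem_part.1 hν).1, bd_add_one _ _ (mem_part.1 hν).1, e1, e2]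
        have h3 : bd (n : ℚ) (bs ν) ≠ 0 := bd_ne_zero n ν (mem_part.1 hν).1 (by
          rw [(mem_part.1 hν).2]
          exact hMn)
        field_simp
      rw [← hbb] at hL
      exact (mul_right_cancel₀ h0 hL).symm
  refine ⟨fun l hl => ⟨Q l, hJall l hl⟩, fun φ k hk => ?_⟩
  rw [hQ5 φ k hk]
  refine sum_congr rfl fun l hl => ?_
  rw [hE l hl, hQjk l hl]


theorem jack_main (r n N : ℕ) (hN : N < n) :
    (∀ l ∈ part r N, ∃ P : Lam r ℚ, IsJack (n : ℚ) l P) ∧
    (∀ (φ : Lam r ℚ →ₗ[ℚ] ℚ), ∀ k ∈ part r N, cm k (KK n φ) =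
      ∑ l ∈ part r N, bb (n : ℚ) l * φ (jk (n : ℚ) l) * cm k (jk (n : ℚ) l)) := by
  have H : ∀ r : ℕ, ∀ N < n, t12_J r n N := by
    intro r
    induction r with
    | zero => exact fun N _ => t12_zero n N
    | succ r ih =>
      intro N
      induction N using Nat.strong_induction_on with
      | _ N ihN =>
        intro h
        exact t12_step r n N h ih fun M hM => ihN M hM (hM.trans h)
  exact H r N hN

end Helper87.TR
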