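import Mathlib
import Pool.Agent.Helper87.TR.St.T12

/-!
# TR-13: basic properties of `jk`

* `jk_sep`: there is `u` for which the eigenvalues `dl n u l`, `l ∈ part r N`, are pairwise different (`exists_sep`).
* `jk_Hg`: `Hg_iff` and `IsJack.lower`.
* `jk_Bx`: `exists_eig_Bx` (T6) for such a `u` gives `P` with `Bx M P` and the properties of an eigenvector for `l`; by
  `eig_unique` `P = jk n l`.
* `jk_coord`: `exists_coord` (T6c).
-/

set_option autoImplicit false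

open MvPolynomial Finset

namespace Helper87.TR

variable {r n N : ℕ}

theorem jk_isJack (hN : N < n) {l : Fin r → ℕ} (hl : l ∈ part r N) :
    IsJack (n : ℚ) l (jk (n : ℚ) l) := isJack_jk ((jack_main r n N hN).1 l hl)

theorem jk_Hg (hN : N < n) {l : Fin r → ℕ} (hl : l ∈ part r N) : Hg N (jk (n : ℚ) l) := by
  rw [Hg_iff]
  intro k hk h
  rw [← (mem_part.1 hl).2]
  rcases (jk_isJack hN hl).lower k hk h with h1 | h1
  · rw [h1]
  · exact h1.1

theorem jk_Bx (hN : N < n) {l : Fin r → ℕ} (hl : l ∈ part r N) {M : ℕ} (hM : ∀ i, l i ≤ M) :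
    Bx M (jk (n : ℚ) l) := by
  obtain ⟨u, -, hu, -⟩ := exists_sep r n ∅
  have hd : ∀ k : Fin r → ℕ, Monotone k → ∑ i, k i = ∑ i, l i → k ≠ l →
      dl (n : ℚ) u k ≠ dl (n : ℚ) u l := by
    intro k hk h1 h2
    refine hu N hN k ?_ l hl h2
    rw [mem_part]
    exact ⟨hk, h1.trans (mem_part.1 hl).2⟩
  obtain ⟨P, hP1, hP2, hP3, hP4⟩ := exists_eig_Bx (n : ℚ) u l (mem_part.1 hl).1 M hM
    fun k hk h1 h2 => hd k hk h1 fun h3 => by rw [h3] at h2; exact lt_irrefl _ h2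
  have hJ := jk_isJack hN hl
  have hPH : Hg (∑ i, l i) P := by
    rw [Hg_iff]
    intro k hk h
    rcases hP3 k hk h with h1 | h1
    · rw [h1]
    · exact h1.1
  have hJH : Hg (∑ i, l i) (jk (n : ℚ) l) := by
    rw [(mem_part.1 hl).2]
    exact jk_Hg hN hl
  have h : P = jk (n : ℚ) l := eig_unique (n : ℚ) u l (mem_part.1 hl).1 hd P _ hPH hJH
    (by rw [hP2, hJ.lead]) hP4 (hJ.eigen u)
  rw [← h]
  exact hP1

theorem jk_coord (hN : N < n) : ∃ co : (Fin r → ℕ) → Lam r ℚ →ₗ[ℚ] ℚ,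
      (∀ f, Hg N f → f = ∑ l ∈ part r N, co l f • jk (n : ℚ) l) ∧
      (∀ l ∈ part r N, ∀ l' ∈ part r N, co l (jk (n : ℚ) l') = if l = l' then 1 else 0) ∧
      (∀ M f, M ≠ N → Hg M f → ∀ l, co l f = 0) :=
  exists_coord (fun l => jk (n : ℚ) l) (fun _ hl => (jk_isJack hN hl).lead)
    fun _ hl => (jk_isJack hN hl).lower

end Helper87.TR
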