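import Mathlib
import Pool.Agent.Helper87.TR.Basic

/-!
# TR-2: the commutation relation `D(x + c (r - 1)) F_x = F_{x+1} D(x + c (r - 1))`

Proof. Put `v = x + c (r - 1)`. Multiply by `vd` (`vd_mul_DD`, `vd ≠ 0`). On the antisymmetric side
`F` becomes `F' = pF (x + 2 - r)`: for symmetric `g`, `vd * pF (x + 1) g = pF (x + 2 - r) (vd * g)`,
because `∑ X_i ^ 2 ∂_i vd = (r - 1) (∑ X_i) vd` (on monomials: `∑_τ sign τ ∑_i τ i z^(τ + e_i)`, and
`∑_τ sign τ ∑_i (r - 1 - τ i) z^(τ + e_i) = 0` by the same cancellation as below).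
So it is enough to show, for every polynomial `f` (for instance a monomial),
`dd c v (pF x f) = pF (x + 2 - r) (dd c v f)`.
On `z^a`: `pF x z^a = ∑_i (a i + x) z^(a + e_i)`. The difference of the two sides is
`∑_τ sign τ ∑_i (∏_{l ≠ i} (a l + v - c τ l)) * [ (a i + x) (a i + 1 + v - c τ i) -
 (a i + τ i + x + 2 - r) (a i + v - c τ i) ] z^(a + e_i + τ)`, and the bracket equals
`(r - 1 - τ i) (a i + v - c (τ i + 1))` (this is where `v = x + c (r - 1)` is used; `ring`).
Terms with `τ i = r - 1` vanish. The others cancel in pairs (`Finset.sum_involution`):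
for `(τ, i)` let `l` be the index with `τ l = τ i + 1`; the partner is `(τ * swap i l, l)`; the
monomial and the product `(a i + v - c (τ i + 1)) ∏_{m ≠ i} (a m + v - c τ m)` are the same, the
sign is opposite.
-/

set_option autoImplicit false

open MvPolynomial Finset

namespace Helper87.TR

theorem t2_sign_cancel {r : ℕ} {M : Type*} [AddCommGroup M] [Module ℚ M]
    (Φ : (Fin r →₀ ℕ) → M) (j j' : Fin r) (hj : (j' : ℕ) = (j : ℕ) + 1) :
    ∑ τ : Equiv.Perm (Fin r), (((Equiv.Perm.sign τ : ℤ) : ℚ)) •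
      Φ (pe τ + Finsupp.single (τ.symm j) 1) = 0 := by
  classical
  have hne : j ≠ j' := by
    intro h
    rw [h] at hj
    omega
  set G : Equiv.Perm (Fin r) → M := fun τ => (((Equiv.Perm.sign τ : ℤ) : ℚ)) •
      Φ (pe τ + Finsupp.single (τ.symm j) 1) with hG
  have h1 : ∑ τ, G (Equiv.swap j j' * τ) = ∑ τ, G τ :=
    Equiv.sum_comp (Equiv.mulLeft (Equiv.swap j j')) G
  have h2 : ∀ τ, G (Equiv.swap j j' * τ) = - G τ := by
    intro τ
    simp only [hG]
    have hs : (((Equiv.Perm.sign (Equiv.swap j j' * τ) : ℤ) : ℚ)) =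
        - (((Equiv.Perm.sign τ : ℤ) : ℚ)) := by
      rw [Equiv.Perm.sign_mul, Equiv.Perm.sign_swap hne]
      push_cast
      ring
    have he : pe (Equiv.swap j j' * τ) +
        Finsupp.single ((Equiv.swap j j' * τ).symm j) 1 =
        pe τ + Finsupp.single (τ.symm j) 1 := by
      have hsym : (Equiv.swap j j' * τ).symm j = τ.symm j' := by
        rw [Equiv.symm_apply_eq]
        simp
      rw [hsym]
      ext m
      simp only [Finsupp.add_apply, pe_apply, Equiv.Perm.mul_apply]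
      by_cases hm : m = τ.symm j
      · subst hm
        have h3 : τ.symm j' ≠ τ.symm j := fun h => hne (τ.symm.injective h).symm
        simp [h3, hj]
      · by_cases hm' : m = τ.symm j'
        · subst hm'
          have h3 : τ.symm j ≠ τ.symm j' := fun h => hne (τ.symm.injective h)
          simp [h3, hj]
        · have h4 : τ m ≠ j := by
            intro h
            apply hm
            rw [← h]
            simp
          have h5 : τ m ≠ j' := by
            intro h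
            apply hm'
            rw [← h]
            simp
          rw [Equiv.swap_apply_of_ne_of_ne h4 h5]
          simp [Ne.symm hm, Ne.symm hm']
    rw [hs, he, neg_smul]
  rw [Finset.sum_congr rfl fun τ _ => h2 τ, Finset.sum_neg_distrib] at h1
  have h3 : (2 : ℚ) • ∑ τ, G τ = 0 := by
    rw [two_smul]
    nth_rewrite 1 [← h1]
    simp
  have h4 : (2 : ℚ)⁻¹ • (2 : ℚ) • ∑ τ, G τ = 0 := by rw [h3, smul_zero]
  rwa [smul_smul, inv_mul_cancel₀ (by norm_num : (2 : ℚ) ≠ 0), one_smul] at h4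

theorem t2_cancel {r : ℕ} {M : Type*} [AddCommGroup M] [Module ℚ M]
    (Φ : (Fin r →₀ ℕ) → M) :
    ∑ τ : Equiv.Perm (Fin r), ∑ i : Fin r,
      ((((Equiv.Perm.sign τ : ℤ) : ℚ)) * ((r : ℚ) - 1 - ((τ i : ℕ) : ℚ))) •
      Φ (pe τ + Finsupp.single i 1) = 0 := by
  have h1 : ∀ τ : Equiv.Perm (Fin r), ∑ i : Fin r,
      ((((Equiv.Perm.sign τ : ℤ) : ℚ)) * ((r : ℚ) - 1 - ((τ i : ℕ) : ℚ))) •
      Φ (pe τ + Finsupp.single i 1) = ∑ j : Fin r,
      ((((Equiv.Perm.sign τ : ℤ) : ℚ)) * ((r : ℚ) - 1 - ((j : ℕ) : ℚ))) •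
      Φ (pe τ + Finsupp.single (τ.symm j) 1) := by
    intro τ
    rw [← Equiv.sum_comp τ.symm]
    refine sum_congr rfl fun j _ => ?_
    rw [Equiv.apply_symm_apply]
  rw [sum_congr rfl fun τ _ => h1 τ, sum_comm]
  refine sum_eq_zero fun j _ => ?_
  by_cases hj : (j : ℕ) + 1 < r
  · have h2 := t2_sign_cancel Φ j ⟨(j : ℕ) + 1, hj⟩ rfl
    have h3 : ∀ τ : Equiv.Perm (Fin r),
        ((((Equiv.Perm.sign τ : ℤ) : ℚ)) * ((r : ℚ) - 1 - ((j : ℕ) : ℚ))) •
        Φ (pe τ + Finsupp.single (τ.symm j) 1) = ((r : ℚ) - 1 - ((j : ℕ) : ℚ)) •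
        ((((Equiv.Perm.sign τ : ℤ) : ℚ)) • Φ (pe τ + Finsupp.single (τ.symm j) 1)) := by
      intro τ
      rw [smul_smul, mul_comm]
    rw [sum_congr rfl fun τ _ => h3 τ, ← smul_sum, h2, smul_zero]
  · have h2 : (r : ℚ) - 1 - ((j : ℕ) : ℚ) = 0 := by
      have h3 : (j : ℕ) + 1 = r := by
        have := j.2
        omega
      have h4 : ((j : ℕ) : ℚ) + 1 = r := by exact_mod_cast h3
      linarith
    refine sum_eq_zero fun τ _ => ?_
    rw [h2, mul_zero, zero_smul]

theorem t2_pF_monomial {r : ℕ} (x : ℚ) (a : Fin r →₀ ℕ) (w : ℚ) :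
    pF x (monomial a w) = ∑ i : Fin r, monomial (a + Finsupp.single i 1) (w * ((a i : ℚ) + x)) := by
  rw [pF_apply]
  refine sum_congr rfl fun i _ => ?_
  have h1 : (X i : MvPolynomial (Fin r) ℚ) ^ 2 * pderiv i (monomial a w) =
      monomial (a + Finsupp.single i 1) (w * (a i : ℚ)) := by
    rw [pderiv_monomial, X_pow_eq_monomial, monomial_mul, one_mul]
    by_cases h : a i = 0
    · rw [h]
      simp
    · congr 2
      ext m
      simp only [Finsupp.add_apply, Finsupp.tsub_apply]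
      by_cases hm : i = m
      · subst hm
        simp only [Finsupp.single_eq_same]
        omega
      · simp [hm]
  have h2 : C x * ((X i : MvPolynomial (Fin r) ℚ) * monomial a w) =
      monomial (a + Finsupp.single i 1) (w * x) := by
    have h3 : Finsupp.single i 1 + a = a + Finsupp.single i 1 := add_comm _ _
    rw [X, monomial_mul, C_mul_monomial, h3, one_mul, mul_comm]
  rw [h1, h2, ← map_add]
  congr 1
  ring

theorem t2_pF_vd {r : ℕ} : ∑ i : Fin r, X i ^ 2 * pderiv i (vd r ℚ) =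
    C ((r : ℚ) - 1) * ((∑ i : Fin r, X i) * vd r ℚ) := by
  have h1 : ∑ i : Fin r, X i ^ 2 * pderiv i (vd r ℚ) = pF 0 (vd r ℚ) := by
    rw [pF_apply]
    refine sum_congr rfl fun i _ => ?_
    simp
  have h2 : C ((r : ℚ) - 1) * ((∑ i : Fin r, X i) * vd r ℚ) =
      ∑ τ : Equiv.Perm (Fin r), ∑ i : Fin r,
        ((((Equiv.Perm.sign τ : ℤ) : ℚ)) * ((r : ℚ) - 1)) •
        (monomial (pe τ + Finsupp.single i 1) (1 : ℚ) : MvPolynomial (Fin r) ℚ) := by
    rw [vd, mul_sum, mul_sum]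
    refine sum_congr rfl fun τ _ => ?_
    rw [sum_mul, mul_sum]
    refine sum_congr rfl fun i _ => ?_
    have h3 : Finsupp.single i 1 + pe τ = pe τ + Finsupp.single i 1 := add_comm _ _
    rw [X, monomial_mul, C_mul_monomial, smul_monomial, h3, one_mul, smul_eq_mul, mul_one, mul_comm]
  have h3 : pF 0 (vd r ℚ) = ∑ τ : Equiv.Perm (Fin r), ∑ i : Fin r,
        ((((Equiv.Perm.sign τ : ℤ) : ℚ)) * ((τ i : ℕ) : ℚ)) •
        (monomial (pe τ + Finsupp.single i 1) (1 : ℚ) : MvPolynomial (Fin r) ℚ) := by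
    rw [vd, map_sum]
    refine sum_congr rfl fun τ _ => ?_
    rw [t2_pF_monomial]
    refine sum_congr rfl fun i _ => ?_
    rw [smul_monomial]
    congr 1
    simp
  rw [h1, h2, h3, ← sub_eq_zero, ← neg_eq_zero, neg_sub, ← sum_sub_distrib]
  rw [← t2_cancel (fun β => (monomial β (1 : ℚ) : MvPolynomial (Fin r) ℚ))]
  refine sum_congr rfl fun τ _ => ?_
  rw [← sum_sub_distrib]
  refine sum_congr rfl fun i _ => ?_
  rw [← sub_smul]
  congr 1
  ring

theorem t2_vd_pF {r : ℕ} (x : ℚ) (g : MvPolynomial (Fin r) ℚ) :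
    vd r ℚ * pF (x + 1) g = pF (x + 2 - r) (vd r ℚ * g) := by
  have h := t2_pF_vd (r := r)
  rw [pF_apply, pF_apply]
  have h1 : ∀ i : Fin r, X i ^ 2 * pderiv i (vd r ℚ * g) + C (x + 2 - r) * (X i * (vd r ℚ * g)) =
      vd r ℚ * (X i ^ 2 * pderiv i g + C (x + 1) * (X i * g)) +
      (g * (X i ^ 2 * pderiv i (vd r ℚ)) - C ((r : ℚ) - 1) * g * vd r ℚ * X i) := by
    intro i
    rw [Derivation.leibniz, smul_eq_mul, smul_eq_mul]
    have h2 : (C (x + 2 - r) : MvPolynomial (Fin r) ℚ) = C (x + 1) - C ((r : ℚ) - 1) := by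
      rw [← C_sub]
      congr 1
      ring
    rw [h2]
    ring
  rw [sum_congr rfl fun i _ => h1 i]
  have h4 : ∑ i : Fin r, (vd r ℚ * (X i ^ 2 * pderiv i g + C (x + 1) * (X i * g)) +
      (g * (X i ^ 2 * pderiv i (vd r ℚ)) - C ((r : ℚ) - 1) * g * vd r ℚ * X i)) =
      ∑ i : Fin r, vd r ℚ * (X i ^ 2 * pderiv i g + C (x + 1) * (X i * g)) +
      (∑ i : Fin r, g * (X i ^ 2 * pderiv i (vd r ℚ)) -
        ∑ i : Fin r, C ((r : ℚ) - 1) * g * vd r ℚ * X i) := by
    rw [sum_add_distrib, sum_sub_distrib]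
  rw [h4, ← mul_sum, ← mul_sum, ← mul_sum, h]
  ring

theorem t2_dd_pF {r : ℕ} (c x : ℚ) (f : MvPolynomial (Fin r) ℚ) :
    dd c (x + c * ((r : ℚ) - 1)) (pF x f) = pF (x + 2 - r) (dd c (x + c * ((r : ℚ) - 1)) f) := by
  classical
  set v : ℚ := x + c * ((r : ℚ) - 1) with hv
  induction f using MvPolynomial.induction_on' with
  | add p q hp hq => rw [map_add, map_add, hp, hq, map_add, map_add]
  | monomial a w =>
    have h1 : dd c v (pF x (monomial a w)) = ∑ τ : Equiv.Perm (Fin r), ∑ i : Fin r,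
        monomial (a + pe τ + Finsupp.single i 1) (w * ((a i : ℚ) + x) *
          ((((Equiv.Perm.sign τ : ℤ) : ℚ)) * ∏ m : Fin r,
            ((((a + Finsupp.single i 1 : Fin r →₀ ℕ) m : ℕ) : ℚ) + v - c * ((τ m : ℕ) : ℚ)))) := by
      rw [t2_pF_monomial, map_sum, sum_comm]
      refine sum_congr rfl fun i _ => ?_
      rw [dd_monomial]
      refine sum_congr rfl fun τ _ => ?_
      rw [add_right_comm]
    have h2 : pF (x + 2 - r) (dd c v (monomial a w)) = ∑ τ : Equiv.Perm (Fin r), ∑ i : Fin r,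
        monomial (a + pe τ + Finsupp.single i 1) (w * ((((Equiv.Perm.sign τ : ℤ) : ℚ)) *
          ∏ m : Fin r, ((a m : ℚ) + v - c * ((τ m : ℕ) : ℚ))) *
          ((((a + pe τ) i : ℕ) : ℚ) + (x + 2 - r))) := by
      rw [dd_monomial, map_sum]
      refine sum_congr rfl fun τ _ => ?_
      rw [t2_pF_monomial]
    rw [h1, h2, ← sub_eq_zero, ← sum_sub_distrib]
    rw [← t2_cancel (fun β => (monomial (a + β) (w * ∏ m : Fin r,
      ((a m : ℚ) + v - c * ((β m : ℕ) : ℚ))) : MvPolynomial (Fin r) ℚ))]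
    refine sum_congr rfl fun τ _ => ?_
    rw [← sum_sub_distrib]
    refine sum_congr rfl fun i _ => ?_
    rw [← map_sub, smul_monomial, smul_eq_mul, add_assoc a (pe τ)]
    congr 1
    rw [← mul_prod_erase univ _ (mem_univ i), ← mul_prod_erase univ
      (fun m => (a m : ℚ) + v - c * ((τ m : ℕ) : ℚ)) (mem_univ i),
      ← mul_prod_erase univ
      (fun m => (a m : ℚ) + v - c * (((pe τ + Finsupp.single i 1 : Fin r →₀ ℕ) m : ℕ) : ℚ))
      (mem_univ i)]
    have h3 : ∏ m ∈ univ.erase i,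
        ((((a + Finsupp.single i 1 : Fin r →₀ ℕ) m : ℕ) : ℚ) + v - c * ((τ m : ℕ) : ℚ)) =
        ∏ m ∈ univ.erase i, ((a m : ℚ) + v - c * ((τ m : ℕ) : ℚ)) := by
      refine prod_congr rfl fun m hm => ?_
      have hm' : i ≠ m := fun h => (mem_erase.1 hm).1 h.symm
      simp [hm']
    have h4 : ∏ m ∈ univ.erase i,
        ((a m : ℚ) + v - c * (((pe τ + Finsupp.single i 1 : Fin r →₀ ℕ) m : ℕ) : ℚ)) =
        ∏ m ∈ univ.erase i, ((a m : ℚ) + v - c * ((τ m : ℕ) : ℚ)) := by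
      refine prod_congr rfl fun m hm => ?_
      have hm' : i ≠ m := fun h => (mem_erase.1 hm).1 h.symm
      simp [hm']
    rw [h3, h4]
    simp only [Finsupp.add_apply, Finsupp.single_eq_same, pe_apply]
    push_cast
    rw [hv]
    ring

theorem DD_mul_FF {r : ℕ} (hr : 1 ≤ r) (c x : ℚ) :
    DD c (x + c * ((r : ℚ) - 1)) * FF x =
      (FF (x + 1) * DD c (x + c * ((r : ℚ) - 1)) : Module.End ℚ (Lam r ℚ)) := by
  have _ := hr
  refine LinearMap.ext fun f => ?_
  apply Subtype.ext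
  refine mul_left_cancel₀ (vd_ne_zero (r := r) (R := ℚ)) ?_
  rw [Module.End.mul_apply, Module.End.mul_apply, vd_mul_DD, coe_FF, coe_FF, t2_vd_pF,
    vd_mul_DD, t2_dd_pF]

/-- `F_x = F_0 + x e_1` -/
theorem FF_eq {r : ℕ} (x : ℚ) : (FF x : Module.End ℚ (Lam r ℚ)) = FF 0 + x • mu (ee r ℚ 1) := by
  refine LinearMap.ext fun f => ?_
  apply Subtype.ext
  rw [LinearMap.add_apply, LinearMap.smul_apply, mu_apply]
  change pF x (f : MvPolynomial (Fin r) ℚ) = pF 0 (f : MvPolynomial (Fin r) ℚ) +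
    x • (esymm (Fin r) ℚ 1 * (f : MvPolynomial (Fin r) ℚ))
  rw [pF_apply, pF_apply, esymm_one, smul_eq_C_mul, sum_mul, mul_sum, ← sum_add_distrib]
  refine sum_congr rfl fun i _ => ?_
  simp

theorem FF_Hg {r : ℕ} (x : ℚ) {N : ℕ} {f : Lam r ℚ} (hf : Hg N f) : Hg (N + 1) (FF x f) := by
  change IsHomogeneous (pF x (f : MvPolynomial (Fin r) ℚ)) (N + 1)
  have hf' : IsHomogeneous (f : MvPolynomial (Fin r) ℚ) N := hf
  rw [← support_sum_monomial_coeff (f : MvPolynomial (Fin r) ℚ), map_sum]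
  refine IsHomogeneous.sum _ _ _ fun a ha => ?_
  rw [t2_pF_monomial]
  refine IsHomogeneous.sum _ _ _ fun i _ => ?_
  refine isHomogeneous_monomial _ ?_
  have h1 : a.degree = N := by
    have h2 := hf' (mem_support_iff.1 ha)
    rw [← h2, Finsupp.weight_apply, Finsupp.degree]
    simp [Finsupp.sum]
  rw [map_add, h1]
  simp

end Helper87.TR
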