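import Mathlib
import Pool.Agent.Helper87.TR.St.T2
import Pool.Agent.Helper87.TR.St.T11b
import Pool.Agent.Helper87.TR.St.T13

/-!
# TR-13p: the Pieri rule for `e_1` and `F_x`

Let `N = ∑ ν`, `N + 1 < n`, `P = jk n ν`. Write `ee 1 * P = ∑_κ ψ_κ jk κ`, `FF 0 P = ∑_κ A_κ jk κ`
(`κ ∈ part r (N + 1)`; `jk_coord`, `FF_Hg`, `Hg_ee`, `Hg_mul`). `DD_mul_FF` applied to `P` gives, with
`d_κ(x) = dl n (x + n (r - 1)) κ = ∏_i (x + κ i + n (r - 1 - i))`: `(A_κ + x ψ_κ) d_κ(x) =
(A_κ + (x + 1) ψ_κ) d_ν(x)` for all `x`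
(use `FF (x + 1) = FF x + ee 1`, from `FF_eq`). The roots `-(κ i + n (r - 1 - i))` of `d_κ` are distinct (strictly monotone
in `i`) because `κ i ≤ N + 1 < n`; the sum of the roots shows `d_κ ≠ d_ν` as polynomials. If `ψ_κ = 0` then `A_κ = 0`
(choose `x` with `d_κ(x) ≠ d_ν(x)`). If `ψ_κ ≠ 0` let `ρ = - A_κ / ψ_κ`: `(d_κ(x) - d_ν(x)) (x - ρ) = d_ν(x)`, so `d_ν(ρ) = 0`,
`ρ = -(ν i + n (r - 1 - i))` for some `i`, and `d_κ(x) (x - ρ) = d_ν(x) (x - ρ + 1)`; comparing the (ordered) roots (the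
multiset of the roots of `d_κ` is that of `d_ν` with `ρ` replaced by `ρ - 1`): `κ = ν + e_i`
(`Function.update ν i (ν i + 1)`). So `A_κ + x ψ_κ = ψ_κ (x - ρ)`, `γ x κ = x - ρ`, and `br n x κ = br n x ν (x - ρ)` (`br_update`).
For `r = 0` both sides are zero, `part 0 (N + 1) = ∅`.
-/

set_option autoImplicit false

open MvPolynomial Finset

namespace Helper87.TR

variable {r n N : ℕ}

/-- the roots of the eigenvalue -/
noncomputable def t13p_rt (n : ℕ) (k : Fin r → ℕ) (i : Fin r) : ℚ :=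
  -((k i : ℚ) + (n : ℚ) * ((r : ℚ) - 1) - (n : ℚ) * ((i : ℕ) : ℚ))

lemma t13p_strictMono {k : Fin r → ℕ} (hk : ∀ i, k i < n) : StrictMono (t13p_rt n k) := by
  intro i j hij
  have h1 : ((i : ℕ) : ℚ) + 1 ≤ ((j : ℕ) : ℚ) := by
    have : (i : ℕ) + 1 ≤ (j : ℕ) := hij
    exact_mod_cast this
  have h2 : (k j : ℚ) < n := by exact_mod_cast hk j
  have h3 : (0 : ℚ) ≤ (k i : ℚ) := Nat.cast_nonneg _
  have h4 : (0 : ℚ) ≤ (n : ℚ) := Nat.cast_nonneg _
  have h5 : (n : ℚ) * (((i : ℕ) : ℚ) + 1) ≤ (n : ℚ) * ((j : ℕ) : ℚ) :=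
    mul_le_mul_of_nonneg_left h1 h4
  simp only [t13p_rt]
  linarith

lemma t13p_dl (n : ℕ) (k : Fin r → ℕ) (x : ℚ) :
    dl (n : ℚ) (x + (n : ℚ) * ((r : ℚ) - 1)) k =
      Polynomial.eval x (∏ i : Fin r, (Polynomial.X - Polynomial.C (t13p_rt n k i))) := by
  rw [dl, Polynomial.eval_prod]
  refine prod_congr rfl fun i _ => ?_
  rw [Polynomial.eval_sub, Polynomial.eval_X, Polynomial.eval_C, t13p_rt]
  ring

lemma t13p_roots (f : Fin r → ℚ) :
    (∏ i : Fin r, (Polynomial.X - Polynomial.C (f i))).roots = (univ : Finset (Fin r)).val.map f := by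
  have h := Polynomial.roots_multiset_prod_X_sub_C ((univ : Finset (Fin r)).val.map f)
  rw [Multiset.map_map] at h
  exact h

lemma t13p_sum_rt (n : ℕ) (k : Fin r → ℕ) : ∑ i, t13p_rt n k i =
    - ((∑ i, k i : ℕ) : ℚ) - ∑ i : Fin r, ((n : ℚ) * ((r : ℚ) - 1) - (n : ℚ) * ((i : ℕ) : ℚ)) := by
  push_cast
  rw [← sum_neg_distrib, ← sum_sub_distrib]
  refine sum_congr rfl fun i _ => ?_
  rw [t13p_rt]
  ring

lemma t13p_ne {k l : Fin r → ℕ} (h : ∑ i, k i ≠ ∑ i, l i) :
    (∏ i : Fin r, (Polynomial.X - Polynomial.C (t13p_rt n k i))) ≠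
      ∏ i : Fin r, (Polynomial.X - Polynomial.C (t13p_rt n l i)) := by
  intro h1
  have h2 := congrArg Polynomial.roots h1
  rw [t13p_roots, t13p_roots] at h2
  have h3 := congrArg Multiset.sum h2
  have h4 : ∑ i, t13p_rt n k i = ∑ i, t13p_rt n l i := h3
  rw [t13p_sum_rt, t13p_sum_rt] at h4
  apply h
  have h5 : ((∑ i, k i : ℕ) : ℚ) = ((∑ i, l i : ℕ) : ℚ) := by linarith
  exact_mod_cast h5

lemma t13p_update {k l : Fin r → ℕ} (hk : ∀ i, k i < n) (hl : ∀ i, l i + 1 < n) {ρ : ℚ}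
    (h : ∀ x : ℚ, (x - ρ) * dl (n : ℚ) (x + (n : ℚ) * ((r : ℚ) - 1)) k =
      (x - (ρ - 1)) * dl (n : ℚ) (x + (n : ℚ) * ((r : ℚ) - 1)) l) :
    ∃ i, ρ = t13p_rt n l i ∧ k = Function.update l i (l i + 1) := by
  classical
  have h1 : (Polynomial.X - Polynomial.C ρ) *
      (∏ i : Fin r, (Polynomial.X - Polynomial.C (t13p_rt n k i))) =
      (Polynomial.X - Polynomial.C (ρ - 1)) *
      ∏ i : Fin r, (Polynomial.X - Polynomial.C (t13p_rt n l i)) := by
    apply Polynomial.funext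
    intro x
    have h2 := h x
    rw [t13p_dl, t13p_dl] at h2
    rw [Polynomial.eval_mul, Polynomial.eval_mul, Polynomial.eval_sub, Polynomial.eval_X,
      Polynomial.eval_C, Polynomial.eval_sub, Polynomial.eval_X, Polynomial.eval_C]
    exact h2
  have hm : ∀ f : Fin r → ℚ, (∏ i : Fin r, (Polynomial.X - Polynomial.C (f i))) ≠ 0 := fun f =>
    (Polynomial.monic_prod_of_monic _ _ fun i _ => Polynomial.monic_X_sub_C _).ne_zero
  have h2 := congrArg Polynomial.roots h1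
  rw [Polynomial.roots_mul (mul_ne_zero (Polynomial.X_sub_C_ne_zero _) (hm _)),
    Polynomial.roots_mul (mul_ne_zero (Polynomial.X_sub_C_ne_zero _) (hm _)),
    Polynomial.roots_X_sub_C, Polynomial.roots_X_sub_C, t13p_roots, t13p_roots,
    Multiset.singleton_add, Multiset.singleton_add] at h2
  have h3 : ρ ∈ (ρ - 1) ::ₘ (univ : Finset (Fin r)).val.map (t13p_rt n l) := by
    rw [← h2]
    exact Multiset.mem_cons_self _ _
  rw [Multiset.mem_cons] at h3
  have h4 : ρ ∈ (univ : Finset (Fin r)).val.map (t13p_rt n l) := by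
    rcases h3 with h3 | h3
    · exfalso
      linarith
    · exact h3
  obtain ⟨i, -, hi⟩ := Multiset.mem_map.1 h4
  refine ⟨i, hi.symm, ?_⟩
  have hu : (univ : Finset (Fin r)).val = i ::ₘ (univ.erase i).val := by
    rw [Finset.erase_val]
    exact (Multiset.cons_erase (mem_univ i)).symm
  have h5 : (univ : Finset (Fin r)).val.map (t13p_rt n k) =
      (univ : Finset (Fin r)).val.map (t13p_rt n (Function.update l i (l i + 1))) := by
    have h6 : (univ : Finset (Fin r)).val.map (t13p_rt n l) =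
        ρ ::ₘ (univ.erase i).val.map (t13p_rt n l) := by
      conv_lhs => rw [hu]
      rw [Multiset.map_cons, hi]
    rw [h6, Multiset.cons_swap] at h2
    have h7 := (Multiset.cons_inj_right ρ).1 h2
    rw [h7]
    conv_rhs => rw [hu]
    rw [Multiset.map_cons]
    congr 1
    · rw [← hi, t13p_rt, t13p_rt, Function.update_self]
      push_cast
      ring
    · refine Multiset.map_congr rfl fun j hj => ?_
      rw [t13p_rt, t13p_rt, Function.update_of_ne (ne_of_mem_erase (mem_def.2 hj))]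
  have h8 : ∀ j, Function.update l i (l i + 1) j < n := by
    intro j
    by_cases hj : j = i
    · subst hj
      rw [Function.update_self]
      exact hl _
    · rw [Function.update_of_ne hj]
      have := hl j
      omega
  have h9 : t13p_rt n k = t13p_rt n (Function.update l i (l i + 1)) := by
    refine (StrictMono.range_inj (t13p_strictMono hk) (t13p_strictMono h8)).1 ?_
    ext x
    have h10 : x ∈ (univ : Finset (Fin r)).val.map (t13p_rt n k) ↔
        x ∈ (univ : Finset (Fin r)).val.map (t13p_rt n (Function.update l i (l i + 1))) := by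
      rw [h5]
    simpa using h10
  funext j
  have h10 := congrFun h9 j
  rw [t13p_rt, t13p_rt] at h10
  have h11 : (k j : ℚ) = ((Function.update l i (l i + 1) j : ℕ) : ℚ) := by linarith
  exact_mod_cast h11

theorem pieri (hN : N + 1 < n) {ν : Fin r → ℕ} (hν : ν ∈ part r N) :
    ∃ (ψ : (Fin r → ℕ) → ℚ) (γ : ℚ → (Fin r → ℕ) → ℚ),
      ee r ℚ 1 * jk (n : ℚ) ν = ∑ k ∈ part r (N + 1), ψ k • jk (n : ℚ) k ∧
      (∀ x : ℚ, FF x (jk (n : ℚ) ν) = ∑ k ∈ part r (N + 1), (ψ k * γ x k) • jk (n : ℚ) k) ∧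
      (∀ (x : ℚ), ∀ k ∈ part r (N + 1), ψ k ≠ 0 →
        br (n : ℚ) x ν * γ x k = br (n : ℚ) x k) := by
  classical
  rcases Nat.eq_zero_or_pos r with hr | hr
  · subst hr
    have hp : part 0 (N + 1) = ∅ := by
      rw [eq_empty_iff_forall_notMem]
      intro k hk
      have h := (mem_part.1 hk).2
      simp at h
    refine ⟨fun _ => 0, fun _ _ => 0, ?_, ?_, ?_⟩
    · rw [hp, sum_empty]
      have h : ee 0 ℚ 1 = 0 := by
        apply Subtype.ext
        change esymm (Fin 0) ℚ 1 = 0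
        rw [esymm_one]
        simp
      rw [h, zero_mul]
    · intro x
      rw [hp, sum_empty]
      apply Subtype.ext
      rw [coe_FF, pF_apply]
      simp
    · intro x k hk
      rw [hp] at hk
      exact absurd hk (notMem_empty k)
  obtain ⟨co, hco, hco2, -⟩ := jk_coord (r := r) hN
  have hP : Hg N (jk (n : ℚ) ν) := jk_Hg (by omega) hν
  have hJ : IsJack (n : ℚ) ν (jk (n : ℚ) ν) := jk_isJack (by omega) hν
  have hE : Hg (N + 1) (ee r ℚ 1 * jk (n : ℚ) ν) := by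
    rw [add_comm]
    exact Hg_mul (Hg_ee 1) hP
  have hA : Hg (N + 1) (FF 0 (jk (n : ℚ) ν)) := FF_Hg 0 hP
  set ψ : (Fin r → ℕ) → ℚ := fun k => co k (ee r ℚ 1 * jk (n : ℚ) ν) with hψ
  set A : (Fin r → ℕ) → ℚ := fun k => co k (FF 0 (jk (n : ℚ) ν)) with hAd
  have hFx : ∀ x : ℚ, FF x (jk (n : ℚ) ν) = FF 0 (jk (n : ℚ) ν) + x • (ee r ℚ 1 * jk (n : ℚ) ν) := by
    intro x
    rw [FF_eq x, LinearMap.add_apply, LinearMap.smul_apply, mu_apply]
  have hcF : ∀ (x : ℚ) (k : Fin r → ℕ), co k (FF x (jk (n : ℚ) ν)) = A k + x * ψ k := by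
    intro x k
    rw [hFx, map_add, map_smul, smul_eq_mul]
  have hdec : ∀ x : ℚ, FF x (jk (n : ℚ) ν) =
      ∑ k ∈ part r (N + 1), (A k + x * ψ k) • jk (n : ℚ) k := by
    intro x
    rw [hco _ (FF_Hg x hP)]
    exact sum_congr rfl fun k _ => by rw [hcF]
  -- the main relation
  have hrel : ∀ (x : ℚ), ∀ k ∈ part r (N + 1),
      (A k + x * ψ k) * dl (n : ℚ) (x + (n : ℚ) * ((r : ℚ) - 1)) k =
      (A k + (x + 1) * ψ k) * dl (n : ℚ) (x + (n : ℚ) * ((r : ℚ) - 1)) ν := by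
    intro x k hk
    have h1 := LinearMap.congr_fun (DD_mul_FF (r := r) hr (n : ℚ) x) (jk (n : ℚ) ν)
    rw [Module.End.mul_apply, Module.End.mul_apply, hJ.eigen, map_smul] at h1
    have h2 : DD (n : ℚ) (x + (n : ℚ) * ((r : ℚ) - 1)) (FF x (jk (n : ℚ) ν)) =
        ∑ k ∈ part r (N + 1), ((A k + x * ψ k) *
          dl (n : ℚ) (x + (n : ℚ) * ((r : ℚ) - 1)) k) • jk (n : ℚ) k := by
      rw [hdec x, map_sum]
      refine sum_congr rfl fun k hk => ?_
      rw [map_smul, (jk_isJack hN hk).eigen, smul_smul]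
    rw [h2] at h1
    have h3 := congrArg (co k) h1
    rw [map_sum, map_smul, hcF, smul_eq_mul, sum_eq_single_of_mem k hk] at h3
    · rw [map_smul, hco2 k hk k hk, if_pos rfl, smul_eq_mul, mul_one] at h3
      rw [h3]
      ring
    · intro l hl hlk
      rw [map_smul, hco2 k hk l hl, if_neg (Ne.symm hlk), smul_zero]
  have hle : ∀ k ∈ part r (N + 1), ∀ i, k i < n := by
    intro k hk i
    have h1 : k i ≤ ∑ i, k i := single_le_sum (fun _ _ => Nat.zero_le _) (mem_univ i)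
    rw [(mem_part.1 hk).2] at h1
    omega
  have hle2 : ∀ i, ν i + 1 < n := by
    intro i
    have h1 : ν i ≤ ∑ i, ν i := single_le_sum (fun _ _ => Nat.zero_le _) (mem_univ i)
    rw [(mem_part.1 hν).2] at h1
    omega
  have hzero : ∀ k ∈ part r (N + 1), ψ k = 0 → A k = 0 := by
    intro k hk h0
    by_contra hA0
    have hne : ∑ i, k i ≠ ∑ i, ν i := by
      rw [(mem_part.1 hk).2, (mem_part.1 hν).2]
      omega
    refine t13p_ne (n := n) hne ?_
    apply Polynomial.funext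
    intro x
    rw [← t13p_dl, ← t13p_dl]
    have h1 := hrel x k hk
    rw [h0, mul_zero, mul_zero, add_zero] at h1
    exact mul_left_cancel₀ hA0 h1
  refine ⟨ψ, fun x k => (A k + x * ψ k) / ψ k, hco _ hE, ?_, ?_⟩
  · intro x
    rw [hdec x]
    refine sum_congr rfl fun k hk => ?_
    congr 1
    by_cases h0 : ψ k = 0
    · rw [hzero k hk h0, h0]
      simp
    · field_simp
  · intro x k hk h0
    have h1 : ∀ x : ℚ, (x - (-A k / ψ k)) * dl (n : ℚ) (x + (n : ℚ) * ((r : ℚ) - 1)) k =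
        (x - (-A k / ψ k - 1)) * dl (n : ℚ) (x + (n : ℚ) * ((r : ℚ) - 1)) ν := by
      intro x
      have h2 := hrel x k hk
      have h3 : x - (-A k / ψ k) = (A k + x * ψ k) / ψ k := by
        field_simp
        ring
      have h4 : x - (-A k / ψ k - 1) = (A k + (x + 1) * ψ k) / ψ k := by
        field_simp
        ring
      rw [h3, h4, div_mul_eq_mul_div, div_mul_eq_mul_div, h2]
    obtain ⟨i, hi, hi2⟩ := t13p_update (hle k hk) hle2 h1
    rw [hi2, br_update, ← hi2]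
    congr 1
    have h3 : (A k + x * ψ k) / ψ k = x - (-A k / ψ k) := by
      field_simp
      ring
    change (A k + x * ψ k) / ψ k = _
    rw [h3, hi, t13p_rt]
    have h4 : ((r - 1 - (i : ℕ) : ℕ) : ℚ) = (r : ℚ) - 1 - ((i : ℕ) : ℚ) := by
      have h5 : r - 1 - (i : ℕ) + (i : ℕ) + 1 = r := by
        have := i.2
        omega
      have h6 : ((r - 1 - (i : ℕ) : ℕ) : ℚ) + ((i : ℕ) : ℚ) + 1 = (r : ℚ) := by exact_mod_cast h5
      linarith
    rw [h4]
    ring

end Helper87.TR
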