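import Mathlib
import Pool.Agent.Helper87.TR.St.T1
import Pool.Agent.Helper87.TR.St.T5b
import Pool.Agent.Helper87.TR.St.T13p
import Pool.Agent.Helper87.TR.St.T14a

/-!
# TR-14: `GG n x` is diagonal on the Jack polynomials in low degree

Let `𝒢` be the linear map with `𝒢 (jk n l) = br n x l • jk n l` for all `l` monotone with `∑ l < n`, `𝒢 = 0` in the
degrees `≥ n` (`𝒢 f = ∑_{N < n} ∑_{l ∈ part r N} (br n x l * co_N l (hc N f)) • jk n l` with the coordinates of `jk_coord`).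
* `𝒢 (ee 1 * f) = FF x (𝒢 f)` for `f` of degree `N`, `N + 1 < n`: `pieri`.
* `𝒢 (DK n k f) = DK n k (𝒢 f)` for `f` of degree `< n`: `𝒢` commutes with the `DD n u` (both diagonal), use `DK_eq`.
* So for `f` of degree `N`, `N + m < n`:
  `𝒢 ((fun A => A * mu e_1 - mu e_1 * A)^[m] (DK n k) f) = (fun A => A * FF x - FF x * A)^[m] (DK n k) (𝒢 f)`
  (induction on `m`), and by `ad_p1` (`m = k`): `𝒢 (ee k * f) = RR n x k (𝒢 f)` for `N + k < n`.
* `𝒢 (eM α) = RRm n x α 1` if `eW α < n` (the product `RRm` is ordered: `R_1` is applied first; in `Lam` the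
  order is irrelevant; `𝒢 1 = 1`): unfold the `List.ofFn` product one factor at a time.
* By `GG_eM`, `eM_span`: `GG n x f = 𝒢 f` for `f` homogeneous of degree `< n`, which
  gives `GG_jk`; and `GG_ee` follows from the third point.
-/

set_option autoImplicit false

open MvPolynomial Finset

namespace Helper87.TR

variable {r n N : ℕ}

lemma t14_exists (r n : ℕ) (x : ℚ) : ∃ G : Lam r ℚ →ₗ[ℚ] Lam r ℚ,
    ∀ N, N < n → ∀ l ∈ part r N, G (jk (n : ℚ) l) = br (n : ℚ) x l • jk (n : ℚ) l := by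
  classical
  have h : ∀ N, ∃ co : (Fin r → ℕ) → Lam r ℚ →ₗ[ℚ] ℚ, N < n →
      (∀ f, Hg N f → f = ∑ l ∈ part r N, co l f • jk (n : ℚ) l) ∧
      (∀ l ∈ part r N, ∀ l' ∈ part r N, co l (jk (n : ℚ) l') = if l = l' then 1 else 0) ∧
      (∀ M f, M ≠ N → Hg M f → ∀ l, co l f = 0) := by
    intro N
    by_cases hN : N < n
    · obtain ⟨co, hco⟩ := jk_coord (r := r) hN
      exact ⟨co, fun _ => hco⟩
    · exact ⟨fun _ => 0, fun h => absurd h hN⟩
  choose co hco using h
  refine ⟨∑ N ∈ range n, ∑ l ∈ part r N,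
    (br (n : ℚ) x l • co N l).smulRight (jk (n : ℚ) l), ?_⟩
  intro N hN l' hl'
  rw [LinearMap.sum_apply, sum_eq_single_of_mem N (mem_range.2 hN)]
  · rw [LinearMap.sum_apply, sum_eq_single_of_mem l' hl']
    · rw [LinearMap.smulRight_apply, LinearMap.smul_apply, (hco N hN).2.1 l' hl' l' hl', if_pos rfl,
        smul_eq_mul, mul_one]
    · intro l hl hne
      rw [LinearMap.smulRight_apply, LinearMap.smul_apply, (hco N hN).2.1 l hl l' hl', if_neg hne,
        smul_zero, zero_smul]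
  · intro M hM hne
    rw [LinearMap.sum_apply]
    refine sum_eq_zero fun l _ => ?_
    rw [LinearMap.smulRight_apply, LinearMap.smul_apply,
      (hco M (mem_range.1 hM)).2.2 N _ (Ne.symm hne) (jk_Hg hN hl') l, smul_zero, zero_smul]

lemma t14_ext (hN : N < n) {A B : Lam r ℚ →ₗ[ℚ] Lam r ℚ}
    (h : ∀ l ∈ part r N, A (jk (n : ℚ) l) = B (jk (n : ℚ) l)) {f : Lam r ℚ} (hf : Hg N f) :
    A f = B f := by
  obtain ⟨co, h1, -, -⟩ := jk_coord (r := r) hN
  rw [h1 f hf, map_sum, map_sum]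
  refine sum_congr rfl fun l hl => ?_
  rw [map_smul, map_smul, h l hl]

section

variable {x : ℚ} {G : Lam r ℚ →ₗ[ℚ] Lam r ℚ}
  (hG : ∀ N, N < n → ∀ l ∈ part r N, G (jk (n : ℚ) l) = br (n : ℚ) x l • jk (n : ℚ) l)

include hG

lemma t14_Hg (hN : N < n) {f : Lam r ℚ} (hf : Hg N f) : Hg N (G f) := by
  obtain ⟨co, h1, -, -⟩ := jk_coord (r := r) hN
  rw [h1 f hf, map_sum]
  refine Hg_sum fun l hl => ?_
  rw [map_smul, hG N hN l hl]
  exact Hg_smul _ (Hg_smul _ (jk_Hg hN hl))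

lemma t14_ee1 (hN : N + 1 < n) {f : Lam r ℚ} (hf : Hg N f) :
    G (ee r ℚ 1 * f) = FF x (G f) := by
  have key : ∀ l ∈ part r N, (G ∘ₗ mu (ee r ℚ 1)) (jk (n : ℚ) l) =
      ((FF x : Lam r ℚ →ₗ[ℚ] Lam r ℚ) ∘ₗ G) (jk (n : ℚ) l) := by
    intro l hl
    rw [LinearMap.comp_apply, LinearMap.comp_apply, mu_apply, hG N (by omega) l hl]
    obtain ⟨ψ, γ, h1, h2, h3⟩ := pieri (r := r) hN hl
    rw [h1, map_sum, map_smul, h2, smul_sum]
    refine sum_congr rfl fun k hk => ?_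
    rw [map_smul, hG (N + 1) hN k hk, smul_smul, smul_smul]
    by_cases h0 : ψ k = 0
    · rw [h0, zero_mul, zero_mul, mul_zero]
    · rw [← h3 x k hk h0]
      congr 1
      ring
  exact t14_ext (show N < n by omega) key hf

lemma t14_DD (u : ℚ) (hN : N < n) {f : Lam r ℚ} (hf : Hg N f) :
    G (DD (n : ℚ) u f) = DD (n : ℚ) u (G f) := by
  have key : ∀ l ∈ part r N, (G ∘ₗ DD (n : ℚ) u) (jk (n : ℚ) l) =
      (DD (n : ℚ) u ∘ₗ G) (jk (n : ℚ) l) := by
    intro l hl
    have h := (jk_isJack (r := r) hN hl).eigen u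
    rw [LinearMap.comp_apply, LinearMap.comp_apply, hG N hN l hl, h, map_smul, map_smul, h,
      hG N hN l hl, smul_comm]
  exact t14_ext hN key hf

lemma t14_DK (k : ℕ) (hN : N < n) {f : Lam r ℚ} (hf : Hg N f) :
    G (DK (n : ℚ) k f) = DK (n : ℚ) k (G f) := by
  obtain ⟨s, w, h⟩ := DK_eq (r := r) (n : ℚ) k
  rw [h, LinearMap.sum_apply, LinearMap.sum_apply, map_sum]
  refine sum_congr rfl fun u _ => ?_
  rw [LinearMap.smul_apply, LinearMap.smul_apply, map_smul, t14_DD hG u hN hf]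

lemma t14_ad (k m : ℕ) : ∀ (N : ℕ) (f : Lam r ℚ), N + m < n → Hg N f →
    Hg (N + m) ((fun A : Module.End ℚ (Lam r ℚ) =>
      A * mu (ee r ℚ 1) - mu (ee r ℚ 1) * A)^[m] (DK (n : ℚ) k) f) ∧
    G ((fun A : Module.End ℚ (Lam r ℚ) =>
      A * mu (ee r ℚ 1) - mu (ee r ℚ 1) * A)^[m] (DK (n : ℚ) k) f) =
    (fun A : Module.End ℚ (Lam r ℚ) => A * FF x - FF x * A)^[m] (DK (n : ℚ) k) (G f) := by
  induction m with
  | zero =>
    intro N f hN hf
    exact ⟨DK_Hg _ _ hf, t14_DK hG k (by omega) hf⟩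
  | succ m ih =>
    intro N f hN hf
    rw [Function.iterate_succ_apply', Function.iterate_succ_apply']
    have h1 : Hg (N + 1) (ee r ℚ 1 * f) := by
      rw [add_comm]
      exact Hg_mul (Hg_ee 1) hf
    obtain ⟨h2, h3⟩ := ih (N + 1) (ee r ℚ 1 * f) (by omega) h1
    obtain ⟨h4, h5⟩ := ih N f (by omega) hf
    have h6 := t14_ee1 hG (show N + m + 1 < n by omega) h4
    constructor
    · rw [LinearMap.sub_apply, Module.End.mul_apply, Module.End.mul_apply, mu_apply, mu_apply]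
      rw [sub_eq_add_neg, ← neg_one_smul ℚ]
      refine Hg_add ?_ (Hg_smul _ ?_)
      · rw [show N + (m + 1) = N + 1 + m by ring]
        exact h2
      · rw [show N + (m + 1) = 1 + (N + m) by ring]
        exact Hg_mul (Hg_ee 1) h4
    · rw [LinearMap.sub_apply, Module.End.mul_apply, Module.End.mul_apply, mu_apply, mu_apply,
        map_sub, h3, h6, h5, t14_ee1 hG (show N + 1 < n by omega) hf,
        LinearMap.sub_apply, Module.End.mul_apply, Module.End.mul_apply]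

lemma t14_ee (k : ℕ) (hN : N + k < n) {f : Lam r ℚ} (hf : Hg N f) :
    G (ee r ℚ k * f) = RR (n : ℚ) x k (G f) := by
  have h1 := (t14_ad hG k k N f hN hf).2
  rw [ad_p1, LinearMap.smul_apply, mu_apply, map_smul] at h1
  rw [RR, LinearMap.smul_apply, ← h1, smul_smul, eq_comm]
  have h2 : algebraMap ℚ ℚ ((k.factorial : ℚ)⁻¹) * (k.factorial : ℚ) = 1 := by
    rw [Algebra.algebraMap_self, RingHom.id_apply, inv_mul_cancel₀]
    exact_mod_cast k.factorial_ne_zero
  rw [h2, one_smul]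

lemma t14_pow (k m : ℕ) : ∀ (N : ℕ) (f : Lam r ℚ), N + k * m < n → Hg N f →
    G (ee r ℚ k ^ m * f) = (RR (n : ℚ) x k ^ m) (G f) := by
  induction m with
  | zero =>
    intro N f _ _
    rw [pow_zero, pow_zero, one_mul, Module.End.one_apply]
  | succ m ih =>
    intro N f hN hf
    have hk : k * (m + 1) = k * m + k := by ring
    rw [pow_succ, pow_succ, mul_assoc, Module.End.mul_apply,
      ← t14_ee hG k (show N + k < n by rw [hk] at hN; omega) hf]
    refine ih (k + N) (ee r ℚ k * f) (by rw [hk] at hN; omega) (Hg_mul (Hg_ee k) hf)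

lemma t14_list (α : Fin r → ℕ) (L : List (Fin r)) : ∀ (N : ℕ) (f : Lam r ℚ),
    N + (L.map fun k : Fin r => ((k : ℕ) + 1) * α k).sum < n → Hg N f →
    G ((L.map fun k : Fin r => ee r ℚ ((k : ℕ) + 1) ^ α k).prod * f) =
      (L.map fun k : Fin r => RR (n : ℚ) x ((k : ℕ) + 1) ^ α k).reverse.prod (G f) := by
  induction L with
  | nil =>
    intro N f _ _
    simp
  | cons a L ih =>
    intro N f hN hf
    rw [List.map_cons, List.sum_cons] at hN
    rw [List.map_cons, List.prod_cons, List.map_cons, List.reverse_cons, List.prod_append,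
      List.prod_singleton, Module.End.mul_apply,
      ← t14_pow hG ((a : ℕ) + 1) (α a) N f (by omega) hf,
      mul_comm (ee r ℚ ((a : ℕ) + 1) ^ α a), mul_assoc]
    exact ih (((a : ℕ) + 1) * α a + N) _ (by omega) (Hg_mul (t14a_Hg_pow (Hg_ee _) _) hf)

lemma t14_one (hn : 0 < n) : G 1 = 1 := by
  have key : ∀ l ∈ part r 0, G (jk (n : ℚ) l) = (LinearMap.id : Lam r ℚ →ₗ[ℚ] Lam r ℚ)
      (jk (n : ℚ) l) := by
    intro l hl
    have h0 : ∀ i, l i = 0 := by
      intro i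
      have h1 := (mem_part.1 hl).2
      exact (sum_eq_zero_iff.1 h1) i (mem_univ i)
    have h2 : br (n : ℚ) x l = 1 := by
      rw [br]
      refine prod_eq_one fun i _ => ?_
      rw [h0 i, range_zero, prod_empty]
    rw [hG 0 hn l hl, h2, one_smul, LinearMap.id_apply]
  exact t14_ext hn key Hg_one

lemma t14_eM (α : Fin r → ℕ) (hα : eW α < n) : G (eM α) = RRm (n : ℚ) x α 1 := by
  have h := t14_list hG α (List.finRange r) 0 1 (by
    rw [zero_add]
    rw [eW, ← List.sum_ofFn, List.ofFn_eq_map] at hα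
    exact hα) Hg_one
  rw [mul_one, t14_one hG (by omega)] at h
  rw [RRm, List.ofFn_eq_map, ← h, eM, ← List.prod_ofFn, List.ofFn_eq_map]

lemma t14_GG (hN : N < n) {f : Lam r ℚ} (hf : Hg N f) : GG (n : ℚ) x f = G f := by
  have h := eM_span hf
  clear hf
  induction h using Submodule.span_induction with
  | mem g hg =>
    obtain ⟨α, hα, rfl⟩ := hg
    have hα' : eW α = N := hα
    rw [GG_eM, t14_eM hG α (by omega)]
  | zero => rw [map_zero, map_zero]
  | add g h _ _ hg hh => rw [map_add, map_add, hg, hh]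
  | smul a g _ hg => rw [map_smul, map_smul, hg]

end

theorem GG_jk (x : ℚ) (hN : N < n) {l : Fin r → ℕ} (hl : l ∈ part r N) :
    GG (n : ℚ) x (jk (n : ℚ) l) = br (n : ℚ) x l • jk (n : ℚ) l := by
  obtain ⟨G, hG⟩ := t14_exists r n x
  rw [t14_GG hG hN (jk_Hg hN hl), hG N hN l hl]

theorem GG_ee (x : ℚ) (k : ℕ) (hk : k < r) (hN : N + (k + 1) < n) {f : Lam r ℚ} (hf : Hg N f) :
    GG (n : ℚ) x (ee r ℚ (k + 1) * f) = RR (n : ℚ) x (k + 1) (GG (n : ℚ) x f) := by
  obtain ⟨G, hG⟩ := t14_exists r n x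
  rw [t14_GG hG (show N < n by omega) hf,
    t14_GG hG (show k + 1 + N < n by omega) (Hg_mul (Hg_ee (k + 1)) hf),
    t14_ee hG (k + 1) hN hf]

end Helper87.TR
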