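import Mathlib
import Pool.Agent.Helper87.TR.Basic

/-!
# TR-17: polynomial dependence on the parameter

`PF f` means that `f c = evP c p` for a symmetric polynomial `p` over `ℚ[X]`. `evP c` is a ring homomorphism and
`evP c (DK X k p) = DK c k (evP c p)` (multiply by `vd`: `map` of `vd` is `vd`, and `map (dK X k p) = dK c k (map p)` on
monomials; cancel `vd`). Similarly for `EE`, `FF (C x)`, multiplication by (the image of) a fixed element of `Lam r ℚ`,
multiplication by `c` (which is `X`).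
So the class of families of operators `T : ℚ → Module.End ℚ (Lam r ℚ)` with `PF f → PF (fun c => T c (f c))` contains
`DK c k`, `EE`, `FF x`, and is closed under sums, differences, products, rational multiples, powers and iterates of
`A ↦ EE * A - A * EE`; this gives `nab c k`, `RR c x k` (fixed `x`), `nabm c α`, `RRm c x α`.
`JJ c f g` and `GG c x f` are finite sums over the support of `co f` (independent of `c`).
-/

set_option autoImplicit false

open MvPolynomial Finset

namespace Helper87.TR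

variable {r : ℕ}

lemma t17_coe_evP (c : ℚ) (p : Lam r (Polynomial ℚ)) :
    (evP c p : MvPolynomial (Fin r) ℚ) =
      map (Polynomial.evalRingHom c) (p : MvPolynomial (Fin r) (Polynomial ℚ)) := rfl

lemma t17_evP_add (c : ℚ) (p q : Lam r (Polynomial ℚ)) :
    evP c (p + q) = evP c p + evP c q := by
  apply Subtype.ext
  simp [t17_coe_evP]

lemma t17_evP_sub (c : ℚ) (p q : Lam r (Polynomial ℚ)) :
    evP c (p - q) = evP c p - evP c q := by
  apply Subtype.ext
  simp [t17_coe_evP]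

lemma t17_evP_zero (c : ℚ) : evP c (0 : Lam r (Polynomial ℚ)) = 0 := by
  apply Subtype.ext
  simp [t17_coe_evP]

lemma t17_evP_smul (c : ℚ) (a : Polynomial ℚ) (p : Lam r (Polynomial ℚ)) :
    evP c (a • p) = a.eval c • evP c p := by
  apply Subtype.ext
  rw [t17_coe_evP]
  change map (Polynomial.evalRingHom c) (a • (p : MvPolynomial (Fin r) (Polynomial ℚ))) =
    a.eval c • (evP c p : MvPolynomial (Fin r) ℚ)
  rw [t17_coe_evP, smul_eq_C_mul, map_mul, map_C, smul_eq_C_mul]
  rfl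

lemma t17_map_vd (c : ℚ) :
    map (Polynomial.evalRingHom c) (vd r (Polynomial ℚ)) = vd r ℚ := by
  rw [vd, vd, map_sum]
  refine sum_congr rfl fun τ _ => ?_
  rw [map_monomial]
  simp

lemma t17_map_cf (c : ℚ) (k : ℕ) (a : Fin r → ℕ) (τ : Equiv.Perm (Fin r)) :
    (Polynomial.evalRingHom c) (cf (Polynomial.X : Polynomial ℚ) k a τ) = cf c k a τ := by
  rw [cf, cf, map_sum]
  refine sum_congr rfl fun S _ => ?_
  rw [map_prod]
  refine prod_congr rfl fun i _ => ?_
  simp

lemma t17_map_dK (c : ℚ) (k : ℕ) (p : MvPolynomial (Fin r) (Polynomial ℚ)) :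
    map (Polynomial.evalRingHom c) (dK (Polynomial.X : Polynomial ℚ) k p) =
      dK c k (map (Polynomial.evalRingHom c) p) := by
  induction p using MvPolynomial.induction_on' with
  | monomial a v =>
    rw [map_monomial, dK_monomial, dK_monomial, map_sum]
    refine sum_congr rfl fun τ _ => ?_
    rw [map_monomial, RingHom.map_mul, RingHom.map_mul, t17_map_cf]
    simp
  | add p q hp hq => rw [map_add, map_add, map_add, map_add, hp, hq]

lemma t17_DK (c : ℚ) (k : ℕ) (p : Lam r (Polynomial ℚ)) :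
    DK c k (evP c p) = evP c (DK (Polynomial.X : Polynomial ℚ) k p) := by
  apply Subtype.ext
  refine mul_left_cancel₀ (vd_ne_zero (r := r) (R := ℚ)) ?_
  rw [vd_mul_DK, t17_coe_evP, t17_coe_evP, ← t17_map_dK, ← vd_mul_DK, map_mul, t17_map_vd]

lemma t17_EE (c : ℚ) (p : Lam r (Polynomial ℚ)) :
    EE r ℚ (evP c p) = evP c (EE r (Polynomial ℚ) p) := by
  apply Subtype.ext
  rw [coe_EE, t17_coe_evP, t17_coe_evP, coe_EE, pE_apply, pE_apply, map_sum]
  exact sum_congr rfl fun i _ => pderiv_map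

lemma t17_FF (c x : ℚ) (p : Lam r (Polynomial ℚ)) :
    FF x (evP c p) = evP c (FF (Polynomial.C x) p) := by
  apply Subtype.ext
  rw [coe_FF, t17_coe_evP, t17_coe_evP, coe_FF, pF_apply, pF_apply, map_sum]
  refine sum_congr rfl fun i _ => ?_
  rw [pderiv_map]
  simp

/-- families of operators preserving `PF` -/
def t17_OP (T : ℚ → Module.End ℚ (Lam r ℚ)) : Prop :=
  ∀ f : ℚ → Lam r ℚ, PF f → PF fun c => T c (f c)

lemma t17_OP_DK (k : ℕ) : t17_OP (r := r) fun c => DK c k := by
  rintro f ⟨p, hp⟩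
  exact ⟨_, fun c => (congrArg (DK c k) (hp c)).trans (t17_DK c k p)⟩

lemma t17_OP_EE : t17_OP (r := r) fun _ => EE r ℚ := by
  rintro f ⟨p, hp⟩
  exact ⟨EE r (Polynomial ℚ) p, fun c =>
    (congrArg (EE r ℚ) (hp c)).trans (t17_EE c p)⟩

lemma t17_OP_FF (x : ℚ) : t17_OP (r := r) fun _ => FF x := by
  rintro f ⟨p, hp⟩
  exact ⟨FF (Polynomial.C x) p, fun c =>
    (congrArg (FF x) (hp c)).trans (t17_FF c x p)⟩

lemma t17_PF_add {f g : ℚ → Lam r ℚ} (hf : PF f) (hg : PF g) : PF fun c => f c + g c := by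
  obtain ⟨p, hp⟩ := hf
  obtain ⟨q, hq⟩ := hg
  exact ⟨p + q, fun c => by rw [t17_evP_add, ← hp c, ← hq c]⟩

lemma t17_PF_sub {f g : ℚ → Lam r ℚ} (hf : PF f) (hg : PF g) : PF fun c => f c - g c := by
  obtain ⟨p, hp⟩ := hf
  obtain ⟨q, hq⟩ := hg
  exact ⟨p - q, fun c => by rw [t17_evP_sub, ← hp c, ← hq c]⟩

lemma t17_PF_smul {f : ℚ → Lam r ℚ} (a : ℚ) (hf : PF f) : PF fun c => a • f c := by
  obtain ⟨p, hp⟩ := hf
  exact ⟨(Polynomial.C a) • p, fun c => by rw [t17_evP_smul, ← hp c, Polynomial.eval_C]⟩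

lemma t17_PF_zero : PF fun _ => (0 : Lam r ℚ) := ⟨0, fun c => (t17_evP_zero c).symm⟩

lemma t17_PF_sum {ι : Type*} (s : Finset ι) {f : ι → ℚ → Lam r ℚ} (hf : ∀ i ∈ s, PF (f i)) :
    PF fun c => ∑ i ∈ s, f i c := by
  classical
  induction s using Finset.induction_on with
  | empty => simpa using t17_PF_zero
  | insert a s ha ih =>
    simp_rw [sum_insert ha]
    exact t17_PF_add (hf a (mem_insert_self _ _)) (ih fun i hi => hf i (mem_insert_of_mem hi))

lemma t17_OP_sub {S T : ℚ → Module.End ℚ (Lam r ℚ)} (hS : t17_OP S) (hT : t17_OP T) :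
    t17_OP fun c => S c - T c := fun f hf => t17_PF_sub (hS f hf) (hT f hf)

lemma t17_OP_mul {S T : ℚ → Module.End ℚ (Lam r ℚ)} (hS : t17_OP S) (hT : t17_OP T) :
    t17_OP fun c => S c * T c := fun f hf => hS _ (hT f hf)

lemma t17_OP_smul {S : ℚ → Module.End ℚ (Lam r ℚ)} (a : ℚ) (hS : t17_OP S) :
    t17_OP fun c => a • S c := fun f hf => t17_PF_smul a (hS f hf)

lemma t17_OP_one : t17_OP fun _ => (1 : Module.End ℚ (Lam r ℚ)) := fun _ hf => hf

lemma t17_OP_pow {S : ℚ → Module.End ℚ (Lam r ℚ)} (hS : t17_OP S) (m : ℕ) :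
    t17_OP fun c => S c ^ m := by
  induction m with
  | zero =>
    simp_rw [pow_zero]
    exact t17_OP_one
  | succ m ih =>
    simp_rw [pow_succ]
    exact t17_OP_mul ih hS

lemma t17_OP_prod {m : ℕ} {T : ℚ → Fin m → Module.End ℚ (Lam r ℚ)}
    (hT : ∀ i, t17_OP fun c => T c i) : t17_OP fun c => (List.ofFn fun i => T c i).prod := by
  induction m with
  | zero =>
    simp_rw [List.ofFn_zero, List.prod_nil]
    exact t17_OP_one
  | succ m ih =>
    simp_rw [List.ofFn_succ, List.prod_cons]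
    exact t17_OP_mul (hT 0) (ih (T := fun c i => T c i.succ) fun i => hT i.succ)

lemma t17_OP_prod_rev {m : ℕ} {T : ℚ → Fin m → Module.End ℚ (Lam r ℚ)}
    (hT : ∀ i, t17_OP fun c => T c i) :
    t17_OP fun c => (List.ofFn fun i => T c i).reverse.prod := by
  induction m with
  | zero =>
    simp_rw [List.ofFn_zero, List.reverse_nil, List.prod_nil]
    exact t17_OP_one
  | succ m ih =>
    simp_rw [List.ofFn_succ, List.reverse_cons, List.prod_append, List.prod_singleton]
    exact t17_OP_mul (ih (T := fun c i => T c i.succ) fun i => hT i.succ) (hT 0)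

lemma t17_OP_nab (k : ℕ) : t17_OP (r := r) fun c => nab c k := by
  have h : ∀ m : ℕ, t17_OP (r := r) fun c =>
      (fun A : Module.End ℚ (Lam r ℚ) => EE r ℚ * A - A * EE r ℚ)^[m] (DK c k) := by
    intro m
    induction m with
    | zero => exact t17_OP_DK k
    | succ m ih =>
      simp_rw [Function.iterate_succ_apply']
      exact t17_OP_sub (t17_OP_mul t17_OP_EE ih) (t17_OP_mul ih t17_OP_EE)
  exact t17_OP_smul _ (h k)

lemma t17_OP_RR (x : ℚ) (k : ℕ) : t17_OP (r := r) fun c => RR c x k := by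
  have h : ∀ m : ℕ, t17_OP (r := r) fun c =>
      (fun A : Module.End ℚ (Lam r ℚ) => A * FF x - FF x * A)^[m] (DK c k) := by
    intro m
    induction m with
    | zero => exact t17_OP_DK k
    | succ m ih =>
      simp_rw [Function.iterate_succ_apply']
      exact t17_OP_sub (t17_OP_mul ih (t17_OP_FF x)) (t17_OP_mul (t17_OP_FF x) ih)
  exact t17_OP_smul _ (h k)

lemma t17_OP_nabm (α : Fin r → ℕ) : t17_OP (r := r) fun c => nabm c α :=
  t17_OP_prod (T := fun c k => nab c (k + 1) ^ α k) fun _ => t17_OP_pow (t17_OP_nab _) _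

lemma t17_OP_RRm (x : ℚ) (α : Fin r → ℕ) : t17_OP (r := r) fun c => RRm c x α :=
  t17_OP_prod_rev (T := fun c k => RR c x (k + 1) ^ α k) fun _ => t17_OP_pow (t17_OP_RR x _) _

theorem PF_const (f : Lam r ℚ) : PF fun _ => f := by
  refine ⟨⟨map Polynomial.C (f : MvPolynomial (Fin r) ℚ), ?_⟩, fun c => ?_⟩
  · rw [mem_symmetricSubalgebra]
    exact IsSymmetric.map f.isSymmetric _
  · apply Subtype.ext
    rw [t17_coe_evP, MvPolynomial.map_map]
    have h : (Polynomial.evalRingHom c).comp Polynomial.C = RingHom.id ℚ := by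
      ext x
      simp
    rw [h, MvPolynomial.map_id]

theorem PF_cm {f : ℚ → Lam r ℚ} (hf : PF f) (k : Fin r → ℕ) :
    ∃ p : Polynomial ℚ, ∀ c, cm k (f c) = p.eval c := by
  obtain ⟨p, hp⟩ := hf
  refine ⟨cm k p, fun c => ?_⟩
  rw [hp c, cm, t17_coe_evP, coeff_map]
  rfl

theorem PF_nab {f : ℚ → Lam r ℚ} (hf : PF f) (k : ℕ) : PF fun c => nab c k (f c) :=
  t17_OP_nab k f hf

theorem PF_GG (x : ℚ) (f : Lam r ℚ) : PF fun c => GG c x f := by
  have h : ∀ c, GG c x f = ∑ α ∈ (co r ℚ f).support, coeff α (co r ℚ f) • RRm c x α 1 := by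
    intro c
    rw [GG, LinearMap.comp_apply, Module.Basis.constr_apply]
    rfl
  simp_rw [h]
  exact t17_PF_sum _ fun α _ => t17_PF_smul _ (t17_OP_RRm x α _ (PF_const 1))

theorem PF_JJ (f : Lam r ℚ) {g : ℚ → Lam r ℚ} (hg : PF g) :
    ∃ p : Polynomial ℚ, ∀ c, JJ c f (g c) = p.eval c := by
  have h : ∀ c, JJ c f (g c) =
      cm 0 (∑ α ∈ (co r ℚ f).support, coeff α (co r ℚ f) • nabm c α (g c)) := by
    intro c
    have h1 : JJ c f = ∑ α ∈ (co r ℚ f).support,
        coeff α (co r ℚ f) • (ev0 r ℚ ∘ₗ nabm c α) := by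
      rw [JJ, LinearMap.comp_apply, Module.Basis.constr_apply]
      rfl
    rw [h1, LinearMap.sum_apply, cm_sum]
    refine sum_congr rfl fun α _ => ?_
    rw [cm_smul, LinearMap.smul_apply, smul_eq_mul, LinearMap.comp_apply, ev0_apply, cm]
    have h0 : fs (0 : Fin r → ℕ) = 0 := by
      ext i
      rfl
    rw [h0]
    rfl
  simp_rw [h]
  exact PF_cm (t17_PF_sum (f := fun α c => coeff α (co r ℚ f) • nabm c α (g c)) _
    fun α _ => t17_PF_smul _ (t17_OP_nabm α _ hg)) 0

end Helper87.TR
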