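import Mathlib
import Pool.Agent.Helper87.TR.St.T14
import Pool.Agent.Helper87.TR.St.T17

/-!
# TR-18b: degrees of `GG`

`GG_Bx`: for `c = n` large and `f` homogeneous of degree `N < n`, expand `f` in
the `jk` (`jk_coord`); `GG n (-M) (jk n l) = br n (-M) l • jk n l` (`GG_jk`) and `br n (-M) l = 0` if `l i > M` for `i` the last
index (for `l` monotone, some `l i > M` iff this; the factor `i = r - 1`, `j = M` is `-M + 0 + M`); otherwise `jk_Bx`. So the
coefficients `cm k (GG c (-M) f)` with `k i > M` for some `i` vanish for all large `n`, hence for all `c` (`PF_GG`, `PF_cm`: it is a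
polynomial in `c`). General `f`: sum of homogeneous components (`sum_hc`). `Bx_iff`. `GG_Hg` in the same way (`Hg_iff`).
-/

set_option autoImplicit false

open MvPolynomial Finset

namespace Helper87.TR

variable {r : ℕ}

lemma t18b_poly {p : Polynomial ℚ} (n₀ : ℕ)
    (h : ∀ n : ℕ, n₀ < n → p.eval (n : ℚ) = 0) : p = 0 := by
  apply Polynomial.eq_of_infinite_eval_eq
  have h1 : Set.Infinite ((fun n : ℕ => (n : ℚ)) '' Set.Ioi n₀) :=
    (Set.Ioi_infinite n₀).image (Nat.cast_injective.injOn)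
  refine h1.mono ?_
  rintro _ ⟨n, hn, rfl⟩
  change p.eval (n : ℚ) = (0 : Polynomial ℚ).eval (n : ℚ)
  rw [h n hn, Polynomial.eval_zero]

lemma t18b_expand {n N : ℕ} (hN : N < n) (x : ℚ) {f : Lam r ℚ} (hf : Hg N f) :
    ∃ co : (Fin r → ℕ) → ℚ, GG (n : ℚ) x f =
      ∑ l ∈ part r N, (co l * br (n : ℚ) x l) • jk (n : ℚ) l := by
  obtain ⟨co, h1, -, -⟩ := jk_coord (r := r) (n := n) (N := N) hN
  refine ⟨fun l => co l f, ?_⟩
  conv_lhs => rw [h1 f hf]
  rw [map_sum]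
  refine sum_congr rfl fun l hl => ?_
  rw [map_smul, GG_jk x hN hl, smul_smul]

theorem GG_Hg (c x : ℚ) {N : ℕ} {f : Lam r ℚ} (hf : Hg N f) : Hg N (GG c x f) := by
  rw [Hg_iff]
  intro k _ h1
  by_contra h2
  obtain ⟨p, hp⟩ := PF_cm (PF_GG x f) k
  have h0 : p = 0 := by
    refine t18b_poly N fun n hn => ?_
    rw [← hp]
    obtain ⟨co, hco⟩ := t18b_expand hn x hf
    refine cm_eq_zero_of_Hg ?_ h2
    rw [hco]
    exact Hg_sum fun l hl => Hg_smul _ (jk_Hg hn hl)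
  rw [hp c, h0, Polynomial.eval_zero] at h1
  exact h1 rfl

lemma t18b_br (hr : 1 ≤ r) (c : ℚ) (M : ℕ) {l : Fin r → ℕ} (hl : Monotone l)
    (h : ¬ ∀ i, l i ≤ M) : br c (-(M : ℚ)) l = 0 := by
  push Not at h
  obtain ⟨i, hi⟩ := h
  have hlast : M < l ⟨r - 1, by omega⟩ :=
    lt_of_lt_of_le hi (hl (Fin.mk_le_mk.2 (by omega) : i ≤ ⟨r - 1, by omega⟩))
  rw [br]
  refine prod_eq_zero (mem_univ (⟨r - 1, by omega⟩ : Fin r)) ?_
  refine prod_eq_zero (mem_range.2 hlast) ?_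
  simp

lemma t18b_Bx_sum {ι : Type*} {s : Finset ι} {M : ℕ} {f : ι → Lam r ℚ} (h : ∀ i ∈ s, Bx M (f i)) :
    Bx M (∑ i ∈ s, f i) := by
  rw [Bx_iff]
  intro k hk h1 i
  by_contra h2
  apply h1
  rw [cm_sum]
  refine sum_eq_zero fun j hj => ?_
  by_contra h3
  exact h2 (Bx_iff.1 (h j hj) k hk h3 i)

theorem GG_Bx (hr : 1 ≤ r) (c : ℚ) (M : ℕ) (f : Lam r ℚ) : Bx M (GG c (-(M : ℚ)) f) := by
  obtain ⟨A, hA⟩ := exists_Bx f
  rw [sum_hc hA, map_sum]
  refine t18b_Bx_sum fun N _ => ?_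
  rw [Bx_iff]
  intro k hk h1 i
  by_contra h2
  obtain ⟨p, hp⟩ := PF_cm (PF_GG (-(M : ℚ)) (hc N f)) k
  have h0 : p = 0 := by
    refine t18b_poly N fun n hn => ?_
    rw [← hp]
    obtain ⟨co, hco⟩ := t18b_expand hn (-(M : ℚ)) (Hg_hc N f)
    rw [hco, cm_sum]
    refine sum_eq_zero fun l hl => ?_
    rw [cm_smul]
    by_cases h3 : ∀ i, l i ≤ M
    · have h4 : cm k (jk (n : ℚ) l) = 0 := by
        by_contra h5
        exact h2 (Bx_iff.1 (jk_Bx hn hl h3) k hk h5 i)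
      rw [h4, mul_zero]
    · rw [t18b_br hr _ _ (mem_part.1 hl).1 h3, mul_zero, zero_mul]
  rw [hp c, h0, Polynomial.eval_zero] at h1
  exact h1 rfl

end Helper87.TR
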