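import Mathlib
import Pool.Agent.Helper87.TR.Basic

/-!
# TR-21a: orders of vanishing at `μ` of `br`, `bn`, `bd`

`rm μ p` = multiplicity of the root `μ` of `p ∈ ℚ[X]`. All factors of `br X (-(r X)) l`
(`-(i+1) X + j`), of `bn X B` (`arm - X (leg + 1)`), of `bd X B` (`arm + 1 - X leg`) and, for `l ∈ box r (r μ)`, of
`br X (-(r μ)) l` (`-(r μ) + X (r - 1 - i) + j`; for `i = r - 1` it is `j - r μ < 0`) are nonzero polynomials of degree
`≤ 1`, so `rm` of a product is the number of factors vanishing at `μ` (`Polynomial.rootMultiplicity_mul`; a nonzero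
polynomial `a X + b` with root `μ` has root multiplicity exactly `1`). The factor `(i, j)` of both `br`'s vanishes at `μ`
iff `j = μ (i + 1)`.
-/

set_option autoImplicit false

open Finset Polynomial

namespace Helper87.TR

/-- root multiplicity -/
noncomputable def rm (μ : ℕ) (p : ℚ[X]) : ℕ := p.rootMultiplicity (μ : ℚ)

theorem t21a_lin_ne_zero {a b : ℚ} (h : a ≠ 0 ∨ b ≠ 0) : (C a * X + C b : ℚ[X]) ≠ 0 := by
  intro h0
  have h1 := congrArg (fun p : ℚ[X] => p.coeff 1) h0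
  have h2 := congrArg (fun p : ℚ[X] => p.coeff 0) h0
  simp at h1 h2
  rcases h with h | h
  · exact h h1
  · exact h h2

theorem t21a_rm_lin (μ : ℕ) {a b : ℚ} (h : a ≠ 0 ∨ b ≠ 0) :
    rm μ (C a * X + C b) = if a * (μ : ℚ) + b = 0 then 1 else 0 := by
  have hne := t21a_lin_ne_zero h
  have hle : rm μ (C a * X + C b) ≤ 1 := by
    rw [rm, ← Polynomial.count_roots]
    refine (Multiset.count_le_card _ _).trans ((Polynomial.card_roots' _).trans ?_)
    exact Polynomial.natDegree_linear_le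
  have hpos : 0 < rm μ (C a * X + C b) ↔ a * (μ : ℚ) + b = 0 := by
    rw [rm, Polynomial.rootMultiplicity_pos hne, Polynomial.IsRoot.def]
    simp
  split_ifs with h0
  · have := hpos.2 h0
    omega
  · have : ¬ 0 < rm μ (C a * X + C b) := fun h' => h0 (hpos.1 h')
    omega

theorem rm_mul (μ : ℕ) {p q : ℚ[X]} (hp : p ≠ 0) (hq : q ≠ 0) : rm μ (p * q) = rm μ p + rm μ q := by
  rw [rm, Polynomial.rootMultiplicity_mul (mul_ne_zero hp hq)]
  rfl

theorem t21a_rm_one (μ : ℕ) : rm μ (1 : ℚ[X]) = 0 := by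
  have h := t21a_rm_lin μ (a := 0) (b := 1) (Or.inr one_ne_zero)
  simpa using h

theorem rm_prod {ι : Type*} (μ : ℕ) (s : Finset ι) (f : ι → ℚ[X]) (h : ∀ i ∈ s, f i ≠ 0) :
    rm μ (∏ i ∈ s, f i) = ∑ i ∈ s, rm μ (f i) := by
  classical
  induction s using Finset.induction_on with
  | empty => simpa using t21a_rm_one μ
  | insert i s hi ih =>
    rw [prod_insert hi, sum_insert hi, rm_mul μ (h i (mem_insert_self _ _))
      (prod_ne_zero_iff.2 fun j hj => h j (mem_insert_of_mem hj)),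
      ih fun j hj => h j (mem_insert_of_mem hj)]

theorem t21a_br_factor {r : ℕ} (i : Fin r) (j : ℕ) :
    (-((r : ℚ[X]) * X) + X * ((r - 1 - (i : ℕ) : ℕ) : ℚ[X]) + (j : ℚ[X])) =
      C (-(((i : ℕ) : ℚ) + 1)) * X + C (j : ℚ) := by
  have h : ((r : ℕ) : ℚ[X]) = ((r - 1 - (i : ℕ) : ℕ) : ℚ[X]) + ((i : ℕ) : ℚ[X]) + 1 := by
    have := i.2
    have h2 : r = (r - 1 - (i : ℕ)) + (i : ℕ) + 1 := by omega
    conv_lhs => rw [h2]
    push_cast
    ring
  rw [h]
  simp only [map_neg, map_add, map_natCast, map_one]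
  ring

theorem t21a_brL_factor {r : ℕ} (μ : ℕ) (i : Fin r) (j : ℕ) :
    (-((r * μ : ℕ) : ℚ[X]) + X * ((r - 1 - (i : ℕ) : ℕ) : ℚ[X]) + (j : ℚ[X])) =
      C (((r - 1 - (i : ℕ) : ℕ) : ℚ)) * X + C ((j : ℚ) - ((r * μ : ℕ) : ℚ)) := by
  simp only [map_sub, map_natCast]
  ring

theorem t21a_bn_factor (a l : ℕ) :
    ((a : ℚ[X]) - X * ((l : ℚ[X]) + 1)) = C (-((l : ℚ) + 1)) * X + C (a : ℚ) := by
  simp only [map_neg, map_add, map_natCast, map_one]
  ring

theorem t21a_bd_factor (a l : ℕ) :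
    ((a : ℚ[X]) + 1 - X * (l : ℚ[X])) = C (-(l : ℚ)) * X + C ((a : ℚ) + 1) := by
  simp only [map_neg, map_add, map_natCast, map_one]
  ring

theorem br_X_ne_zero {r : ℕ} (l : Fin r → ℕ) : br (X : ℚ[X]) (-((r : ℚ[X]) * X)) l ≠ 0 := by
  rw [br]
  refine prod_ne_zero_iff.2 fun i _ => prod_ne_zero_iff.2 fun j _ => ?_
  rw [t21a_br_factor]
  refine t21a_lin_ne_zero (Or.inl ?_)
  have : (0 : ℚ) < ((i : ℕ) : ℚ) + 1 := by positivity
  linarith

theorem bn_X_ne_zero (B : Finset ℕ) : bn (X : ℚ[X]) B ≠ 0 := by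
  rw [bn]
  refine prod_ne_zero_iff.2 fun b _ => prod_ne_zero_iff.2 fun g _ => ?_
  rw [t21a_bn_factor]
  refine t21a_lin_ne_zero (Or.inl ?_)
  have : (0 : ℚ) < (leg B g b : ℚ) + 1 := by positivity
  linarith

theorem bd_X_ne_zero (B : Finset ℕ) : bd (X : ℚ[X]) B ≠ 0 := by
  rw [bd]
  refine prod_ne_zero_iff.2 fun b _ => prod_ne_zero_iff.2 fun g _ => ?_
  rw [t21a_bd_factor]
  refine t21a_lin_ne_zero (Or.inr ?_)
  have : (0 : ℚ) < (arm B g b : ℚ) + 1 := by positivity
  linarith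

theorem t21a_box_le {r M : ℕ} {l : Fin r → ℕ} (hl : l ∈ box r M) (i : Fin r) : l i ≤ M := by
  rw [box, mem_filter, Fintype.mem_piFinset] at hl
  have := hl.1 i
  rw [mem_range] at this
  omega

theorem t21a_brL_cond {r μ : ℕ} {l : Fin r → ℕ} (hl : l ∈ box r (r * μ)) (i : Fin r) (j : ℕ)
    (hj : j ∈ range (l i)) :
    (((r - 1 - (i : ℕ) : ℕ) : ℚ)) ≠ 0 ∨ ((j : ℚ) - ((r * μ : ℕ) : ℚ)) ≠ 0 := by
  right
  have h1 := t21a_box_le hl i
  rw [mem_range] at hj
  have h2 : j < r * μ := by omega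
  have h3 : (j : ℚ) < ((r * μ : ℕ) : ℚ) := by exact_mod_cast h2
  linarith

theorem br_L_ne_zero {r μ : ℕ} {l : Fin r → ℕ} (hl : l ∈ box r (r * μ)) :
    br (X : ℚ[X]) (-((r * μ : ℕ) : ℚ[X])) l ≠ 0 := by
  rw [br]
  refine prod_ne_zero_iff.2 fun i _ => prod_ne_zero_iff.2 fun j hj => ?_
  rw [t21a_brL_factor]
  exact t21a_lin_ne_zero (t21a_brL_cond hl i j hj)

theorem t21a_sum_ite {r μ : ℕ} (l : Fin r → ℕ) :
    (∑ i : Fin r, ∑ j ∈ range (l i), if j = μ * ((i : ℕ) + 1) then 1 else 0) =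
      (univ.filter fun i : Fin r => μ * ((i : ℕ) + 1) < l i).card := by
  rw [card_filter]
  refine sum_congr rfl fun i _ => ?_
  rw [sum_ite_eq']
  simp only [mem_range]

theorem rm_br {r μ : ℕ} (hμ : 1 ≤ μ) (l : Fin r → ℕ) :
    rm μ (br (X : ℚ[X]) (-((r : ℚ[X]) * X)) l) =
      (univ.filter fun i : Fin r => μ * ((i : ℕ) + 1) < l i).card := by
  have hne : ∀ (i : Fin r) (j : ℕ), (-(((i : ℕ) : ℚ) + 1)) ≠ 0 ∨ (j : ℚ) ≠ 0 := by
    intro i j
    left
    have : (0 : ℚ) < ((i : ℕ) : ℚ) + 1 := by positivity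
    linarith
  rw [br, rm_prod, ← t21a_sum_ite]
  · refine sum_congr rfl fun i _ => ?_
    rw [rm_prod]
    · refine sum_congr rfl fun j _ => ?_
      rw [t21a_br_factor, t21a_rm_lin μ (hne i j)]
      refine if_congr ?_ rfl rfl
      constructor
      · intro h
        have h2 : (j : ℚ) = ((μ * ((i : ℕ) + 1) : ℕ) : ℚ) := by
          push_cast
          linarith
        exact_mod_cast h2
      · intro h
        rw [h]
        push_cast
        ring
    · intro j _
      rw [t21a_br_factor]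
      exact t21a_lin_ne_zero (hne i j)
  · intro i _
    refine prod_ne_zero_iff.2 fun j _ => ?_
    rw [t21a_br_factor]
    exact t21a_lin_ne_zero (hne i j)

theorem rm_br_L {r μ : ℕ} (hμ : 1 ≤ μ) {l : Fin r → ℕ} (hl : l ∈ box r (r * μ)) :
    rm μ (br (X : ℚ[X]) (-((r * μ : ℕ) : ℚ[X])) l) =
      (univ.filter fun i : Fin r => μ * ((i : ℕ) + 1) < l i).card := by
  rw [br, rm_prod, ← t21a_sum_ite]
  · refine sum_congr rfl fun i _ => ?_
    rw [rm_prod]
    · refine sum_congr rfl fun j hj => ?_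
      rw [t21a_brL_factor, t21a_rm_lin μ (t21a_brL_cond hl i j hj)]
      refine if_congr ?_ rfl rfl
      have h0 : ((r : ℕ) : ℚ) = ((r - 1 - (i : ℕ) : ℕ) : ℚ) + ((i : ℕ) : ℚ) + 1 := by
        have := i.2
        have h2 : r = (r - 1 - (i : ℕ)) + (i : ℕ) + 1 := by omega
        conv_lhs => rw [h2]
        push_cast
        ring
      push_cast
      rw [h0]
      constructor
      · intro h
        have h2 : (j : ℚ) = ((μ * ((i : ℕ) + 1) : ℕ) : ℚ) := by
          push_cast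
          linarith
        exact_mod_cast h2
      · intro h
        rw [h]
        push_cast
        ring
    · intro j hj
      rw [t21a_brL_factor]
      exact t21a_lin_ne_zero (t21a_brL_cond hl i j hj)
  · intro i _
    refine prod_ne_zero_iff.2 fun j hj => ?_
    rw [t21a_brL_factor]
    exact t21a_lin_ne_zero (t21a_brL_cond hl i j hj)

theorem rm_bn {μ : ℕ} (hμ : 1 ≤ μ) (B : Finset ℕ) : rm μ (bn (X : ℚ[X]) B) =
    ∑ b ∈ B, ((range b \ B).filter fun g => arm B g b = μ * (leg B g b + 1)).card := by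
  have hne : ∀ (a l : ℕ), (-((l : ℚ) + 1)) ≠ 0 ∨ (a : ℚ) ≠ 0 := by
    intro a l
    left
    have : (0 : ℚ) < (l : ℚ) + 1 := by positivity
    linarith
  rw [bn, rm_prod]
  · refine sum_congr rfl fun b _ => ?_
    rw [rm_prod, card_filter]
    · refine sum_congr rfl fun g _ => ?_
      rw [t21a_bn_factor, t21a_rm_lin μ (hne _ _)]
      refine if_congr ?_ rfl rfl
      constructor
      · intro h
        have h2 : (arm B g b : ℚ) = ((μ * (leg B g b + 1) : ℕ) : ℚ) := by
          push_cast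
          linarith
        exact_mod_cast h2
      · intro h
        rw [h]
        push_cast
        ring
    · intro g _
      rw [t21a_bn_factor]
      exact t21a_lin_ne_zero (hne _ _)
  · intro b _
    refine prod_ne_zero_iff.2 fun g _ => ?_
    rw [t21a_bn_factor]
    exact t21a_lin_ne_zero (hne _ _)

theorem rm_bd {μ : ℕ} (hμ : 1 ≤ μ) (B : Finset ℕ) : rm μ (bd (X : ℚ[X]) B) =
    ∑ b ∈ B, ((range b \ B).filter fun g => arm B g b + 1 = μ * leg B g b).card := by
  have hne : ∀ (a l : ℕ), (-(l : ℚ)) ≠ 0 ∨ ((a : ℚ) + 1) ≠ 0 := by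
    intro a l
    right
    have : (0 : ℚ) < (a : ℚ) + 1 := by positivity
    linarith
  rw [bd, rm_prod]
  · refine sum_congr rfl fun b _ => ?_
    rw [rm_prod, card_filter]
    · refine sum_congr rfl fun g _ => ?_
      rw [t21a_bd_factor, t21a_rm_lin μ (hne _ _)]
      refine if_congr ?_ rfl rfl
      constructor
      · intro h
        have h2 : ((arm B g b + 1 : ℕ) : ℚ) = ((μ * leg B g b : ℕ) : ℚ) := by
          push_cast
          linarith
        exact_mod_cast h2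
      · intro h
        have h2 : ((arm B g b + 1 : ℕ) : ℚ) = ((μ * leg B g b : ℕ) : ℚ) := by
          rw [h]
        push_cast at h2
        rw [h2]
        ring
    · intro g _
      rw [t21a_bd_factor]
      exact t21a_lin_ne_zero (hne _ _)
  · intro b _
    refine prod_ne_zero_iff.2 fun g _ => ?_
    rw [t21a_bd_factor]
    exact t21a_lin_ne_zero (hne _ _)

end Helper87.TR
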