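import Mathlib
import Pool.Agent.Helper87.TR.St.T21a

/-!
# TR-23: the orders of vanishing at `μ` on the box `r × r μ` add up to zero

By `rm_br`, `rm_br_L` the `br` terms are equal for each `l ∈ box r (r μ)`. Remain `bn` and `bd` (`rm_bn`, `rm_bd`).
`l ↦ bs l` is a bijection from `box r (r μ)` to the `r`-element subsets `B` of `range (r + r μ)`. Fix a pair
`g < b` below `r + r μ = (μ + 1) r`.
* The number of `B` with `b ∈ B`, `g ∉ B`, `arm = μ (leg + 1)` is nonzero only if
  `b - g = arm + leg + 1 = (μ + 1) k`, `k = leg + 1`, and then it is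
  `C((μ+1) k - 1, k - 1) * C((μ+1)(r-k) - 1, r - k)` (choose the `leg = k - 1` elements between `g` and `b`, and the
  remaining `r - k` elements among the `(μ+1) r - (μ+1) k - 1` other numbers).
* The number of `B` with `b ∈ B`, `g ∉ B`, `arm + 1 = μ leg` is nonzero only if `b - g = (μ+1) k`, `k = leg`, and then it is
  `C((μ+1) k - 1, k) * C((μ+1)(r-k) - 1, r - k - 1)`.
These are equal because `C((μ+1) k - 1, k) = μ C((μ+1) k - 1, k - 1)` and the same for `r - k` (here `1 ≤ k < r`; for `k = r`
there is no pair `g < b < (μ+1) r` with `b - g = (μ+1) r`).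
-/

set_option autoImplicit false

open Finset Polynomial

namespace Helper87.TR

lemma t23_bs_strictMono {r : ℕ} {l : Fin r → ℕ} (hl : Monotone l) :
    StrictMono fun i : Fin r => l i + (i : ℕ) := by
  intro i j hij
  have h1 := hl hij.le
  have h2 : (i : ℕ) < j := hij
  simp only
  omega

lemma t23_step {r : ℕ} {e : Fin r → ℕ} (he : StrictMono e) (i j : Fin r) (hij : i ≤ j) :
    e i + ((j : ℕ) - i) ≤ e j := by
  obtain ⟨j, hj⟩ := j
  induction j with
  | zero =>
    have h1 : (i : ℕ) = 0 := by
      have : (i : ℕ) ≤ 0 := hij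
      omega
    have h2 : i = ⟨0, hj⟩ := Fin.ext h1
    subst h2
    simp
  | succ j ih =>
    rcases eq_or_lt_of_le hij with h | h
    · subst h
      simp
    · have h1 : i ≤ ⟨j, by omega⟩ := by
        have : (i : ℕ) < j + 1 := h
        exact Fin.mk_le_mk.2 (by omega) |>.trans_eq' rfl
      have h2 := ih (by omega) h1
      have h3 : e ⟨j, by omega⟩ < e ⟨j + 1, hj⟩ := he (Fin.mk_lt_mk.2 (by omega))
      have h4 : (i : ℕ) ≤ j := h1
      simp only at h2 ⊢
      omega

/-- the box and the `r`-element subsets -/
lemma t23_sum_box {r M : ℕ} (hr : 1 ≤ r) (F : Finset ℕ → ℕ) :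
    ∑ l ∈ box r M, F (bs l) = ∑ B ∈ powersetCard r (range (r + M)), F B := by
  classical
  refine sum_nbij bs ?_ ?_ ?_ fun _ _ => rfl
  · intro l hl
    rw [mem_box] at hl
    rw [mem_powersetCard]
    constructor
    · intro x hx
      rw [bs, mem_image] at hx
      obtain ⟨i, -, rfl⟩ := hx
      have := hl.2 i
      have h2 := i.2
      rw [mem_range]
      omega
    · rw [bs, card_image_of_injective _ (t23_bs_strictMono hl.1).injective, card_univ,
        Fintype.card_fin]
  · intro l hl k hk h
    rw [mem_coe, mem_box] at hl hk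
    have h1 : Set.range (fun i : Fin r => l i + (i : ℕ)) =
        Set.range (fun i : Fin r => k i + (i : ℕ)) := by
      have h2 := congrArg (fun s : Finset ℕ => (s : Set ℕ)) h
      simpa [bs] using h2
    have h3 := (StrictMono.range_inj (t23_bs_strictMono hl.1) (t23_bs_strictMono hk.1)).1 h1
    funext i
    have := congrFun h3 i
    omega
  · intro B hB
    rw [mem_coe, mem_powersetCard] at hB
    set e := B.orderEmbOfFin hB.2 with he
    have hes : StrictMono fun i : Fin r => e i := fun i j h => by
      simpa using h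
    have hmem : ∀ i, e i ∈ B := fun i => by
      rw [he]
      exact orderEmbOfFin_mem B hB.2 i
    have hlt : ∀ i, e i < r + M := fun i => mem_range.1 (hB.1 (hmem i))
    have hle : ∀ i : Fin r, (i : ℕ) ≤ e i := by
      intro i
      have := t23_step hes ⟨0, by omega⟩ i (Fin.mk_le_of_le_val (Nat.zero_le _))
      simp only at this
      omega
    refine ⟨fun i => e i - i, ?_, ?_⟩
    · rw [mem_coe, mem_box]
      constructor
      · intro i j hij
        have h1 := t23_step hes i j hij
        have h2 := hle i
        have h3 := hle j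
        have h4 : (i : ℕ) ≤ j := hij
        simp only at h1 ⊢
        omega
      · intro i
        have h1 := t23_step hes i ⟨r - 1, by omega⟩ (Fin.mk_le_of_le_val (by
          have := i.2
          simp only
          omega))
        have h2 := hlt ⟨r - 1, by omega⟩
        have h3 := hle i
        have h4 := i.2
        simp only at h1 ⊢
        omega
    · have h1 : bs (fun i : Fin r => e i - (i : ℕ)) = univ.image fun i : Fin r => e i := by
        rw [bs]
        refine image_congr fun i _ => ?_
        have := hle i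
        omega
      rw [h1]
      apply Finset.coe_injective
      rw [coe_image, coe_univ, Set.image_univ, he]
      exact range_orderEmbOfFin B hB.2

lemma t23_arm_leg (B : Finset ℕ) (g b : ℕ) : arm B g b + leg B g b = b - g - 1 := by
  rw [arm, leg, card_sdiff_add_card_inter, Nat.card_Ioo]

/-- number of the `r`-subsets with given pattern and leg -/
lemma t23_count {n r g b j : ℕ} (hgb : g < b) (hb : b < n) (hj : j + 1 ≤ r) :
    ((powersetCard r (range n)).filter fun B => b ∈ B ∧ g ∉ B ∧ leg B g b = j).card =
      (b - g - 1).choose j * (n - (b - g) - 1).choose (r - 1 - j) := by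
  classical
  have hO : (range n \ Icc g b).card = n - (b - g) - 1 := by
    rw [card_sdiff_of_subset, card_range, Nat.card_Icc]
    · omega
    · intro x hx
      rw [mem_Icc] at hx
      rw [mem_range]
      omega
  have hI : (Ioo g b).card = b - g - 1 := Nat.card_Ioo g b
  rw [← hO, ← hI, ← card_powersetCard, ← card_powersetCard, ← card_product]
  refine card_nbij' (fun B => (Ioo g b ∩ B, B \ Icc g b)) (fun P => insert b (P.1 ∪ P.2))
    ?_ ?_ ?_ ?_
  · intro B hB
    rw [mem_coe, mem_filter, mem_powersetCard] at hB
    obtain ⟨⟨hB1, hB2⟩, hbB, hgB, hleg⟩ := hB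
    rw [mem_coe, mem_product, mem_powersetCard, mem_powersetCard]
    refine ⟨⟨inter_subset_left, hleg⟩, sdiff_subset_sdiff hB1 (Subset.refl _), ?_⟩
    have h1 : B = insert b ((Ioo g b ∩ B) ∪ (B \ Icc g b)) := by
      ext x
      simp only [mem_insert, mem_union, mem_inter, mem_Ioo, mem_sdiff, mem_Icc]
      constructor
      · intro hx
        by_cases hxb : x = b
        · exact Or.inl hxb
        · right
          by_cases h2 : g < x ∧ x < b
          · exact Or.inl ⟨h2, hx⟩
          · right
            refine ⟨hx, fun h3 => ?_⟩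
            have h4 : x ≠ g := fun h5 => hgB (h5 ▸ hx)
            omega
      · rintro (hx | hx | hx)
        · exact hx ▸ hbB
        · exact hx.2
        · exact hx.1
    have h2 : b ∉ (Ioo g b ∩ B) ∪ (B \ Icc g b) := by
      simp only [mem_union, mem_inter, mem_Ioo, mem_sdiff, mem_Icc]
      omega
    have h3 : Disjoint (Ioo g b ∩ B) (B \ Icc g b) := by
      rw [disjoint_left]
      intro x hx hx'
      simp only [mem_inter, mem_Ioo, mem_sdiff, mem_Icc] at hx hx'
      omega
    have h4 := congrArg card h1
    rw [card_insert_of_notMem h2, card_union_of_disjoint h3, hB2] at h4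
    have h5 : (Ioo g b ∩ B).card = j := hleg
    simp only
    omega
  · rintro ⟨P, Q⟩ hPQ
    rw [mem_coe, mem_product, mem_powersetCard, mem_powersetCard] at hPQ
    obtain ⟨⟨hP1, hP2⟩, hQ1, hQ2⟩ := hPQ
    simp only at hP1 hP2 hQ1 hQ2
    have hPI : ∀ x ∈ P, g < x ∧ x < b := fun x hx => mem_Ioo.1 (hP1 hx)
    have hQO : ∀ x ∈ Q, x < n ∧ ¬(g ≤ x ∧ x ≤ b) := fun x hx => by
      have := hQ1 hx
      rw [mem_sdiff, mem_range, mem_Icc] at this
      exact this
    rw [mem_coe, mem_filter, mem_powersetCard]
    have h2 : b ∉ P ∪ Q := by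
      rw [mem_union]
      rintro (h | h)
      · have := hPI b h
        omega
      · have := hQO b h
        omega
    have h3 : Disjoint P Q := by
      rw [disjoint_left]
      intro x hx hx'
      have h4 := hPI x hx
      have h5 := hQO x hx'
      omega
    refine ⟨⟨?_, ?_⟩, mem_insert_self _ _, ?_, ?_⟩
    · intro x hx
      rw [mem_insert, mem_union] at hx
      rw [mem_range]
      rcases hx with hx | hx | hx
      · omega
      · have := hPI x hx
        omega
      · exact (hQO x hx).1
    · rw [card_insert_of_notMem h2, card_union_of_disjoint h3, hP2, hQ2]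
      omega
    · rw [mem_insert, mem_union]
      rintro (h | h | h)
      · omega
      · have := hPI g h
        omega
      · have := hQO g h
        omega
    · rw [leg, ← hP2]
      congr 1
      ext x
      rw [mem_inter, mem_Ioo, mem_insert, mem_union]
      constructor
      · rintro ⟨h4, h5 | h5 | h5⟩
        · omega
        · exact h5
        · have := hQO x h5
          omega
      · intro h4
        exact ⟨hPI x h4, Or.inr (Or.inl h4)⟩
  · intro B hB
    rw [mem_coe, mem_filter, mem_powersetCard] at hB
    obtain ⟨⟨hB1, hB2⟩, hbB, hgB, hleg⟩ := hB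
    ext x
    simp only [mem_insert, mem_union, mem_inter, mem_Ioo, mem_sdiff, mem_Icc]
    constructor
    · rintro (hx | hx | hx)
      · exact hx ▸ hbB
      · exact hx.2
      · exact hx.1
    · intro hx
      by_cases hxb : x = b
      · exact Or.inl hxb
      · right
        by_cases h2 : g < x ∧ x < b
        · exact Or.inl ⟨h2, hx⟩
        · right
          refine ⟨hx, fun h3 => ?_⟩
          have h4 : x ≠ g := fun h5 => hgB (h5 ▸ hx)
          omega
  · rintro ⟨P, Q⟩ hPQ
    rw [mem_coe, mem_product, mem_powersetCard, mem_powersetCard] at hPQ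
    obtain ⟨⟨hP1, hP2⟩, hQ1, hQ2⟩ := hPQ
    simp only at hP1 hP2 hQ1 hQ2
    have hPI : ∀ x ∈ P, g < x ∧ x < b := fun x hx => mem_Ioo.1 (hP1 hx)
    have hQO : ∀ x ∈ Q, x < n ∧ ¬(g ≤ x ∧ x ≤ b) := fun x hx => by
      have := hQ1 hx
      rw [mem_sdiff, mem_range, mem_Icc] at this
      exact this
    simp only [Prod.mk.injEq]
    constructor
    · ext x
      rw [mem_inter, mem_Ioo, mem_insert, mem_union]
      constructor
      · rintro ⟨h4, h5 | h5 | h5⟩
        · omega
        · exact h5
        · have := hQO x h5
          omega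
      · intro h4
        exact ⟨hPI x h4, Or.inr (Or.inl h4)⟩
    · ext x
      rw [mem_sdiff, mem_Icc, mem_insert, mem_union]
      constructor
      · rintro ⟨h4 | h4 | h4, h5⟩
        · omega
        · have := hPI x h4
          omega
        · exact h4
      · intro h4
        exact ⟨Or.inr (Or.inr h4), (hQO x h4).2⟩

/-- the binomial identity -/
lemma t23_choose {k μ : ℕ} (hk : 1 ≤ k) :
    ((μ + 1) * k - 1).choose k = μ * ((μ + 1) * k - 1).choose (k - 1) := by
  obtain ⟨m, rfl⟩ : ∃ m, k = m + 1 := ⟨k - 1, by omega⟩
  have h1 := Nat.choose_succ_right_eq ((μ + 1) * (m + 1) - 1) m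
  have h2 : (μ + 1) * (m + 1) - 1 - m = μ * (m + 1) := by
    have : (μ + 1) * (m + 1) = μ * (m + 1) + (m + 1) := by ring
    omega
  rw [h2] at h1
  rw [Nat.add_sub_cancel]
  have h3 : ((μ + 1) * (m + 1) - 1).choose (m + 1) * (m + 1) =
      (μ * ((μ + 1) * (m + 1) - 1).choose m) * (m + 1) := by
    rw [h1]
    ring
  exact Nat.eq_of_mul_eq_mul_right (Nat.succ_pos m) h3

/-- exchange of the summations -/
lemma t23_exchange (n r : ℕ) (p : Finset ℕ → ℕ → ℕ → Prop) [∀ B g b, Decidable (p B g b)] :
    ∑ B ∈ powersetCard r (range n), ∑ b ∈ B, ((range b \ B).filter fun g => p B g b).card =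
      ∑ b ∈ range n, ∑ g ∈ range b,
        ((powersetCard r (range n)).filter fun B => b ∈ B ∧ g ∉ B ∧ p B g b).card := by
  classical
  have h1 : ∀ B ∈ powersetCard r (range n),
      ∑ b ∈ B, ((range b \ B).filter fun g => p B g b).card =
        ∑ b ∈ range n, ∑ g ∈ range b, if b ∈ B ∧ g ∉ B ∧ p B g b then 1 else 0 := by
    intro B hB
    rw [mem_powersetCard] at hB
    have h2 : ∑ b ∈ range n, ∑ g ∈ range b, (if b ∈ B ∧ g ∉ B ∧ p B g b then 1 else 0) =
        ∑ b ∈ B, ∑ g ∈ range b, (if b ∈ B ∧ g ∉ B ∧ p B g b then 1 else 0) := by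
      symm
      refine sum_subset hB.1 fun b _ hb => ?_
      refine sum_eq_zero fun g _ => ?_
      rw [if_neg fun h => hb h.1]
    rw [h2]
    refine sum_congr rfl fun b hb => ?_
    rw [card_filter, sdiff_eq_filter, sum_filter]
    refine sum_congr rfl fun g _ => ?_
    by_cases h3 : g ∈ B <;> by_cases h4 : p B g b <;> simp [h3, h4, hb]
  rw [sum_congr rfl h1, sum_comm]
  refine sum_congr rfl fun b _ => ?_
  rw [sum_comm]
  refine sum_congr rfl fun g _ => ?_
  rw [card_filter]

lemma t23_pair {r μ g b : ℕ} (hgb : g < b) (hb : b < r + r * μ) :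
    ((powersetCard r (range (r + r * μ))).filter fun B =>
        b ∈ B ∧ g ∉ B ∧ arm B g b = μ * (leg B g b + 1)).card =
      ((powersetCard r (range (r + r * μ))).filter fun B =>
        b ∈ B ∧ g ∉ B ∧ arm B g b + 1 = μ * leg B g b).card := by
  classical
  have hN : r + r * μ = (μ + 1) * r := by ring
  by_cases hd : (μ + 1) ∣ (b - g)
  · obtain ⟨k, hk⟩ := hd
    have hk1 : 1 ≤ k := by
      rcases Nat.eq_zero_or_pos k with h | h
      · rw [h, mul_zero] at hk
        omega
      · exact h
    have hkr : k < r := by
      have h1 : (μ + 1) * k < (μ + 1) * r := by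
        rw [← hk, ← hN]
        omega
      exact Nat.lt_of_mul_lt_mul_left h1
    have e1 : ((powersetCard r (range (r + r * μ))).filter fun B =>
        b ∈ B ∧ g ∉ B ∧ arm B g b = μ * (leg B g b + 1)) =
        (powersetCard r (range (r + r * μ))).filter fun B =>
          b ∈ B ∧ g ∉ B ∧ leg B g b = k - 1 := by
      refine filter_congr fun B _ => ?_
      have h1 := t23_arm_leg B g b
      have h2 : arm B g b = μ * (leg B g b + 1) ↔ leg B g b = k - 1 := by
        constructor
        · intro h3
          have h4 : (μ + 1) * (leg B g b + 1) = (μ + 1) * k := by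
            rw [← hk]
            have : (μ + 1) * (leg B g b + 1) = μ * (leg B g b + 1) + leg B g b + 1 := by ring
            omega
          have h5 := Nat.eq_of_mul_eq_mul_left (Nat.succ_pos μ) h4
          omega
        · intro h3
          have h4 : k = leg B g b + 1 := by omega
          rw [h4] at hk
          have : (μ + 1) * (leg B g b + 1) = μ * (leg B g b + 1) + leg B g b + 1 := by ring
          omega
      rw [h2]
    have e2 : ((powersetCard r (range (r + r * μ))).filter fun B =>
        b ∈ B ∧ g ∉ B ∧ arm B g b + 1 = μ * leg B g b) =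
        (powersetCard r (range (r + r * μ))).filter fun B =>
          b ∈ B ∧ g ∉ B ∧ leg B g b = k := by
      refine filter_congr fun B _ => ?_
      have h1 := t23_arm_leg B g b
      have h2 : arm B g b + 1 = μ * leg B g b ↔ leg B g b = k := by
        constructor
        · intro h3
          have h4 : (μ + 1) * (leg B g b) = (μ + 1) * k := by
            rw [← hk]
            have : (μ + 1) * (leg B g b) = μ * (leg B g b) + leg B g b := by ring
            omega
          exact Nat.eq_of_mul_eq_mul_left (Nat.succ_pos μ) h4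
        · intro h3
          rw [← h3] at hk
          have : (μ + 1) * (leg B g b) = μ * (leg B g b) + leg B g b := by ring
          omega
      rw [h2]
    rw [e1, e2, t23_count hgb hb (by omega), t23_count hgb hb (by omega), hk, hN]
    have h3 : (μ + 1) * r - (μ + 1) * k - 1 = (μ + 1) * (r - k) - 1 := by
      rw [Nat.mul_sub]
    have h4 : r - 1 - (k - 1) = r - k := by omega
    have h5 : r - 1 - k = r - k - 1 := by omega
    rw [h3, h4, h5, t23_choose hk1, t23_choose (show 1 ≤ r - k by omega)]
    ring
  · have e1 : ((powersetCard r (range (r + r * μ))).filter fun B =>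
        b ∈ B ∧ g ∉ B ∧ arm B g b = μ * (leg B g b + 1)) = ∅ := by
      refine filter_false_of_mem fun B _ h => ?_
      apply hd
      have h1 := t23_arm_leg B g b
      refine ⟨leg B g b + 1, ?_⟩
      have h2 : (μ + 1) * (leg B g b + 1) = μ * (leg B g b + 1) + leg B g b + 1 := by ring
      have h3 := h.2.2
      omega
    have e2 : ((powersetCard r (range (r + r * μ))).filter fun B =>
        b ∈ B ∧ g ∉ B ∧ arm B g b + 1 = μ * leg B g b) = ∅ := by
      refine filter_false_of_mem fun B _ h => ?_
      apply hd
      have h1 := t23_arm_leg B g b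
      refine ⟨leg B g b, ?_⟩
      have h2 : (μ + 1) * (leg B g b) = μ * (leg B g b) + leg B g b := by ring
      have h3 := h.2.2
      omega
    rw [e1, e2]

theorem order_sum (r μ : ℕ) (hr : 1 ≤ r) (hμ : 1 ≤ μ) :
    ∑ l ∈ box r (r * μ), (rm μ (bn (X : ℚ[X]) (bs l)) +
        rm μ (br (X : ℚ[X]) (-((r * μ : ℕ) : ℚ[X])) l)) =
      ∑ l ∈ box r (r * μ), (rm μ (bd (X : ℚ[X]) (bs l)) +
        rm μ (br (X : ℚ[X]) (-((r : ℚ[X]) * X)) l)) := by
  rw [sum_add_distrib, sum_add_distrib]
  congr 1
  · simp only [rm_bn hμ, rm_bd hμ]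
    rw [t23_sum_box hr (fun B => ∑ b ∈ B,
        ((range b \ B).filter fun g => arm B g b = μ * (leg B g b + 1)).card),
      t23_sum_box hr (fun B => ∑ b ∈ B,
        ((range b \ B).filter fun g => arm B g b + 1 = μ * leg B g b).card),
      t23_exchange _ _ (fun B g b => arm B g b = μ * (leg B g b + 1)),
      t23_exchange _ _ (fun B g b => arm B g b + 1 = μ * leg B g b)]
    refine sum_congr rfl fun b hb => ?_
    refine sum_congr rfl fun g hg => ?_
    exact t23_pair (mem_range.1 hg) (mem_range.1 hb)
  · refine sum_congr rfl fun l hl => ?_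
    rw [rm_br_L hμ hl, rm_br hμ l]

end Helper87.TR
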