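import Mathlib
import Pool.Agent.Helper87.TR.St.T14
import Pool.Agent.Helper87.TR.St.T16

/-!
# TR-15: the form `JJ n` is diagonal on the Jack polynomials in low degree

`JJ_jk`: put `φ = JJ n (jk n l)`. By `KK_JJ` and `GG_jk`, `KK n φ = br n (-rn) l • jk n l`. For `k ∈ part r M`, `M < n`,
`jack_main` gives `cm k (KK n φ) = ∑_{l' ∈ part r M} bb n l' φ(jk n l') cm k (jk n l')`. The `jk n l'` are linearly
independent (`jk_coord`, or triangularity), so `bb n l' φ(jk n l') = br n (-rn) l` if `l' = l` and `0` otherwise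
(also if `M ≠ N`: then `cm k (jk n l) = 0` for `k ∈ part r M`). `bb ≠ 0` by T11.
`KK_inj_low`: if `KK n δ = 0` then `δ` vanishes on homogeneous polynomials of degree `< n`, by the same argument.
`JJ_low`: `JJ n (ee (k+1) * f) g = JJ n f (nab n (k+1) g)` for `f` of degree `N`, `N + k + 1 < n`, `g` homogeneous of degree
`< n`: the functional `δ = JJ n (ee (k+1) * f) - (JJ n f) ∘ nab n (k+1)` satisfies `KK n δ = 0` by `KK_JJ`, `GG_ee`, `KK_nab`.
-/

set_option autoImplicit false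

open MvPolynomial Finset

namespace Helper87.TR

variable {r n N : ℕ}

lemma t15_bb_ne {M : ℕ} (hM : M < n) {l : Fin r → ℕ} (hl : l ∈ part r M) :
    bb (n : ℚ) l ≠ 0 := by
  obtain ⟨h1, h2⟩ := mem_part.1 hl
  rw [← h2] at hM
  rw [bb]
  exact div_ne_zero (bn_ne_zero n l h1 hM) (bd_ne_zero n l h1 hM)

lemma t15_hc_KK {M : ℕ} (hM : M < n) (φ : Lam r ℚ →ₗ[ℚ] ℚ) :
    hc M (KK n φ) = ∑ l ∈ part r M, (bb (n : ℚ) l * φ (jk (n : ℚ) l)) • jk (n : ℚ) l := by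
  apply ext_cm
  intro k hk
  rw [cm_hc _ hk, cm_sum]
  simp_rw [cm_smul]
  by_cases h : ∑ i, k i = M
  · rw [if_pos h]
    exact (jack_main r n M hM).2 φ k (mem_part.2 ⟨hk, h⟩)
  · rw [if_neg h]
    symm
    refine sum_eq_zero fun l hl => ?_
    rw [cm_eq_zero_of_Hg (jk_Hg hM hl) h, mul_zero]

lemma t15_coord {M : ℕ} (hM : M < n) (φ : Lam r ℚ →ₗ[ℚ] ℚ)
    (co : (Fin r → ℕ) → Lam r ℚ →ₗ[ℚ] ℚ)
    (hco : ∀ l ∈ part r M, ∀ l' ∈ part r M, co l (jk (n : ℚ) l') = if l = l' then 1 else 0)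
    {l : Fin r → ℕ} (hl : l ∈ part r M) :
    co l (hc M (KK n φ)) = bb (n : ℚ) l * φ (jk (n : ℚ) l) := by
  rw [t15_hc_KK hM, map_sum, sum_eq_single_of_mem l hl]
  · rw [map_smul, hco l hl l hl, if_pos rfl, smul_eq_mul, mul_one]
  · intro l' hl' hne
    rw [map_smul, hco l hl l' hl', if_neg (Ne.symm hne), smul_zero]

theorem JJ_jk {M : ℕ} (hN : N < n) (hM : M < n) {l l' : Fin r → ℕ} (hl : l ∈ part r N)
    (hl' : l' ∈ part r M) : JJ (n : ℚ) (jk (n : ℚ) l) (jk (n : ℚ) l') =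
      if l = l' then br (n : ℚ) (-((r : ℚ) * n)) l / bb (n : ℚ) l else 0 := by
  obtain ⟨co, -, hco, -⟩ := jk_coord (r := r) hM
  have h1 := t15_coord hM (JJ (n : ℚ) (jk (n : ℚ) l)) co hco hl'
  rw [KK_JJ, GG_jk _ hN hl, map_smul, map_smul, smul_eq_mul] at h1
  have hb := t15_bb_ne hM hl'
  by_cases hll : l = l'
  · subst hll
    have hMN : M = N := by
      rw [← (mem_part.1 hl).2, ← (mem_part.1 hl').2]
    subst hMN
    rw [hc_of_Hg (jk_Hg hM hl), hco l hl l hl, if_pos rfl, mul_one] at h1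
    rw [if_pos rfl, eq_div_iff hb, mul_comm]
    exact h1.symm
  · rw [if_neg hll]
    have h2 : co l' (hc M (jk (n : ℚ) l)) = 0 := by
      by_cases hMN : N = M
      · subst hMN
        rw [hc_of_Hg (jk_Hg hM hl), hco l' hl' l hl, if_neg (Ne.symm hll)]
      · rw [hc_of_Hg_ne (jk_Hg hN hl) hMN, map_zero]
    rw [h2, mul_zero] at h1
    rcases mul_eq_zero.1 h1.symm with h3 | h3
    · exact absurd h3 hb
    · exact h3

theorem KK_inj_low {δ : Lam r ℚ →ₗ[ℚ] ℚ} (h : KK n δ = 0) (hN : N < n) {g : Lam r ℚ}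
    (hg : Hg N g) : δ g = 0 := by
  obtain ⟨co, hexp, hco, -⟩ := jk_coord (r := r) hN
  rw [hexp g hg, map_sum]
  refine sum_eq_zero fun l hl => ?_
  have h1 := t15_coord hN δ co hco hl
  rw [h, map_zero, map_zero] at h1
  rcases mul_eq_zero.1 h1.symm with h3 | h3
  · exact absurd h3 (t15_bb_ne hN hl)
  · rw [map_smul, h3, smul_zero]

theorem JJ_low {M : ℕ} (k : ℕ) (hk : k < r) (hN : N + (k + 1) < n) (hM : M < n) {f g : Lam r ℚ}
    (hf : Hg N f) (hg : Hg M g) :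
    JJ (n : ℚ) (ee r ℚ (k + 1) * f) g = JJ (n : ℚ) f (nab (n : ℚ) (k + 1) g) := by
  have h1 : KK n (JJ (n : ℚ) (ee r ℚ (k + 1) * f) +
      (-1 : ℚ) • (JJ (n : ℚ) f ∘ₗ nab (n : ℚ) (k + 1))) = 0 := by
    rw [KK_add, KK_smul, KK_nab, KK_JJ, KK_JJ, GG_ee _ k hk hN hf, neg_one_smul, add_neg_cancel]
  have h2 := KK_inj_low h1 hM hg
  rw [LinearMap.add_apply, LinearMap.smul_apply, LinearMap.comp_apply, neg_one_smul] at h2
  exact eq_of_sub_eq_zero (by rw [sub_eq_add_neg]; exact h2)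

end Helper87.TR
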