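import Mathlib
import Pool.Agent.Helper87.TR.St.T15

/-!
# TR-19: Gram determinants on a box

For `l` in the index set let `jk n l = ∑_a P_{a l} mm a`, `P_{a l} = cm a (jk n l)`. The matrix `P` (rows `a`,
columns `l`) is unitriangular for the order by `sq`, so `det P = 1`.
* `det_unitri`: for example by `Matrix.BlockTriangular` with `b a = sq a` and `Matrix.BlockTriangular.det` (each diagonal
  block is an identity matrix: for `sq a = sq l`, `P a l ≠ 0` only for `a = l`), or directly with `Matrix.det_apply`: a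
  permutation `σ` with all `P (σ l) l ≠ 0` satisfies `sq (σ l) ≤ sq l` and the sums over all `l` are equal, so
  `sq (σ l) = sq l` and `σ l = l`.
* `det_JJ`: by `jk_Bx`, for `l ∈ box r M` only `a ∈ box r M` occur. `Pᵀ J P = diag (br l / bb l)` by `JJ_jk` (the degrees are
  `≤ r M < n`), where `J` is the matrix of the statement. `bb l = bn / bd`, `bn, bd ≠ 0` by T11b.
-/

set_option autoImplicit false

open MvPolynomial Finset

namespace Helper87.TR

variable {r : ℕ}

theorem det_unitri (I : Finset (Fin r → ℕ)) (P : (Fin r → ℕ) → (Fin r → ℕ) → ℚ)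
    (h1 : ∀ l ∈ I, P l l = 1) (h2 : ∀ a ∈ I, ∀ l ∈ I, P a l ≠ 0 → a = l ∨ sq a < sq l) :
    (Matrix.of fun a l : I => P a l).det = 1 := by
  classical
  rw [Matrix.det_apply', Finset.sum_eq_single 1]
  · rw [Equiv.Perm.sign_one, Units.val_one, Int.cast_one, one_mul]
    exact prod_eq_one fun l _ => h1 l l.2
  · intro σ _ hσ
    by_contra h
    have h3 : ∀ l : I, P (σ l) l ≠ 0 := fun l =>
      (Finset.prod_ne_zero_iff.1 (right_ne_zero_of_mul h)) l (mem_univ l)
    have h4 : ∀ l : I, sq (σ l : Fin r → ℕ) ≤ sq (l : Fin r → ℕ) := fun l => by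
      rcases h2 _ (σ l).2 _ l.2 (h3 l) with h5 | h5
      · exact le_of_eq (congrArg sq h5)
      · exact h5.le
    apply hσ
    ext1 l
    by_contra h5
    have h6 : sq (σ l : Fin r → ℕ) < sq (l : Fin r → ℕ) := by
      rcases h2 _ (σ l).2 _ l.2 (h3 l) with h7 | h7
      · exact absurd (Subtype.ext h7) h5
      · exact h7
    have h8 := Finset.sum_lt_sum (s := univ) (fun l _ => h4 l) ⟨l, mem_univ l, h6⟩
    rw [Equiv.sum_comp σ (fun l : I => sq (l : Fin r → ℕ))] at h8
    exact lt_irrefl _ h8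
  · intro h
    exact absurd (mem_univ _) h

lemma t19_sum_le {M n : ℕ} (h : r * M < n) {l : Fin r → ℕ} (hl : l ∈ box r M) :
    ∑ i, l i < n := by
  refine lt_of_le_of_lt (sum_le_sum fun i _ => (mem_box.1 hl).2 i) ?_
  simpa using h

lemma t19_part {M : ℕ} {l : Fin r → ℕ} (hl : l ∈ box r M) : l ∈ part r (∑ i, l i) :=
  mem_part.2 ⟨(mem_box.1 hl).1, rfl⟩

/-- the coefficients of the Jack polynomials in the box -/
noncomputable def t19_P (r M n : ℕ) : Matrix (box r M) (box r M) ℚ :=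
  Matrix.of fun a l => cm (a : Fin r → ℕ) (jk (n : ℚ) (l : Fin r → ℕ))

lemma t19_detP {M n : ℕ} (h : r * M < n) : (t19_P r M n).det = 1 := by
  refine det_unitri (box r M) (fun a l => cm a (jk (n : ℚ) l))
    (fun l hl => (jk_isJack (t19_sum_le h hl) (t19_part hl)).lead) ?_
  intro a ha l hl h1
  rcases (jk_isJack (t19_sum_le h hl) (t19_part hl)).lower a (mem_box.1 ha).1 h1 with h2 | h2
  · exact Or.inl h2
  · exact Or.inr h2.2

lemma t19_jk {M n : ℕ} (h : r * M < n) (l : box r M) : jk (n : ℚ) (l : Fin r → ℕ) =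
    ∑ a : box r M, cm (a : Fin r → ℕ) (jk (n : ℚ) (l : Fin r → ℕ)) • mm ℚ (a : Fin r → ℕ) := by
  rw [Finset.sum_coe_sort (box r M) (fun a => cm a (jk (n : ℚ) (l : Fin r → ℕ)) • mm ℚ a)]
  exact eq_sum_of_Bx (jk_Bx (t19_sum_le h l.2) (t19_part l.2) (mem_box.1 l.2).2)

lemma t19_J {M n : ℕ} (h : r * M < n) :
    (t19_P r M n).transpose *
      (Matrix.of fun a b : box r M => JJ (n : ℚ) (mm ℚ (a : Fin r → ℕ)) (mm ℚ (b : Fin r → ℕ))) *
      t19_P r M n =
    Matrix.diagonal (fun l : box r M =>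
      br (n : ℚ) (-((r : ℚ) * n)) (l : Fin r → ℕ) / bb (n : ℚ) (l : Fin r → ℕ)) := by
  ext l l'
  rw [Matrix.mul_apply]
  simp_rw [Matrix.mul_apply, sum_mul, Matrix.transpose_apply]
  have h1 := JJ_jk (t19_sum_le h l.2) (t19_sum_le h l'.2) (t19_part l.2) (t19_part l'.2)
  have h3 : JJ (n : ℚ) (jk (n : ℚ) (l : Fin r → ℕ)) (jk (n : ℚ) (l' : Fin r → ℕ)) =
      ∑ b : box r M, ∑ a : box r M, t19_P r M n a l *
        JJ (n : ℚ) (mm ℚ (a : Fin r → ℕ)) (mm ℚ (b : Fin r → ℕ)) * t19_P r M n b l' := by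
    conv_lhs => rw [t19_jk h l, t19_jk h l']
    rw [map_sum]
    refine sum_congr rfl fun b _ => ?_
    rw [map_sum, LinearMap.sum_apply]
    refine sum_congr rfl fun a _ => ?_
    rw [map_smul, map_smul, LinearMap.smul_apply, smul_eq_mul, smul_eq_mul]
    simp only [t19_P, Matrix.of_apply]
    ring
  simp only [Matrix.of_apply]
  rw [← h3, h1, Matrix.diagonal_apply]
  by_cases h4 : l = l'
  · rw [if_pos h4, if_pos (congrArg Subtype.val h4)]
  · rw [if_neg h4, if_neg (fun h5 => h4 (Subtype.ext h5))]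

theorem det_JJ (M n : ℕ) (h : r * M < n) :
    (Matrix.of fun a b : box r M => JJ (n : ℚ) (mm ℚ (a : Fin r → ℕ)) (mm ℚ (b : Fin r → ℕ))).det *
      ∏ l ∈ box r M, bn (n : ℚ) (bs l) =
    ∏ l ∈ box r M, (br (n : ℚ) (-((r : ℚ) * n)) l * bd (n : ℚ) (bs l)) := by
  have h1 := congrArg Matrix.det (t19_J (r := r) h)
  rw [Matrix.det_mul, Matrix.det_mul, Matrix.det_transpose, t19_detP h, one_mul, mul_one,
    Matrix.det_diagonal] at h1
  rw [h1, Finset.prod_coe_sort (box r M) (fun l =>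
    br (n : ℚ) (-((r : ℚ) * n)) l / bb (n : ℚ) l), ← prod_mul_distrib]
  refine prod_congr rfl fun l hl => ?_
  have h2 := bn_ne_zero n l (mem_box.1 hl).1 (t19_sum_le h hl)
  have h3 := bd_ne_zero n l (mem_box.1 hl).1 (t19_sum_le h hl)
  rw [bb]
  field_simp

end Helper87.TR
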