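import Mathlib
import Pool.Agent.Helper87.TR.St.T19

/-!
# TR-19b: the determinant of `XM`

Let `I = part r N`, `A = I ∩ box r L`, `P_{a l} = cm a (jk n l)` for `a, l ∈ I`, `G = GM`, `J = JM`. Then
`G P = P diag(br n (-L) l)` (`GG_jk`), `Pᵀ J P = diag(j_l)`, `j_l = br n (-rn) l / bb l ≠ 0` (`JJ_jk`, T11b), so `det J ≠ 0` and
`G J⁻¹ = P diag(br n (-L) l / j_l) Pᵀ`, `G adj(J) = det J • G J⁻¹`. Since
`br n (-L) l = 0` for `l ∉ box r L` (factor `i = r - 1`, `j = L`) and `P_{a l} = 0` for `l ∈ box`, `a ∉ box` (`jk_Bx`), the rows and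
columns outside `A` vanish, and on `A` the matrix is `det J • P_A diag(br n (-L) l / j_l) P_Aᵀ`, `det P_A = 1`
(`det_unitri`; reindex `A ⊆ I`). So `det XM = (det J)^|A| ∏_{l ∈ A} br n (-L) l bn l / (bd l br n (-rn) l)`.
-/

set_option autoImplicit false

open MvPolynomial Finset

namespace Helper87.TR

variable {r : ℕ}

/-- the matrix of `JJ c` in degree `N` -/
noncomputable def JM (r N : ℕ) (c : ℚ) : Matrix (part r N) (part r N) ℚ :=
  Matrix.of fun a b => JJ c (mm ℚ (a : Fin r → ℕ)) (mm ℚ (b : Fin r → ℕ))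

/-- the matrix of `GG c (-L)` in degree `N` -/
noncomputable def GM (r N L : ℕ) (c : ℚ) : Matrix (part r N) (part r N) ℚ :=
  Matrix.of fun a b => cm (a : Fin r → ℕ) (GG c (-(L : ℚ)) (mm ℚ (b : Fin r → ℕ)))

/-- the part of `GM * adj JM` in the box -/
noncomputable def XM (r N L : ℕ) (c : ℚ) :
    Matrix {a : part r N // (a : Fin r → ℕ) ∈ box r L} {a : part r N // (a : Fin r → ℕ) ∈ box r L} ℚ :=
  Matrix.of fun a b => (GM r N L c * (JM r N c).adjugate) a b

/-- the coefficients of the Jack polynomials -/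
noncomputable def t19b_P (r N n : ℕ) : Matrix (part r N) (part r N) ℚ :=
  Matrix.of fun a l => cm (a : Fin r → ℕ) (jk (n : ℚ) (l : Fin r → ℕ))

lemma t19b_tri {N n : ℕ} (h : N < n) : ∀ a ∈ part r N, ∀ l ∈ part r N,
    cm a (jk (n : ℚ) l) ≠ 0 → a = l ∨ sq a < sq l := by
  intro a ha l hl h1
  rcases (jk_isJack h hl).lower a (mem_part.1 ha).1 h1 with h2 | h2
  · exact Or.inl h2
  · exact Or.inr h2.2

lemma t19b_detP {N n : ℕ} (h : N < n) : (t19b_P r N n).det = 1 :=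
  det_unitri (part r N) (fun a l => cm a (jk (n : ℚ) l)) (fun _ hl => (jk_isJack h hl).lead)
    (t19b_tri h)

/-- the index set of `XM` -/
def t19b_e (r N L : ℕ) : {a : part r N // (a : Fin r → ℕ) ∈ box r L} ≃
    ↥((part r N).filter (· ∈ box r L)) where
  toFun x := ⟨x.1.1, mem_filter.2 ⟨x.1.2, x.2⟩⟩
  invFun y := ⟨⟨y.1, (mem_filter.1 y.2).1⟩, (mem_filter.1 y.2).2⟩
  left_inv _ := rfl
  right_inv _ := rfl

/-- the coefficients of the Jack polynomials in the box -/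
noncomputable def t19b_PA (r N L n : ℕ) :
    Matrix {a : part r N // (a : Fin r → ℕ) ∈ box r L} {a : part r N // (a : Fin r → ℕ) ∈ box r L} ℚ :=
  Matrix.of fun a l => cm (a.1 : Fin r → ℕ) (jk (n : ℚ) (l.1 : Fin r → ℕ))

lemma t19b_detPA {N n : ℕ} (L : ℕ) (h : N < n) : (t19b_PA r N L n).det = 1 := by
  have h1 := det_unitri ((part r N).filter (· ∈ box r L)) (fun a l => cm a (jk (n : ℚ) l))
    (fun l hl => (jk_isJack h (mem_filter.1 hl).1).lead)
    (fun a ha l hl => t19b_tri h a (mem_filter.1 ha).1 l (mem_filter.1 hl).1)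
  rw [← h1, ← Matrix.det_submatrix_equiv_self (t19b_e r N L)]
  rfl

lemma t19b_jk {N n : ℕ} (h : N < n) (l : part r N) : jk (n : ℚ) (l : Fin r → ℕ) =
    ∑ a : part r N, cm (a : Fin r → ℕ) (jk (n : ℚ) (l : Fin r → ℕ)) • mm ℚ (a : Fin r → ℕ) := by
  rw [Finset.sum_coe_sort (part r N) (fun a => cm a (jk (n : ℚ) (l : Fin r → ℕ)) • mm ℚ a)]
  exact eq_sum_of_Hg (jk_Hg h l.2)

lemma t19b_G {N n : ℕ} (L : ℕ) (h : N < n) : GM r N L n * t19b_P r N n =
    t19b_P r N n * Matrix.diagonal (fun l : part r N => br (n : ℚ) (-(L : ℚ)) (l : Fin r → ℕ)) := by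
  ext a l
  rw [Matrix.mul_diagonal, Matrix.mul_apply]
  have h1 := GG_jk (-(L : ℚ)) h l.2
  have h2 := congrArg (cm (a : Fin r → ℕ)) h1
  rw [cm_smul] at h2
  have h3 : cm (a : Fin r → ℕ) (GG (n : ℚ) (-(L : ℚ)) (jk (n : ℚ) (l : Fin r → ℕ))) =
      ∑ b : part r N, cm (b : Fin r → ℕ) (jk (n : ℚ) (l : Fin r → ℕ)) *
        cm (a : Fin r → ℕ) (GG (n : ℚ) (-(L : ℚ)) (mm ℚ (b : Fin r → ℕ))) := by
    conv_lhs => rw [t19b_jk h l]
    rw [map_sum, cm_sum]
    refine sum_congr rfl fun b _ => ?_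
    rw [map_smul, cm_smul]
  rw [h3] at h2
  simp only [t19b_P, GM, Matrix.of_apply]
  rw [mul_comm (cm (a : Fin r → ℕ) (jk (n : ℚ) (l : Fin r → ℕ))), ← h2]
  exact sum_congr rfl fun b _ => mul_comm _ _

lemma t19b_J {N n : ℕ} (h : N < n) : (t19b_P r N n).transpose * JM r N n * t19b_P r N n =
    Matrix.diagonal (fun l : part r N =>
      br (n : ℚ) (-((r : ℚ) * n)) (l : Fin r → ℕ) / bb (n : ℚ) (l : Fin r → ℕ)) := by
  ext l l'
  rw [Matrix.mul_apply]
  simp_rw [Matrix.mul_apply, sum_mul, Matrix.transpose_apply]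
  have h1 := JJ_jk h h l.2 l'.2
  have h3 : JJ (n : ℚ) (jk (n : ℚ) (l : Fin r → ℕ)) (jk (n : ℚ) (l' : Fin r → ℕ)) =
      ∑ b : part r N, ∑ a : part r N, t19b_P r N n a l * JM r N n a b * t19b_P r N n b l' := by
    conv_lhs => rw [t19b_jk h l, t19b_jk h l']
    rw [map_sum]
    refine sum_congr rfl fun b _ => ?_
    rw [map_sum, LinearMap.sum_apply]
    refine sum_congr rfl fun a _ => ?_
    rw [map_smul, map_smul, LinearMap.smul_apply, smul_eq_mul, smul_eq_mul]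
    simp only [t19b_P, JM, Matrix.of_apply]
    ring
  rw [← h3, h1, Matrix.diagonal_apply]
  by_cases h4 : l = l'
  · rw [if_pos h4, if_pos (congrArg Subtype.val h4)]
  · rw [if_neg h4, if_neg (fun h5 => h4 (Subtype.ext h5))]

lemma t19b_br_zero (hr : 1 ≤ r) {N L : ℕ} (c : ℚ) {l : Fin r → ℕ} (hl : l ∈ part r N)
    (h : l ∉ box r L) : br c (-(L : ℚ)) l = 0 := by
  rw [mem_box, not_and] at h
  have h1 := h (mem_part.1 hl).1
  push Not at h1
  obtain ⟨i, hi⟩ := h1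
  have hlast : r - 1 < r := by omega
  rw [br]
  refine prod_eq_zero (mem_univ (⟨r - 1, hlast⟩ : Fin r)) ?_
  refine prod_eq_zero (i := L) ?_ ?_
  · rw [mem_range]
    refine lt_of_lt_of_le hi ((mem_part.1 hl).1 ?_)
    rw [Fin.le_def]
    have := i.2
    simp only
    omega
  · simp

lemma t19b_inv {N n : ℕ} (L : ℕ) (h : N < n) (j : part r N → ℚ) (hj : ∀ l, j l ≠ 0)
    (hJ : (t19b_P r N n).transpose * JM r N n * t19b_P r N n = Matrix.diagonal j) :
    GM r N L n * (JM r N n).adjugate = (JM r N n).det • (t19b_P r N n *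
      Matrix.diagonal (fun l : part r N => br (n : ℚ) (-(L : ℚ)) (l : Fin r → ℕ) * (j l)⁻¹) *
        (t19b_P r N n).transpose) := by
  set P := t19b_P r N n
  set J := JM r N n
  have h1 : (P.transpose * J) * (P * Matrix.diagonal (fun l => (j l)⁻¹)) = 1 := by
    rw [← Matrix.mul_assoc, hJ, Matrix.diagonal_mul_diagonal, ← Matrix.diagonal_one]
    congr 1
    funext l
    exact mul_inv_cancel₀ (hj l)
  have h2 := mul_eq_one_comm.1 h1
  have h3 : (P * Matrix.diagonal (fun l => (j l)⁻¹) * P.transpose) * J = 1 := by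
    rw [Matrix.mul_assoc]
    exact h2
  have h4 := mul_eq_one_comm.1 h3
  have h5 : J.adjugate = J.det • (P * Matrix.diagonal (fun l => (j l)⁻¹) * P.transpose) := by
    calc J.adjugate = J.adjugate * (J * (P * Matrix.diagonal (fun l => (j l)⁻¹) * P.transpose)) := by
          rw [h4, Matrix.mul_one]
      _ = (J.adjugate * J) * (P * Matrix.diagonal (fun l => (j l)⁻¹) * P.transpose) :=
          (Matrix.mul_assoc _ _ _).symm
      _ = _ := by
          rw [Matrix.adjugate_mul, Matrix.smul_mul, Matrix.one_mul]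
  rw [h5, Matrix.mul_smul, ← Matrix.mul_assoc, ← Matrix.mul_assoc, t19b_G L h,
    Matrix.mul_assoc P, Matrix.diagonal_mul_diagonal]

theorem det_XM (hr : 1 ≤ r) (N L n : ℕ) (h : N < n) :
    (XM r N L n).det *
      ∏ l ∈ (part r N).filter (· ∈ box r L), (bd (n : ℚ) (bs l) * br (n : ℚ) (-((r : ℚ) * n)) l) =
    (JM r N n).det ^ ((part r N).filter (· ∈ box r L)).card *
      ∏ l ∈ (part r N).filter (· ∈ box r L), (bn (n : ℚ) (bs l) * br (n : ℚ) (-(L : ℚ)) l) := by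
  classical
  set j : part r N → ℚ := fun l =>
    br (n : ℚ) (-((r : ℚ) * n)) (l : Fin r → ℕ) / bb (n : ℚ) (l : Fin r → ℕ) with hj
  have hl1 : ∀ l ∈ part r N, Monotone l := fun l hl => (mem_part.1 hl).1
  have hl2 : ∀ l ∈ part r N, ∑ i, l i < n := fun l hl => by
    rw [(mem_part.1 hl).2]; exact h
  have hbn : ∀ l ∈ part r N, bn (n : ℚ) (bs l) ≠ 0 := fun l hl =>
    bn_ne_zero n l (hl1 l hl) (hl2 l hl)
  have hbd : ∀ l ∈ part r N, bd (n : ℚ) (bs l) ≠ 0 := fun l hl =>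
    bd_ne_zero n l (hl1 l hl) (hl2 l hl)
  have hbr : ∀ l ∈ part r N, br (n : ℚ) (-((r : ℚ) * n)) l ≠ 0 := fun l hl =>
    br_ne_zero n l (hl2 l hl)
  have hj0 : ∀ l, j l ≠ 0 := fun l => by
    rw [hj]
    exact div_ne_zero (hbr l l.2) (div_ne_zero (hbn l l.2) (hbd l l.2))
  have h1 := t19b_inv L h j hj0 (t19b_J h)
  have h2 : XM r N L n = (JM r N n).det • (t19b_PA r N L n * Matrix.diagonal
      (fun l : {a : part r N // (a : Fin r → ℕ) ∈ box r L} =>
        br (n : ℚ) (-(L : ℚ)) (l.1 : Fin r → ℕ) * (j l.1)⁻¹) * (t19b_PA r N L n).transpose) := by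
    ext a b
    rw [XM, Matrix.of_apply, h1, Matrix.smul_apply, Matrix.smul_apply, Matrix.mul_apply,
      Matrix.mul_apply]
    congr 1
    rw [← Fintype.sum_subtype_add_sum_subtype (fun l : part r N => (l : Fin r → ℕ) ∈ box r L)]
    rw [add_eq_left.2]
    · refine sum_congr rfl fun l _ => ?_
      rw [Matrix.mul_diagonal, Matrix.mul_diagonal]
      rfl
    · refine sum_eq_zero fun l _ => ?_
      rw [Matrix.mul_diagonal, t19b_br_zero hr (n : ℚ) l.1.2 l.2]
      ring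
  have hcard : Fintype.card {a : part r N // (a : Fin r → ℕ) ∈ box r L} =
      ((part r N).filter (· ∈ box r L)).card := by
    rw [Fintype.card_congr (t19b_e r N L), Fintype.card_coe]
  rw [h2, Matrix.det_smul, Matrix.det_mul, Matrix.det_mul, Matrix.det_transpose, t19b_detPA L h,
    Matrix.det_diagonal, hcard, one_mul, mul_one, mul_assoc]
  congr 1
  have h3 : ∏ l : {a : part r N // (a : Fin r → ℕ) ∈ box r L},
      (br (n : ℚ) (-(L : ℚ)) (l.1 : Fin r → ℕ) * (j l.1)⁻¹) =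
      ∏ l ∈ (part r N).filter (· ∈ box r L), (br (n : ℚ) (-(L : ℚ)) l *
        (br (n : ℚ) (-((r : ℚ) * n)) l / bb (n : ℚ) l)⁻¹) := by
    rw [← Finset.prod_coe_sort ((part r N).filter (· ∈ box r L))]
    exact Fintype.prod_equiv (t19b_e r N L) _ _ fun l => rfl
  rw [h3, ← prod_mul_distrib]
  refine prod_congr rfl fun l hl => ?_
  have hl' := (mem_filter.1 hl).1
  have a1 := hbn l hl'
  have a2 := hbd l hl'
  have a3 := hbr l hl'
  rw [bb]
  field_simp

end Helper87.TR
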