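import Mathlib
import Pool.Agent.Helper87.TR.St.T15
import Pool.Agent.Helper87.TR.St.T17

/-!
# TR-18: adjointness for all parameters

For fixed `f, g` both sides of `JJ_ee` are polynomials in `c` (`PF_JJ`, `PF_nab`, `PF_const`); a polynomial over `ℚ` which
vanishes at all large natural numbers is `0`. For `c = n` large decompose `f` and `g` into homogeneous components
(`sum_hc`, `exists_Bx`) and use `JJ_low`. `JJ_Hg_ne`: for `c = n` large expand `f` and `g` in the `jk` (`jk_coord`) and
use `JJ_jk`; then the same polynomial argument. (State once: if `p.eval n = q.eval n` for all natural numbers `n ≥ n₀`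
then `p = q`.)
-/

set_option autoImplicit false

open MvPolynomial Finset

namespace Helper87.TR

variable {r : ℕ}

lemma t18_poly {p q : Polynomial ℚ} (n₀ : ℕ)
    (h : ∀ n : ℕ, n₀ < n → p.eval (n : ℚ) = q.eval (n : ℚ)) : p = q := by
  apply Polynomial.eq_of_infinite_eval_eq
  have h1 : Set.Infinite ((fun n : ℕ => (n : ℚ)) '' Set.Ioi n₀) :=
    (Set.Ioi_infinite n₀).image (Nat.cast_injective.injOn)
  refine h1.mono ?_
  rintro _ ⟨n, hn, rfl⟩
  exact h n hn

theorem JJ_ee (c : ℚ) (k : ℕ) (hk : k < r) (f g : Lam r ℚ) :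
    JJ c (ee r ℚ (k + 1) * f) g = JJ c f (nab c (k + 1) g) := by
  obtain ⟨p, hp⟩ := PF_JJ (ee r ℚ (k + 1) * f) (PF_const g)
  obtain ⟨q, hq⟩ := PF_JJ f (PF_nab (PF_const g) (k + 1))
  obtain ⟨A, hA⟩ := exists_Bx f
  obtain ⟨B, hB⟩ := exists_Bx g
  have h : p = q := by
    refine t18_poly (r * A + r * B + (k + 1)) fun n hn => ?_
    rw [← hp, ← hq]
    have hf := sum_hc hA
    have hg := sum_hc hB
    rw [hf, hg]
    simp only [mul_sum, map_sum, LinearMap.sum_apply]
    refine sum_congr rfl fun M hM => sum_congr rfl fun N hN => ?_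
    rw [mem_range] at hM hN
    exact JJ_low k hk (by omega) (by omega) (Hg_hc _ _) (Hg_hc _ _)
  rw [hp c, hq c, h]

theorem JJ_Hg_ne (c : ℚ) {M N : ℕ} (h : N ≠ M) {f g : Lam r ℚ} (hf : Hg N f) (hg : Hg M g) :
    JJ c f g = 0 := by
  obtain ⟨p, hp⟩ := PF_JJ f (PF_const g)
  have h0 : p = 0 := by
    refine t18_poly (M + N) fun n hn => ?_
    rw [← hp, Polynomial.eval_zero]
    obtain ⟨co, h1, -, -⟩ := jk_coord (r := r) (n := n) (N := N) (by omega)
    obtain ⟨co', h1', -, -⟩ := jk_coord (r := r) (n := n) (N := M) (by omega)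
    rw [h1 f hf, h1' g hg]
    simp only [map_sum, map_smul, LinearMap.sum_apply, LinearMap.smul_apply, smul_eq_mul]
    refine sum_eq_zero fun l hl => ?_
    rw [mul_eq_zero]
    right
    refine sum_eq_zero fun l' hl' => ?_
    rw [JJ_jk (N := N) (M := M) (by omega) (by omega) hl' hl, if_neg, mul_zero]
    rintro rfl
    exact h ((mem_part.1 hl').2.symm.trans (mem_part.1 hl).2)
  rw [hp c, h0, Polynomial.eval_zero]

end Helper87.TR
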