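import Mathlib

/-!
# TR-20: order of vanishing of a determinant

If the matrix `A` over `ℚ[X]` evaluated at `x` has a kernel of dimension at least `D`, then `(X - x)^D ∣ det A`.
Proof: choose a basis of `ι → ℚ` whose first `D` vectors are in the kernel, i.e. an invertible matrix `B` over `ℚ`
(columns = basis, indexed by `ι`) and a set `S` of `D` (or more) columns `s` with `A(x) B_s = 0`. Then the columns
`s ∈ S` of `A * B.map C` are divisible by `X - C x` (each entry vanishes at `x`), so `det (A * B)` is divisible by
`(X - C x)^|S|`, and `det (B.map C) = C (det B)` is a unit.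
The second statement is the same for row vectors (transpose).
-/

set_option autoImplicit false

open Finset Polynomial

namespace Helper87.TR

theorem pow_dvd_det {ι : Type*} [Fintype ι] [DecidableEq ι] (A : Matrix ι ι ℚ[X]) (x : ℚ) (D : ℕ)
    (h : D ≤ Module.finrank ℚ (LinearMap.ker (Matrix.toLin' (A.map (Polynomial.eval x))))) :
    (X - C x) ^ D ∣ A.det := by
  classical
  set K : Submodule ℚ (ι → ℚ) := LinearMap.ker (Matrix.toLin' (A.map (Polynomial.eval x))) with hK
  obtain ⟨L, hL⟩ := Submodule.exists_isCompl K
  let b0 := ((Module.finBasis ℚ K).prod (Module.finBasis ℚ L)).map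
    (Submodule.prodEquivOfIsCompl K L hL)
  have hcard : Fintype.card (Fin (Module.finrank ℚ K) ⊕ Fin (Module.finrank ℚ L)) =
      Fintype.card ι := by
    have h1 := Module.finrank_eq_card_basis b0
    rw [Module.finrank_fintype_fun_eq_card] at h1
    exact h1.symm
  let E : Fin (Module.finrank ℚ K) ⊕ Fin (Module.finrank ℚ L) ≃ ι := Fintype.equivOfCardEq hcard
  let b := b0.reindex E
  let B : Matrix ι ι ℚ := (Pi.basisFun ℚ ι).toMatrix b
  have hB : ∀ i j, B i j = b j i := by
    intro i j
    change (Pi.basisFun ℚ ι).repr (b j) i = b j i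
    rw [Pi.basisFun_repr]
  have hdetB : IsUnit B.det := by
    have h1 := (Pi.basisFun ℚ ι).isUnit_det b
    rwa [Module.Basis.det_apply] at h1
  let v : ι → ℚ[X] := fun j => Sum.elim (fun _ => X - C x) (fun _ => 1) (E.symm j)
  have hv : ∀ i j, v j ∣ (A * B.map C) i j := by
    intro i j
    rcases hs : E.symm j with s | s
    · have hvj : v j = X - C x := by
        change Sum.elim _ _ (E.symm j) = _
        rw [hs]
        rfl
      rw [hvj, Polynomial.dvd_iff_isRoot, Polynomial.IsRoot.def, Matrix.mul_apply,
        Polynomial.eval_finsetSum]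
      have hbj : b j ∈ K := by
        have h1 : b j = b0 (Sum.inl s) := by
          rw [← hs]
          exact b0.reindex_apply E j
        rw [h1, Module.Basis.map_apply, Module.Basis.prod_apply]
        simp
      have h2 := congrFun (LinearMap.mem_ker.1 hbj) i
      rw [Matrix.toLin'_apply, Matrix.mulVec, dotProduct] at h2
      refine Eq.trans (Finset.sum_congr rfl fun k _ => ?_) h2
      rw [Polynomial.eval_mul, Matrix.map_apply, Matrix.map_apply, Polynomial.eval_C, hB]
    · have hvj : v j = 1 := by
        change Sum.elim _ _ (E.symm j) = _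
        rw [hs]
        rfl
      rw [hvj]
      exact one_dvd _
  choose Q hQ using hv
  have h1 : A * B.map C = Matrix.of fun i j => v j * Matrix.of Q i j := by
    ext1 i j
    exact hQ i j
  have h2 : (A * B.map C).det = (∏ j, v j) * (Matrix.of Q).det := by
    rw [h1]
    exact Matrix.det_mul_row v (Matrix.of Q)
  have h3 : ∏ j, v j = (X - C x) ^ (Module.finrank ℚ K) := by
    rw [← Equiv.prod_comp E]
    simp [v]
  have h4 : (A * B.map C).det = A.det * C B.det := by
    rw [Matrix.det_mul, ← RingHom.mapMatrix_apply, ← RingHom.map_det]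
  have h5 : (X - C x) ^ D ∣ A.det * C B.det := by
    rw [← h4, h2, h3]
    exact (pow_dvd_pow _ h).mul_right _
  have h6 : IsUnit (C B.det : ℚ[X]) := Polynomial.isUnit_C.2 hdetB
  exact h6.dvd_mul_right.1 h5

theorem pow_dvd_det' {ι : Type*} [Fintype ι] [DecidableEq ι] (A : Matrix ι ι ℚ[X]) (x : ℚ) (D : ℕ)
    (h : D ≤ Module.finrank ℚ
      (LinearMap.ker (Matrix.toLin' (A.map (Polynomial.eval x)).transpose))) :
    (X - C x) ^ D ∣ A.det := by
  rw [← Matrix.det_transpose]
  refine pow_dvd_det A.transpose x D ?_
  rw [← Matrix.transpose_map] at h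
  exact h

end Helper87.TR
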