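import Mathlib
import Pool.Agent.Helper87.TR.St.T21a

/-!
# TR-21: the bound for the orders of vanishing at `μ`

By `rm_br`, `rm_bn`, `rm_bd` (T21a): for every `l` monotone
* `rm (br X (-(r X)) l) ≤ r`;
* `rm (bd X (bs l))` = number of pairs `(g, b)` with `arm + 1 = μ leg`: at most `r * r` (for `b` and `leg` given, `arm` and
  so `g` are determined: `b - g - 1 = arm + leg`; and `leg < r`).
If `l` is generic, i.e. `l 0 > μ (r + 1)` and `l (i+1) - l i > μ (r + 1)` for all `i`, then for every `b = l i + i` the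
element `g = b - 1 - μ` has `leg = 0`, `arm = μ` and `g ∉ bs l`, so `rm (bn) ≥ r`; and no pair has `arm + 1 = μ leg`, because
`leg ≥ 1` implies that there is an element of `bs l` strictly between `g` and `b`, so all the non-elements between it and `b`
count: `arm ≥ l i - l (i - 1) > μ r ≥ μ leg`. So for generic `l`: `rm br + rm bd ≤ r + 0 ≤ rm bn`. For the other `l`:
`rm br + rm bd ≤ r + r * r`. The number of non-generic `l ∈ box r M` is at most
`r (μ (r + 1) + 1) (M + 1)^(r-1)`: for some `i`, `l i` is determined by `l (i - 1)` (or is small if `i = 0`)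
and a number `≤ μ (r + 1)`; the map `l ↦ (i, l i - l (i - 1), l without the entry i)` is injective on them.
`card_box_lower`: every function `Fin r → {0..M}` is a rearrangement of a monotone one, so
`(M + 1)^r ≤ r! * card (box r M)`.
-/

set_option autoImplicit false

open Finset Polynomial

namespace Helper87.TR

/-- the previous entry (`0` for the first one) -/
def t21_prv {r : ℕ} (l : Fin r → ℕ) (i : Fin r) : ℕ :=
  if (i : ℕ) = 0 then 0 else l ⟨(i : ℕ) - 1, by have := i.2; omega⟩

/-- all gaps are larger than `N` -/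
def t21_gen {r : ℕ} (N : ℕ) (l : Fin r → ℕ) : Prop := ∀ i, t21_prv l i + N < l i

lemma t21_prv_le {r : ℕ} {l : Fin r → ℕ} (hl : Monotone l) (i : Fin r) : t21_prv l i ≤ l i := by
  rw [t21_prv]
  split_ifs with h
  · exact Nat.zero_le _
  · apply hl
    rw [Fin.le_def]
    simp

lemma t21_le_prv {r : ℕ} {l : Fin r → ℕ} (hl : Monotone l) {i j : Fin r} (h : j < i) :
    l j ≤ t21_prv l i := by
  rw [Fin.lt_def] at h
  rw [t21_prv, if_neg (by omega)]
  apply hl
  rw [Fin.le_def]
  simp only
  omega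

lemma t21_key {r N : ℕ} {l : Fin r → ℕ} (hl : Monotone l) (hg : t21_gen N l) {b b' : ℕ}
    (hb : b ∈ bs l) (hb' : b' ∈ bs l) (h : b' < b) : b' + 1 + N < b := by
  rw [bs, mem_image] at hb hb'
  obtain ⟨i, -, rfl⟩ := hb
  obtain ⟨j, -, rfl⟩ := hb'
  have hji : j < i := by
    by_contra h1
    have h2 : i ≤ j := not_lt.1 h1
    have h3 := hl h2
    rw [Fin.le_def] at h2
    omega
  have h1 := t21_le_prv hl hji
  have h2 := hg i
  rw [Fin.lt_def] at hji
  omega

lemma t21_big {r N : ℕ} {l : Fin r → ℕ} (hg : t21_gen N l) {b : ℕ} (hb : b ∈ bs l) : N < b := by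
  rw [bs, mem_image] at hb
  obtain ⟨i, -, rfl⟩ := hb
  have := hg i
  omega

lemma t21_card_bs {r : ℕ} {l : Fin r → ℕ} (hl : Monotone l) : (bs l).card = r := by
  rw [bs, card_image_of_injective, card_univ, Fintype.card_fin]
  have : StrictMono fun i : Fin r => l i + (i : ℕ) := by
    intro i j h
    have h1 := hl h.le
    rw [Fin.lt_def] at h
    simp only
    omega
  exact this.injective

lemma t21_arm_add_leg (B : Finset ℕ) {g b : ℕ} : arm B g b + leg B g b = b - g - 1 := by
  rw [arm, leg, card_sdiff_add_card_inter, Nat.card_Ioo]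

lemma t21_leg_le (B : Finset ℕ) (g b : ℕ) : leg B g b ≤ B.card := card_le_card inter_subset_right

lemma t21_leg_lt {B : Finset ℕ} {g b : ℕ} (hb : b ∈ B) : leg B g b < B.card := by
  apply card_lt_card
  refine ⟨inter_subset_right, fun h => ?_⟩
  have := h hb
  rw [mem_inter, mem_Ioo] at this
  omega

lemma t21_rm_br_le {r μ : ℕ} (hμ : 1 ≤ μ) (l : Fin r → ℕ) :
    rm μ (br (X : ℚ[X]) (-((r : ℚ[X]) * X)) l) ≤ r := by
  rw [rm_br hμ]
  refine (card_filter_le _ _).trans ?_
  rw [card_univ, Fintype.card_fin]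

lemma t21_rm_bd_le {r μ : ℕ} (hμ : 1 ≤ μ) {l : Fin r → ℕ} (hl : Monotone l) :
    rm μ (bd (X : ℚ[X]) (bs l)) ≤ r * r := by
  rw [rm_bd hμ]
  refine (sum_le_card_nsmul _ _ r fun b hb => ?_).trans ?_
  · have : ((range b \ bs l).filter fun g => arm (bs l) g b + 1 = μ * leg (bs l) g b).card ≤
        (range r).card := by
      refine card_le_card_of_injOn (fun g => leg (bs l) g b) ?_ ?_
      · intro g _
        have := t21_leg_lt (g := g) hb
        rw [t21_card_bs hl] at this
        simpa using this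
      · intro g hg g' hg' h
        simp only at h
        rw [coe_filter, Set.mem_ofPred_eq, mem_sdiff, mem_range] at hg hg'
        have h1 := t21_arm_add_leg (bs l) (g := g) (b := b)
        have h2 := t21_arm_add_leg (bs l) (g := g') (b := b)
        have h3 := hg.2
        have h4 := hg'.2
        rw [h] at h3 h1
        have := hg.1.1
        have := hg'.1.1
        omega
    rwa [card_range] at this
  · rw [t21_card_bs hl, smul_eq_mul]

lemma t21_disj {r N : ℕ} {l : Fin r → ℕ} (hl : Monotone l) (hg : t21_gen N l) {b : ℕ}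
    (hb : b ∈ bs l) {k : ℕ} (hk : k ≤ N) : Disjoint (Ioo (b - 1 - k) b) (bs l) := by
  rw [disjoint_left]
  intro x hx hx'
  rw [mem_Ioo] at hx
  have := t21_key hl hg hb hx' hx.2
  omega

lemma t21_rm_bn_ge {r μ : ℕ} (hμ : 1 ≤ μ) {l : Fin r → ℕ} (hl : Monotone l)
    (hg : t21_gen (μ * (r + 1)) l) : r ≤ rm μ (bn (X : ℚ[X]) (bs l)) := by
  rw [rm_bn hμ]
  have hN : μ ≤ μ * (r + 1) := Nat.le_mul_of_pos_right _ (Nat.succ_pos r)
  have h1 : ∀ b ∈ bs l, 1 ≤
      ((range b \ bs l).filter fun g => arm (bs l) g b = μ * (leg (bs l) g b + 1)).card := by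
    intro b hb
    have hbN := t21_big hg hb
    rw [Nat.one_le_iff_ne_zero, card_ne_zero]
    refine ⟨b - 1 - μ, ?_⟩
    have hd := t21_disj hl hg hb hN
    have hleg : leg (bs l) (b - 1 - μ) b = 0 := by
      rw [leg, card_eq_zero]
      exact disjoint_iff_inter_eq_empty.1 hd
    have harm := t21_arm_add_leg (bs l) (g := b - 1 - μ) (b := b)
    rw [mem_filter, mem_sdiff, mem_range]
    refine ⟨⟨by omega, fun h => ?_⟩, ?_⟩
    · have := t21_key hl hg hb h (by omega)
      omega
    · rw [hleg]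
      omega
  calc r = ∑ b ∈ bs l, 1 := by rw [sum_const, t21_card_bs hl, smul_eq_mul, mul_one]
    _ ≤ _ := sum_le_sum h1

lemma t21_rm_bd_eq {r μ : ℕ} (hμ : 1 ≤ μ) {l : Fin r → ℕ} (hl : Monotone l)
    (hg : t21_gen (μ * (r + 1)) l) : rm μ (bd (X : ℚ[X]) (bs l)) = 0 := by
  rw [rm_bd hμ]
  refine sum_eq_zero fun b hb => ?_
  rw [card_eq_zero, filter_eq_empty_iff]
  intro g hg1 h
  rw [mem_sdiff, mem_range] at hg1
  have hbN := t21_big hg hb
  have h1 : leg (bs l) g b ≠ 0 := by
    intro h0
    rw [h0] at h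
    omega
  have h2 : ((Ioo g b) ∩ bs l).Nonempty := by
    rw [leg] at h1
    exact card_ne_zero.1 h1
  obtain ⟨x, hx⟩ := h2
  rw [mem_inter, mem_Ioo] at hx
  have h3 := t21_key hl hg hb hx.2 hx.1.2
  have h4 := t21_disj hl hg hb le_rfl
  have h5 : (Ioo (b - 1 - μ * (r + 1)) b).card ≤ arm (bs l) g b := by
    rw [arm]
    apply card_le_card
    rw [subset_sdiff]
    refine ⟨?_, h4⟩
    intro y hy
    rw [mem_Ioo] at hy ⊢
    omega
  rw [Nat.card_Ioo] at h5
  have h6 : leg (bs l) g b ≤ r := by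
    have := t21_leg_le (bs l) g b
    rwa [t21_card_bs hl] at this
  have h7 : μ * leg (bs l) g b ≤ μ * (r + 1) := Nat.mul_le_mul_left _ (by omega)
  omega

lemma t21_mem_box {r M : ℕ} {l : Fin r → ℕ} : l ∈ box r M ↔ Monotone l ∧ ∀ i, l i ≤ M := by
  classical
  rw [box, mem_filter, Fintype.mem_piFinset]
  simp only [mem_range, Nat.lt_succ_iff]
  exact and_comm

lemma t21_card_bad (s N M : ℕ) (i : Fin (s + 1)) :
    ((box (s + 1) M).filter fun l => l i ≤ t21_prv l i + N).card ≤ (N + 1) * (M + 1) ^ s := by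
  classical
  have h : ((range (N + 1)) ×ˢ (Fintype.piFinset fun _ : Fin s => range (M + 1))).card =
      (N + 1) * (M + 1) ^ s := by
    rw [card_product, Fintype.card_piFinset]
    simp
  rw [← h]
  refine card_le_card_of_injOn (fun l => (l i - t21_prv l i, i.removeNth l)) ?_ ?_
  · intro l hl
    rw [mem_coe, mem_filter, t21_mem_box] at hl
    rw [mem_coe, mem_product, mem_range, Fintype.mem_piFinset]
    refine ⟨by have := hl.2; simp only; omega, fun j => ?_⟩
    rw [mem_range, Nat.lt_succ_iff]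
    exact hl.1.2 _
  · intro l hl l' hl' he
    rw [mem_coe, mem_filter, t21_mem_box] at hl hl'
    simp only [Prod.mk.injEq] at he
    have hoff : ∀ j, j ≠ i → l j = l' j := by
      intro j hj
      obtain ⟨k, rfl⟩ := Fin.exists_succAbove_eq hj
      exact congrFun he.2 k
    have hp : t21_prv l i = t21_prv l' i := by
      rw [t21_prv, t21_prv]
      split_ifs with h0
      · rfl
      · apply hoff
        intro h1
        have := congrArg Fin.val h1
        simp only at this
        omega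
    have h1 := t21_prv_le hl.1.1 i
    have h2 := t21_prv_le hl'.1.1 i
    funext j
    by_cases hj : j = i
    · subst hj
      have := he.1
      omega
    · exact hoff j hj

theorem order_bound (r μ : ℕ) (hr : 1 ≤ r) (hμ : 1 ≤ μ) : ∃ K : ℕ, ∀ M : ℕ,
    ∑ l ∈ box r M, (rm μ (br (X : ℚ[X]) (-((r : ℚ[X]) * X)) l) + rm μ (bd (X : ℚ[X]) (bs l))) ≤
      ∑ l ∈ box r M, rm μ (bn (X : ℚ[X]) (bs l)) + K * (M + 1) ^ (r - 1) := by
  classical
  obtain ⟨s, rfl⟩ : ∃ s, r = s + 1 := ⟨r - 1, by omega⟩
  set N := μ * (s + 1 + 1) with hN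
  refine ⟨((s + 1) + (s + 1) * (s + 1)) * ((s + 1) * (N + 1)), fun M => ?_⟩
  have hpt : ∀ l ∈ box (s + 1) M,
      rm μ (br (X : ℚ[X]) (-(((s + 1 : ℕ) : ℚ[X]) * X)) l) + rm μ (bd (X : ℚ[X]) (bs l)) ≤
        rm μ (bn (X : ℚ[X]) (bs l)) +
          (if t21_gen N l then 0 else (s + 1) + (s + 1) * (s + 1)) := by
    intro l hl
    rw [t21_mem_box] at hl
    have h1 := t21_rm_br_le hμ l
    split_ifs with hg
    · have h2 := t21_rm_bn_ge hμ hl.1 hg
      have h3 := t21_rm_bd_eq hμ hl.1 hg
      omega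
    · have h2 := t21_rm_bd_le hμ hl.1
      omega
  refine (sum_le_sum hpt).trans ?_
  rw [sum_add_distrib]
  refine Nat.add_le_add_left ?_ _
  rw [← sum_filter_add_sum_filter_not (box (s + 1) M) (fun l => t21_gen N l)]
  rw [sum_eq_zero (s := (box (s + 1) M).filter fun l => t21_gen N l)
    (fun l hl => if_pos (mem_filter.1 hl).2), zero_add]
  rw [sum_congr rfl (fun l hl => if_neg (mem_filter.1 hl).2), sum_const, smul_eq_mul, mul_comm]
  rw [mul_assoc]
  refine Nat.mul_le_mul_left _ ?_
  have hsub : ((box (s + 1) M).filter fun l => ¬ t21_gen N l) ⊆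
      (univ : Finset (Fin (s + 1))).biUnion fun i =>
        (box (s + 1) M).filter fun l => l i ≤ t21_prv l i + N := by
    intro l hl
    rw [mem_filter, t21_gen] at hl
    have := hl.2
    push Not at this
    obtain ⟨i, hi⟩ := this
    rw [mem_biUnion]
    exact ⟨i, mem_univ _, mem_filter.2 ⟨hl.1, hi⟩⟩
  refine (card_le_card hsub).trans (card_biUnion_le.trans ?_)
  refine (sum_le_card_nsmul _ _ _ fun i _ => t21_card_bad s N M i).trans ?_
  rw [card_univ, Fintype.card_fin, smul_eq_mul, Nat.add_sub_cancel, mul_assoc]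

theorem card_box_lower (r M : ℕ) : (M + 1) ^ r ≤ r.factorial * (box r M).card := by
  classical
  have h : (Fintype.piFinset fun _ : Fin r => range (M + 1)) ⊆
      ((univ : Finset (Equiv.Perm (Fin r))) ×ˢ box r M).image fun p => fun i => p.2 (p.1 i) := by
    intro f hf
    rw [Fintype.mem_piFinset] at hf
    rw [mem_image]
    refine ⟨((Tuple.sort f)⁻¹, f ∘ Tuple.sort f), ?_, ?_⟩
    · rw [mem_product]
      refine ⟨mem_univ _, t21_mem_box.2 ⟨Tuple.monotone_sort f, fun i => ?_⟩⟩
      have := hf (Tuple.sort f i)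
      rw [mem_range] at this
      simp only [Function.comp]
      omega
    · funext i
      simp
  have h1 := (card_le_card h).trans card_image_le
  rw [card_product, card_univ, Fintype.card_perm, Fintype.card_fin, Fintype.card_piFinset] at h1
  simpa using h1

end Helper87.TR
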