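import Mathlib
import Pool.Agent.Helper87.TR.St.T19
import Pool.Agent.Helper87.TR.St.T17
import Pool.Agent.Helper87.TR.St.T21a

/-!
# TR-22a: the Gram matrix as a polynomial matrix

`PF_JJ` with `PF_const` gives for every pair `a, b` a polynomial with value `JJ c (mm a) (mm b)` at every `c`. The identity:
both sides are polynomials; for all natural numbers `n > r M` the values at `n` agree by `det_JJ` (`Polynomial.evalRingHom n`
applied to `det`: `RingHom.map_det`; `(bn X B).eval n = bn n B` etc. are clear from the definitions: all of `bn`, `bd`, `br` are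
products of sums). Two polynomials over `ℚ` with the same values at infinitely many points are equal.
-/

set_option autoImplicit false

open Finset Polynomial

namespace Helper87.TR

theorem eval_bn (x : ℚ) (B : Finset ℕ) : (bn (X : ℚ[X]) B).eval x = bn x B := by
  rw [bn, bn, eval_prod]
  refine prod_congr rfl fun b _ => ?_
  rw [eval_prod]
  refine prod_congr rfl fun g _ => ?_
  simp

theorem eval_bd (x : ℚ) (B : Finset ℕ) : (bd (X : ℚ[X]) B).eval x = bd x B := by
  rw [bd, bd, eval_prod]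
  refine prod_congr rfl fun b _ => ?_
  rw [eval_prod]
  refine prod_congr rfl fun g _ => ?_
  simp

theorem eval_br {r : ℕ} (x : ℚ) (y : ℚ[X]) (l : Fin r → ℕ) :
    (br (X : ℚ[X]) y l).eval x = br x (y.eval x) l := by
  rw [br, br, eval_prod]
  refine prod_congr rfl fun i _ => ?_
  rw [eval_prod]
  refine prod_congr rfl fun j _ => ?_
  simp

theorem eq_of_eval_nat {p q : ℚ[X]} (n₀ : ℕ) (h : ∀ n : ℕ, n₀ < n → p.eval (n : ℚ) = q.eval (n : ℚ)) :
    p = q := by
  refine Polynomial.eq_of_infinite_eval_eq p q ?_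
  have hinf : (Set.range fun k : ℕ => ((n₀ + 1 + k : ℕ) : ℚ)).Infinite := by
    refine Set.infinite_range_of_injective fun a b hab => ?_
    have h1 : (n₀ + 1 + a : ℕ) = n₀ + 1 + b := by exact_mod_cast hab
    omega
  refine hinf.mono ?_
  rintro _ ⟨k, rfl⟩
  exact h _ (by omega)

theorem exists_JPoly (r M : ℕ) : ∃ A : Matrix (box r M) (box r M) ℚ[X],
    (∀ (c : ℚ) (a b : box r M), (A a b).eval c =
      JJ c (mm ℚ (a : Fin r → ℕ)) (mm ℚ (b : Fin r → ℕ))) ∧
    A.det * ∏ l ∈ box r M, bn (X : ℚ[X]) (bs l) =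
      ∏ l ∈ box r M, (br (X : ℚ[X]) (-((r : ℚ[X]) * X)) l * bd (X : ℚ[X]) (bs l)) := by
  have h0 : ∀ a b : box r M, ∃ p : ℚ[X], ∀ c : ℚ,
      JJ c (mm ℚ (a : Fin r → ℕ)) (mm ℚ (b : Fin r → ℕ)) = p.eval c := fun a b =>
    PF_JJ (mm ℚ (a : Fin r → ℕ)) (PF_const (mm ℚ (b : Fin r → ℕ)))
  choose A hA using h0
  refine ⟨Matrix.of A, fun c a b => (hA a b c).symm, ?_⟩
  refine eq_of_eval_nat (r * M) fun n hn => ?_
  have h1 : ((Matrix.of A).det).eval (n : ℚ) =
      (Matrix.of fun a b : box r M =>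
        JJ (n : ℚ) (mm ℚ (a : Fin r → ℕ)) (mm ℚ (b : Fin r → ℕ))).det := by
    rw [← Polynomial.coe_evalRingHom, RingHom.map_det]
    congr 1
    ext a b
    exact (hA a b (n : ℚ)).symm
  rw [eval_mul, eval_prod, eval_prod, h1]
  simp_rw [eval_mul, eval_bn, eval_bd, eval_br]
  have h2 := det_JJ (r := r) M n hn
  have h3 : (-((r : ℚ[X]) * X)).eval (n : ℚ) = -((r : ℚ) * n) := by simp
  rw [h3]
  exact h2

end Helper87.TR
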