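import Mathlib
import Pool.Agent.Helper87.TR.St.T14a
import Pool.Agent.Helper87.TR.St.T18
import Pool.Agent.Helper87.TR.St.T20
import Pool.Agent.Helper87.TR.St.T21
import Pool.Agent.Helper87.TR.St.T22a

/-!
# TR-22: the form `JJ μ` is nondegenerate (on the left) for every natural number `μ ≥ 1`

Suppose `f ≠ 0`, `JJ μ f g = 0` for all `g`. By `JJ_ee`, `JJ μ (ee (k+1) * f) g = 0` for all `g`, so (`eM_top`, `eM_update`: `Lam` is
generated by the `ee (k+1)`, `k < r`, as an algebra) `JJ μ (h * f) g = 0` for all `h, g`. Let `Bx M₁ f` (`exists_Bx`). For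
`M ≥ M₁` let `A_M` be the matrix over `ℚ[X]` of `exists_JPoly`. For
`h` with `Bx (M - M₁) h` the coordinate vector of `h * f` (`Bx M`, `Bx_mul`, `eq_sum_of_Bx`) is in the left kernel of `A_M(μ)`; this
gives an injective linear map (from `box r (M - M₁) → ℚ`, `h = ∑ v_l mm l`) to the kernel (`Lam` is a domain). So
`(X - μ)^(card (box r (M - M₁))) ∣ det A_M` (`pow_dvd_det'`). By `exists_JPoly`
`det A_M * ∏ bn X (bs l) = ∏ (br X (-(r X)) l * bd X (bs l))`, which is not zero (T21a). Comparing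
root multiplicities at `μ` (`rm_mul`, `rm_prod`): `card (box r (M - M₁)) + ∑ rm bn ≤ ∑ (rm br + rm bd) ≤ ∑ rm bn + K (M+1)^(r-1)`
(`order_bound`), so `card (box r (M - M₁)) ≤ K (M + 1)^(r-1)` for all `M ≥ M₁`, and
`(M - M₁ + 1)^r ≤ r! K (M+1)^(r-1)` (`card_box_lower`), which is false for large `M` (for example `M = M₁ + x`,
`x + 1 > r! K (M₁ + 1)^(r-1)`: `(M + 1) ≤ (M₁ + 1) (x + 1)`).
-/

set_option autoImplicit false

open MvPolynomial Finset

namespace Helper87.TR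

/-- the property of `h`: multiplication by `h` preserves the left kernel of `JJ c` -/
def t22_P {r : ℕ} (c : ℚ) (h : Lam r ℚ) : Prop :=
  ∀ f : Lam r ℚ, (∀ g : Lam r ℚ, JJ c f g = 0) → ∀ g : Lam r ℚ, JJ c (h * f) g = 0

lemma t22_P_one {r : ℕ} (c : ℚ) : t22_P c (1 : Lam r ℚ) := by
  intro f hf g
  rw [one_mul]
  exact hf g

lemma t22_P_mul {r : ℕ} {c : ℚ} {h k : Lam r ℚ} (hh : t22_P c h) (hk : t22_P c k) :
    t22_P c (h * k) := by
  intro f hf g
  rw [mul_assoc]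
  exact hh _ (hk f hf) g

lemma t22_P_pow {r : ℕ} {c : ℚ} {h : Lam r ℚ} (hh : t22_P c h) (m : ℕ) : t22_P c (h ^ m) := by
  induction m with
  | zero => rw [pow_zero]; exact t22_P_one c
  | succ m ih => rw [pow_succ]; exact t22_P_mul ih hh

lemma t22_P_prod {r : ℕ} {c : ℚ} {ι : Type*} (s : Finset ι) (h : ι → Lam r ℚ)
    (hh : ∀ i ∈ s, t22_P c (h i)) : t22_P c (∏ i ∈ s, h i) := by
  classical
  induction s using Finset.induction_on with
  | empty => exact t22_P_one c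
  | insert a s ha ih =>
    rw [prod_insert ha]
    exact t22_P_mul (hh a (mem_insert_self _ _)) (ih fun i hi => hh i (mem_insert_of_mem hi))

lemma t22_P_eM {r : ℕ} (c : ℚ) (α : Fin r → ℕ) : t22_P c (eM α) := by
  refine t22_P_prod _ _ fun k _ => t22_P_pow ?_ _
  intro f hf g
  rw [JJ_ee c (k : ℕ) k.2]
  exact hf _

lemma t22_P_all {r : ℕ} (c : ℚ) (h : Lam r ℚ) : t22_P c h := by
  have hm : h ∈ Submodule.span ℚ (Set.range (eM : (Fin r → ℕ) → Lam r ℚ)) := by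
    rw [eM_top]
    trivial
  induction hm using Submodule.span_induction with
  | mem x hx =>
    obtain ⟨α, rfl⟩ := hx
    exact t22_P_eM c α
  | zero =>
    intro f _ g
    rw [zero_mul, map_zero]
    rfl
  | add x y _ _ hx hy =>
    intro f hf g
    rw [add_mul, map_add, LinearMap.add_apply, hx f hf, hy f hf, add_zero]
  | smul a x _ hx =>
    intro f hf g
    rw [smul_mul_assoc, map_smul, LinearMap.smul_apply, hx f hf, smul_zero]

/-- the linear combination of the `mm l` with coefficients `v` -/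
noncomputable def t22_h {r L : ℕ} : (box r L → ℚ) →ₗ[ℚ] Lam r ℚ :=
  Fintype.linearCombination ℚ fun l : box r L => mm ℚ (l : Fin r → ℕ)

lemma t22_h_apply {r L : ℕ} (v : box r L → ℚ) :
    t22_h v = ∑ l : box r L, v l • mm ℚ (l : Fin r → ℕ) := by
  rw [t22_h, Fintype.linearCombination_apply]

lemma t22_Bx_smul {r M : ℕ} (a : ℚ) {f : Lam r ℚ} (hf : Bx M f) : Bx M (a • f) := by
  rw [Bx_iff] at hf ⊢
  intro k hk h
  refine hf k hk fun h1 => h ?_
  rw [cm_smul, h1, mul_zero]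

lemma t22_Bx_zero {r M : ℕ} : Bx M (0 : Lam r ℚ) := by
  rw [Bx_iff]
  intro k _ h
  exact absurd (cm_zero k) h

lemma t22_Bx_h {r L : ℕ} (v : box r L → ℚ) : Bx L (t22_h v) := by
  classical
  rw [t22_h_apply]
  have key : ∀ s : Finset (box r L), Bx L (∑ l ∈ s, v l • mm ℚ (l : Fin r → ℕ)) := by
    intro s
    induction s using Finset.induction_on with
    | empty => exact t22_Bx_zero
    | insert a s ha ih =>
      rw [sum_insert ha]
      exact Bx_add (t22_Bx_smul _ (Bx_mm (mem_box.1 a.2).2)) ih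
  exact key univ

lemma t22_cm_h {r L : ℕ} (v : box r L → ℚ) (l : box r L) : cm (l : Fin r → ℕ) (t22_h v) = v l := by
  classical
  rw [t22_h_apply, cm_sum, sum_eq_single l]
  · rw [cm_smul, cm_mm (mem_box.1 l.2).1 (mem_box.1 l.2).1, if_pos rfl, mul_one]
  · intro b _ hb
    rw [cm_smul, cm_mm (mem_box.1 l.2).1 (mem_box.1 b.2).1, if_neg, mul_zero]
    intro h
    exact hb (Subtype.ext h.symm)
  · intro h
    exact absurd (mem_univ _) h

/-- coordinates of `h * f` -/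
noncomputable def t22_w {r : ℕ} (L M : ℕ) (f : Lam r ℚ) : (box r L → ℚ) →ₗ[ℚ] (box r M → ℚ) :=
  LinearMap.pi fun k : box r M =>
    (cl (k : Fin r → ℕ)) ∘ₗ (LinearMap.mulRight ℚ f) ∘ₗ t22_h

lemma t22_w_apply {r L M : ℕ} (f : Lam r ℚ) (v : box r L → ℚ) (k : box r M) :
    t22_w L M f v k = cm (k : Fin r → ℕ) (t22_h v * f) := rfl

lemma t22_sum_w {r L M M₁ : ℕ} {f : Lam r ℚ} (hf : Bx M₁ f) (hM : L + M₁ = M) (v : box r L → ℚ) :
    t22_h v * f = ∑ k : box r M, t22_w L M f v k • mm ℚ (k : Fin r → ℕ) := by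
  have h1 : Bx M (t22_h v * f) := hM ▸ Bx_mul (t22_Bx_h v) hf
  conv_lhs => rw [eq_sum_of_Bx h1]
  rw [← sum_coe_sort]
  rfl

lemma t22_w_inj {r L M M₁ : ℕ} {f : Lam r ℚ} (hf : Bx M₁ f) (hM : L + M₁ = M) (h0 : f ≠ 0) :
    Function.Injective (t22_w L M f) := by
  rw [← LinearMap.ker_eq_bot, LinearMap.ker_eq_bot']
  intro v hv
  have h1 := t22_sum_w hf hM v
  rw [hv] at h1
  simp only [Pi.zero_apply, zero_smul, sum_const_zero] at h1
  have h2 : t22_h v = 0 := by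
    rcases mul_eq_zero.1 h1 with h | h
    · exact h
    · exact absurd h h0
  funext l
  rw [← t22_cm_h v l, h2, cm_zero]
  rfl

lemma t22_card {r μ : ℕ} {L M M₁ : ℕ} {f : Lam r ℚ} (hf : Bx M₁ f) (hM : L + M₁ = M) (h0 : f ≠ 0)
    (h : ∀ g : Lam r ℚ, JJ (μ : ℚ) f g = 0) (A : Matrix (box r M) (box r M) (Polynomial ℚ))
    (hA : ∀ (c : ℚ) (a b : box r M), (A a b).eval c =
      JJ c (mm ℚ (a : Fin r → ℕ)) (mm ℚ (b : Fin r → ℕ))) :
    (Polynomial.X - Polynomial.C (μ : ℚ)) ^ (box r L).card ∣ A.det := by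
  classical
  refine pow_dvd_det' A (μ : ℚ) _ ?_
  set K := LinearMap.ker (Matrix.toLin' (A.map (Polynomial.eval (μ : ℚ))).transpose) with hK
  have hmem : ∀ v, t22_w L M f v ∈ K := by
    intro v
    rw [hK, LinearMap.mem_ker]
    funext b
    rw [Matrix.toLin'_apply, Matrix.mulVec, dotProduct]
    have h1 := t22_P_all (μ : ℚ) (t22_h v) f h (mm ℚ (b : Fin r → ℕ))
    rw [t22_sum_w hf hM v, map_sum, LinearMap.sum_apply] at h1
    refine Eq.trans (sum_congr rfl fun a _ => ?_) h1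
    rw [Matrix.transpose_apply, Matrix.map_apply, hA, map_smul, LinearMap.smul_apply, smul_eq_mul,
      mul_comm]
  have hinj : Function.Injective ((t22_w L M f).codRestrict K hmem) := by
    intro v v' hv
    exact t22_w_inj hf hM h0 (congrArg Subtype.val hv)
  have h2 := LinearMap.finrank_le_finrank_of_injective hinj
  rw [Module.finrank_fintype_fun_eq_card, Fintype.card_coe] at h2
  exact h2

lemma t22_bound {r μ : ℕ} (hr : 1 ≤ r) (hμ : 1 ≤ μ) {M₁ : ℕ} {f : Lam r ℚ} (hf : Bx M₁ f)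
    (h0 : f ≠ 0) (h : ∀ g : Lam r ℚ, JJ (μ : ℚ) f g = 0) :
    ∃ K : ℕ, ∀ x : ℕ, (box r x).card ≤ K * (x + M₁ + 1) ^ (r - 1) := by
  obtain ⟨K, hK⟩ := order_bound r μ hr hμ
  refine ⟨K, fun x => ?_⟩
  obtain ⟨A, hA1, hA2⟩ := exists_JPoly r (x + M₁)
  have h1 := t22_card (μ := μ) hf rfl h0 h A hA1
  have hbn : ∏ l ∈ box r (x + M₁), bn (Polynomial.X : Polynomial ℚ) (bs l) ≠ 0 :=
    prod_ne_zero_iff.2 fun l _ => bn_X_ne_zero _
  have hbd : ∀ l ∈ box r (x + M₁), (br (Polynomial.X : Polynomial ℚ)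
      (-((r : Polynomial ℚ) * Polynomial.X)) l * bd (Polynomial.X : Polynomial ℚ) (bs l)) ≠ 0 :=
    fun l _ => mul_ne_zero (br_X_ne_zero _) (bd_X_ne_zero _)
  have hdet : A.det ≠ 0 := by
    intro h2
    rw [h2, zero_mul] at hA2
    exact prod_ne_zero_iff.2 hbd hA2.symm
  have h2 : (box r x).card ≤ rm μ A.det := (Polynomial.le_rootMultiplicity_iff hdet).2 h1
  have h3 := congrArg (rm μ) hA2
  rw [rm_mul μ hdet hbn, rm_prod μ _ _ fun l _ => bn_X_ne_zero _, rm_prod μ _ _ hbd,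
    sum_congr rfl fun l _ => rm_mul μ (br_X_ne_zero l) (bd_X_ne_zero (bs l))] at h3
  have h4 := hK (x + M₁)
  omega

theorem JJ_nondeg {r μ : ℕ} (hr : 1 ≤ r) (hμ : 1 ≤ μ) (f : Lam r ℚ)
    (h : ∀ g : Lam r ℚ, JJ (μ : ℚ) f g = 0) : f = 0 := by
  by_contra h0
  obtain ⟨M₁, hM₁⟩ := exists_Bx f
  obtain ⟨K, hK⟩ := t22_bound hr hμ hM₁ h0 h
  obtain ⟨s, rfl⟩ : ∃ s, r = s + 1 := ⟨r - 1, by omega⟩
  rw [Nat.add_sub_cancel] at hK
  set T := (s + 1).factorial * K * (M₁ + 1) ^ s with hT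
  have h1 := card_box_lower (s + 1) T
  have h2 := hK T
  have h3 : (T + M₁ + 1) ^ s ≤ ((M₁ + 1) * (T + 1)) ^ s := by
    refine Nat.pow_le_pow_left ?_ s
    have : (M₁ + 1) * (T + 1) = M₁ * T + T + M₁ + 1 := by ring
    rw [this]
    have := Nat.zero_le (M₁ * T)
    omega
  have h4 : (T + 1) ^ (s + 1) ≤ T * (T + 1) ^ s := by
    calc (T + 1) ^ (s + 1) ≤ (s + 1).factorial * (box (s + 1) T).card := h1
      _ ≤ (s + 1).factorial * (K * (T + M₁ + 1) ^ s) := Nat.mul_le_mul_left _ h2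
      _ ≤ (s + 1).factorial * (K * ((M₁ + 1) * (T + 1)) ^ s) :=
        Nat.mul_le_mul_left _ (Nat.mul_le_mul_left _ h3)
      _ = T * (T + 1) ^ s := by rw [mul_pow, hT]; ring
  have h5 : 0 < (T + 1) ^ s := Nat.pow_pos (Nat.succ_pos T)
  have h6 : (T + 1) ^ (s + 1) = T * (T + 1) ^ s + (T + 1) ^ s := by ring
  omega

end Helper87.TR
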