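import Mathlib
import Pool.Agent.Helper87.TR.St.T22
import Pool.Agent.Helper87.TR.St.T19b

/-!
# TR-24a: `JM r N μ` is invertible

If `det (JM r N μ) = 0` there is a nonzero vector `v` in the left kernel (`Matrix.exists_vecMul_eq_zero_iff`). Put
`f = ∑ v_a mm a`; `Hg N f`, `f ≠ 0` (`cm_mm`), and `JJ μ f (mm b) = 0` for all `b ∈ part r N`, so `JJ μ f g = 0` for all `g`
homogeneous of degree `N` (`eq_sum_of_Hg`), hence for all `g` (`JJ_Hg_ne`, `sum_hc`), so `f = 0` (`JJ_nondeg`), contradiction.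
-/

set_option autoImplicit false

open MvPolynomial Finset

namespace Helper87.TR

theorem det_JM_ne {r μ : ℕ} (hr : 1 ≤ r) (hμ : 1 ≤ μ) (N : ℕ) : (JM r N (μ : ℚ)).det ≠ 0 := by
  classical
  intro hdet
  obtain ⟨v, hv0, hv⟩ := Matrix.exists_vecMul_eq_zero_iff.mpr hdet
  obtain ⟨f, hfd⟩ : ∃ f : Lam r ℚ, f = ∑ a : part r N, v a • mm ℚ (a : Fin r → ℕ) := ⟨_, rfl⟩
  have hf : Hg N f := by
    rw [hfd]
    refine Hg_sum fun a _ => Hg_smul _ ?_
    have h1 := Hg_mm (R := ℚ) (a : Fin r → ℕ)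
    rw [(mem_part.1 a.2).2] at h1
    exact h1
  have hb : ∀ b : part r N, JJ (μ : ℚ) f (mm ℚ (b : Fin r → ℕ)) = 0 := by
    intro b
    have h1 := congrFun hv b
    rw [Matrix.vecMul, dotProduct] at h1
    rw [hfd, map_sum, LinearMap.sum_apply]
    refine Eq.trans (sum_congr rfl fun a _ => ?_) h1
    rw [map_smul, LinearMap.smul_apply, smul_eq_mul]
    rfl
  have hall : ∀ g : Lam r ℚ, JJ (μ : ℚ) f g = 0 := by
    intro g
    obtain ⟨M, hM⟩ := exists_Bx g
    rw [sum_hc hM, map_sum]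
    refine sum_eq_zero fun K _ => ?_
    by_cases hK : K = N
    · rw [hK, hc_apply, map_sum]
      refine sum_eq_zero fun k hk => ?_
      rw [map_smul, hb ⟨k, hk⟩, smul_zero]
    · exact JJ_Hg_ne _ (Ne.symm hK) hf (Hg_hc K g)
  have hf0 := JJ_nondeg hr hμ f hall
  apply hv0
  funext a
  have h1 := congrArg (cm (a : Fin r → ℕ)) hf0
  rw [cm_zero, hfd, cm_sum] at h1
  simp_rw [cm_smul] at h1
  rw [sum_eq_single_of_mem a (mem_univ a)] at h1
  · rw [cm_mm (mem_part.1 a.2).1 (mem_part.1 a.2).1, if_pos rfl, mul_one] at h1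
    exact h1
  · intro b _ hb'
    rw [cm_mm (mem_part.1 a.2).1 (mem_part.1 b.2).1, if_neg, mul_zero]
    intro h2
    exact hb' (Subtype.ext h2.symm)

end Helper87.TR
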