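import Mathlib
import Pool.Agent.Helper87.TR.St.T24a
import Pool.Agent.Helper87.TR.St.T23

/-!
# TR-24b: `XM r N (r μ) μ` is invertible

`L = r μ`. For every `N` there are polynomial matrices (over `ℚ[X]`) with values `JM r N c`, `GM r N L c`, `XM r N L c`
for all `c` (`PF_JJ`, `PF_GG`, `PF_cm`, `PF_const`), and `det_XM` for all large `n` gives (`eq_of_eval_nat`, `eval_bn`, ... of
T22a) an identity in `ℚ[X]`:
`det XM_N * ∏ (bd X (bs l) * br X (-(r X)) l) = (det JM_N)^|A_N| * ∏ (bn X (bs l) * br X (-L) l)`, the products over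
`l ∈ A_N = (part r N).filter (· ∈ box r L)`. All the factors `bd, br, bn` are nonzero (T21a) and `det JM_N` does not vanish
at `μ` (T24a); so `det XM_N ≠ 0` and `rm (det XM_N) + ∑_{A_N} (rm bd + rm br(-rX)) = ∑_{A_N} (rm bn + rm br(-L))`.
Sum over `N ≤ r L` (`box r L` is the disjoint union of the `A_N`; for `N > r L` `A_N` is empty and the determinant is `1`) and
use `order_sum`: `∑_N rm (det XM_N) = 0`, so `det (XM r N L μ) ≠ 0` for all `N`.
-/

set_option autoImplicit false

open MvPolynomial Finset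

namespace Helper87.TR

theorem t24b_exists_PX (r N L : ℕ) (hr : 1 ≤ r) :
    ∃ (PJ : Matrix (part r N) (part r N) (Polynomial ℚ))
      (PX : Matrix {a : part r N // (a : Fin r → ℕ) ∈ box r L}
        {a : part r N // (a : Fin r → ℕ) ∈ box r L} (Polynomial ℚ)),
      (∀ c : ℚ, PJ.det.eval c = (JM r N c).det) ∧
      (∀ c : ℚ, PX.det.eval c = (XM r N L c).det) ∧
      PX.det * ∏ l ∈ (part r N).filter (· ∈ box r L),
          (bd (Polynomial.X : Polynomial ℚ) (bs l) *
            br (Polynomial.X : Polynomial ℚ) (-((r : Polynomial ℚ) * Polynomial.X)) l) =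
        PJ.det ^ ((part r N).filter (· ∈ box r L)).card *
          ∏ l ∈ (part r N).filter (· ∈ box r L),
            (bn (Polynomial.X : Polynomial ℚ) (bs l) *
              br (Polynomial.X : Polynomial ℚ) (-((L : ℕ) : Polynomial ℚ)) l) := by
  choose pj hpj using fun a b : part r N =>
    PF_JJ (mm ℚ (a : Fin r → ℕ)) (PF_const (mm ℚ (b : Fin r → ℕ)))
  choose pg hpg using fun a b : part r N =>
    PF_cm (PF_GG (-(L : ℚ)) (mm ℚ (b : Fin r → ℕ))) (a : Fin r → ℕ)
  let PJ : Matrix (part r N) (part r N) (Polynomial ℚ) := Matrix.of pj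
  let PG : Matrix (part r N) (part r N) (Polynomial ℚ) := Matrix.of pg
  let PX : Matrix {a : part r N // (a : Fin r → ℕ) ∈ box r L}
        {a : part r N // (a : Fin r → ℕ) ∈ box r L} (Polynomial ℚ) :=
    Matrix.of fun a b => (PG * PJ.adjugate) a b
  have hJ : ∀ c : ℚ, (Polynomial.evalRingHom c).mapMatrix PJ = JM r N c := by
    intro c
    ext a b
    exact (hpj a b c).symm
  have hG : ∀ c : ℚ, (Polynomial.evalRingHom c).mapMatrix PG = GM r N L c := by
    intro c
    ext a b
    exact (hpg a b c).symm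
  have hdJ : ∀ c : ℚ, PJ.det.eval c = (JM r N c).det := by
    intro c
    have h := RingHom.map_det (Polynomial.evalRingHom c) PJ
    rw [hJ] at h
    exact h
  have hdX : ∀ c : ℚ, PX.det.eval c = (XM r N L c).det := by
    intro c
    have h := RingHom.map_det (Polynomial.evalRingHom c) PX
    have h2 : (Polynomial.evalRingHom c).mapMatrix PX = XM r N L c := by
      ext a b
      have h3 : (Polynomial.evalRingHom c).mapMatrix (PG * PJ.adjugate) =
          GM r N L c * (JM r N c).adjugate := by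
        rw [map_mul, hG, RingHom.map_adjugate, hJ]
      exact congrFun (congrFun h3 a) b
    rw [h2] at h
    exact h
  refine ⟨PJ, PX, hdJ, hdX, ?_⟩
  refine eq_of_eval_nat N fun n hn => ?_
  have h := det_XM hr N L n hn
  rw [Polynomial.eval_mul, Polynomial.eval_mul, Polynomial.eval_pow, Polynomial.eval_prod,
    Polynomial.eval_prod, hdJ, hdX]
  simp only [Polynomial.eval_mul, eval_bn, eval_bd, eval_br, Polynomial.eval_neg,
    Polynomial.eval_natCast, Polynomial.eval_X]
  exact h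

theorem t24b_rm_eq (r N μ : ℕ) (hr : 1 ≤ r) (hμ : 1 ≤ μ) :
    ∃ p : Polynomial ℚ, p ≠ 0 ∧ p.eval (μ : ℚ) = (XM r N (r * μ) (μ : ℚ)).det ∧
      rm μ p + ∑ l ∈ (part r N).filter (· ∈ box r (r * μ)),
          (rm μ (bd (Polynomial.X : Polynomial ℚ) (bs l)) +
            rm μ (br (Polynomial.X : Polynomial ℚ) (-((r : Polynomial ℚ) * Polynomial.X)) l)) =
        ∑ l ∈ (part r N).filter (· ∈ box r (r * μ)),
          (rm μ (bn (Polynomial.X : Polynomial ℚ) (bs l)) +
            rm μ (br (Polynomial.X : Polynomial ℚ) (-((r * μ : ℕ) : Polynomial ℚ)) l)) := by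
  obtain ⟨PJ, PX, hJ, hX, h⟩ := t24b_exists_PX r N (r * μ) hr
  have hJ0 : PJ.det.eval (μ : ℚ) ≠ 0 := by
    rw [hJ]
    exact det_JM_ne hr hμ N
  have hJne : PJ.det ≠ 0 := by
    intro h0
    rw [h0, Polynomial.eval_zero] at hJ0
    exact hJ0 rfl
  have hrmJ : rm μ PJ.det = 0 := by
    rw [rm]
    exact Polynomial.rootMultiplicity_eq_zero hJ0
  have hbd : ∀ l ∈ (part r N).filter (· ∈ box r (r * μ)),
      bd (Polynomial.X : Polynomial ℚ) (bs l) *
        br (Polynomial.X : Polynomial ℚ) (-((r : Polynomial ℚ) * Polynomial.X)) l ≠ 0 :=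
    fun l _ => mul_ne_zero (bd_X_ne_zero _) (br_X_ne_zero _)
  have hbn : ∀ l ∈ (part r N).filter (· ∈ box r (r * μ)),
      bn (Polynomial.X : Polynomial ℚ) (bs l) *
        br (Polynomial.X : Polynomial ℚ) (-((r * μ : ℕ) : Polynomial ℚ)) l ≠ 0 :=
    fun l hl => mul_ne_zero (bn_X_ne_zero _) (br_L_ne_zero (mem_filter.1 hl).2)
  have hR : PJ.det ^ ((part r N).filter (· ∈ box r (r * μ))).card *
          ∏ l ∈ (part r N).filter (· ∈ box r (r * μ)),
            (bn (Polynomial.X : Polynomial ℚ) (bs l) *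
              br (Polynomial.X : Polynomial ℚ) (-((r * μ : ℕ) : Polynomial ℚ)) l) ≠ 0 :=
    mul_ne_zero (pow_ne_zero _ hJne) (prod_ne_zero_iff.2 hbn)
  have hXne : PX.det ≠ 0 := by
    intro h0
    rw [h0, zero_mul] at h
    exact hR h.symm
  refine ⟨PX.det, hXne, hX _, ?_⟩
  have h1 := congrArg (rm μ) h
  have hpow : rm μ (PJ.det ^ ((part r N).filter (· ∈ box r (r * μ))).card) = 0 := by
    rw [rm]
    refine Polynomial.rootMultiplicity_eq_zero ?_
    rw [Polynomial.IsRoot.def, Polynomial.eval_pow]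
    exact pow_ne_zero _ hJ0
  rw [rm_mul μ hXne (prod_ne_zero_iff.2 hbd), rm_mul μ (pow_ne_zero _ hJne)
    (prod_ne_zero_iff.2 hbn), rm_prod μ _ _ hbd, rm_prod μ _ _ hbn, hpow, zero_add] at h1
  have h2 : ∑ l ∈ (part r N).filter (· ∈ box r (r * μ)),
      rm μ (bd (Polynomial.X : Polynomial ℚ) (bs l) *
        br (Polynomial.X : Polynomial ℚ) (-((r : Polynomial ℚ) * Polynomial.X)) l) =
      ∑ l ∈ (part r N).filter (· ∈ box r (r * μ)),
          (rm μ (bd (Polynomial.X : Polynomial ℚ) (bs l)) +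
            rm μ (br (Polynomial.X : Polynomial ℚ) (-((r : Polynomial ℚ) * Polynomial.X)) l)) :=
    sum_congr rfl fun l _ => rm_mul μ (bd_X_ne_zero _) (br_X_ne_zero _)
  have h3 : ∑ l ∈ (part r N).filter (· ∈ box r (r * μ)),
      rm μ (bn (Polynomial.X : Polynomial ℚ) (bs l) *
        br (Polynomial.X : Polynomial ℚ) (-((r * μ : ℕ) : Polynomial ℚ)) l) =
      ∑ l ∈ (part r N).filter (· ∈ box r (r * μ)),
          (rm μ (bn (Polynomial.X : Polynomial ℚ) (bs l)) +
            rm μ (br (Polynomial.X : Polynomial ℚ) (-((r * μ : ℕ) : Polynomial ℚ)) l)) :=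
    sum_congr rfl fun l hl => rm_mul μ (bn_X_ne_zero _) (br_L_ne_zero (mem_filter.1 hl).2)
  rw [h2, h3] at h1
  exact h1

theorem t24b_sum_box (r M : ℕ) (F : (Fin r → ℕ) → ℕ) :
    ∑ N ∈ range (r * M + 1), ∑ l ∈ (part r N).filter (· ∈ box r M), F l =
      ∑ l ∈ box r M, F l := by
  have h1 : ∀ l ∈ box r M, (∑ i, l i) ∈ range (r * M + 1) := by
    intro l hl
    rw [mem_range, Nat.lt_succ_iff]
    refine (sum_le_sum fun i _ => (mem_box.1 hl).2 i).trans ?_
    simp
  rw [← sum_fiberwise_of_maps_to h1]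
  refine sum_congr rfl fun N _ => sum_congr ?_ fun _ _ => rfl
  ext l
  rw [mem_filter, mem_filter, mem_part, mem_box]
  tauto

theorem det_XM_ne {r μ : ℕ} (hr : 1 ≤ r) (hμ : 1 ≤ μ) (N : ℕ) :
    (XM r N (r * μ) (μ : ℚ)).det ≠ 0 := by
  by_cases hN : N ∈ range (r * (r * μ) + 1)
  · choose p hp0 hpe hp using fun N => t24b_rm_eq r N μ hr hμ
    have h1 := sum_congr (rfl : range (r * (r * μ) + 1) = range (r * (r * μ) + 1))
      (fun N (_ : N ∈ range (r * (r * μ) + 1)) => hp N)
    rw [sum_add_distrib, t24b_sum_box, t24b_sum_box, order_sum r μ hr hμ] at h1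
    have h2 : ∑ N ∈ range (r * (r * μ) + 1), rm μ (p N) = 0 := by omega
    have h3 : rm μ (p N) = 0 := (sum_eq_zero_iff.1 h2) N hN
    rw [← hpe N]
    intro h4
    have h5 : 0 < rm μ (p N) := by
      rw [rm, Polynomial.rootMultiplicity_pos (hp0 N)]
      exact h4
    omega
  · have hE : IsEmpty {a : part r N // (a : Fin r → ℕ) ∈ box r (r * μ)} := by
      refine ⟨fun a => hN ?_⟩
      rw [mem_range, Nat.lt_succ_iff]
      have h1 := (mem_part.1 a.1.2).2
      rw [← h1]
      refine (sum_le_sum fun i _ => (mem_box.1 a.2).2 i).trans ?_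
      simp
    rw [Matrix.det_isEmpty]
    exact one_ne_zero

end Helper87.TR
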