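import Mathlib
import Pool.Agent.Helper87.TR.St.T24b
import Pool.Agent.Helper87.TR.St.T18b
import Pool.Agent.Helper87.TR.St.T16

/-!
# TR-24: the kernel `∏ (1 - z_i t_j)^μ` is nondegenerate on the box

`L = r μ`. It is enough to treat homogeneous `g`, of degree `N ≤ r L` (`sum_hc`; the components of a `Bx L` polynomial are `Bx L`:
`Bx_iff`, `cm_hc`; `KK_add`, `KK_smul` for the sum). Given `g` with `Hg N g`, `Bx L g`, let `g_A` be the vector `(cm a g)` for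
`a ∈ part r N ∩ box r L`, solve `XM v = g_A` (`det_XM_ne`), extend `v` by `0` and put
`w = adj(JM) v`, `f = ∑ w_b mm b`. Then `GG μ (-L) f` has the coordinates `GM w = GM adj(JM) v`: on `A` this is
`XM v = g_A`, outside `A` it is `0` by `GG_Bx`; and it is homogeneous of degree `N` by `GG_Hg`. So `GG μ (-L) f = g`
(`ext_cm`), and `KK μ (JJ μ f) = g` by `KK_JJ` (`-(r μ)` is `-(((r * μ : ℕ)) : ℚ)`).
-/

set_option autoImplicit false

open MvPolynomial Finset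

namespace Helper87.TR

lemma t24_hom {r μ : ℕ} (hr : 1 ≤ r) (hμ : 1 ≤ μ) (N : ℕ) (g : Lam r ℚ) (hN : Hg N g)
    (hg : Bx (r * μ) g) : ∃ φ : Lam r ℚ →ₗ[ℚ] ℚ, KK μ φ = g := by
  classical
  have hdet : IsUnit (XM r N (r * μ) (μ : ℚ)).det := (det_XM_ne hr hμ N).isUnit
  obtain ⟨v, hv⟩ : ∃ v : {a : part r N // (a : Fin r → ℕ) ∈ box r (r * μ)} → ℚ,
      (XM r N (r * μ) (μ : ℚ)).mulVec v = fun a => cm (a.1 : Fin r → ℕ) g :=
    ⟨(XM r N (r * μ) (μ : ℚ))⁻¹.mulVec fun a => cm (a.1 : Fin r → ℕ) g, by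
      rw [Matrix.mulVec_mulVec, Matrix.mul_nonsing_inv _ hdet, Matrix.one_mulVec]⟩
  obtain ⟨v', hv'⟩ : ∃ v' : part r N → ℚ, v' = fun b : part r N =>
      if h : (b : Fin r → ℕ) ∈ box r (r * μ) then v ⟨b, h⟩ else 0 := ⟨_, rfl⟩
  obtain ⟨w, hw⟩ : ∃ w : part r N → ℚ, w = (JM r N (μ : ℚ)).adjugate.mulVec v' := ⟨_, rfl⟩
  obtain ⟨f, hfd⟩ : ∃ f : Lam r ℚ, f = ∑ b : part r N, w b • mm ℚ (b : Fin r → ℕ) := ⟨_, rfl⟩
  have hf : Hg N f := by
    rw [hfd]
    refine Hg_sum fun a _ => Hg_smul _ ?_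
    have h1 := Hg_mm (R := ℚ) (a : Fin r → ℕ)
    rw [(mem_part.1 a.2).2] at h1
    exact h1
  have h1 : ∀ a : part r N, cm (a : Fin r → ℕ) (GG (μ : ℚ) (-((r * μ : ℕ) : ℚ)) f) =
      ((GM r N (r * μ) (μ : ℚ) * (JM r N (μ : ℚ)).adjugate).mulVec v') a := by
    intro a
    rw [← Matrix.mulVec_mulVec, ← hw, hfd, map_sum, cm_sum, Matrix.mulVec, dotProduct]
    refine sum_congr rfl fun b _ => ?_
    rw [map_smul, cm_smul, mul_comm]
    rfl
  refine ⟨JJ (μ : ℚ) f, ?_⟩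
  rw [KK_JJ]
  have e0 : -((r : ℚ) * μ) = -((r * μ : ℕ) : ℚ) := by push_cast; ring
  rw [e0]
  apply ext_cm
  intro k hk
  by_cases hkN : ∑ i, k i = N
  · by_cases hkb : k ∈ box r (r * μ)
    · have hkp : k ∈ part r N := mem_part.2 ⟨hk, hkN⟩
      have h2 := congrFun hv ⟨⟨k, hkp⟩, hkb⟩
      rw [h1 ⟨k, hkp⟩]
      refine Eq.trans ?_ h2
      rw [Matrix.mulVec, dotProduct, Matrix.mulVec, dotProduct]
      have h3 : ∀ b : part r N, (GM r N (r * μ) (μ : ℚ) * (JM r N (μ : ℚ)).adjugate) ⟨k, hkp⟩ b * v' b =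
          if h : (b : Fin r → ℕ) ∈ box r (r * μ) then
            (GM r N (r * μ) (μ : ℚ) * (JM r N (μ : ℚ)).adjugate) ⟨k, hkp⟩ b * v ⟨b, h⟩ else 0 := by
        intro b
        rw [hv']
        by_cases h : (b : Fin r → ℕ) ∈ box r (r * μ)
        · simp only [dif_pos h]
        · simp only [dif_neg h, mul_zero]
      simp_rw [h3]
      obtain ⟨F, hF⟩ : ∃ F : part r N → ℚ, F = fun b : part r N =>
          if h : (b : Fin r → ℕ) ∈ box r (r * μ) then
            (GM r N (r * μ) (μ : ℚ) * (JM r N (μ : ℚ)).adjugate) ⟨k, hkp⟩ b * v ⟨b, h⟩ else 0 :=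
        ⟨_, rfl⟩
      have h4 : ∑ b : part r N, F b = ∑ b ∈ (univ : Finset (part r N)).filter
          (fun b : part r N => (b : Fin r → ℕ) ∈ box r (r * μ)), F b := by
        rw [sum_filter]
        refine sum_congr rfl fun b _ => ?_
        by_cases h : (b : Fin r → ℕ) ∈ box r (r * μ)
        · rw [if_pos h]
        · rw [if_neg h, hF]
          exact dif_neg h
      have h5 : ∑ b ∈ (univ : Finset (part r N)).filter
          (fun b : part r N => (b : Fin r → ℕ) ∈ box r (r * μ)), F b =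
          ∑ b : {b : part r N // (b : Fin r → ℕ) ∈ box r (r * μ)}, F b :=
        sum_subtype _ (by simp) _
      refine (sum_congr rfl fun b _ => ?_).trans (h4.trans (h5.trans (sum_congr rfl fun b _ => ?_)))
      · rw [hF]
      · rw [hF]
        exact dif_pos b.2
    · have hA : cm k g = 0 := by
        by_contra h
        exact hkb (mem_box.2 ⟨hk, Bx_iff.1 hg k hk h⟩)
      have hB : cm k (GG (μ : ℚ) (-((r * μ : ℕ) : ℚ)) f) = 0 := by
        by_contra h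
        exact hkb (mem_box.2 ⟨hk, Bx_iff.1 (GG_Bx hr (μ : ℚ) (r * μ) f) k hk h⟩)
      rw [hA, hB]
  · rw [cm_eq_zero_of_Hg hN hkN, cm_eq_zero_of_Hg (GG_Hg _ _ hf) hkN]

theorem KK_surj {r μ : ℕ} (hr : 1 ≤ r) (hμ : 1 ≤ μ) (g : Lam r ℚ) (hg : Bx (r * μ) g) :
    ∃ φ : Lam r ℚ →ₗ[ℚ] ℚ, KK μ φ = g := by
  classical
  have h1 : ∀ N, ∃ φ : Lam r ℚ →ₗ[ℚ] ℚ, KK μ φ = hc N g := by
    intro N
    refine t24_hom hr hμ N (hc N g) (Hg_hc N g) ?_
    rw [Bx_iff]
    intro k hk h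
    rw [cm_hc g hk] at h
    refine Bx_iff.1 hg k hk ?_
    intro h0
    rw [h0, ite_self] at h
    exact h rfl
  choose φ hφ using h1
  have h2 : ∀ s : Finset ℕ, KK μ (∑ N ∈ s, φ N) = ∑ N ∈ s, hc N g := by
    intro s
    induction s using Finset.induction_on with
    | empty =>
      rw [sum_empty, sum_empty]
      have := KK_smul (r := r) μ 0 0
      rw [zero_smul, zero_smul] at this
      exact this
    | insert a s ha ih => rw [sum_insert ha, sum_insert ha, KK_add, hφ, ih]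
  exact ⟨∑ N ∈ range (r * (r * μ) + 1), φ N, by rw [h2]; exact (sum_hc hg).symm⟩

end Helper87.TR
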