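import Mathlib
import Pool.Agent.Helper87.TR.Basic
import Pool.Agent.Helper87.TR.Defs2

/-!
# TR-25a: the homomorphism `X_0 ↦ 1`, `X_i ↦ (-1)^i e_i`
-/

set_option autoImplicit false

open MvPolynomial Finset

namespace Helper87.TR

/-- `X_i ↦ (-1)^i e_i` -/
noncomputable def eps (a : ℕ) : MvPolynomial (Fin (a + 1)) ℚ →ₐ[ℚ] Lam a ℚ :=
  aeval fun i : Fin (a + 1) => ((-1 : ℚ) ^ (i : ℕ)) • ee a ℚ (i : ℕ)

lemma t25a_degreeOf_esymm (a k : ℕ) (j : Fin a) : degreeOf j (esymm (Fin a) ℚ k) ≤ 1 := by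
  classical
  rw [esymm]
  refine (degreeOf_sum_le j _ _).trans ?_
  refine Finset.sup_le fun t _ => ?_
  refine (degreeOf_prod_le j t _).trans ?_
  simp_rw [degreeOf_X]
  rw [Finset.sum_ite_eq]
  split_ifs <;> simp

lemma t25a_coe_eps (a : ℕ) (f : MvPolynomial (Fin (a + 1)) ℚ) :
    (eps a f : MvPolynomial (Fin a) ℚ) =
      aeval (fun i : Fin (a + 1) => ((-1 : ℚ) ^ (i : ℕ)) • esymm (Fin a) ℚ (i : ℕ)) f := by
  have h : ((symmetricSubalgebra (Fin a) ℚ).val).comp (eps a) =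
      aeval (fun i : Fin (a + 1) => ((-1 : ℚ) ^ (i : ℕ)) • esymm (Fin a) ℚ (i : ℕ)) := by
    apply MvPolynomial.algHom_ext
    intro i
    rw [AlgHom.comp_apply, eps, aeval_X, aeval_X]
    rfl
  exact DFunLike.congr_fun h f

theorem eps_Bx {a N : ℕ} {f : MvPolynomial (Fin (a + 1)) ℚ} (hf : f.IsHomogeneous N) :
    Bx N (eps a f) := by
  classical
  intro j
  rw [t25a_coe_eps, aeval_def, eval₂_eq]
  refine (degreeOf_sum_le j _ _).trans ?_
  refine Finset.sup_le fun d hd => ?_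
  rw [algebraMap_eq]
  refine (degreeOf_C_mul_le _ _ _).trans ?_
  refine (degreeOf_prod_le j _ _).trans ?_
  have h1 : ∑ i ∈ d.support, d i ≤ N := by
    have h2 := hf (mem_support_iff.1 hd)
    rw [← h2, Finsupp.weight_apply, Finsupp.sum]
    simp
  refine le_trans (Finset.sum_le_sum fun i _ => ?_) h1
  refine (degreeOf_pow_le j _ _).trans ?_
  have h3 : degreeOf j (((-1 : ℚ) ^ (i : ℕ)) • esymm (Fin a) ℚ (i : ℕ)) ≤ 1 := by
    rw [smul_eq_C_mul]
    exact (degreeOf_C_mul_le _ _ _).trans (t25a_degreeOf_esymm a i j)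
  calc d i * _ ≤ d i * 1 := Nat.mul_le_mul_left _ h3
    _ = d i := mul_one _

/-- `X_0 ↦ 1`, `X_i ↦ (-1)^i X_i` -/
noncomputable def t25a_th (a : ℕ) : MvPolynomial (Fin (a + 1)) ℚ →ₐ[ℚ] MvPolynomial (Fin a) ℚ :=
  aeval (Fin.cases 1 (fun i : Fin a => C ((-1 : ℚ) ^ ((i : ℕ) + 1)) * X i))

lemma t25a_th_monomial (a : ℕ) (α : Fin (a + 1) →₀ ℕ) (c : ℚ) :
    t25a_th a (monomial α c) =
      monomial (Finsupp.tail α) (c * ∏ i : Fin a, ((-1 : ℚ) ^ ((i : ℕ) + 1)) ^ α i.succ) := by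
  rw [t25a_th, aeval_monomial, Finsupp.prod_fintype _ _ (fun i => pow_zero _),
    Fin.prod_univ_succ, monomial_eq, Finsupp.prod_fintype _ _ (fun i => pow_zero _), C_mul]
  simp only [Fin.cases_zero, one_pow, one_mul, Fin.cases_succ, algebraMap_eq]
  rw [mul_assoc]
  congr 1
  rw [map_prod, ← Finset.prod_mul_distrib]
  refine Finset.prod_congr rfl fun i _ => ?_
  rw [mul_pow, Finsupp.tail_apply, C_pow, C_pow, C_pow]

lemma t25a_eps_th (a : ℕ) (f : MvPolynomial (Fin (a + 1)) ℚ) :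
    eps a f = esymmAlgHom (Fin a) ℚ a (t25a_th a f) := by
  have h : eps a = (esymmAlgHom (Fin a) ℚ a).comp (t25a_th a) := by
    apply MvPolynomial.algHom_ext
    intro i
    apply Subtype.ext
    rw [t25a_coe_eps, aeval_X, AlgHom.comp_apply, esymmAlgHom_apply, t25a_th, aeval_X]
    refine Fin.cases ?_ (fun j => ?_) i
    · simp
    · simp [smul_eq_C_mul]
  rw [h]
  rfl

lemma t25a_th_inj {a N : ℕ} {f : MvPolynomial (Fin (a + 1)) ℚ} (hf : f.IsHomogeneous N)
    (h : t25a_th a f = 0) : f = 0 := by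
  classical
  have hsum : ∀ α : Fin (a + 1) →₀ ℕ, coeff α f ≠ 0 → α 0 + ∑ i : Fin a, α i.succ = N := by
    intro α hα
    have h2 := hf hα
    rw [← h2, Finsupp.weight_apply, Finsupp.sum_fintype _ _ (fun i => by simp),
      Fin.sum_univ_succ]
    simp
  ext α
  rw [coeff_zero]
  by_contra hα
  have h1 : coeff (Finsupp.tail α) (t25a_th a f) =
      coeff α f * ∏ i : Fin a, ((-1 : ℚ) ^ ((i : ℕ) + 1)) ^ α i.succ := by
    conv_lhs => rw [f.as_sum, map_sum]
    rw [coeff_sum, Finset.sum_eq_single_of_mem α (mem_support_iff.2 hα)]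
    · rw [t25a_th_monomial, coeff_monomial, if_pos rfl]
    · intro β hβ hne
      rw [t25a_th_monomial, coeff_monomial, if_neg]
      intro heq
      apply hne
      have h3 : ∀ i : Fin a, β i.succ = α i.succ := fun i => by
        rw [← Finsupp.tail_apply, heq, Finsupp.tail_apply]
      ext i
      refine Fin.cases ?_ (fun j => h3 j) i
      have h4 := hsum α hα
      have h5 := hsum β (mem_support_iff.1 hβ)
      rw [Finset.sum_congr rfl fun i _ => h3 i] at h5
      omega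
  rw [h, coeff_zero] at h1
  have h2 : ∏ i : Fin a, ((-1 : ℚ) ^ ((i : ℕ) + 1)) ^ α i.succ ≠ 0 :=
    Finset.prod_ne_zero_iff.2 fun i _ => pow_ne_zero _ (pow_ne_zero _ (by norm_num))
  exact (mul_ne_zero hα h2) h1.symm

theorem eps_inj {a N : ℕ} {f g : MvPolynomial (Fin (a + 1)) ℚ} (hf : f.IsHomogeneous N)
    (hg : g.IsHomogeneous N) (h : eps a f = eps a g) : f = g := by
  rw [← sub_eq_zero]
  refine t25a_th_inj (hf.sub hg) ?_
  rw [map_sub, sub_eq_zero]
  rw [t25a_eps_th, t25a_eps_th] at h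
  exact esymmAlgHom_fin_injective ℚ le_rfl h

theorem ww_homogeneous (a μ k : ℕ) : (ww a μ k).IsHomogeneous μ := by
  classical
  rw [ww]
  set P : Polynomial (MvPolynomial (Fin (a + 1)) ℚ) :=
    ∑ i : Fin (a + 1), Polynomial.C (MvPolynomial.X i) * Polynomial.X ^ (i : ℕ) with hP
  have h1 : ∀ j, (P.coeff j).IsHomogeneous 1 := by
    intro j
    rw [hP, Polynomial.finsetSum_coeff]
    refine IsHomogeneous.sum _ _ _ fun i _ => ?_
    rw [Polynomial.coeff_C_mul_X_pow]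
    split_ifs
    · exact isHomogeneous_X _ _
    · exact isHomogeneous_zero _ _ _
  induction μ generalizing k with
  | zero =>
    rw [pow_zero, Polynomial.coeff_one]
    split_ifs
    · exact isHomogeneous_one _ _
    · exact isHomogeneous_zero _ _ _
  | succ μ ih =>
    rw [pow_succ, Polynomial.coeff_mul]
    exact IsHomogeneous.sum _ _ _ fun x _ => (ih x.1).mul (h1 x.2)

end Helper87.TR
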