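import Mathlib
import Pool.Agent.Helper87.TR.St.T25a

/-!
# TR-25b: the kernel and the polynomials `ww`

`ε(∑ X_i T^i) = ∏_j (1 - z_j T)` (Vieta: `Finset.prod_one_add...`, `MvPolynomial.prod_C_add_X...`, `Multiset.esymm`), so
`ε(ww a μ k)` is the coefficient of `T^k` in `∏_j (1 - z_j T)^μ`, and (as a polynomial in `z` over `MvPolynomial (Fin a) ℚ`, or
with the two sets of variables in any convenient form) `kp a μ = ∏_j (∑_{k ≤ a μ} ε(ww a μ k)(z) (C t_j)^k)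
= ∑_{β : Fin a → {0..a μ}} (∏_j ε(ww a μ (β j)))(z) C(t^β)`. Hence for every functional `φ`,
`KK μ φ = ∑_β φ(ave (t^β)) • ∏_j ε(ww a μ (β j))` (`cw` applied to `(map C (h z)) * C (t^β)` is `φ (ave (t^β)) • h`).
-/

set_option autoImplicit false

open MvPolynomial Finset

namespace Helper87.TR

lemma t25b_vieta {a : ℕ} {S : Type*} [CommRing S] (g : MvPolynomial (Fin a) ℚ →+* S) (T : S) :
    ∏ j : Fin a, (1 - g (X j) * T) =
      ∑ k : Fin (a + 1), g ((-1) ^ (k : ℕ) * esymm (Fin a) ℚ (k : ℕ)) * T ^ (k : ℕ) := by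
  classical
  have h1 : ∀ j : Fin a, (1 - g (X j) * T) = 1 + (- (g (X j) * T)) := fun j => by ring
  simp_rw [h1]
  rw [Finset.prod_one_add, sum_powerset, card_univ, Fintype.card_fin, Finset.sum_range]
  refine sum_congr rfl fun k _ => ?_
  rw [esymm, mul_sum, map_sum, sum_mul]
  refine sum_congr rfl fun t ht => ?_
  rw [prod_neg, prod_mul_distrib, prod_const, (mem_powersetCard.1 ht).2, map_mul, map_pow,
    map_neg, map_one, map_prod]
  ring

lemma t25b_deg (a μ : ℕ) : ((∑ i : Fin (a + 1), Polynomial.C (MvPolynomial.X i) * Polynomial.X ^ (i : ℕ) :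
    Polynomial (MvPolynomial (Fin (a + 1)) ℚ)) ^ μ).natDegree < a * μ + 1 := by
  rw [Nat.lt_succ_iff, mul_comm]
  refine (Polynomial.natDegree_pow_le).trans (Nat.mul_le_mul_left _ ?_)
  refine Polynomial.natDegree_sum_le_of_forall_le _ _ fun i _ => ?_
  refine (Polynomial.natDegree_C_mul_X_pow_le _ _).trans ?_
  have := i.2
  omega

lemma t25b_eps_X (a : ℕ) (i : Fin (a + 1)) :
    ((eps a (X i) : Lam a ℚ) : MvPolynomial (Fin a) ℚ) = (-1) ^ (i : ℕ) * esymm (Fin a) ℚ (i : ℕ) := by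
  rw [eps, aeval_X]
  rw [SetLike.val_smul, smul_eq_C_mul]
  congr 1
  simp

lemma t25b_pow {a : ℕ} (μ : ℕ) {S : Type*} [CommRing S] (g : MvPolynomial (Fin a) ℚ →+* S) (T : S) :
    (∏ j : Fin a, (1 - g (X j) * T)) ^ μ =
      ∑ k ∈ range (a * μ + 1), g ((eps a (ww a μ k) : Lam a ℚ) : MvPolynomial (Fin a) ℚ) * T ^ k := by
  have h1 := Polynomial.eval₂_eq_sum_range'
    ((g.comp ((symmetricSubalgebra (Fin a) ℚ).val : Lam a ℚ →+* MvPolynomial (Fin a) ℚ)).comp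
      (eps a : MvPolynomial (Fin (a + 1)) ℚ →+* Lam a ℚ)) (t25b_deg a μ) T
  have h2 : ∀ k, ((g.comp ((symmetricSubalgebra (Fin a) ℚ).val : Lam a ℚ →+* MvPolynomial (Fin a) ℚ)).comp
      (eps a : MvPolynomial (Fin (a + 1)) ℚ →+* Lam a ℚ))
        (((∑ i : Fin (a + 1), Polynomial.C (MvPolynomial.X i) * Polynomial.X ^ (i : ℕ) :
    Polynomial (MvPolynomial (Fin (a + 1)) ℚ)) ^ μ).coeff k) =
      g ((eps a (ww a μ k) : Lam a ℚ) : MvPolynomial (Fin a) ℚ) := fun k => rfl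
  simp_rw [h2] at h1
  rw [← h1, Polynomial.eval₂_pow, Polynomial.eval₂_finsetSum, t25b_vieta]
  congr 1
  refine sum_congr rfl fun i _ => ?_
  rw [Polynomial.eval₂_mul, Polynomial.eval₂_C, Polynomial.eval₂_X_pow, ← t25b_eps_X]
  rfl

lemma t25b_kp (a μ : ℕ) : kp a μ =
    ∑ β ∈ Fintype.piFinset (fun _ : Fin a => range (a * μ + 1)),
      MvPolynomial.map (C : ℚ →+* MvPolynomial (Fin a) ℚ)
        ((eps a (∏ j, ww a μ (β j)) : Lam a ℚ) : MvPolynomial (Fin a) ℚ) *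
      C (∏ j, X j ^ β j) := by
  rw [kp, prod_comm]
  have h1 : ∀ j : Fin a, ∏ i : Fin a, (1 - (X i : MvPolynomial (Fin a) (MvPolynomial (Fin a) ℚ)) *
      C (X j)) ^ μ = ∑ k ∈ range (a * μ + 1), MvPolynomial.map (C : ℚ →+* MvPolynomial (Fin a) ℚ)
        ((eps a (ww a μ k) : Lam a ℚ) : MvPolynomial (Fin a) ℚ) * C (X j) ^ k := by
    intro j
    rw [prod_pow, ← t25b_pow]
    simp_rw [map_X]
  rw [prod_congr rfl fun j _ => h1 j, prod_univ_sum]
  refine sum_congr rfl fun β _ => ?_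
  rw [prod_mul_distrib, map_prod (eps a), map_prod (C : MvPolynomial (Fin a) ℚ →+* _)]
  congr 1
  · rw [← map_prod]
    congr 1
    exact (map_prod (symmetricSubalgebra (Fin a) ℚ).val _ _).symm
  · simp_rw [map_pow]

lemma t25b_cw {r : ℕ} (φ : MvPolynomial (Fin r) ℚ →ₗ[ℚ] ℚ) (h p : MvPolynomial (Fin r) ℚ) :
    cw φ (MvPolynomial.map (C : ℚ →+* MvPolynomial (Fin r) ℚ) h * C p) = φ p • h := by
  ext a
  rw [coeff_cw, mul_comm, coeff_C_mul, coeff_map, mul_comm, ← smul_eq_C_mul, map_smul, coeff_smul,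
    smul_eq_mul, smul_eq_mul, mul_comm]

theorem KK_eps (a μ : ℕ) (φ : Lam a ℚ →ₗ[ℚ] ℚ) :
    KK μ φ ∈ Submodule.span ℚ (Set.range fun β : Fin a → ℕ => eps a (∏ j, ww a μ (β j))) := by
  have h : KK μ φ = ∑ β ∈ Fintype.piFinset (fun _ : Fin a => range (a * μ + 1)),
      (φ (ave a (∏ j, X j ^ β j))) • eps a (∏ j, ww a μ (β j)) := by
    apply Subtype.ext
    change cw (φ ∘ₗ ave a) (kp a μ) = _
    rw [t25b_kp, map_sum]
    simp_rw [t25b_cw]
    push_cast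
    rfl
  rw [h]
  exact Submodule.sum_mem _ fun β _ => Submodule.smul_mem _ _ (Submodule.subset_span ⟨β, rfl⟩)

end Helper87.TR
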