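import Mathlib
import Pool.Agent.Helper87.TR.St.T25b
import Pool.Agent.Helper87.TR.St.T24

/-!
# TR-25: products of `a` coefficients `w_k` span all polynomials of degree `a μ`

For `f` homogeneous of degree `a μ`, `eps a f` satisfies `Bx (a μ)` (`eps_Bx`), so by `KK_surj` and `KK_eps`
`eps a f = eps a g` with `g` in the span of the `∏_j ww a μ (β j)` (a span of images is the image of the span). `g` is
homogeneous of degree `a μ` too (`ww_homogeneous`), so `f = g` by `eps_inj`.
-/

set_option autoImplicit false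

open Finset

namespace Helper87.TR

theorem span_ww_self (a μ : ℕ) (ha : 1 ≤ a) (hμ : 1 ≤ μ) (f : MvPolynomial (Fin (a + 1)) ℚ)
    (hf : f.IsHomogeneous (a * μ)) :
    f ∈ Submodule.span ℚ (Set.range fun β : Fin a → ℕ => ∏ j, ww a μ (β j)) := by
  obtain ⟨φ, hφ⟩ := KK_surj ha hμ (eps a f) (eps_Bx hf)
  have h1 := KK_eps a μ φ
  rw [hφ] at h1
  have h2 : (Submodule.span ℚ (Set.range fun β : Fin a → ℕ => ∏ j, ww a μ (β j))).map
      (eps a).toLinearMap = Submodule.span ℚ (Set.range fun β : Fin a → ℕ =>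
        eps a (∏ j, ww a μ (β j))) := by
    rw [Submodule.map_span, ← Set.range_comp]
    rfl
  rw [← h2] at h1
  obtain ⟨g, hg, hge⟩ := h1
  have hgh : g.IsHomogeneous (a * μ) := by
    have h3 : Submodule.span ℚ (Set.range fun β : Fin a → ℕ => ∏ j, ww a μ (β j)) ≤
        MvPolynomial.homogeneousSubmodule (Fin (a + 1)) ℚ (a * μ) := by
      rw [Submodule.span_le]
      rintro _ ⟨β, rfl⟩
      rw [SetLike.mem_coe, MvPolynomial.mem_homogeneousSubmodule]
      have h4 := MvPolynomial.IsHomogeneous.prod (univ : Finset (Fin a))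
        (fun j => ww a μ (β j)) (fun _ => μ) (fun j _ => ww_homogeneous a μ (β j))
      rw [sum_const, card_univ, Fintype.card_fin, smul_eq_mul] at h4
      exact h4
    exact h3 hg
  rw [eps_inj hf hgh hge.symm]
  exact hg

end Helper87.TR
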