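import Mathlib
import Pool.Agent.Helper87.TR.Defs2

/-!
# TR-26: from `a` factors to `s ≥ a` factors

Step: if `f` is homogeneous of degree `d + μ` with `(a + 1) (μ - 1) + 1 ≤ d + μ`, then `f` is in the span of the products
`ww a μ k * g`, `g` homogeneous of degree `d`. It is enough to treat monomials `m` of degree `d + μ`; by pigeonhole some
exponent is `≥ μ`: `m = X_i^μ m'`. Now `ww a μ (i μ) = X_i^μ + ∑ (coefficient) X^α` over the `α ≠ μ e_i` with `|α| = μ`,
`∑ j α_j = i μ`; for them `∑ j^2 α_j > i^2 μ` (`∑ (j - i)^2 α_j > 0`). So modulo the span, `m` is a combination of monomials of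
the same degree with larger `∑ j^2 α_j`, which is bounded by `a^2 (d + μ)`: induction.
For `s ≥ a + 1` (and `μ ≥ 1`) `s μ ≥ (a + 1)(μ - 1) + 1`, so by induction on `s ≥ a` (start: the hypothesis `h0`,
step: `(s + 1) μ = s μ + μ`, products of `s` factors times one more factor, `Fin.prod_univ_succ`).
-/

set_option autoImplicit false

open Finset

namespace Helper87.TR

private lemma t26_ww (a μ k : ℕ) : ww a μ k =
    ∑ α ∈ piAntidiag (univ : Finset (Fin (a + 1))) μ,
      if ∑ i : Fin (a + 1), (i : ℕ) * α i = k then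
        MvPolynomial.monomial (fs α) ((Nat.multinomial univ α : ℕ) : ℚ) else 0 := by
  classical
  rw [ww, Finset.sum_pow_eq_sum_piAntidiag, Polynomial.finsetSum_coeff]
  refine sum_congr rfl fun α _ => ?_
  have h1 : (∏ i : Fin (a + 1), (Polynomial.C (MvPolynomial.X i) * Polynomial.X ^ (i : ℕ) :
      Polynomial (MvPolynomial (Fin (a + 1)) ℚ)) ^ α i) =
      Polynomial.C (∏ i : Fin (a + 1), (MvPolynomial.X i : MvPolynomial (Fin (a + 1)) ℚ) ^ α i) *
        Polynomial.X ^ (∑ i : Fin (a + 1), (i : ℕ) * α i) := by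
    simp_rw [mul_pow, prod_mul_distrib, ← pow_mul]
    rw [prod_pow_eq_pow_sum, map_prod]
    simp_rw [map_pow]
  rw [h1, monomial_fs]
  have h2 : (((Nat.multinomial univ α : ℕ) : Polynomial (MvPolynomial (Fin (a + 1)) ℚ))) =
      Polynomial.C (MvPolynomial.C (((Nat.multinomial univ α : ℕ) : ℚ))) := by
    simp
  rw [h2, ← mul_assoc, ← Polynomial.C_mul, Polynomial.coeff_C_mul_X_pow]
  by_cases h : ∑ i : Fin (a + 1), (i : ℕ) * α i = k
  · rw [if_pos h, if_pos h.symm]
  · rw [if_neg h, if_neg (Ne.symm h)]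

private lemma t26_lt (a μ : ℕ) (i : Fin (a + 1)) (α : Fin (a + 1) → ℕ) (h1 : ∑ j, α j = μ)
    (h2 : ∑ j : Fin (a + 1), (j : ℕ) * α j = i * μ) (h3 : α ≠ Pi.single i μ) :
    (i : ℕ) ^ 2 * μ < ∑ j : Fin (a + 1), (j : ℕ) ^ 2 * α j := by
  classical
  have h4 : ∃ j, j ≠ i ∧ 0 < α j := by
    by_contra h
    push Not at h
    apply h3
    have h5 : ∀ j, j ≠ i → α j = 0 := fun j hj => Nat.le_zero.1 (h j hj)
    have h6 : α i = μ := by
      rw [← h1, sum_eq_single i (fun j _ hj => h5 j hj) (by simp)]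
    ext j
    by_cases hj : j = i
    · subst hj
      rw [Pi.single_eq_same, h6]
    · rw [Pi.single_eq_of_ne hj, h5 j hj]
  obtain ⟨j, hj, hj2⟩ := h4
  have h5 : (0 : ℤ) < ∑ j : Fin (a + 1), (((j : ℕ) : ℤ) - ((i : ℕ) : ℤ)) ^ 2 * (α j : ℤ) := by
    refine sum_pos' (fun j _ => by positivity) ⟨j, mem_univ j, ?_⟩
    have h6 : ((j : ℕ) : ℤ) - ((i : ℕ) : ℤ) ≠ 0 := by
      intro h
      apply hj
      apply Fin.ext
      omega
    have h7 : (0 : ℤ) < (α j : ℤ) := by exact_mod_cast hj2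
    positivity
  have h6 : ∑ j : Fin (a + 1), (((j : ℕ) : ℤ) - ((i : ℕ) : ℤ)) ^ 2 * (α j : ℤ) =
      ∑ j : Fin (a + 1), (((j : ℕ) : ℤ)) ^ 2 * (α j : ℤ) - 2 * ((i : ℕ) : ℤ) * ∑ j : Fin (a + 1), ((j : ℕ) : ℤ) * (α j : ℤ) +
        ((i : ℕ) : ℤ) ^ 2 * ∑ j, (α j : ℤ) := by
    rw [mul_sum, mul_sum, ← sum_sub_distrib, ← sum_add_distrib]
    refine sum_congr rfl fun j _ => ?_
    ring
  have h7 : ∑ j : Fin (a + 1), ((j : ℕ) : ℤ) * (α j : ℤ) = ((i : ℕ) : ℤ) * (μ : ℤ) := by
    exact_mod_cast h2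
  have h8 : ∑ j, (α j : ℤ) = (μ : ℤ) := by exact_mod_cast h1
  rw [h6, h7, h8] at h5
  have h9 : (((i : ℕ) : ℤ)) ^ 2 * (μ : ℤ) < ∑ j : Fin (a + 1), (((j : ℕ) : ℤ)) ^ 2 * (α j : ℤ) := by
    nlinarith
  exact_mod_cast h9

/-- the span of the products `ww a μ k * g`, `g` homogeneous of degree `d` -/
private noncomputable def t26_W (a μ d : ℕ) : Submodule ℚ (MvPolynomial (Fin (a + 1)) ℚ) :=
  Submodule.span ℚ {h | ∃ (k : ℕ) (g : MvPolynomial (Fin (a + 1)) ℚ), g.IsHomogeneous d ∧ h = ww a μ k * g}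

private lemma t26_mono (a μ d : ℕ) (hd : (a + 1) * (μ - 1) + 1 ≤ d + μ) :
    ∀ (N : ℕ) (m : Fin (a + 1) → ℕ), ∑ j, m j = d + μ →
      a ^ 2 * (d + μ) - ∑ j : Fin (a + 1), (j : ℕ) ^ 2 * m j = N →
      (MvPolynomial.monomial (fs m) 1 : MvPolynomial (Fin (a + 1)) ℚ) ∈ t26_W a μ d := by
  classical
  intro N
  induction N using Nat.strong_induction_on with
  | _ N ih =>
    intro m hm hN
    -- pigeonhole
    obtain ⟨i, hi⟩ : ∃ i, μ ≤ m i := by
      by_contra h
      push Not at h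
      have h1 : ∑ j, m j ≤ ∑ _j : Fin (a + 1), (μ - 1) := sum_le_sum fun j _ => by
        have := h j
        omega
      rw [sum_const, card_univ, Fintype.card_fin, smul_eq_mul, hm] at h1
      omega
    set m' : Fin (a + 1) → ℕ := fun j => m j - Pi.single (M := fun _ => ℕ) i μ j with hm'
    have hmm : ∀ j, Pi.single (M := fun _ => ℕ) i μ j + m' j = m j := by
      intro j
      rw [hm']
      by_cases hj : j = i
      · subst hj
        simp only [Pi.single_eq_same]
        omega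
      · simp only [Pi.single_eq_of_ne hj]
        omega
    have hs' : ∑ j, m' j = d := by
      have h1 : ∑ j, (Pi.single (M := fun _ => ℕ) i μ j + m' j) = d + μ := by
        rw [sum_congr rfl fun j _ => hmm j, hm]
      rw [sum_add_distrib, Fintype.sum_pi_single'] at h1
      omega
    have hq' : ∑ j : Fin (a + 1), (j : ℕ) ^ 2 * m j =
        (i : ℕ) ^ 2 * μ + ∑ j : Fin (a + 1), (j : ℕ) ^ 2 * m' j := by
      rw [sum_congr rfl fun j _ => by rw [← hmm j, mul_add], sum_add_distrib]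
      congr 1
      rw [sum_eq_single i]
      · rw [Pi.single_eq_same]
      · intro j _ hj
        rw [Pi.single_eq_of_ne hj, mul_zero]
      · simp
    have hhom : (MvPolynomial.monomial (fs m') 1 : MvPolynomial (Fin (a + 1)) ℚ).IsHomogeneous d := by
      apply MvPolynomial.isHomogeneous_monomial
      rw [Finsupp.degree_eq_sum]
      exact hs'
    have hfs : ∀ α : Fin (a + 1) → ℕ, fs α + fs m' = fs (fun j => α j + m' j) := by
      intro α
      ext j
      rfl
    have hprod : ww a μ (i * μ) * MvPolynomial.monomial (fs m') 1 =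
        ∑ α ∈ piAntidiag (univ : Finset (Fin (a + 1))) μ,
          if ∑ j : Fin (a + 1), (j : ℕ) * α j = i * μ then
            MvPolynomial.monomial (fs (fun j => α j + m' j)) ((Nat.multinomial univ α : ℕ) : ℚ) else 0 := by
      rw [t26_ww, sum_mul]
      refine sum_congr rfl fun α _ => ?_
      split_ifs with h
      · rw [MvPolynomial.monomial_mul, mul_one, hfs]
      · rw [zero_mul]
    have hmem0 : Pi.single (M := fun _ => ℕ) i μ ∈ piAntidiag (univ : Finset (Fin (a + 1))) μ := by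
      rw [mem_piAntidiag]
      refine ⟨?_, fun _ _ => mem_univ _⟩
      rw [Fintype.sum_pi_single']
    rw [← add_sum_erase _ _ hmem0] at hprod
    have h0 : ∑ j : Fin (a + 1), (j : ℕ) * Pi.single (M := fun _ => ℕ) i μ j = i * μ := by
      rw [sum_eq_single i]
      · rw [Pi.single_eq_same]
      · intro j _ hj
        rw [Pi.single_eq_of_ne hj, mul_zero]
      · simp
    have hmul : Nat.multinomial (univ : Finset (Fin (a + 1))) (Pi.single (M := fun _ => ℕ) i μ) = 1 := by
      have h1 := Nat.multinomial_spec (univ : Finset (Fin (a + 1))) (Pi.single (M := fun _ => ℕ) i μ)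
      rw [Fintype.sum_pi_single', prod_eq_single i, Pi.single_eq_same] at h1
      · exact Nat.eq_of_mul_eq_mul_left (Nat.factorial_pos μ) (by rw [h1, mul_one])
      · intro j _ hj
        rw [Pi.single_eq_of_ne hj, Nat.factorial_zero]
      · simp
    rw [if_pos h0, hmul, Nat.cast_one] at hprod
    have hfm : (fun j => Pi.single (M := fun _ => ℕ) i μ j + m' j) = m := funext hmm
    rw [hfm] at hprod
    rw [← sub_eq_iff_eq_add.2 hprod]
    refine Submodule.sub_mem _ (Submodule.subset_span ⟨_, _, hhom, rfl⟩) (Submodule.sum_mem _ fun α hα => ?_)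
    split_ifs with h
    · have h1 : (MvPolynomial.monomial (fs (fun j => α j + m' j)) ((Nat.multinomial univ α : ℕ) : ℚ) :
          MvPolynomial (Fin (a + 1)) ℚ) = ((Nat.multinomial univ α : ℕ) : ℚ) •
            MvPolynomial.monomial (fs (fun j => α j + m' j)) 1 := by
        rw [MvPolynomial.smul_monomial, smul_eq_mul, mul_one]
      rw [h1]
      refine Submodule.smul_mem _ _ ?_
      rw [mem_erase, mem_piAntidiag] at hα
      have h2 := t26_lt a μ i α hα.2.1 h hα.1
      have h3 : ∑ j, (α j + m' j) = d + μ := by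
        rw [sum_add_distrib, hα.2.1, hs']
        ring
      have h4 : ∑ j : Fin (a + 1), (j : ℕ) ^ 2 * (α j + m' j) =
          ∑ j : Fin (a + 1), (j : ℕ) ^ 2 * α j + ∑ j : Fin (a + 1), (j : ℕ) ^ 2 * m' j := by
        rw [← sum_add_distrib]
        exact sum_congr rfl fun j _ => by ring
      have h5 : ∑ j : Fin (a + 1), (j : ℕ) ^ 2 * (α j + m' j) ≤ a ^ 2 * (d + μ) := by
        rw [← h3, mul_sum]
        refine sum_le_sum fun j _ => Nat.mul_le_mul_right _ ?_
        exact Nat.pow_le_pow_left (by omega) 2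
      refine ih _ ?_ _ h3 rfl
      rw [← hN]
      omega
    · exact Submodule.zero_mem _

private lemma t26_step (a μ d : ℕ) (hd : (a + 1) * (μ - 1) + 1 ≤ d + μ)
    (f : MvPolynomial (Fin (a + 1)) ℚ) (hf : f.IsHomogeneous (d + μ)) : f ∈ t26_W a μ d := by
  classical
  rw [f.as_sum]
  refine Submodule.sum_mem _ fun m hm => ?_
  have h1 : (MvPolynomial.monomial m (f.coeff m) : MvPolynomial (Fin (a + 1)) ℚ) =
      f.coeff m • MvPolynomial.monomial (fs fun j => m j) 1 := by
    rw [fs_coe, MvPolynomial.smul_monomial, smul_eq_mul, mul_one]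
  rw [h1]
  refine Submodule.smul_mem _ _ (t26_mono a μ d hd _ _ ?_ rfl)
  have h2 := hf (MvPolynomial.mem_support_iff.1 hm)
  rw [← h2, Finsupp.weight_apply, Finsupp.sum_fintype _ _ (fun i => by simp)]
  simp

theorem span_ww_of (a μ s : ℕ) (hμ : 1 ≤ μ) (hs : a ≤ s)
    (h0 : ∀ f : MvPolynomial (Fin (a + 1)) ℚ, f.IsHomogeneous (a * μ) →
      f ∈ Submodule.span ℚ (Set.range fun β : Fin a → ℕ => ∏ j, ww a μ (β j)))
    (f : MvPolynomial (Fin (a + 1)) ℚ) (hf : f.IsHomogeneous (s * μ)) :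
    f ∈ Submodule.span ℚ (Set.range fun β : Fin s → ℕ => ∏ j, ww a μ (β j)) := by
  induction s, hs using Nat.le_induction generalizing f with
  | base => exact h0 f hf
  | succ s hs ih =>
    have hd : (a + 1) * (μ - 1) + 1 ≤ s * μ + μ := by
      obtain ⟨ν, rfl⟩ : ∃ ν, μ = ν + 1 := ⟨μ - 1, by omega⟩
      rw [Nat.add_sub_cancel]
      nlinarith
    have h1 := t26_step a μ (s * μ) hd f (by rw [add_mul, one_mul] at hf; exact hf)
    refine (Submodule.span_le.2 ?_ : t26_W a μ (s * μ) ≤ _) h1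
    rintro h ⟨k, g, hg, rfl⟩
    have h2 := ih g hg
    have h3 : ww a μ k * g ∈ Submodule.map (LinearMap.mulLeft ℚ (ww a μ k))
        (Submodule.span ℚ (Set.range fun β : Fin s → ℕ => ∏ j, ww a μ (β j))) :=
      Submodule.mem_map_of_mem h2
    rw [Submodule.map_span] at h3
    refine Submodule.span_mono ?_ h3
    rintro _ ⟨_, ⟨β, rfl⟩, rfl⟩
    refine ⟨Fin.cons k β, ?_⟩
    change ∏ j, ww a μ ((Fin.cons k β : Fin (s + 1) → ℕ) j) = ww a μ k * ∏ j, ww a μ (β j)
    rw [Fin.prod_univ_succ]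
    simp only [Fin.cons_zero, Fin.cons_succ]

end Helper87.TR
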