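import Mathlib
import Pool.Agent.Helper87.TR.St.T25
import Pool.Agent.Helper87.TR.St.T26
import Pool.Agent.Helper87.TR.Defs2

/-!
# TR-29a: the homomorphism `X_k ↦ ww a μ k`

* `prw_mem`: `ww a μ k ∈ Vw a μ k` (coefficient of `T^k` in `(∑ X_i T^i)^μ`), products multiply degrees and weights.
* `prw_surj`: by `span_ww_self`, `span_ww_of` every
  polynomial homogeneous of degree `s μ` is a combination of products of `s` of the `ww a μ β` (those with `β > a μ` are `0`),
  i.e. the image of a combination of monomials of degree `s` in `X_0, ..., X_{a μ}`;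
  for a polynomial of weight `k` keep only the monomials of weight `k` (the image of a monomial of weight `w` has weight `w`).
* `prw_dl1`: both sides are derivations along `π = prw`: check on `X_k`: `dl1 a (ww a μ k) = (k + 1) ww a μ (k + 1)`,
  which is the coefficient of `T^k` in `(Q^μ)' = d/dT Q^μ`, where `Q = ∑ X_i T^i` and `dl1 a` applied to the coefficients
  of `Q` is `Q'` (both `dl1 a` coefficientwise and `d/dT` are derivations); and `ww a μ (a μ + 1) = 0`.
-/

set_option autoImplicit false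

open Finset

namespace Helper87.TR

/-- the algebra homomorphism `X_k ↦ ww a μ k` -/
noncomputable def prw (a μ : ℕ) :
    MvPolynomial (Fin (a * μ + 1)) ℚ →ₐ[ℚ] MvPolynomial (Fin (a + 1)) ℚ :=
  MvPolynomial.aeval fun k : Fin (a * μ + 1) => ww a μ (k : ℕ)

/-- the polynomial `Q = ∑ X_i T^i` -/
noncomputable def t29a_Q (a : ℕ) : Polynomial (MvPolynomial (Fin (a + 1)) ℚ) :=
  ∑ i : Fin (a + 1), Polynomial.C (MvPolynomial.X i) * Polynomial.X ^ (i : ℕ)

lemma t29a_ww (a μ k : ℕ) : ww a μ k = (t29a_Q a ^ μ).coeff k := rfl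

lemma t29a_Q_coeff (a j : ℕ) : (t29a_Q a).coeff j =
    if h : j < a + 1 then MvPolynomial.X (⟨j, h⟩ : Fin (a + 1)) else 0 := by
  rw [t29a_Q, Polynomial.finsetSum_coeff]
  simp_rw [Polynomial.coeff_C_mul, Polynomial.coeff_X_pow]
  by_cases h : j < a + 1
  · rw [dif_pos h, Finset.sum_eq_single (⟨j, h⟩ : Fin (a + 1))]
    · simp
    · intro b _ hb
      rw [if_neg, mul_zero]
      intro h1
      exact hb (Fin.ext h1.symm)
    · intro h1
      exact absurd (Finset.mem_univ _) h1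
  · rw [dif_neg h]
    refine Finset.sum_eq_zero fun b _ => ?_
    rw [if_neg, mul_zero]
    intro h1
    exact h (h1 ▸ b.2)

lemma t29a_mem_iff {d m k : ℕ} {f : MvPolynomial (Fin (d + 1)) ℚ} :
    f ∈ Vw d m k ↔ ∀ a : Fin (d + 1) →₀ ℕ, MvPolynomial.coeff a f ≠ 0 →
      ∑ i, a i = m ∧ ∑ i : Fin (d + 1), (i : ℕ) * a i = k := Iff.rfl

lemma t29a_mul_mem {d m k m' k' : ℕ} {f g : MvPolynomial (Fin (d + 1)) ℚ}
    (hf : f ∈ Vw d m k) (hg : g ∈ Vw d m' k') : f * g ∈ Vw d (m + m') (k + k') := by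
  classical
  rw [t29a_mem_iff] at *
  intro a h
  rw [MvPolynomial.coeff_mul] at h
  obtain ⟨⟨x, y⟩, hxy, hne⟩ := Finset.exists_ne_zero_of_sum_ne_zero h
  rw [Finset.HasAntidiagonal.mem_antidiagonal] at hxy
  obtain ⟨h1, h2⟩ := hf x (left_ne_zero_of_mul hne)
  obtain ⟨h3, h4⟩ := hg y (right_ne_zero_of_mul hne)
  subst hxy
  constructor
  · rw [← h1, ← h3, ← Finset.sum_add_distrib]
    rfl
  · rw [← h2, ← h4, ← Finset.sum_add_distrib]
    refine Finset.sum_congr rfl fun i _ => ?_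
    rw [Finsupp.add_apply, mul_add]

lemma t29a_C_mem (d : ℕ) (c : ℚ) : (MvPolynomial.C c : MvPolynomial (Fin (d + 1)) ℚ) ∈ Vw d 0 0 := by
  classical
  rw [t29a_mem_iff]
  intro a h
  rw [MvPolynomial.coeff_C] at h
  have h1 : 0 = a := by
    by_contra h2
    exact h (if_neg h2)
  subst h1
  simp

lemma t29a_one_mem (d : ℕ) : (1 : MvPolynomial (Fin (d + 1)) ℚ) ∈ Vw d 0 0 := by
  have := t29a_C_mem d 1
  rwa [MvPolynomial.C_1] at this

lemma t29a_X_mem (d : ℕ) (i : Fin (d + 1)) : (MvPolynomial.X i : MvPolynomial (Fin (d + 1)) ℚ) ∈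
    Vw d 1 (i : ℕ) := by
  classical
  rw [t29a_mem_iff]
  intro a h
  rw [MvPolynomial.coeff_X] at h
  have h1 : Finsupp.single i 1 = a := by
    by_contra h2
    exact h (if_neg h2)
  subst h1
  constructor
  · simp [Finsupp.single_apply]
  · simp [Finsupp.single_apply]

lemma t29a_pow_mem {d m k : ℕ} {f : MvPolynomial (Fin (d + 1)) ℚ} (hf : f ∈ Vw d m k) (n : ℕ) :
    f ^ n ∈ Vw d (n * m) (n * k) := by
  induction n with
  | zero =>
    rw [pow_zero, zero_mul, zero_mul]
    exact t29a_one_mem d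
  | succ n ih =>
    rw [pow_succ, add_mul, add_mul, one_mul, one_mul]
    exact t29a_mul_mem ih hf

lemma t29a_prod_mem {ι : Type*} {d : ℕ} (S : Finset ι) (m k : ι → ℕ)
    (f : ι → MvPolynomial (Fin (d + 1)) ℚ) (hf : ∀ i ∈ S, f i ∈ Vw d (m i) (k i)) :
    ∏ i ∈ S, f i ∈ Vw d (∑ i ∈ S, m i) (∑ i ∈ S, k i) := by
  classical
  induction S using Finset.induction_on with
  | empty =>
    rw [Finset.prod_empty, Finset.sum_empty, Finset.sum_empty]
    exact t29a_one_mem d
  | insert a S ha ih =>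
    rw [Finset.prod_insert ha, Finset.sum_insert ha, Finset.sum_insert ha]
    exact t29a_mul_mem (hf a (Finset.mem_insert_self _ _))
      (ih fun i hi => hf i (Finset.mem_insert_of_mem hi))

lemma t29a_Q_mem (a j : ℕ) : (t29a_Q a).coeff j ∈ Vw a 1 j := by
  rw [t29a_Q_coeff]
  by_cases h : j < a + 1
  · rw [dif_pos h]
    exact t29a_X_mem a ⟨j, h⟩
  · rw [dif_neg h]
    exact Submodule.zero_mem _

lemma t29a_ww_mem (a μ k : ℕ) : ww a μ k ∈ Vw a μ k := by
  induction μ generalizing k with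
  | zero =>
    rw [t29a_ww, pow_zero, Polynomial.coeff_one]
    by_cases h : k = 0
    · subst h
      rw [if_pos rfl]
      exact t29a_one_mem a
    · rw [if_neg h]
      exact Submodule.zero_mem _
  | succ μ ih =>
    rw [t29a_ww, pow_succ, Polynomial.coeff_mul]
    refine Submodule.sum_mem _ fun x hx => ?_
    rw [Finset.HasAntidiagonal.mem_antidiagonal] at hx
    rw [← hx]
    exact t29a_mul_mem (ih x.1) (t29a_Q_mem a x.2)

lemma t29a_ww_zero (a μ k : ℕ) (h : a * μ < k) : ww a μ k = 0 := by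
  rw [t29a_ww]
  refine Polynomial.coeff_eq_zero_of_natDegree_lt (lt_of_le_of_lt ?_ h)
  refine Polynomial.natDegree_pow_le.trans ?_
  rw [mul_comm]
  refine Nat.mul_le_mul_right μ ?_
  rw [Polynomial.natDegree_le_iff_coeff_eq_zero]
  intro N hN
  rw [t29a_Q_coeff, dif_neg (by omega)]

lemma t29a_prw_X (a μ : ℕ) (k : Fin (a * μ + 1)) :
    prw a μ (MvPolynomial.X k) = ww a μ (k : ℕ) := by
  rw [prw, MvPolynomial.aeval_X]

lemma t29a_prw_monomial (a μ : ℕ) (e : Fin (a * μ + 1) →₀ ℕ) (c : ℚ) :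
    prw a μ (MvPolynomial.monomial e c) =
      MvPolynomial.C c * ∏ i : Fin (a * μ + 1), ww a μ (i : ℕ) ^ e i := by
  rw [prw, MvPolynomial.aeval_monomial, Finsupp.prod_fintype _ _ (fun i => pow_zero _)]
  rfl

theorem prw_mem (a μ s k : ℕ) {f : MvPolynomial (Fin (a * μ + 1)) ℚ} (hf : f ∈ Vw (a * μ) s k) :
    prw a μ f ∈ Vw a (s * μ) k := by
  rw [f.as_sum, map_sum]
  refine Submodule.sum_mem _ fun e he => ?_
  rw [t29a_prw_monomial]
  obtain ⟨h1, h2⟩ := hf e (MvPolynomial.mem_support_iff.1 he)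
  have h3 := t29a_prod_mem (Finset.univ : Finset (Fin (a * μ + 1))) (fun i => e i * μ)
    (fun i => e i * (i : ℕ)) (fun i => ww a μ (i : ℕ) ^ e i)
    (fun i _ => t29a_pow_mem (t29a_ww_mem a μ (i : ℕ)) (e i))
  have h4 := t29a_mul_mem (t29a_C_mem a (MvPolynomial.coeff e f)) h3
  have h5 : 0 + ∑ i, e i * μ = s * μ := by
    rw [zero_add, ← Finset.sum_mul, h1]
  have h6 : 0 + ∑ i : Fin (a * μ + 1), e i * (i : ℕ) = k := by
    rw [zero_add, ← h2]
    exact Finset.sum_congr rfl fun i _ => mul_comm _ _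
  rw [h5, h6] at h4
  exact h4

/-- the weights -/
def t29a_w (a : ℕ) : Fin (a + 1) → ℕ := fun i => (i : ℕ)

lemma t29a_weight (a : ℕ) (e : Fin (a + 1) →₀ ℕ) :
    Finsupp.weight (t29a_w a) e = ∑ i : Fin (a + 1), (i : ℕ) * e i := by
  rw [Finsupp.weight_apply, Finsupp.sum_fintype _ _ (fun i => by simp)]
  refine Finset.sum_congr rfl fun i _ => ?_
  rw [smul_eq_mul, mul_comm]
  rfl

lemma t29a_whc {a m k : ℕ} {f : MvPolynomial (Fin (a + 1)) ℚ} (hf : f ∈ Vw a m k) (n : ℕ) :
    MvPolynomial.weightedHomogeneousComponent (t29a_w a) n f = if k = n then f else 0 := by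
  classical
  ext e
  rw [MvPolynomial.coeff_weightedHomogeneousComponent, t29a_weight]
  by_cases h0 : MvPolynomial.coeff e f = 0
  · rw [h0, ite_self]
    by_cases h : k = n
    · rw [if_pos h, h0]
    · rw [if_neg h, MvPolynomial.coeff_zero]
  · rw [(hf e h0).2]
    by_cases h : k = n
    · rw [if_pos h, if_pos h]
    · rw [if_neg h, if_neg h, MvPolynomial.coeff_zero]

lemma t29a_homogeneous {a m k : ℕ} {f : MvPolynomial (Fin (a + 1)) ℚ} (hf : f ∈ Vw a m k) :
    f.IsHomogeneous m := by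
  intro e he
  rw [Finsupp.weight_apply, Finsupp.sum_fintype _ _ (fun i => by simp), ← (hf e he).1]
  simp

theorem prw_surj (a μ s k : ℕ) (ha : 1 ≤ a) (hμ : 1 ≤ μ) (hs : a ≤ s)
    {g : MvPolynomial (Fin (a + 1)) ℚ} (hg : g ∈ Vw a (s * μ) k) :
    ∃ f ∈ Vw (a * μ) s k, prw a μ f = g := by
  have h1 := span_ww_of a μ s hμ hs (fun f hf => span_ww_self a μ ha hμ f hf) g
    (t29a_homogeneous hg)
  have h2 : ∀ g : MvPolynomial (Fin (a + 1)) ℚ,
      g ∈ Submodule.span ℚ (Set.range fun β : Fin s → ℕ => ∏ j, ww a μ (β j)) →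
      ∃ f ∈ Vw (a * μ) s k,
        prw a μ f = MvPolynomial.weightedHomogeneousComponent (t29a_w a) k g := by
    intro g hg
    induction hg using Submodule.span_induction with
    | mem x hx =>
      obtain ⟨β, rfl⟩ := hx
      have h3 : ∏ j, ww a μ (β j) ∈ Vw a (∑ _j : Fin s, μ) (∑ j, β j) :=
        t29a_prod_mem Finset.univ (fun _ => μ) β (fun j => ww a μ (β j))
          (fun j _ => t29a_ww_mem a μ (β j))
      change ∃ f ∈ Vw (a * μ) s k, prw a μ f =
        MvPolynomial.weightedHomogeneousComponent (t29a_w a) k (∏ j, ww a μ (β j))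
      rw [t29a_whc h3 k]
      by_cases hk : ∑ j, β j = k
      · rw [if_pos hk]
        by_cases hb : ∀ j, β j < a * μ + 1
        · refine ⟨∏ j, MvPolynomial.X (⟨β j, hb j⟩ : Fin (a * μ + 1)), ?_, ?_⟩
          · have h4 := t29a_prod_mem (d := a * μ) (Finset.univ : Finset (Fin s)) (fun _ => 1) β
              (fun j => MvPolynomial.X (⟨β j, hb j⟩ : Fin (a * μ + 1)))
              (fun j _ => t29a_X_mem (a * μ) ⟨β j, hb j⟩)
            rw [hk] at h4
            have h5 : ∑ _i : Fin s, 1 = s := by simp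
            rw [h5] at h4
            exact h4
          · rw [map_prod]
            refine Finset.prod_congr rfl fun j _ => ?_
            rw [t29a_prw_X]
        · push Not at hb
          obtain ⟨j, hj⟩ := hb
          refine ⟨0, Submodule.zero_mem _, ?_⟩
          rw [map_zero]
          symm
          refine Finset.prod_eq_zero (Finset.mem_univ j) (t29a_ww_zero a μ (β j) (by omega))
      · rw [if_neg hk]
        exact ⟨0, Submodule.zero_mem _, map_zero _⟩
    | zero => exact ⟨0, Submodule.zero_mem _, by rw [map_zero, map_zero]⟩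
    | add x y _ _ ihx ihy =>
      obtain ⟨f, hf, hfx⟩ := ihx
      obtain ⟨f', hf', hfy⟩ := ihy
      exact ⟨f + f', Submodule.add_mem _ hf hf', by rw [map_add, map_add, hfx, hfy]⟩
    | smul c x _ ihx =>
      obtain ⟨f, hf, hfx⟩ := ihx
      exact ⟨c • f, Submodule.smul_mem _ c hf, by rw [map_smul, map_smul, hfx]⟩
  obtain ⟨f, hf, hfg⟩ := h2 g h1
  refine ⟨f, hf, ?_⟩
  rw [hfg, t29a_whc hg k, if_pos rfl]

lemma t29a_dl1_X (d : ℕ) (i : Fin (d + 1)) : dl1 d (MvPolynomial.X i) =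
    if h : (i : ℕ) + 1 < d + 1 then
      (((i : ℕ) + 1 : ℕ) : ℚ) • MvPolynomial.X (⟨(i : ℕ) + 1, h⟩ : Fin (d + 1)) else 0 := by
  rw [dl1, MvPolynomial.mkDerivation_X]

lemma t29a_dl1_Q (a j : ℕ) : dl1 a ((t29a_Q a).coeff j) =
    (t29a_Q a).coeff (j + 1) * ((j : MvPolynomial (Fin (a + 1)) ℚ) + 1) := by
  rw [t29a_Q_coeff, t29a_Q_coeff]
  by_cases h : j < a + 1
  · rw [dif_pos h, t29a_dl1_X]
    by_cases h' : j + 1 < a + 1
    · rw [dif_pos h', dif_pos h', MvPolynomial.smul_eq_C_mul, mul_comm]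
      simp
    · rw [dif_neg h', dif_neg h', zero_mul]
  · rw [dif_neg h, dif_neg (by omega), map_zero, zero_mul]

lemma t29a_dl1_ww (a μ k : ℕ) : dl1 a (ww a μ k) =
    ww a μ (k + 1) * ((k : MvPolynomial (Fin (a + 1)) ℚ) + 1) := by
  induction μ generalizing k with
  | zero =>
    rw [t29a_ww, t29a_ww, pow_zero, Polynomial.coeff_one, Polynomial.coeff_one,
      if_neg (Nat.succ_ne_zero k), zero_mul]
    by_cases h : k = 0
    · rw [if_pos h, Derivation.map_one_eq_zero]
    · rw [if_neg h, map_zero]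
  | succ μ ih =>
    have h1 : ww a (μ + 1) (k + 1) * ((k : MvPolynomial (Fin (a + 1)) ℚ) + 1) =
        (Polynomial.derivative (t29a_Q a ^ μ * t29a_Q a)).coeff k := by
      rw [Polynomial.coeff_derivative, t29a_ww, pow_succ]
    rw [h1, Polynomial.derivative_mul, Polynomial.coeff_add, Polynomial.coeff_mul,
      Polynomial.coeff_mul, t29a_ww, pow_succ, Polynomial.coeff_mul, map_sum,
      ← Finset.sum_add_distrib]
    refine Finset.sum_congr rfl fun x _ => ?_
    rw [Derivation.leibniz, Polynomial.coeff_derivative, Polynomial.coeff_derivative,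
      t29a_dl1_Q, ← t29a_ww, ih, ← t29a_ww, smul_eq_mul, smul_eq_mul]
    ring

lemma t29a_prw_dl1_X (a μ : ℕ) (k : Fin (a * μ + 1)) :
    prw a μ (dl1 (a * μ) (MvPolynomial.X k)) = dl1 a (prw a μ (MvPolynomial.X k)) := by
  rw [t29a_dl1_X, t29a_prw_X, t29a_dl1_ww]
  by_cases h : (k : ℕ) + 1 < a * μ + 1
  · rw [dif_pos h, map_smul, t29a_prw_X, MvPolynomial.smul_eq_C_mul, mul_comm]
    simp
  · rw [dif_neg h, map_zero, t29a_ww_zero a μ _ (by omega), zero_mul]

theorem prw_dl1 (a μ : ℕ) (f : MvPolynomial (Fin (a * μ + 1)) ℚ) :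
    prw a μ (dl1 (a * μ) f) = dl1 a (prw a μ f) := by
  induction f using MvPolynomial.induction_on with
  | C c =>
    have h1 : prw a μ (MvPolynomial.C c) = MvPolynomial.C c := by
      rw [prw, MvPolynomial.aeval_C]
      rfl
    rw [h1, MvPolynomial.derivation_C, MvPolynomial.derivation_C, map_zero]
  | add p q hp hq => rw [map_add, map_add, map_add, map_add, hp, hq]
  | mul_X p i hp =>
    rw [Derivation.leibniz, map_add, smul_eq_mul, smul_eq_mul, map_mul, map_mul, map_mul,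
      Derivation.leibniz, smul_eq_mul, smul_eq_mul, hp, t29a_prw_dl1_X]

end Helper87.TR
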