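import Mathlib
import Pool.Agent.Helper87.TR.St.T29a
import Pool.Agent.Helper87.TR.St.T27
import Pool.Agent.Helper87.TR.St.T27b
import Pool.Agent.Helper87.TR.St.T28

/-!
# TR-29: the inequality between numbers of partitions in boxes

`π = prw a μ`.
* `2 (k + 1) ≤ a s μ`: `dl1` is injective on `Vw a (s μ) k` and on `Vw (a μ) s k` (`dl1_inj`). The map induced by `π`
  from `Vw (a μ) s (k+1) / dl1 (Vw (a μ) s k)` to `Vw a (s μ) (k+1) / dl1 (Vw a (s μ) k)` is well defined (`prw_dl1`,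
  `prw_mem`) and onto (`prw_surj`), so
  `dim Vw a (s μ) (k+1) - dim Vw a (s μ) k ≤ dim Vw (a μ) s (k+1) - dim Vw (a μ) s k`; use `finrank_Vw`, `Vw_finite`.
* `pb_main`: `m ∣ q`: `a = m`, `q = m μ`, `s = p`, `n = p μ`. `m ∣ p`: exchange `p` and `q` with `pb_comm`.
-/

set_option autoImplicit false

open Finset

namespace Helper87.TR

lemma t29_range (a μ s k : ℕ) (ha : 1 ≤ a) (hμ : 1 ≤ μ) (hs : a ≤ s) :
    LinearMap.range ((prw a μ).toLinearMap.domRestrict (Vw (a * μ) s k)) = Vw a (s * μ) k := by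
  ext g
  constructor
  · rintro ⟨f, rfl⟩
    exact prw_mem a μ s k f.2
  · intro hg
    obtain ⟨f, hf, h⟩ := prw_surj a μ s k ha hμ hs hg
    exact ⟨⟨f, hf⟩, h⟩

lemma t29_rank (a μ s k : ℕ) (ha : 1 ≤ a) (hμ : 1 ≤ μ) (hs : a ≤ s) :
    pb (s * μ) a k + Module.finrank ℚ
      (LinearMap.ker ((prw a μ).toLinearMap.domRestrict (Vw (a * μ) s k))) = pb s (a * μ) k := by
  have := Vw_finite (a * μ) s k
  have h := LinearMap.finrank_range_add_finrank_ker
    ((prw a μ).toLinearMap.domRestrict (Vw (a * μ) s k))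
  rw [t29_range a μ s k ha hμ hs, finrank_Vw, finrank_Vw] at h
  exact h

/-- the map on the kernels induced by `dl1` -/
noncomputable def t29_map (a μ s k : ℕ) :
    LinearMap.ker ((prw a μ).toLinearMap.domRestrict (Vw (a * μ) s k)) →ₗ[ℚ]
    LinearMap.ker ((prw a μ).toLinearMap.domRestrict (Vw (a * μ) s (k + 1))) where
  toFun f := ⟨⟨dl1 (a * μ) f.1.1, dl1_mem _ _ _ f.1.2⟩, by
    have h : prw a μ f.1.1 = 0 := f.2
    change prw a μ (dl1 (a * μ) f.1.1) = 0
    rw [prw_dl1, h, map_zero]⟩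
  map_add' f g := by
    refine Subtype.ext (Subtype.ext ?_)
    exact map_add (dl1 (a * μ)) f.1.1 g.1.1
  map_smul' c f := by
    refine Subtype.ext (Subtype.ext ?_)
    exact Derivation.map_smul (dl1 (a * μ)) c f.1.1

lemma t29_map_inj (a μ s k : ℕ) (hk : 2 * (k + 1) ≤ a * (s * μ)) :
    Function.Injective (t29_map a μ s k) := by
  intro f g hf
  have h : dl1 (a * μ) f.1.1 = dl1 (a * μ) g.1.1 := congrArg (fun x => x.1.1) hf
  have h1 : a * (s * μ) = a * μ * s := by ring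
  have h2 : dl1 (a * μ) (f.1.1 - g.1.1) = 0 := by rw [map_sub, h, sub_self]
  have h3 := dl1_inj (a * μ) s k (by omega) (Submodule.sub_mem _ f.1.2 g.1.2) h2
  exact Subtype.ext (Subtype.ext (sub_eq_zero.1 h3))

theorem pb_ineq (a μ s k : ℕ) (ha : 1 ≤ a) (hμ : 1 ≤ μ) (hs : a ≤ s)
    (hk : 2 * (k + 1) ≤ a * (s * μ)) :
    pb (s * μ) a (k + 1) + pb s (a * μ) k ≤ pb s (a * μ) (k + 1) + pb (s * μ) a k := by
  have := Vw_finite (a * μ) s k
  have := Vw_finite (a * μ) s (k + 1)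
  have h0 := t29_rank a μ s k ha hμ hs
  have h1 := t29_rank a μ s (k + 1) ha hμ hs
  have h2 := LinearMap.finrank_le_finrank_of_injective (t29_map_inj a μ s k hk)
  omega

theorem pb_main (m n p q k : ℕ) (hm : 1 ≤ m) (h : m * n = p * q) (hp : m ≤ p) (hq : m ≤ q)
    (hd : m ∣ p ∨ m ∣ q) (hk : 2 * (k + 1) ≤ m * n) :
    pb m n (k + 1) + pb p q k ≤ pb p q (k + 1) + pb m n k := by
  rcases hd with hd | hd
  · obtain ⟨μ, rfl⟩ := hd
    have hn : n = q * μ := by
      refine Nat.eq_of_mul_eq_mul_left (Nat.lt_of_lt_of_le Nat.zero_lt_one hm) ?_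
      rw [h]
      ring
    subst hn
    have hμ : 1 ≤ μ := by
      rcases Nat.eq_zero_or_pos μ with h0 | h0
      · subst h0
        omega
      · exact h0
    have := pb_ineq m μ q k hm hμ hq hk
    rw [pb_comm m, pb_comm m, pb_comm (m * μ), pb_comm (m * μ)]
    exact this
  · obtain ⟨μ, rfl⟩ := hd
    have hn : n = p * μ := by
      refine Nat.eq_of_mul_eq_mul_left (Nat.lt_of_lt_of_le Nat.zero_lt_one hm) ?_
      rw [h]
      ring
    subst hn
    have hμ : 1 ≤ μ := by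
      rcases Nat.eq_zero_or_pos μ with h0 | h0
      · subst h0
        omega
      · exact h0
    have := pb_ineq m μ p k hm hμ hp hk
    rw [pb_comm m, pb_comm m]
    exact this

end Helper87.TR
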