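import Mathlib
import Pool.Agent.Helper87.TR.Defs2

/-!
# TR-30: equivariant maps between permutation modules

`G` a finite group acting on finite sets. `Hom_G(ℂ^X, ℂ^Y)` is isomorphic to the space of functions `K` on `X × Y` with
`K (g x, g y) = K (x, y)` (`(T f)(y) = ∑_x K (x, y) f(x)`), i.e. the functions on the set of orbits of `G` on `X × Y`, whose
dimension is the number of orbits. (`act g f x = f (g⁻¹ x)`; the domain in `HomG` is the submodule `⊤`, isomorphic to the whole
space by `Submodule.topEquiv`.)
-/

set_option autoImplicit false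

open Finset

namespace Helper87.TR

theorem t30_mk_smul {G X Y : Type*} [Group G] [MulAction G X] [MulAction G Y] (g : G) (x : X)
    (y : Y) : (Quotient.mk (MulAction.orbitRel G (X × Y)) (g • x, g • y)) =
      Quotient.mk (MulAction.orbitRel G (X × Y)) (x, y) := by
  apply Quotient.sound
  change MulAction.orbitRel G (X × Y) (g • x, g • y) (x, y)
  rw [MulAction.orbitRel_apply]
  exact ⟨g, rfl⟩

theorem finrank_Hom_top (G X Y : Type*) [Group G] [Finite G] [Finite X] [Finite Y] [MulAction G X]
    [MulAction G Y] :
    Module.finrank ℂ (HomG G Y (⊤ : Submodule ℂ (X → ℂ))) =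
      Nat.card (MulAction.orbitRel.Quotient G (X × Y)) := by
  classical
  have iX : Fintype X := Fintype.ofFinite X
  have iQf : Finite (MulAction.orbitRel.Quotient G (X × Y)) := Quotient.finite _
  have iQ : Fintype (MulAction.orbitRel.Quotient G (X × Y)) := Fintype.ofFinite _
  let T : (MulAction.orbitRel.Quotient G (X × Y) → ℂ) →
      ((⊤ : Submodule ℂ (X → ℂ)) →ₗ[ℂ] (Y → ℂ)) := fun K =>
    { toFun := fun f y => ∑ x, K (Quotient.mk (MulAction.orbitRel G (X × Y)) (x, y)) *
        (f : X → ℂ) x
      map_add' := fun f f' => by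
        funext y
        simp only [Submodule.coe_add, Pi.add_apply, mul_add, sum_add_distrib]
      map_smul' := fun c f => by
        funext y
        simp only [Submodule.coe_smul, Pi.smul_apply, smul_eq_mul, RingHom.id_apply, mul_sum]
        refine sum_congr rfl fun x _ => ?_
        ring }
  have hT : ∀ K f y, T K f y = ∑ x, K (Quotient.mk (MulAction.orbitRel G (X × Y)) (x, y)) *
        (f : X → ℂ) x := fun K f y => rfl
  let Φ : (MulAction.orbitRel.Quotient G (X × Y) → ℂ) →ₗ[ℂ]
      HomG G Y (⊤ : Submodule ℂ (X → ℂ)) :=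
    { toFun := fun K => ⟨T K, by
        intro g f f' hff
        funext y
        rw [act, hT, hT, hff,
          ← Equiv.sum_comp (MulAction.toPerm g : Equiv.Perm X)
            (fun x => K (Quotient.mk (MulAction.orbitRel G (X × Y)) (x, y)) *
              act g (f : X → ℂ) x)]
        refine sum_congr rfl fun x _ => ?_
        rw [act, MulAction.toPerm_apply, inv_smul_smul]
        congr 2
        have := t30_mk_smul g x (g⁻¹ • y)
        rw [smul_inv_smul] at this
        exact this⟩
      map_add' := fun K K' => by
        apply Subtype.ext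
        ext f y
        simp only [Submodule.coe_add, LinearMap.add_apply, Pi.add_apply, hT, add_mul,
          sum_add_distrib]
      map_smul' := fun c K => by
        apply Subtype.ext
        ext f y
        simp only [Submodule.coe_smul, LinearMap.smul_apply, Pi.smul_apply, hT, smul_eq_mul,
          RingHom.id_apply, mul_sum, mul_assoc] }
  have hΦ : ∀ K, (Φ K : (⊤ : Submodule ℂ (X → ℂ)) →ₗ[ℂ] (Y → ℂ)) = T K := fun K => rfl
  have hsingle : ∀ K x y, T K ⟨Pi.single x 1, trivial⟩ y =
      K (Quotient.mk (MulAction.orbitRel G (X × Y)) (x, y)) := by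
    intro K x y
    rw [hT, sum_eq_single x]
    · simp
    · intro z _ hz
      simp [Pi.single_eq_of_ne hz]
    · simp
  have hinj : Function.Injective Φ := by
    intro K K' h
    funext q
    induction q using Quotient.inductionOn with
    | h p =>
      obtain ⟨x, y⟩ := p
      have h1 : T K = T K' := congrArg Subtype.val h
      rw [← hsingle K x y, h1, hsingle]
  have hsurj : Function.Surjective Φ := by
    intro S
    have hS : ∀ (g : G) (f f' : (⊤ : Submodule ℂ (X → ℂ))), (f' : X → ℂ) = act g (f : X → ℂ) →
      (S : (⊤ : Submodule ℂ (X → ℂ)) →ₗ[ℂ] (Y → ℂ)) f' =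
        act g ((S : (⊤ : Submodule ℂ (X → ℂ)) →ₗ[ℂ] (Y → ℂ)) f) := S.2
    let K : MulAction.orbitRel.Quotient G (X × Y) → ℂ := Quotient.lift
      (fun p : X × Y => (S : (⊤ : Submodule ℂ (X → ℂ)) →ₗ[ℂ] (Y → ℂ))
        ⟨Pi.single p.1 1, trivial⟩ p.2) (by
        rintro ⟨x, y⟩ ⟨x', y'⟩ h
        change MulAction.orbitRel G (X × Y) (x, y) (x', y') at h
        rw [MulAction.orbitRel_apply] at h
        obtain ⟨g, hg⟩ := h
        have hg1 : g • x' = x := congrArg Prod.fst hg
        have hg2 : g • y' = y := congrArg Prod.snd hg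
        subst hg1 hg2
        have h1 := hS g ⟨Pi.single x' 1, trivial⟩ ⟨Pi.single (g • x') 1, trivial⟩ (by
          funext z
          change (Pi.single (g • x') 1 : X → ℂ) z = (Pi.single x' 1 : X → ℂ) (g⁻¹ • z)
          by_cases hz : z = g • x'
          · rw [hz, Pi.single_eq_same, inv_smul_smul, Pi.single_eq_same]
          · rw [Pi.single_eq_of_ne hz, Pi.single_eq_of_ne]
            intro h2
            apply hz
            rw [← h2, smul_inv_smul])
        have h2 := congrFun h1 (g • y')
        rw [act, inv_smul_smul] at h2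
        exact h2)
    refine ⟨K, ?_⟩
    apply Subtype.ext
    rw [hΦ]
    ext f y
    have hf : f = ∑ x, (f : X → ℂ) x • (⟨Pi.single x 1, trivial⟩ : (⊤ : Submodule ℂ (X → ℂ))) := by
      apply Subtype.ext
      funext z
      simp [Finset.sum_apply, Pi.single_apply]
    rw [hT]
    conv_rhs => rw [hf]
    rw [map_sum, Finset.sum_apply]
    refine sum_congr rfl fun x _ => ?_
    rw [map_smul, Pi.smul_apply, smul_eq_mul, mul_comm]
    rfl
  have e := LinearEquiv.ofBijective Φ ⟨hinj, hsurj⟩
  rw [← e.finrank_eq, Module.finrank_fintype_fun_eq_card, Nat.card_eq_fintype_card]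

end Helper87.TR
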