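import Mathlib
import Pool.Agent.Helper87.TR.Defs2

/-!
# TR-30b: equivariant maps from a kernel

`G` a finite group acting on finite sets. Let `D : ℂ^X → ℂ^X'` be linear, surjective and equivariant, `S = ker D`. Restriction
`Hom_G(ℂ^X, ℂ^Y) → Hom_G(S, ℂ^Y)` is surjective (extend a linear map `T : S → ℂ^Y` to a linear map `T'` on `ℂ^X` and average
`|G|⁻¹ ∑ g T' g⁻¹`; `S` is stable under `act g`), and its kernel is `{T : T = U ∘ D}`, isomorphic to `Hom_G(ℂ^X', ℂ^Y)` (`U` is
equivariant because `D` is surjective and equivariant). So the dimensions add up (rank-nullity; all spaces are finite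
dimensional). `act g` is linear in `f`; `act (g * h) f = act g (act h f)`.
-/

set_option autoImplicit false

open Finset

namespace Helper87.TR

lemma t30b_act_mul {G X : Type*} [Group G] [MulAction G X] (g h : G) (f : X → ℂ) :
    act (g * h) f = act g (act h f) := by
  funext x
  simp only [act, mul_inv_rev, mul_smul]

lemma t30b_act_one {G X : Type*} [Group G] [MulAction G X] (f : X → ℂ) :
    act (1 : G) f = f := by
  funext x
  simp only [act, inv_one, one_smul]

/-- the action as a linear map -/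
def t30b_L {G X : Type*} [Group G] [MulAction G X] (g : G) : (X → ℂ) →ₗ[ℂ] (X → ℂ) where
  toFun f := act g f
  map_add' f f' := rfl
  map_smul' c f := rfl

lemma t30b_L_apply {G X : Type*} [Group G] [MulAction G X] (g : G) (f : X → ℂ) :
    t30b_L g f = act g f := rfl

/-- extension and averaging -/
lemma t30b_extend (G X Y : Type*) [Group G] [Finite G] [MulAction G X] [MulAction G Y]
    (S : Submodule ℂ (X → ℂ)) (hS : ∀ (g : G) (f : X → ℂ), f ∈ S → act g f ∈ S)
    (T : S →ₗ[ℂ] (Y → ℂ)) (hT : T ∈ HomG G Y S) :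
    ∃ T' : (X → ℂ) →ₗ[ℂ] (Y → ℂ), (∀ (g : G) (f : X → ℂ), T' (act g f) = act g (T' f)) ∧
      ∀ f : S, T' f = T f := by
  classical
  have := Fintype.ofFinite G
  obtain ⟨T₀, hT₀⟩ := T.exists_extend
  have hT₀' : ∀ f : S, T₀ f = T f := fun f => by
    rw [← hT₀]
    rfl
  have hcard : (Fintype.card G : ℂ) ≠ 0 := by
    exact_mod_cast Fintype.card_ne_zero
  refine ⟨(Fintype.card G : ℂ)⁻¹ • ∑ h : G, (t30b_L h).comp (T₀.comp (t30b_L h⁻¹)), ?_, ?_⟩
  · intro g f
    rw [LinearMap.smul_apply, LinearMap.smul_apply, LinearMap.sum_apply, LinearMap.sum_apply,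
      ← t30b_L_apply g (_ • _), map_smul, map_sum]
    congr 1
    simp only [LinearMap.comp_apply, t30b_L_apply]
    rw [← Equiv.sum_comp (Equiv.mulLeft g)]
    refine sum_congr rfl fun h _ => ?_
    rw [Equiv.coe_mulLeft, t30b_act_mul g h, ← t30b_act_mul (g * h)⁻¹ g, mul_inv_rev,
      inv_mul_cancel_right]
  · intro f
    rw [LinearMap.smul_apply, LinearMap.sum_apply]
    have h1 : ∀ h ∈ (univ : Finset G), ((t30b_L h).comp (T₀.comp (t30b_L h⁻¹))) (f : X → ℂ) =
        T f := by
      intro h _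
      simp only [LinearMap.comp_apply, t30b_L_apply]
      have h2 : act h⁻¹ (f : X → ℂ) ∈ S := hS _ _ f.2
      have h3 := hT₀' ⟨_, h2⟩
      have h4 := hT h⁻¹ f ⟨_, h2⟩ rfl
      rw [h4] at h3
      have h5 : T₀ (act h⁻¹ (f : X → ℂ)) = act h⁻¹ (T f) := h3
      rw [h5, ← t30b_act_mul, mul_inv_cancel, t30b_act_one]
    rw [sum_congr rfl h1, sum_const, card_univ, ← Nat.cast_smul_eq_nsmul ℂ, smul_smul,
      inv_mul_cancel₀ hcard, one_smul]

theorem finrank_Hom_ker (G X X' Y : Type*) [Group G] [Finite G] [Finite X] [Finite X'] [Finite Y]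
    [MulAction G X] [MulAction G X'] [MulAction G Y] (D : (X → ℂ) →ₗ[ℂ] (X' → ℂ))
    (hs : Function.Surjective D) (he : ∀ (g : G) (f : X → ℂ), D (act g f) = act g (D f)) :
    Module.finrank ℂ (HomG G Y (LinearMap.ker D)) +
      Module.finrank ℂ (HomG G Y (⊤ : Submodule ℂ (X' → ℂ))) =
    Module.finrank ℂ (HomG G Y (⊤ : Submodule ℂ (X → ℂ))) := by
  classical
  have hS : ∀ (g : G) (f : X → ℂ), f ∈ LinearMap.ker D → act g f ∈ LinearMap.ker D := by
    intro g f hf
    rw [LinearMap.mem_ker] at hf ⊢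
    rw [he, hf]
    rfl
  obtain ⟨s, hs'⟩ := D.exists_rightInverse_of_surjective (LinearMap.range_eq_top.2 hs)
  have hDs : ∀ u, D (s u) = u := fun u => by
    have := congrArg (fun L : (X' → ℂ) →ₗ[ℂ] (X' → ℂ) => L u) hs'
    exact this
  -- the restriction
  let res : HomG G Y (⊤ : Submodule ℂ (X → ℂ)) →ₗ[ℂ] HomG G Y (LinearMap.ker D) :=
    { toFun := fun T => ⟨T.1.comp (Submodule.inclusion (le_top : LinearMap.ker D ≤ ⊤)), by
        intro g f f' h
        exact T.2 g _ _ h⟩
      map_add' := fun T T' => rfl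
      map_smul' := fun c T => rfl }
  let θ : HomG G Y (⊤ : Submodule ℂ (X' → ℂ)) →ₗ[ℂ] HomG G Y (⊤ : Submodule ℂ (X → ℂ)) :=
    { toFun := fun U => ⟨U.1.comp ((D.comp (⊤ : Submodule ℂ (X → ℂ)).subtype).codRestrict ⊤
        (fun _ => Submodule.mem_top)), by
        intro g f f' h
        refine U.2 g _ _ ?_
        show D (f' : X → ℂ) = act g (D (f : X → ℂ))
        rw [h, he]⟩
      map_add' := fun T T' => rfl
      map_smul' := fun c T => rfl }
  have hres : Function.Surjective res := by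
    rintro ⟨T, hT⟩
    obtain ⟨T', hT'1, hT'2⟩ := t30b_extend G X Y (LinearMap.ker D) hS T hT
    refine ⟨⟨T'.comp (⊤ : Submodule ℂ (X → ℂ)).subtype, ?_⟩, ?_⟩
    · intro g f f' h
      show T' (f' : X → ℂ) = act g (T' (f : X → ℂ))
      rw [h, hT'1]
    · apply Subtype.ext
      apply LinearMap.ext
      intro f
      exact hT'2 f
  have hθ : Function.Injective θ := by
    intro U U' h
    apply Subtype.ext
    apply LinearMap.ext
    rintro ⟨u, hu⟩
    have h1 := congrArg (fun T : HomG G Y (⊤ : Submodule ℂ (X → ℂ)) =>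
      T.1 ⟨s u, Submodule.mem_top⟩) h
    have h2 : U.1 ⟨D (s u), Submodule.mem_top⟩ = U'.1 ⟨D (s u), Submodule.mem_top⟩ := h1
    have h3 : (⟨D (s u), Submodule.mem_top⟩ : (⊤ : Submodule ℂ (X' → ℂ))) = ⟨u, hu⟩ :=
      Subtype.ext (hDs u)
    rwa [h3] at h2
  have hker : LinearMap.range θ = LinearMap.ker res := by
    apply le_antisymm
    · rintro _ ⟨U, rfl⟩
      rw [LinearMap.mem_ker]
      apply Subtype.ext
      apply LinearMap.ext
      intro f
      show U.1 ⟨D (f : X → ℂ), Submodule.mem_top⟩ = 0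
      have h1 : (⟨D (f : X → ℂ), Submodule.mem_top⟩ : (⊤ : Submodule ℂ (X' → ℂ))) = 0 :=
        Subtype.ext (LinearMap.mem_ker.1 f.2)
      rw [h1, map_zero]
    · intro T hT
      rw [LinearMap.mem_ker] at hT
      have hT0 : ∀ f : X → ℂ, D f = 0 → T.1 ⟨f, Submodule.mem_top⟩ = 0 := by
        intro f hf
        have h1 := congrArg (fun R : HomG G Y (LinearMap.ker D) =>
          R.1 ⟨f, LinearMap.mem_ker.2 hf⟩) hT
        exact h1
      have hT1 : ∀ f f' : X → ℂ, D f = D f' →
          T.1 ⟨f, Submodule.mem_top⟩ = T.1 ⟨f', Submodule.mem_top⟩ := by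
        intro f f' h
        have h1 := hT0 (f - f') (by rw [map_sub, h, sub_self])
        have h2 : (⟨f - f', Submodule.mem_top⟩ : (⊤ : Submodule ℂ (X → ℂ))) =
          ⟨f, Submodule.mem_top⟩ - ⟨f', Submodule.mem_top⟩ := rfl
        rw [h2, map_sub] at h1
        exact sub_eq_zero.1 h1
      refine ⟨⟨T.1.comp ((s.comp (⊤ : Submodule ℂ (X' → ℂ)).subtype).codRestrict ⊤
        (fun _ => Submodule.mem_top)), ?_⟩, ?_⟩
      · intro g u u' h
        show T.1 ⟨s (u' : X' → ℂ), Submodule.mem_top⟩ =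
          act g (T.1 ⟨s (u : X' → ℂ), Submodule.mem_top⟩)
        rw [← T.2 g ⟨s (u : X' → ℂ), Submodule.mem_top⟩
          ⟨act g (s (u : X' → ℂ)), Submodule.mem_top⟩ rfl]
        apply hT1
        rw [hDs, he, hDs, h]
      · apply Subtype.ext
        apply LinearMap.ext
        rintro ⟨f, hf⟩
        show T.1 ⟨s (D f), Submodule.mem_top⟩ = T.1 ⟨f, Submodule.mem_top⟩
        apply hT1
        rw [hDs]
  have h1 := LinearMap.finrank_range_add_finrank_ker (K := ℂ)
    (V := HomG G Y (⊤ : Submodule ℂ (X → ℂ))) (V₂ := HomG G Y (LinearMap.ker D)) res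
  rw [LinearMap.range_eq_top.2 hres, finrank_top, ← hker, LinearMap.finrank_range_of_inj hθ] at h1
  exact h1

end Helper87.TR
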