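import Mathlib
import Pool.Agent.Helper87.TR.Defs2

/-!
# TR-31: the down map on functions on `k`-element subsets is surjective below the middle

`downMap N k : (Sub N (k + 1) → ℂ) → (Sub N k → ℂ)`, `(D f)(t) = ∑_{s ⊇ t} f(s)`.
* `ker_downMap`: clear from the definition of `Sp`.
* `downMap_act`: equivariance (reindex the sum with `g`).
* `downMap_surj`: for `2 (k + 1) ≤ N + 1`, i.e. `2 k + 1 ≤ N`. It is equivalent that the transpose `U : (Sub N k → ℂ) → (Sub N (k+1) → ℂ)`,
  `(U f)(s) = ∑_{t ⊆ s} f(t)`, is injective. (Over `ℝ` or `ℚ`, or with the hermitian product; the matrices are real so it is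
  enough to prove surjectivity over `ℚ` or to argue with `‖ ‖^2`.) Let `D_k` be the down map to `Sub N (k - 1)`. For `f` on `k`-subsets,
  `D (U f) = U (D_k f) + (N - 2 k) f`: `(D U f)(t) = ∑_{x ∉ t} ∑_{t' ⊆ t + x} f(t') = (N - k) f(t) + ∑_{x ∉ t, y ∈ t} f(t - y + x)` and
  `(U D_k f)(t) = ∑_{y ∈ t} ∑_{x ∉ t - y} f(t - y + x) = k f(t) + ∑_{x ∉ t, y ∈ t} f(t - y + x)`.
  So `‖U f‖^2 = ⟨D U f, f⟩ = ‖D_k f‖^2 + (N - 2 k) ‖f‖^2 ≥ ‖f‖^2` when `2 k < N`, and `U` is injective; and
  `D` is its transpose (a linear map with injective transpose is surjective; alternatively `D U` is injective and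
  therefore bijective, so `D` is surjective, which avoids the transpose). For `k = 0` there is no `D_k` term.
-/

set_option autoImplicit false

open Finset

namespace Helper87.TR

/-- the down map -/
noncomputable def downMap (N k : ℕ) : (Sub N (k + 1) → ℂ) →ₗ[ℂ] (Sub N k → ℂ) where
  toFun f t := ∑ s : Sub N (k + 1), if t.1 ⊆ s.1 then f s else 0
  map_add' f g := by
    funext t
    simp only [Pi.add_apply, ← sum_add_distrib]
    refine sum_congr rfl fun s _ => ?_
    split_ifs <;> simp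
  map_smul' c f := by
    funext t
    simp only [Pi.smul_apply, smul_eq_mul, RingHom.id_apply, mul_sum]
    refine sum_congr rfl fun s _ => ?_
    split_ifs <;> simp

theorem ker_downMap (N k : ℕ) : LinearMap.ker (downMap N k) = Sp N (k + 1) := by
  ext f
  rw [LinearMap.mem_ker]
  constructor
  · intro h t ht
    exact congrFun h ⟨t, by omega⟩
  · intro h
    funext t
    exact h t.1 (by rw [t.2])

theorem downMap_act (N k : ℕ) (g : Equiv.Perm (Fin N)) (f : Sub N (k + 1) → ℂ) :
    downMap N k (act g f) = act g (downMap N k f) := by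
  funext t
  change ∑ s : Sub N (k + 1), (if t.1 ⊆ s.1 then f (g⁻¹ • s) else 0) =
    ∑ s : Sub N (k + 1), (if (g⁻¹ • t : Sub N k).1 ⊆ s.1 then f s else 0)
  rw [← Equiv.sum_comp (MulAction.toPerm (g⁻¹) : Equiv.Perm (Sub N (k + 1)))
    (fun s : Sub N (k + 1) => if (g⁻¹ • t : Sub N k).1 ⊆ s.1 then f s else 0)]
  refine sum_congr rfl fun s _ => ?_
  rw [MulAction.toPerm_apply, Sub.smul_coe, Sub.smul_coe]
  simp only [map_subset_map]

lemma t31_card1 {N : ℕ} (T : Finset (Fin N)) (m : ℕ) (h : T.card ≤ m) :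
    ((univ : Finset (Finset (Fin N))).filter fun s => s.card = m ∧ T ⊆ s).card =
      (N - T.card).choose (m - T.card) := by
  have h0 : Tᶜ.card = N - T.card := by rw [card_compl, Fintype.card_fin]
  rw [← h0, ← card_powersetCard]
  refine card_nbij' (fun s => s \ T) (fun u => u ∪ T) ?_ ?_ ?_ ?_
  · intro s hs
    simp only [coe_filter, mem_univ, true_and, Set.mem_ofPred_eq] at hs
    simp only [mem_coe, mem_powersetCard]
    refine ⟨fun x hx => ?_, ?_⟩
    · rw [mem_compl]
      exact (mem_sdiff.1 hx).2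
    · rw [card_sdiff_of_subset hs.2, hs.1]
  · intro u hu
    simp only [mem_coe, mem_powersetCard] at hu
    simp only [coe_filter, mem_univ, true_and, Set.mem_ofPred_eq]
    refine ⟨?_, subset_union_right⟩
    rw [card_union_of_disjoint, hu.2]
    · omega
    · rw [disjoint_left]
      intro x hx hx2
      exact (mem_compl.1 (hu.1 hx)) hx2
  · intro s hs
    simp only [coe_filter, mem_univ, true_and, Set.mem_ofPred_eq] at hs
    exact sdiff_union_of_subset hs.2
  · intro u hu
    simp only [mem_coe, mem_powersetCard] at hu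
    have : Disjoint u T := by
      rw [disjoint_left]
      intro x hx hx2
      exact (mem_compl.1 (hu.1 hx)) hx2
    exact union_sdiff_cancel_right this

lemma t31_card2 {N : ℕ} (T : Finset (Fin N)) (m : ℕ) (h : m < T.card) :
    ((univ : Finset (Finset (Fin N))).filter fun s => s.card = m ∧ T ⊆ s).card = 0 := by
  rw [card_eq_zero, filter_eq_empty_iff]
  rintro s - ⟨h1, h2⟩
  have := card_le_card h2
  omega

lemma t31_card3 {N : ℕ} (T : Finset (Fin N)) (k : ℕ) :
    ((univ : Finset (Finset (Fin N))).filter fun w => w.card + 1 = k + 1 ∧ w ⊆ T).card =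
      T.card.choose k := by
  rw [← card_powersetCard]
  congr 1
  ext w
  simp only [mem_filter, mem_univ, true_and, mem_powersetCard]
  constructor
  · rintro ⟨h1, h2⟩
    exact ⟨h2, by omega⟩
  · rintro ⟨h1, h2⟩
    exact ⟨by omega, h1⟩

lemma t31_diff {N k : ℕ} (h : 2 * k + 1 ≤ N) (t t' : Sub N k) :
    (((univ : Finset (Finset (Fin N))).filter fun s => s.card = k + 1 ∧ t.1 ∪ t'.1 ⊆ s).card : ℂ) -
      (((univ : Finset (Finset (Fin N))).filter fun w => w.card + 1 = k ∧ w ⊆ t.1 ∩ t'.1).card : ℂ) =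
      if t = t' then ((N - 2 * k : ℕ) : ℂ) else 0 := by
  have hU := card_union_add_card_inter t.1 t'.1
  rw [t.2, t'.2] at hU
  have hNU : (t.1 ∪ t'.1).card ≤ N := by
    have := card_le_univ (t.1 ∪ t'.1)
    rwa [Fintype.card_fin] at this
  by_cases htt : t = t'
  · subst htt
    rw [if_pos rfl, union_self, inter_self, t31_card1 _ _ (by rw [t.2]; omega), t.2]
    rcases Nat.eq_zero_or_pos k with hk | hk
    · subst hk
      have : ((univ : Finset (Finset (Fin N))).filter fun w => w.card + 1 = 0 ∧ w ⊆ t.1) = ∅ := by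
        rw [filter_eq_empty_iff]
        rintro w - ⟨h1, -⟩
        omega
      rw [this]
      simp
    · obtain ⟨j, rfl⟩ : ∃ j, k = j + 1 := ⟨k - 1, by omega⟩
      rw [t31_card3, t.2]
      have e1 : j + 1 + 1 - (j + 1) = 1 := by omega
      rw [e1, Nat.choose_one_right, Nat.choose_succ_self_right]
      rw [Nat.cast_sub (by omega), Nat.cast_sub (by omega)]
      push_cast
      ring
  · rw [if_neg htt]
    have hne : (t.1 ∩ t'.1).card < k := by
      by_contra hc
      push Not at hc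
      have h1 : t.1 ∩ t'.1 = t.1 := eq_of_subset_of_card_le inter_subset_left (by rw [t.2]; exact hc)
      have h2 : t.1 ∩ t'.1 = t'.1 := eq_of_subset_of_card_le inter_subset_right (by rw [t'.2]; exact hc)
      exact htt (Subtype.ext (h1.symm.trans h2))
    obtain ⟨j, rfl⟩ : ∃ j, k = j + 1 := ⟨k - 1, by omega⟩
    rw [t31_card3]
    rcases Nat.lt_or_ge (t.1 ∩ t'.1).card j with h3 | h3
    · rw [Nat.choose_eq_zero_of_lt h3, t31_card2 _ _ (by omega)]
      simp
    · have h4 : (t.1 ∩ t'.1).card = j := by omega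
      have h5 : (t.1 ∪ t'.1).card = j + 1 + 1 := by omega
      rw [t31_card1 _ _ (by omega), h4, h5]
      simp

/-- the up map -/
noncomputable def t31_up (N k : ℕ) : (Sub N k → ℂ) →ₗ[ℂ] (Sub N (k + 1) → ℂ) where
  toFun f s := ∑ t : Sub N k, if t.1 ⊆ s.1 then f t else 0
  map_add' f g := by
    funext t
    simp only [Pi.add_apply, ← sum_add_distrib]
    refine sum_congr rfl fun s _ => ?_
    split_ifs <;> simp
  map_smul' c f := by
    funext t
    simp only [Pi.smul_apply, smul_eq_mul, RingHom.id_apply, mul_sum]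
    refine sum_congr rfl fun s _ => ?_
    split_ifs <;> simp

lemma t31_sum1 {N k : ℕ} (t t' : Sub N k) :
    ∑ s : Sub N (k + 1), (if t.1 ⊆ s.1 then (1 : ℂ) else 0) * (if t'.1 ⊆ s.1 then (1 : ℂ) else 0) =
      (((univ : Finset (Finset (Fin N))).filter fun s => s.card = k + 1 ∧ t.1 ∪ t'.1 ⊆ s).card : ℂ) := by
  have h1 : ∀ s : Sub N (k + 1), (if t.1 ⊆ s.1 then (1 : ℂ) else 0) *
      (if t'.1 ⊆ s.1 then (1 : ℂ) else 0) = if t.1 ∪ t'.1 ⊆ s.1 then 1 else 0 := by
    intro s
    by_cases h1 : t.1 ⊆ s.1 <;> by_cases h2 : t'.1 ⊆ s.1 <;> simp [h1, h2, union_subset_iff]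
  simp_rw [h1]
  rw [← filter_filter, card_filter, Nat.cast_sum]
  rw [← sum_subtype (p := fun s : Finset (Fin N) => s.card = k + 1)
    ((univ : Finset (Finset (Fin N))).filter fun s => s.card = k + 1) (by simp)
    (fun s => if t.1 ∪ t'.1 ⊆ s then (1 : ℂ) else 0)]
  refine sum_congr rfl fun s _ => ?_
  push_cast
  rfl

lemma t31_sum2 {N k : ℕ} (t t' : Sub N k) :
    ∑ w ∈ (univ : Finset (Finset (Fin N))).filter (fun w => w.card + 1 = k),
      (if w ⊆ t.1 then (1 : ℂ) else 0) * (if w ⊆ t'.1 then (1 : ℂ) else 0) =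
      (((univ : Finset (Finset (Fin N))).filter fun w => w.card + 1 = k ∧ w ⊆ t.1 ∩ t'.1).card : ℂ) := by
  rw [← filter_filter, card_filter, Nat.cast_sum]
  refine sum_congr rfl fun w _ => ?_
  by_cases h1 : w ⊆ t.1 <;> by_cases h2 : w ⊆ t'.1 <;> simp [h1, h2, subset_inter_iff]

lemma t31_inj {N k : ℕ} (h : 2 * k + 1 ≤ N) (a : Sub N k → ℂ)
    (h0 : downMap N k (t31_up N k a) = 0) : a = 0 := by
  have e1 : ∑ t, (starRingEnd ℂ) (a t) * downMap N k (t31_up N k a) t =
      ∑ t, ∑ t', (starRingEnd ℂ) (a t) * a t' *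
        (((univ : Finset (Finset (Fin N))).filter fun s => s.card = k + 1 ∧ t.1 ∪ t'.1 ⊆ s).card : ℂ) := by
    refine sum_congr rfl fun t _ => ?_
    change (starRingEnd ℂ) (a t) * (∑ s : Sub N (k + 1), if t.1 ⊆ s.1 then
      (∑ t' : Sub N k, if t'.1 ⊆ s.1 then a t' else 0) else 0) = _
    simp_rw [← t31_sum1, mul_sum]
    rw [sum_comm]
    refine sum_congr rfl fun s _ => ?_
    by_cases h1 : t.1 ⊆ s.1
    · simp only [if_pos h1, mul_sum]
      refine sum_congr rfl fun t' _ => ?_
      by_cases h2 : t'.1 ⊆ s.1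
      · simp only [if_pos h2]; ring
      · simp only [if_neg h2]; ring
    · simp only [if_neg h1]
      simp
  have e2 : ∑ w ∈ (univ : Finset (Finset (Fin N))).filter (fun w => w.card + 1 = k),
      (starRingEnd ℂ) (∑ t : Sub N k, if w ⊆ t.1 then a t else 0) *
        (∑ t : Sub N k, if w ⊆ t.1 then a t else 0) =
      ∑ t, ∑ t', (starRingEnd ℂ) (a t) * a t' *
        (((univ : Finset (Finset (Fin N))).filter fun w =>
          w.card + 1 = k ∧ w ⊆ t.1 ∩ t'.1).card : ℂ) := by
    simp_rw [← t31_sum2, mul_sum, map_sum, sum_mul]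
    rw [sum_comm]
    refine (sum_congr rfl fun t _ => sum_comm).trans ?_
    rw [sum_comm]
    refine sum_congr rfl fun t _ => sum_congr rfl fun t' _ => sum_congr rfl fun w _ => ?_
    by_cases h1 : w ⊆ t.1 <;> by_cases h2 : w ⊆ t'.1 <;> simp [h1, h2]
  have e3 : ∑ t, ∑ t', (starRingEnd ℂ) (a t) * a t' *
        (if t = t' then ((N - 2 * k : ℕ) : ℂ) else 0) =
      ((N - 2 * k : ℕ) : ℂ) * ∑ t, (starRingEnd ℂ) (a t) * a t := by
    rw [mul_sum]
    refine sum_congr rfl fun t _ => ?_
    rw [sum_eq_single t]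
    · rw [if_pos rfl]; ring
    · intro t' _ hne
      rw [if_neg (Ne.symm hne), mul_zero]
    · exact fun h => absurd (mem_univ _) h
  have e4 : ∑ t, ∑ t', (starRingEnd ℂ) (a t) * a t' *
        (((univ : Finset (Finset (Fin N))).filter fun s => s.card = k + 1 ∧ t.1 ∪ t'.1 ⊆ s).card : ℂ) -
      ∑ t, ∑ t', (starRingEnd ℂ) (a t) * a t' *
        (((univ : Finset (Finset (Fin N))).filter fun w =>
          w.card + 1 = k ∧ w ⊆ t.1 ∩ t'.1).card : ℂ) =
      ∑ t, ∑ t', (starRingEnd ℂ) (a t) * a t' *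
        (if t = t' then ((N - 2 * k : ℕ) : ℂ) else 0) := by
    rw [← sum_sub_distrib]
    refine sum_congr rfl fun t _ => ?_
    rw [← sum_sub_distrib]
    refine sum_congr rfl fun t' _ => ?_
    rw [← mul_sub, t31_diff h]
  rw [h0] at e1
  rw [← e1, ← e2, e3] at e4
  simp only [Pi.zero_apply, mul_zero, sum_const_zero, zero_sub] at e4
  have e5 : ∀ z : ℂ, (starRingEnd ℂ) z * z = ((Complex.normSq z : ℝ) : ℂ) := fun z => by
    rw [mul_comm, Complex.mul_conj]
  simp_rw [e5] at e4
  have e6 : -(∑ w ∈ (univ : Finset (Finset (Fin N))).filter (fun w => w.card + 1 = k),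
      Complex.normSq (∑ t : Sub N k, if w ⊆ t.1 then a t else 0)) =
      ((N - 2 * k : ℕ) : ℝ) * ∑ t, Complex.normSq (a t) := by
    exact_mod_cast e4
  have e7 : 0 ≤ ∑ w ∈ (univ : Finset (Finset (Fin N))).filter (fun w => w.card + 1 = k),
      Complex.normSq (∑ t : Sub N k, if w ⊆ t.1 then a t else 0) :=
    sum_nonneg fun _ _ => Complex.normSq_nonneg _
  have e8 : 0 ≤ ∑ t, Complex.normSq (a t) := sum_nonneg fun _ _ => Complex.normSq_nonneg _
  have e9 : (1 : ℝ) ≤ ((N - 2 * k : ℕ) : ℝ) := by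
    exact_mod_cast (by omega : 1 ≤ N - 2 * k)
  have e10 : ∑ t, Complex.normSq (a t) = 0 := by nlinarith
  rw [sum_eq_zero_iff_of_nonneg fun _ _ => Complex.normSq_nonneg _] at e10
  funext t
  exact Complex.normSq_eq_zero.1 (e10 t (mem_univ t))

theorem downMap_surj (N k : ℕ) (h : 2 * k + 1 ≤ N) : Function.Surjective (downMap N k) := by
  have h1 : Function.Injective (downMap N k ∘ₗ t31_up N k) := by
    rw [← LinearMap.ker_eq_bot, LinearMap.ker_eq_bot']
    intro a ha
    exact t31_inj h a ha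
  have h2 : Function.Surjective (downMap N k ∘ₗ t31_up N k) := LinearMap.injective_iff_surjective.1 h1
  intro f
  obtain ⟨g, hg⟩ := h2 f
  exact ⟨_, hg⟩

theorem Sp_zero (N : ℕ) : Sp N 0 = ⊤ := by
  rw [eq_top_iff]
  rintro f - t ht
  omega

end Helper87.TR
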