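import Mathlib
import Pool.Agent.Helper87.TR.Basic
import Pool.Agent.Helper87.TR.Defs2

/-!
# TR-32: orbits of the symmetric group on (k-subset, set partition) pairs

`N = m n`, `n ≥ 1`. To a pair `(s, P)` attach the multiset `{|s ∩ B| : B ∈ P}` of `m` numbers `≤ n` with sum `k`, i.e. a monotone
function `l : Fin m → {0..n}` with sum `k` (for instance via `Multiset.sort` / `Finset` enumeration). It is invariant under the
symmetric group, every `l` occurs (take the standard partition into `m` blocks of size `n` and the first `l i`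
elements of the `i`-th block), and two pairs with the same multiset are in one orbit: there is a bijection `B ↦ B'` between the
blocks with `|s ∩ B| = |s' ∩ B'|`, and for each block a bijection `B → B'` which maps `s ∩ B` to `s' ∩ B'`; glue them.
So the orbits correspond to `(box m n).filter (∑ l = k)`.
-/

set_option autoImplicit false

open Finset

namespace Helper87.TR

lemma t32_fiber {α β γ : Type} [Fintype α] [Fintype β] [DecidableEq γ] (f : α → γ) (g : β → γ)
    (h : (univ : Finset α).val.map f = (univ : Finset β).val.map g) :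
    ∃ e : α ≃ β, ∀ a, g (e a) = f a := by
  classical
  have hc : ∀ v : γ, Fintype.card {a // f a = v} = Fintype.card {b // g b = v} := by
    intro v
    have h1 := congrArg (Multiset.count v) h
    rw [Multiset.count_map, Multiset.count_map] at h1
    rw [Fintype.card_subtype, Fintype.card_subtype]
    have e1 : ∀ {δ : Type} [Fintype δ] (q : δ → γ), (univ.filter fun a : δ => q a = v).card =
        (Multiset.filter (fun a => v = q a) (univ : Finset δ).val).card := by
      intro δ _ q
      rw [Finset.card_def, Finset.filter_val]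
      congr 1
      refine Multiset.filter_congr fun a _ => eq_comm
    rw [e1, e1]
    exact h1
  let e : α ≃ β := (Equiv.sigmaFiberEquiv f).symm.trans
    ((Equiv.sigmaCongrRight fun v => Fintype.equivOfCardEq (hc v)).trans (Equiv.sigmaFiberEquiv g))
  refine ⟨e, fun a => ?_⟩
  exact ((Fintype.equivOfCardEq (hc (f a))) ⟨a, rfl⟩).2

lemma t32_list {m : ℕ} (M : Multiset ℕ) (hM : M.card = m) :
    ∃ l : Fin m → ℕ, (univ : Finset (Fin m)).val.map l = M := by
  induction M using Quotient.inductionOn with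
  | h L =>
    have hL : L.length = m := hM
    subst hL
    refine ⟨L.get, ?_⟩
    rw [Fin.univ_val_map, List.ofFn_get]
    rfl

lemma t32_perm {m : ℕ} (l : Fin m → ℕ) (σ : Equiv.Perm (Fin m)) :
    (univ : Finset (Fin m)).val.map (fun i => l (σ i)) = (univ : Finset (Fin m)).val.map l := by
  have h2 : (univ : Finset (Fin m)).val.map σ = univ.val := Multiset.map_univ_val_equiv σ
  conv_rhs => rw [← h2, Multiset.map_map]
  rfl

/-- the possible multisets -/
abbrev t32_T (m n k : ℕ) : Type :=
  {M : Multiset ℕ // M.card = m ∧ (∀ x ∈ M, x ≤ n) ∧ M.sum = k}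

lemma t32_card_T (m n k : ℕ) : Nat.card (t32_T m n k) = pb m n k := by
  classical
  let F : ↥((box m n).filter fun l => ∑ i, l i = k) → t32_T m n k := fun l =>
    ⟨(univ : Finset (Fin m)).val.map l.1, by
      have h := mem_filter.1 l.2
      have h1 := mem_box.1 h.1
      refine ⟨by simp, ?_, h.2⟩
      intro x hx
      obtain ⟨i, -, rfl⟩ := Multiset.mem_map.1 hx
      exact h1.2 i⟩
  have hF : Function.Bijective F := by
    constructor
    · intro l l' h
      have h1 : (univ : Finset (Fin m)).val.map l.1 = (univ : Finset (Fin m)).val.map l'.1 :=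
        congrArg Subtype.val h
      obtain ⟨e, he⟩ := t32_fiber l.1 l'.1 h1
      have hl := (mem_box.1 (mem_filter.1 l.2).1).1
      have hl' := (mem_box.1 (mem_filter.1 l'.2).1).1
      exact Subtype.ext (eq_of_perm_monotone hl hl' e (funext he))
    · rintro ⟨M, hM, hn, hk⟩
      obtain ⟨l0, hl0⟩ := t32_list M hM
      obtain ⟨σ, hσ⟩ := exists_monotone_perm l0
      have hmap := (t32_perm l0 σ).trans hl0
      have hmem : (fun i => l0 (σ i)) ∈ (box m n).filter fun l => ∑ i, l i = k := by
        rw [mem_filter, mem_box]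
        refine ⟨⟨hσ, fun i => ?_⟩, ?_⟩
        · refine hn _ ?_
          rw [← hmap]
          exact Multiset.mem_map.2 ⟨i, mem_univ i, rfl⟩
        · exact (congrArg Multiset.sum hmap).trans hk
      exact ⟨⟨_, hmem⟩, Subtype.ext hmap⟩
  rw [← Nat.card_eq_of_bijective F hF, Nat.card_eq_fintype_card, Fintype.card_coe, pb]

/-- the multiset of a pair -/
def t32_M {N : ℕ} (s : Finset (Fin N)) (P : Finset (Finset (Fin N))) : Multiset ℕ :=
  P.val.map fun B => (s ∩ B).card

lemma t32_M_smul {N : ℕ} (g : Equiv.Perm (Fin N)) (s : Finset (Fin N))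
    (P : Finset (Finset (Fin N))) :
    t32_M (s.map g.toEmbedding) (imP g P) = t32_M s P := by
  rw [t32_M, t32_M, imP, Finset.map_val, Multiset.map_map]
  refine Multiset.map_congr rfl fun B _ => ?_
  change (s.map g.toEmbedding ∩ B.map g.toEmbedding).card = (s ∩ B).card
  rw [← Finset.map_inter, card_map]

lemma t32_sum {N m n : ℕ} (s : Finset (Fin N)) (P : SetPart N m n) :
    (t32_M s P.1).sum = s.card := by
  classical
  have h1 : (t32_M s P.1).sum = ∑ B ∈ P.1, (s ∩ B).card := rfl
  rw [h1]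
  have h2 : ∀ B ∈ P.1, (s ∩ B).card = ∑ x ∈ s, if x ∈ B then 1 else 0 := by
    intro B _
    rw [← Finset.sum_filter, Finset.sum_const, smul_eq_mul, mul_one]
    congr 1
  rw [sum_congr rfl h2, sum_comm, Finset.card_eq_sum_ones]
  refine sum_congr rfl fun x _ => ?_
  obtain ⟨B, ⟨hB, hx⟩, hu⟩ := P.2.2.2 x
  rw [Finset.sum_eq_single_of_mem B hB, if_pos hx]
  intro C hC hne
  rw [if_neg]
  intro hxC
  exact hne (hu C ⟨hC, hxC⟩)

lemma t32_attach {N : ℕ} (s : Finset (Fin N)) (P : Finset (Finset (Fin N))) :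
    t32_M s P = (univ : Finset P).val.map fun B : P => (s ∩ B.1).card := by
  rw [t32_M, Finset.univ_eq_attach, Finset.attach_val]
  conv_lhs => rw [← Multiset.attach_map_val P.val, Multiset.map_map]
  rfl

lemma t32_exists {N m n : ℕ} (s s' : Finset (Fin N)) (P P' : SetPart N m n)
    (h : t32_M s P.1 = t32_M s' P'.1) :
    ∃ g : Equiv.Perm (Fin N), s.map g.toEmbedding = s' ∧ imP g P.1 = P'.1 := by
  classical
  rw [t32_attach, t32_attach] at h
  obtain ⟨e, he⟩ := t32_fiber _ _ h
  choose b hb hbu using P.2.2.2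
  choose b' hb' hbu' using P'.2.2.2
  let f : Fin N → P'.1 × Bool := fun x => (e ⟨b x, (hb x).1⟩, decide (x ∈ s))
  let f' : Fin N → P'.1 × Bool := fun x => (⟨b' x, (hb' x).1⟩, decide (x ∈ s'))
  have hff : (univ : Finset (Fin N)).val.map f = (univ : Finset (Fin N)).val.map f' := by
    ext ⟨C, t⟩
    rw [Multiset.count_map, Multiset.count_map, ← Finset.filter_val, ← Finset.filter_val,
      ← Finset.card_def, ← Finset.card_def]
    obtain ⟨B, rfl⟩ := e.surjective C
    have hB : ∀ x, (b x = B.1 ↔ x ∈ B.1) := fun x =>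
      ⟨fun hx => hx ▸ (hb x).2, fun hx => (hbu x B.1 ⟨B.2, hx⟩).symm⟩
    have hB' : ∀ x, (b' x = (e B).1 ↔ x ∈ (e B).1) := fun x =>
      ⟨fun hx => hx ▸ (hb' x).2, fun hx => (hbu' x (e B).1 ⟨(e B).2, hx⟩).symm⟩
    have e1 : ∀ x, (e ⟨b x, (hb x).1⟩ = e B ↔ x ∈ B.1) := fun x => by
      rw [e.apply_eq_iff_eq, ← hB x]
      exact ⟨fun h => congrArg Subtype.val h, fun h => Subtype.ext h⟩
    have e2 : ∀ x, ((⟨b' x, (hb' x).1⟩ : P'.1) = e B ↔ x ∈ (e B).1) := fun x => by
      rw [← hB' x]
      exact ⟨fun h => congrArg Subtype.val h, fun h => Subtype.ext h⟩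
    have hc := he B
    have hn1 := P.2.2.1 B.1 B.2
    have hn2 := P'.2.2.1 (e B).1 (e B).2
    cases t
    · have k1 : (univ.filter fun x => (e B, false) = f x) = B.1 \ s := by
        ext x
        simp only [mem_filter, mem_univ, true_and, f, Prod.mk.injEq, mem_sdiff]
        rw [eq_comm, e1 x]
        simp
      have k2 : (univ.filter fun x => (e B, false) = f' x) = (e B).1 \ s' := by
        ext x
        simp only [mem_filter, mem_univ, true_and, f', Prod.mk.injEq, mem_sdiff]
        rw [eq_comm, e2 x]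
        simp
      rw [k1, k2, card_sdiff, card_sdiff, hn1, hn2]
      rw [← hc]
    · have k1 : (univ.filter fun x => (e B, true) = f x) = s ∩ B.1 := by
        ext x
        simp only [mem_filter, mem_univ, true_and, f, Prod.mk.injEq, mem_inter]
        rw [eq_comm, e1 x, and_comm]
        simp
      have k2 : (univ.filter fun x => (e B, true) = f' x) = s' ∩ (e B).1 := by
        ext x
        simp only [mem_filter, mem_univ, true_and, f', Prod.mk.injEq, mem_inter]
        rw [eq_comm, e2 x, and_comm]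
        simp
      rw [k1, k2, hc]
  obtain ⟨g, hg⟩ := t32_fiber f f' hff
  have hg1 : ∀ x, (g x ∈ s' ↔ x ∈ s) := by
    intro x
    have h1 := congrArg Prod.snd (hg x)
    simpa [f, f'] using h1
  have hg2 : ∀ x, b' (g x) = (e ⟨b x, (hb x).1⟩).1 := by
    intro x
    have h1 := congrArg Prod.fst (hg x)
    exact congrArg Subtype.val h1
  have hBmap : ∀ B : P.1, B.1.map g.toEmbedding = (e B).1 := by
    intro B
    refine Finset.eq_of_subset_of_card_le ?_ ?_
    · intro y hy
      obtain ⟨x, hx, rfl⟩ := mem_map.1 hy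
      have h1 : b x = B.1 := (hbu x B.1 ⟨B.2, hx⟩).symm
      have h2 : (⟨b x, (hb x).1⟩ : P.1) = B := Subtype.ext h1
      have h3 := hg2 x
      rw [h2] at h3
      rw [← h3]
      exact (hb' (g x)).2
    · rw [card_map, P.2.2.1 _ B.2, P'.2.2.1 _ (e B).2]
  refine ⟨g, ?_, ?_⟩
  · ext y
    rw [mem_map_equiv, ← hg1, g.apply_symm_apply]
  · ext C
    rw [imP, mem_map]
    constructor
    · rintro ⟨B, hB, rfl⟩
      change B.map g.toEmbedding ∈ P'.1
      rw [hBmap ⟨B, hB⟩]
      exact (e ⟨B, hB⟩).2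
    · intro hC
      refine ⟨(e.symm ⟨C, hC⟩).1, (e.symm ⟨C, hC⟩).2, ?_⟩
      change ((e.symm ⟨C, hC⟩).1).map g.toEmbedding = C
      rw [hBmap, e.apply_symm_apply]

lemma t32_surj (m n : ℕ) (hn : 1 ≤ n) (l : Fin m → ℕ) (hl : ∀ i, l i ≤ n) :
    ∃ (s : Finset (Fin (m * n))) (P : SetPart (m * n) m n),
      t32_M s P.1 = (univ : Finset (Fin m)).val.map l := by
  classical
  have q : Fin m × Fin n ≃ Fin (m * n) := finProdFinEquiv
  have hqi : ∀ i, Function.Injective fun j => q (i, j) := fun i a b h => by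
    simpa using q.injective h
  obtain ⟨blk, hblk⟩ : ∃ blk : Fin m → Finset (Fin (m * n)), ∀ i, blk i =
      (univ : Finset (Fin n)).image (fun j => q (i, j)) := ⟨_, fun i => rfl⟩
  have hmem : ∀ i x, x ∈ blk i ↔ (q.symm x).1 = i := by
    intro i x
    rw [hblk, mem_image]
    constructor
    · rintro ⟨j, -, rfl⟩
      rw [q.symm_apply_apply]
    · rintro rfl
      exact ⟨(q.symm x).2, mem_univ _, q.apply_symm_apply x⟩
  have hinj : Function.Injective blk := by
    intro i i' h
    have h1 : q (i, ⟨0, hn⟩) ∈ blk i := (hmem _ _).2 (by rw [q.symm_apply_apply])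
    rw [h, hmem, q.symm_apply_apply] at h1
    exact h1
  have hP : (univ.image blk).card = m ∧ (∀ B ∈ univ.image blk, B.card = n) ∧
      ∀ x, ∃! B, B ∈ univ.image blk ∧ x ∈ B := by
    refine ⟨?_, ?_, ?_⟩
    · rw [card_image_of_injective _ hinj, card_univ, Fintype.card_fin]
    · intro B hB
      obtain ⟨i, -, rfl⟩ := mem_image.1 hB
      rw [hblk, card_image_of_injective _ (hqi i), card_univ, Fintype.card_fin]
    · intro x
      refine ⟨blk (q.symm x).1, ⟨mem_image.2 ⟨_, mem_univ _, rfl⟩, (hmem _ _).2 rfl⟩, ?_⟩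
      rintro B ⟨hB, hx⟩
      obtain ⟨i, -, rfl⟩ := mem_image.1 hB
      rw [(hmem i x).1 hx]
  refine ⟨univ.filter fun x => ((q.symm x).2 : ℕ) < l (q.symm x).1, ⟨univ.image blk, hP⟩, ?_⟩
  rw [t32_M]
  rw [Finset.image_val_of_injOn hinj.injOn, Multiset.map_map]
  refine Multiset.map_congr rfl fun i _ => ?_
  change ((univ.filter fun x => ((q.symm x).2 : ℕ) < l (q.symm x).1) ∩ blk i).card = l i
  have h1 : (univ.filter fun x => ((q.symm x).2 : ℕ) < l (q.symm x).1) ∩ blk i =
      (univ.filter fun j : Fin n => (j : ℕ) < l i).image (fun j => q (i, j)) := by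
    ext x
    rw [mem_inter, mem_filter, hmem, mem_image]
    constructor
    · rintro ⟨⟨-, h1⟩, h2⟩
      subst h2
      exact ⟨(q.symm x).2, mem_filter.2 ⟨mem_univ _, h1⟩, q.apply_symm_apply x⟩
    · rintro ⟨j, hj, rfl⟩
      rw [q.symm_apply_apply]
      exact ⟨⟨mem_univ _, (mem_filter.1 hj).2⟩, rfl⟩
  rw [h1, card_image_of_injective _ (hqi i)]
  have h2 := hl i
  rw [Fin.card_filter_val_lt]
  omega

theorem card_orbits (m n k : ℕ) (hn : 1 ≤ n) :
    Nat.card (MulAction.orbitRel.Quotient (Equiv.Perm (Fin (m * n)))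
      (Sub (m * n) k × SetPart (m * n) m n)) = pb m n k := by
  classical
  rw [← t32_card_T]
  let F0 : Sub (m * n) k × SetPart (m * n) m n → t32_T m n k := fun p =>
    ⟨t32_M p.1.1 p.2.1, by
      refine ⟨?_, ?_, ?_⟩
      · rw [t32_M, Multiset.card_map]
        exact p.2.2.1
      · intro x hx
        obtain ⟨B, hB, rfl⟩ := Multiset.mem_map.1 hx
        exact (card_le_card inter_subset_right).trans (p.2.2.2.1 B hB).le
      · rw [t32_sum, p.1.2]⟩
  have hF0 : ∀ p p' : Sub (m * n) k × SetPart (m * n) m n,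
      F0 p = F0 p' ↔ (MulAction.orbitRel (Equiv.Perm (Fin (m * n))) _).r p p' := by
    intro p p'
    constructor
    · intro h
      have h1 : t32_M p.1.1 p.2.1 = t32_M p'.1.1 p'.2.1 := congrArg Subtype.val h
      obtain ⟨g, hg1, hg2⟩ := t32_exists _ _ _ _ h1.symm
      refine ⟨g, ?_⟩
      refine Prod.ext (Subtype.ext hg1) (Subtype.ext hg2)
    · rintro ⟨g, rfl⟩
      refine Subtype.ext ?_
      exact t32_M_smul g p'.1.1 p'.2.1
  refine Nat.card_eq_of_bijective (Quotient.lift F0 fun p p' h => (hF0 p p').2 h) ⟨?_, ?_⟩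
  · intro a b
    refine Quotient.inductionOn₂ a b fun p p' h => Quotient.sound ?_
    exact (hF0 p p').1 h
  · rintro ⟨M, hM, hn', hk⟩
    obtain ⟨l0, hl0⟩ := t32_list M hM
    obtain ⟨s, P, hsP⟩ := t32_surj m n hn l0 (fun i => hn' _ (by
      rw [← hl0]
      exact Multiset.mem_map.2 ⟨i, mem_univ i, rfl⟩))
    rw [hl0] at hsP
    have hs : s.card = k := by rw [← t32_sum s P, hsP, hk]
    exact ⟨Quotient.mk _ (⟨s, hs⟩, P), Subtype.ext hsP⟩

end Helper87.TR
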